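import Pool.Agent.Lib.MP_28303a_al.PL.Defs

/-!
# Row FIL: the filtration of the permutation module of the functions from `C` to the integers
-/

set_option autoImplicit false
set_option linter.unusedSectionVars false

namespace Pool.Agent.NegK.PL

universe u

open CategoryTheory Pool.Agent.NegK.TT

/-- a linear map from a permutation module -/
noncomputable def Pm.toLin {R S X M N : Type u} [Ring R] [Group S] [MulAction S X]
    [AddCommGroup M] [Module (MonoidAlgebra R S) M] [AddCommGroup N] [Module (MonoidAlgebra R S) N]
    (f : Pm X M →+ N) (hf : ∀ (s : S) (r : R) (x : X) (m : M),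
      f (Pm.single (s • x) ((MonoidAlgebra.single s r : MonoidAlgebra R S) • m)) =
      (MonoidAlgebra.single s r : MonoidAlgebra R S) • f (Pm.single x m)) :
    Pm X M →ₗ[MonoidAlgebra R S] N where
  toFun := f
  map_add' := map_add f
  map_smul' a z := by
    rw [RingHom.id_apply]
    induction a using MonoidAlgebra.induction_linear with
    | zero => rw [zero_smul, zero_smul, map_zero]
    | add a b ha hb => rw [add_smul, map_add, ha, hb, add_smul]
    | single s r =>
      induction z using Pm.induction with
      | h0 => rw [smul_zero, map_zero, smul_zero]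
      | hadd a b ha hb => rw [smul_add, map_add, ha, hb, map_add, smul_add]
      | hs x m => rw [Pm.smul_single, hf]

/-- an additive subgroup that is stable under the group and the coefficients is stable under the
group ring -/
theorem smul_mem_of {R S N : Type u} [Ring R] [Group S] [AddCommGroup N]
    [Module (MonoidAlgebra R S) N] (W : AddSubgroup N)
    (h : ∀ (s : S) (r : R), ∀ x ∈ W, (MonoidAlgebra.single s r : MonoidAlgebra R S) • x ∈ W)
    (a : MonoidAlgebra R S) (x : N) (hx : x ∈ W) : a • x ∈ W := by
  induction a using MonoidAlgebra.induction_linear with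
  | zero => rw [zero_smul]; exact W.zero_mem
  | add a b ha hb => rw [add_smul]; exact W.add_mem ha hb
  | single s r => exact h s r x hx

section Tot

variable {S C : Type u} [Group S] [MulAction S C]

/-- the functions from `C` to the integers with the action given by the cocycle -/
def Tot (_ : Coc S C) : Type u := C → ℤ

variable (K : Coc S C)

instance : SMul S (Tot K) where
  smul g y := fun c => y (g⁻¹ • c) + K.κ g (g⁻¹ • c)

theorem Tot.smul_apply (g : S) (y : Tot K) (c : C) :
    (g • y) c = y (g⁻¹ • c) + K.κ g (g⁻¹ • c) := rfl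

theorem Tot.smul_at (g : S) (y : Tot K) (c : C) : (g • y) (g • c) = y c + K.κ g c := by
  rw [Tot.smul_apply, inv_smul_smul]

/-- a function as a section -/
def Tot.sec (y : Tot K) : Sec K := fun c => some (y c)

theorem Tot.sec_smul (g : S) (y : Tot K) : Tot.sec K (g • y) = g • Tot.sec K y := rfl

theorem Tot.sec_inj {y z : Tot K} (h : Tot.sec K y = Tot.sec K z) : y = z := by
  funext c
  exact Option.some_injective _ (congrFun h c)

instance : MulAction S (Tot K) where
  one_smul y := by
    apply Tot.sec_inj
    rw [Tot.sec_smul, one_smul]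
  mul_smul g h y := by
    apply Tot.sec_inj
    rw [Tot.sec_smul, Tot.sec_smul, Tot.sec_smul, mul_smul]

theorem Tot.stab (y : Tot K) :
    MulAction.stabilizer S y = MulAction.stabilizer S (Tot.sec K y) := by
  ext g
  rw [MulAction.mem_stabilizer_iff, MulAction.mem_stabilizer_iff, ← Tot.sec_smul]
  exact ⟨fun h => by rw [h], fun h => Tot.sec_inj K h⟩

end Tot

section Dom

variable {S C : Type u} [Group S] [MulAction S C] [Fintype C] [DecidableEq C] (K : Coc S C)

/-- the domain of a section -/
def dom (s : Sec K) : Finset C := Finset.univ.filter fun c => (s c).isSome = true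

theorem mem_dom (s : Sec K) (c : C) : c ∈ dom K s ↔ (s c).isSome = true := by
  rw [dom, Finset.mem_filter]
  exact ⟨fun h => h.2, fun h => ⟨Finset.mem_univ _, h⟩⟩

theorem dom_smul (g : S) (s : Sec K) : dom K (g • s) = (dom K s).image (g • ·) := by
  ext c
  rw [Finset.mem_image]
  constructor
  · intro h
    refine ⟨g⁻¹ • c, ?_, smul_inv_smul g c⟩
    rw [mem_dom, Sec.smul_apply, Option.isSome_map] at h
    rw [mem_dom]
    exact h
  · rintro ⟨d, hd, rfl⟩
    rw [mem_dom] at hd
    rw [mem_dom]
    show ((g • s) (g • d)).isSome = true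
    rw [Sec.smul_at, Option.isSome_map]
    exact hd

theorem card_image_smul (g : S) (J : Finset C) : (J.image (g • ·)).card = J.card :=
  Finset.card_image_of_injective _ (MulAction.injective g)

/-- the sections with a domain of `i` elements -/
def Lv (i : ℕ) : Type u := {s : Sec K // (dom K s).card = i}

instance (i : ℕ) : MulAction S (Lv K i) where
  smul g s := ⟨g • s.1, by rw [dom_smul, card_image_smul, s.2]⟩
  one_smul s := Subtype.ext (one_smul S s.1)
  mul_smul g h s := Subtype.ext (mul_smul g h s.1)

theorem Lv.smul_val (i : ℕ) (g : S) (s : Lv K i) : (g • s).1 = g • s.1 := rfl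

theorem Lv.stab (i : ℕ) (s : Lv K i) :
    MulAction.stabilizer S s = MulAction.stabilizer S s.1 := by
  ext g
  rw [MulAction.mem_stabilizer_iff, MulAction.mem_stabilizer_iff, ← Lv.smul_val]
  exact ⟨fun h => by rw [h], fun h => Subtype.ext h⟩

/-- an extension of a section -/
def hat (s : Sec K) : Tot K := fun c => (s c).getD 0

theorem hat_smul (g : S) (s : Sec K) (c : C) (hc : c ∈ dom K (g • s)) :
    (g • hat K s) c = hat K (g • s) c := by
  rw [mem_dom, Sec.smul_apply, Option.isSome_map] at hc
  rw [Tot.smul_apply]
  show (s (g⁻¹ • c)).getD 0 + _ = ((g • s) c).getD 0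
  rw [Sec.smul_apply]
  cases h : s (g⁻¹ • c) with
  | none =>
    rw [h] at hc
    exact absurd hc (by simp)
  | some v => rfl

/-! ### The elements `B(J, y, m)` -/

/-- add one at the places in `I` -/
def bump (I : Finset C) (y : Tot K) : Tot K := fun c => if c ∈ I then y c + 1 else y c

theorem bump_empty (y : Tot K) : bump K ∅ y = y := by
  funext c
  simp [bump]

theorem bump_insert {I : Finset C} {c : C} (hc : c ∉ I) (y : Tot K) :
    bump K (insert c I) y = bump K I (bump K {c} y) := by
  funext d
  simp only [bump, Finset.mem_insert, Finset.mem_singleton]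
  by_cases h1 : d = c
  · subst h1
    rw [if_pos (Or.inl rfl), if_neg hc, if_pos rfl]
  · by_cases h2 : d ∈ I
    · rw [if_pos (Or.inr h2), if_pos h2, if_neg h1]
    · rw [if_neg (by tauto), if_neg h2, if_neg h1]

theorem smul_bump (g : S) (c : C) (y : Tot K) :
    g • bump K {c} y = bump K {g • c} (g • y) := by
  funext d
  rw [Tot.smul_apply]
  simp only [bump, Finset.mem_singleton]
  rw [Tot.smul_apply]
  by_cases h : d = g • c
  · rw [if_pos h, if_pos (by rw [h, inv_smul_smul])]
    ring
  · rw [if_neg h, if_neg (fun h' => h (by rw [← h', smul_inv_smul]))]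

variable {M : Type u} [AddCommGroup M]

/-- the element `B(J, y, m)` -/
noncomputable def Bv (J : Finset C) (y : Tot K) (m : M) : Pm (Tot K) M :=
  ∑ I ∈ J.powerset, ((-1 : ℤ) ^ (J.card + I.card)) • Pm.single (bump K I y) m

theorem Bv_empty (y : Tot K) (m : M) : Bv K ∅ y m = Pm.single y m := by
  rw [Bv, Finset.powerset_empty, Finset.sum_singleton, bump_empty]
  simp

theorem Bv_insert {J : Finset C} {c : C} (hc : c ∉ J) (y : Tot K) (m : M) :
    Bv K (insert c J) y m = Bv K J (bump K {c} y) m - Bv K J y m := by
  rw [Bv, Finset.sum_powerset_insert hc, Finset.card_insert_of_notMem hc, add_comm, sub_eq_add_neg]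
  congr 1
  · rw [Bv]
    refine Finset.sum_congr rfl fun I hI => ?_
    have hcI : c ∉ I := fun h => hc (Finset.mem_powerset.1 hI h)
    rw [bump_insert K hcI, Finset.card_insert_of_notMem hcI]
    congr 1
    rw [show J.card + 1 + (I.card + 1) = (J.card + I.card) + 2 by ring, pow_add]
    simp
  · rw [Bv, ← Finset.sum_neg_distrib]
    refine Finset.sum_congr rfl fun I _ => ?_
    rw [show J.card + 1 + I.card = (J.card + I.card) + 1 by ring, pow_succ, mul_neg, mul_one,
      neg_smul]

theorem Bv_add (J : Finset C) (y : Tot K) (m m' : M) :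
    Bv K J y (m + m') = Bv K J y m + Bv K J y m' := by
  rw [Bv, Bv, Bv, ← Finset.sum_add_distrib]
  exact Finset.sum_congr rfl fun I _ => by rw [Pm.single_add, smul_add]

/-- `B(J, y, m)` as a homomorphism in `m` -/
noncomputable def BvH (J : Finset C) (y : Tot K) : M →+ Pm (Tot K) M :=
  AddMonoidHom.mk' (Bv K J y) (Bv_add K J y)

theorem BvH_apply (J : Finset C) (y : Tot K) (m : M) : BvH K J y m = Bv K J y m := rfl

variable {R : Type u} [Ring R] [Module (MonoidAlgebra R S) M]

theorem smul_Bv (g : S) (r : R) (J : Finset C) (m : M) : ∀ y : Tot K,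
    (MonoidAlgebra.single g r : MonoidAlgebra R S) • Bv K J y m =
      Bv K (J.image (g • ·)) (g • y) ((MonoidAlgebra.single g r : MonoidAlgebra R S) • m) := by
  induction J using Finset.induction_on with
  | empty =>
    intro y
    rw [Finset.image_empty, Bv_empty, Bv_empty, Pm.smul_single]
  | insert c J hc ih =>
    intro y
    have hgc : g • c ∉ J.image (g • ·) := by
      intro h
      obtain ⟨d, hd, hdc⟩ := Finset.mem_image.1 h
      exact hc ((MulAction.injective g hdc) ▸ hd)
    rw [Bv_insert K hc, smul_sub, ih, ih, Finset.image_insert, Bv_insert K hgc, smul_bump]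

/-! ### The filtration -/

/-- the generators -/
def gens (M : Type u) [AddCommGroup M] (i : ℕ) : Set (Pm (Tot K) M) :=
  {b | ∃ (J : Finset C) (y : Tot K) (m : M), i ≤ J.card ∧ b = Bv K J y m}

/-- the filtration -/
noncomputable def F (R : Type u) [Ring R] (M : Type u) [AddCommGroup M]
    [Module (MonoidAlgebra R S) M] (i : ℕ) : Submodule (MonoidAlgebra R S) (Pm (Tot K) M) :=
  { AddSubgroup.closure (gens K M i) with
    smul_mem' := by
      intro a x hx
      refine smul_mem_of (AddSubgroup.closure (gens K M i)) ?_ a x hx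
      intro g r x hx
      induction hx using AddSubgroup.closure_induction with
      | mem x hx =>
        obtain ⟨J, y, m, hJ, rfl⟩ := hx
        rw [smul_Bv]
        exact AddSubgroup.subset_closure ⟨_, _, _, by rwa [card_image_smul], rfl⟩
      | zero => rw [smul_zero]; exact AddSubgroup.zero_mem _
      | add a b _ _ ha hb => rw [smul_add]; exact AddSubgroup.add_mem _ ha hb
      | neg a _ ha => rw [smul_neg]; exact AddSubgroup.neg_mem _ ha }

theorem mem_F {i : ℕ} {x : Pm (Tot K) M} :
    x ∈ F K R M i ↔ x ∈ AddSubgroup.closure (gens K M i) := Iff.rfl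

theorem Bv_mem {i : ℕ} {J : Finset C} (h : i ≤ J.card) (y : Tot K) (m : M) :
    Bv K J y m ∈ F K R M i := (mem_F K).2 (AddSubgroup.subset_closure ⟨J, y, m, h, rfl⟩)

theorem F_le {i : ℕ} (W : AddSubgroup (Pm (Tot K) M))
    (h : ∀ (J : Finset C) (y : Tot K) (m : M), i ≤ J.card → Bv K J y m ∈ W)
    {x : Pm (Tot K) M} (hx : x ∈ F K R M i) : x ∈ W := by
  have : AddSubgroup.closure (gens K M i) ≤ W := by
    rw [AddSubgroup.closure_le]
    rintro x ⟨J, y, m, hJ, rfl⟩
    exact h J y m hJ
  exact this ((mem_F K).1 hx)

theorem F_anti {i j : ℕ} (hij : i ≤ j) : F K R M j ≤ F K R M i := by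
  intro x hx
  refine F_le K (F K R M i).toAddSubgroup (fun J y m hJ => ?_) hx
  exact Bv_mem (R := R) K (hij.trans hJ) y m

theorem F_bot {i : ℕ} (hi : Fintype.card C < i) : F K R M i = ⊥ := by
  rw [eq_bot_iff]
  intro x hx
  refine F_le K (⊥ : AddSubgroup (Pm (Tot K) M)) (fun J _ _ hJ => ?_) hx
  have := J.card_le_univ
  omega

/-- change one coordinate -/
def upd (y : Tot K) (c : C) (n : ℤ) : Tot K := fun d => if d = c then n else y d

theorem upd_self (y : Tot K) (c : C) : upd K y c (y c) = y := by
  funext d
  rw [upd]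
  by_cases h : d = c
  · rw [if_pos h, h]
  · rw [if_neg h]

theorem upd_succ (y : Tot K) (c : C) (n : ℤ) : upd K y c (n + 1) = bump K {c} (upd K y c n) := by
  funext d
  simp only [bump, Finset.mem_singleton, upd]
  by_cases h : d = c
  · rw [if_pos h, if_pos h, if_pos h]
  · rw [if_neg h, if_neg h, if_neg h]

/-- changing one coordinate outside `J` -/
theorem tel1 {J : Finset C} {c : C} (hc : c ∉ J) (y : Tot K) (m : M) (n : ℤ) :
    Bv K J (upd K y c n) m - Bv K J y m ∈ F K R M (J.card + 1) := by
  have hstep : ∀ n : ℤ, Bv K J (upd K y c (n + 1)) m - Bv K J (upd K y c n) m ∈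
      F K R M (J.card + 1) := by
    intro n
    rw [upd_succ, ← Bv_insert K hc]
    exact Bv_mem K (by rw [Finset.card_insert_of_notMem hc]) _ _
  have h0 : ∀ n : ℤ, Bv K J (upd K y c n) m - Bv K J (upd K y c 0) m ∈
      F K R M (J.card + 1) := by
    intro n
    induction n using Int.induction_on with
    | zero => rw [sub_self]; exact zero_mem _
    | succ k ih =>
      have := add_mem (hstep k) ih
      rwa [sub_add_sub_cancel] at this
    | pred k ih =>
      have h2 := hstep (-(k : ℤ) - 1)
      rw [sub_add_cancel] at h2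
      have := sub_mem ih h2
      rwa [sub_sub_sub_cancel_left] at this
  have h1 := h0 n
  have h2 := h0 (y c)
  rw [upd_self] at h2
  have := sub_mem h1 h2
  rwa [sub_sub_sub_cancel_right] at this

/-- two functions that agree on `J` -/
theorem tel {J : Finset C} (y z : Tot K) (h : ∀ c ∈ J, y c = z c) (m : M) :
    Bv K J y m - Bv K J z m ∈ F K R M (J.card + 1) := by
  have key : ∀ T : Finset C, (∀ c ∈ T, c ∉ J) →
      Bv K J (fun c => if c ∈ T then y c else z c : Tot K) m - Bv K J z m ∈
        F K R M (J.card + 1) := by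
    intro T
    induction T using Finset.induction_on with
    | empty =>
      intro _
      have : (fun c => if c ∈ (∅ : Finset C) then y c else z c : Tot K) = z := by
        funext c
        simp
      rw [this, sub_self]
      exact zero_mem _
    | insert c T hc ih =>
      intro hT
      have h1 := ih fun d hd => hT d (Finset.mem_insert_of_mem hd)
      have h2 := tel1 (R := R) K (hT c (Finset.mem_insert_self c T))
        (fun c => if c ∈ T then y c else z c : Tot K) m (y c)
      have h3 : (fun d => if d ∈ insert c T then y d else z d : Tot K) =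
          upd K (fun c => if c ∈ T then y c else z c : Tot K) c (y c) := by
        funext d
        simp only [upd, Finset.mem_insert]
        by_cases hd : d = c
        · rw [if_pos (Or.inl hd), if_pos hd, hd]
        · rw [if_neg hd]
          by_cases hd' : d ∈ T
          · rw [if_pos (Or.inr hd'), if_pos hd']
          · rw [if_neg (by tauto), if_neg hd']
      rw [h3]
      have := add_mem h2 h1
      rwa [sub_add_sub_cancel] at this
  have h1 := key (Finset.univ \ J) fun c hc => (Finset.mem_sdiff.1 hc).2
  have h2 : (fun c => if c ∈ Finset.univ \ J then y c else z c : Tot K) = y := by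
    funext c
    by_cases hc : c ∈ J
    · rw [if_neg (fun h' => (Finset.mem_sdiff.1 h').2 hc), h c hc]
    · rw [if_pos (Finset.mem_sdiff.2 ⟨Finset.mem_univ _, hc⟩)]
  rwa [h2] at h1

/-! ### The functionals -/

/-- the discrete primitive -/
def al : Option ℤ → ℤ → ℤ
  | none, _ => 1
  | some v, x => if 0 ≤ v ∧ v < x then 1 else if x ≤ v ∧ v < 0 then -1 else 0

/-- the delta function -/
def dl : Option ℤ → ℤ → ℤ
  | none, _ => 0
  | some v, x => if v = x then 1 else 0

theorem al_succ (t : Option ℤ) (x : ℤ) : al t (x + 1) - al t x = dl t x := by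
  cases t with
  | none => rfl
  | some v =>
    simp only [al, dl]
    split_ifs <;> omega

/-- the factors of the functional -/
def fac (J : Finset C) (t : Sec K) (y : Tot K) (c : C) : ℤ :=
  if c ∈ J then dl (t c) (y c) else al (t c) (y c)

/-- the functional given by a section -/
noncomputable def lam (M : Type u) [AddCommGroup M] (t : Sec K) : Pm (Tot K) M →+ M :=
  Pm.lift fun y => (∏ c, al (t c) (y c)) • AddMonoidHom.id M

theorem lam_single (t : Sec K) (y : Tot K) (m : M) :
    lam K M t (Pm.single y m) = (∏ c, al (t c) (y c)) • m := by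
  rw [lam, Pm.lift_single]
  rfl

theorem lam_Bv (t : Sec K) (J : Finset C) (m : M) : ∀ y : Tot K,
    lam K M t (Bv K J y m) = (∏ c, fac K J t y c) • m := by
  induction J using Finset.induction_on with
  | empty =>
    intro y
    rw [Bv_empty, lam_single]
    simp [fac]
  | insert c J hc ih =>
    intro y
    rw [Bv_insert K hc, map_sub, ih, ih, ← sub_smul]
    congr 1
    rw [← Finset.mul_prod_erase Finset.univ _ (Finset.mem_univ c),
      ← Finset.mul_prod_erase Finset.univ (fun d => fac K J t y d) (Finset.mem_univ c),
      ← Finset.mul_prod_erase Finset.univ (fun d => fac K (insert c J) t y d) (Finset.mem_univ c)]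
    have h1 : ∏ d ∈ Finset.univ.erase c, fac K J t (bump K {c} y) d =
        ∏ d ∈ Finset.univ.erase c, fac K J t y d := by
      refine Finset.prod_congr rfl fun d hd => ?_
      have hdc : d ≠ c := (Finset.mem_erase.1 hd).1
      simp only [fac, bump, Finset.mem_singleton, if_neg hdc]
    have h2 : ∏ d ∈ Finset.univ.erase c, fac K (insert c J) t y d =
        ∏ d ∈ Finset.univ.erase c, fac K J t y d := by
      refine Finset.prod_congr rfl fun d hd => ?_
      have hdc : d ≠ c := (Finset.mem_erase.1 hd).1
      simp only [fac, Finset.mem_insert, hdc, false_or]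
    rw [h1, h2, ← sub_mul]
    congr 1
    simp only [fac, bump, Finset.mem_singleton, if_pos, if_neg hc, Finset.mem_insert, true_or]
    exact al_succ _ _

/-- the functionals of `i` elements vanish on the next step of the filtration -/
theorem lam_F {i : ℕ} {t : Sec K} (ht : (dom K t).card = i) {x : Pm (Tot K) M}
    (hx : x ∈ F K R M (i + 1)) : lam K M t x = 0 := by
  refine F_le K (lam K M t).ker (fun J y m hJ => ?_) hx
  rw [AddMonoidHom.mem_ker, lam_Bv]
  have : ∃ c ∈ J, c ∉ dom K t := by
    by_contra h
    push Not at h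
    have := Finset.card_le_card h
    omega
  obtain ⟨c, hc, hct⟩ := this
  rw [mem_dom, Option.not_isSome_iff_eq_none] at hct
  rw [Finset.prod_eq_zero (Finset.mem_univ c), zero_smul]
  rw [fac, if_pos hc, hct]
  rfl

open Classical in
/-- the functionals and the elements of `i` elements -/
theorem lam_hat {i : ℕ} (t s : Lv K i) (m : M) :
    lam K M t.1 (Bv K (dom K s.1) (hat K s.1) m) = if s = t then m else 0 := by
  rw [lam_Bv]
  split_ifs with h
  · subst h
    rw [Finset.prod_eq_one, one_smul]
    intro c _
    rw [fac]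
    by_cases hc : c ∈ dom K s.1
    · rw [if_pos hc]
      rw [mem_dom] at hc
      obtain ⟨v, hv⟩ := Option.isSome_iff_exists.1 hc
      have : hat K s.1 c = v := by
        rw [hat, hv]
        rfl
      rw [hv, this, dl, if_pos rfl]
    · rw [if_neg hc]
      rw [mem_dom, Option.not_isSome_iff_eq_none] at hc
      rw [hc]
      rfl
  · have : ∃ c ∈ dom K s.1, dl (t.1 c) (hat K s.1 c) = 0 := by
      by_contra hcon
      push Not at hcon
      apply h
      have h1 : ∀ c ∈ dom K s.1, t.1 c = s.1 c := by
        intro c hc
        have h2 := hcon c hc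
        rw [mem_dom] at hc
        obtain ⟨v, hv⟩ := Option.isSome_iff_exists.1 hc
        have h3 : hat K s.1 c = v := by
          rw [hat, hv]
          rfl
        rw [h3] at h2
        cases h4 : t.1 c with
        | none =>
          rw [h4] at h2
          exact absurd rfl h2
        | some a =>
          rw [h4, dl] at h2
          have : a = v := by
            by_contra hne
            rw [if_neg hne] at h2
            exact h2 rfl
          rw [hv, this]
      have h5 : dom K s.1 ⊆ dom K t.1 := by
        intro c hc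
        rw [mem_dom, h1 c hc, ← mem_dom]
        exact hc
      have h6 := Finset.eq_of_subset_of_card_le h5 (by rw [s.2, t.2])
      refine Subtype.ext ?_
      funext c
      by_cases hc : c ∈ dom K s.1
      · exact (h1 c hc).symm
      · have hc' : c ∉ dom K t.1 := by rwa [← h6]
        rw [mem_dom, Option.not_isSome_iff_eq_none] at hc hc'
        rw [hc, hc']
    obtain ⟨c, hc, hd⟩ := this
    rw [Finset.prod_eq_zero (Finset.mem_univ c), zero_smul]
    rw [fac, if_pos hc, hd]

/-! ### The graded pieces -/

/-- the map from the permutation module to the quotient -/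
noncomputable def qq (R : Type u) [Ring R] (M : Type u) [AddCommGroup M]
    [Module (MonoidAlgebra R S) M] (i : ℕ) :
    Pm (Lv K i) M →ₗ[MonoidAlgebra R S] (Pm (Tot K) M ⧸ F K R M (i + 1)) :=
  Pm.toLin (Pm.lift fun s : Lv K i =>
    ((F K R M (i + 1)).mkQ.toAddMonoidHom).comp (BvH K (dom K s.1) (hat K s.1))) <| by
    intro g r s m
    rw [Pm.lift_single, Pm.lift_single]
    show (F K R M (i + 1)).mkQ (Bv K (dom K (g • s.1)) (hat K (g • s.1)) _) =
      (MonoidAlgebra.single g r : MonoidAlgebra R S) •
        (F K R M (i + 1)).mkQ (Bv K (dom K s.1) (hat K s.1) m)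
    rw [← map_smul, smul_Bv, ← dom_smul, ← sub_eq_zero, ← map_sub, Submodule.mkQ_apply,
      Submodule.Quotient.mk_eq_zero]
    have h := tel (R := R) K (J := dom K (g • s.1)) (hat K (g • s.1)) (g • hat K s.1)
      (fun c hc => (hat_smul K g s.1 c hc).symm)
      ((MonoidAlgebra.single g r : MonoidAlgebra R S) • m)
    rwa [dom_smul, card_image_smul, s.2, ← dom_smul] at h

theorem qq_single (i : ℕ) (s : Lv K i) (m : M) : qq K R M i (Pm.single s m) =
    (F K R M (i + 1)).mkQ (Bv K (dom K s.1) (hat K s.1) m) :=
  Pm.lift_single _ s m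

open Classical in
/-- the value of a finitely supported function -/
noncomputable def Pm.ev {X : Type u} (M : Type u) [AddCommGroup M] (t : X) : Pm X M →+ M :=
  Pm.lift fun s => if s = t then AddMonoidHom.id M else 0

theorem Pm.ev_apply {X : Type u} (t : X) (z : Pm X M) : Pm.ev M t z = (show X →₀ M from z) t := by
  classical
  have : Pm.ev M t = (Finsupp.applyAddHom t : (X →₀ M) →+ M) := by
    refine Pm.hom_ext fun s m => ?_
    rw [Pm.ev, Pm.lift_single]
    show _ = (Finsupp.single s m : X →₀ M) t
    rw [Finsupp.single_apply]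
    split_ifs <;> rfl
  rw [this]
  rfl

theorem Pm.ext_ev {X : Type u} {z : Pm X M} (h : ∀ t, Pm.ev M t z = 0) : z = 0 := by
  have : (show X →₀ M from z) = 0 := by
    ext t
    have := h t
    rw [Pm.ev_apply] at this
    exact this
  exact this

theorem qq_inj (i : ℕ) : Function.Injective (qq K R M i) := by
  classical
  rw [injective_iff_map_eq_zero]
  intro z hz
  -- a lift of `qq` to the permutation module of the functions
  set L : Pm (Lv K i) M →+ Pm (Tot K) M :=
    Pm.lift fun s : Lv K i => BvH K (dom K s.1) (hat K s.1) with hL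
  have h1 : ∀ z, qq K R M i z = (F K R M (i + 1)).mkQ (L z) := by
    intro z
    have : (qq K R M i).toAddMonoidHom = ((F K R M (i + 1)).mkQ.toAddMonoidHom).comp L := by
      refine Pm.hom_ext fun s m => ?_
      show qq K R M i (Pm.single s m) = (F K R M (i + 1)).mkQ (L (Pm.single s m))
      rw [qq_single, hL, Pm.lift_single]
      rfl
    exact DFunLike.congr_fun this z
  rw [h1, Submodule.mkQ_apply, Submodule.Quotient.mk_eq_zero] at hz
  refine Pm.ext_ev fun t => ?_
  have h2 : (lam K M t.1).comp L = Pm.ev M t := by
    refine Pm.hom_ext fun s m => ?_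
    rw [AddMonoidHom.comp_apply, hL, Pm.lift_single, BvH_apply, lam_hat, Pm.ev, Pm.lift_single]
    split_ifs <;> rfl
  rw [← h2, AddMonoidHom.comp_apply]
  exact lam_F K t.2 hz

theorem qq_range (i : ℕ) {x : Pm (Tot K) M} (hx : x ∈ F K R M i) :
    (F K R M (i + 1)).mkQ x ∈ LinearMap.range (qq K R M i) := by
  refine F_le K ((LinearMap.range (qq K R M i)).comap (F K R M (i + 1)).mkQ).toAddSubgroup
    (fun J y m hJ => ?_) hx
  show (F K R M (i + 1)).mkQ (Bv K J y m) ∈ LinearMap.range (qq K R M i)
  by_cases hJ' : i + 1 ≤ J.card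
  · have : (F K R M (i + 1)).mkQ (Bv K J y m) = 0 := by
      rw [Submodule.mkQ_apply, Submodule.Quotient.mk_eq_zero]
      exact Bv_mem K hJ' y m
    rw [this]
    exact zero_mem _
  · have hc : J.card = i := by omega
    let s : Sec K := fun c => if c ∈ J then some (y c) else none
    have hs : dom K s = J := by
      ext c
      rw [mem_dom]
      show (if c ∈ J then some (y c) else none).isSome = true ↔ _
      split_ifs with h
      · simp [h]
      · simp [h]
    let sv : Lv K i := ⟨s, by rw [hs, hc]⟩
    refine ⟨Pm.single sv m, ?_⟩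
    rw [qq_single, ← sub_eq_zero, ← map_sub, Submodule.mkQ_apply, Submodule.Quotient.mk_eq_zero]
    show Bv K (dom K s) (hat K s) m - Bv K J y m ∈ _
    rw [hs, ← hc]
    refine tel K _ _ (fun c hcJ => ?_) m
    show (if c ∈ J then some (y c) else none).getD 0 = y c
    rw [if_pos hcJ]
    rfl

/-- the projection to the graded piece -/
noncomputable def pr (R : Type u) [Ring R] (M : Type u) [AddCommGroup M]
    [Module (MonoidAlgebra R S) M] (i : ℕ) : F K R M i →ₗ[MonoidAlgebra R S] Pm (Lv K i) M :=
  (LinearEquiv.ofInjective (qq K R M i) (qq_inj K i)).symm.toLinearMap ∘ₗ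
    LinearMap.codRestrict (LinearMap.range (qq K R M i))
      ((F K R M (i + 1)).mkQ ∘ₗ (F K R M i).subtype) (fun x => qq_range K i x.2)

theorem qq_pr (i : ℕ) (x : F K R M i) : qq K R M i (pr K R M i x) =
    (F K R M (i + 1)).mkQ x.1 := by
  have h := LinearEquiv.apply_symm_apply (LinearEquiv.ofInjective (qq K R M i) (qq_inj K i))
    (LinearMap.codRestrict (LinearMap.range (qq K R M i))
      ((F K R M (i + 1)).mkQ ∘ₗ (F K R M i).subtype) (fun x => qq_range K i x.2) x)
  exact congrArg Subtype.val h

theorem pr_surj (i : ℕ) : Function.Surjective (pr K R M i) := by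
  intro z
  have h : ∀ z : Pm (Lv K i) M, ∃ x : F K R M i, qq K R M i z = (F K R M (i + 1)).mkQ x.1 := by
    intro z
    induction z using Pm.induction with
    | h0 => exact ⟨0, by rw [map_zero]; exact (map_zero _).symm⟩
    | hadd a b ha hb =>
      obtain ⟨x, hx⟩ := ha
      obtain ⟨y, hy⟩ := hb
      exact ⟨x + y, by rw [map_add, hx, hy]; exact (map_add _ _ _).symm⟩
    | hs s m =>
      exact ⟨⟨Bv K (dom K s.1) (hat K s.1) m, Bv_mem K (by rw [s.2]) _ _⟩, qq_single K i s m⟩
  obtain ⟨x, hx⟩ := h z
  refine ⟨x, qq_inj (R := R) K i ?_⟩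
  rw [qq_pr, hx]

theorem pr_exact (i : ℕ) :
    Function.Exact (Submodule.inclusion (F_anti (R := R) (M := M) K (Nat.le_succ i)))
      (pr K R M i) := by
  intro x
  constructor
  · intro h
    have h1 := qq_pr K i x
    rw [h, map_zero] at h1
    have h2 : x.1 ∈ F K R M (i + 1) := by
      rw [← Submodule.Quotient.mk_eq_zero, ← Submodule.mkQ_apply]
      exact h1.symm
    exact ⟨⟨x.1, h2⟩, rfl⟩
  · rintro ⟨y, rfl⟩
    apply qq_inj (R := R) K i
    rw [qq_pr, map_zero, Submodule.mkQ_apply, Submodule.Quotient.mk_eq_zero]
    exact y.2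

/-! ### The augmentation -/

/-- the augmentation -/
noncomputable def aug (R : Type u) [Ring R] (M : Type u) [AddCommGroup M]
    [Module (MonoidAlgebra R S) M] : Pm (Tot K) M →ₗ[MonoidAlgebra R S] M :=
  Pm.toLin (Pm.lift fun _ => AddMonoidHom.id M) <| by
    intro g r y m
    rw [Pm.lift_single, Pm.lift_single]
    rfl

theorem aug_single (y : Tot K) (m : M) : aug K R M (Pm.single y m) = m := Pm.lift_single _ y m

/-- the function `0` -/
def zt : Tot K := fun _ => 0

theorem aug_surj : Function.Surjective (aug K R M) := fun m =>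
  ⟨Pm.single (zt K) m, aug_single K _ m⟩

theorem aug_Bv (J : Finset C) (m : M) : ∀ y : Tot K,
    aug K R M (Bv K J y m) = if J = ∅ then m else 0 := by
  induction J using Finset.induction_on with
  | empty =>
    intro y
    rw [Bv_empty, aug_single, if_pos rfl]
  | insert c J hc ih =>
    intro y
    rw [Bv_insert K hc, map_sub, ih, ih, sub_self, if_neg (Finset.insert_ne_empty c J)]

theorem aug_F {x : Pm (Tot K) M} : aug K R M x = 0 ↔ x ∈ F K R M 1 := by
  constructor
  · intro h
    have key : ∀ x : Pm (Tot K) M, x - Pm.single (zt K) (aug K R M x) ∈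
        F K R M 1 := by
      intro x
      induction x using Pm.induction with
      | h0 =>
        rw [map_zero, Pm.single_zero, sub_zero]
        exact zero_mem _
      | hadd a b ha hb =>
        rw [map_add, Pm.single_add, add_sub_add_comm]
        exact add_mem ha hb
      | hs y m =>
        rw [aug_single]
        have := tel (R := R) K (J := ∅) y (zt K) (fun c hc => by simp at hc) m
        rwa [Bv_empty, Bv_empty, Finset.card_empty, zero_add] at this
    have := key x
    rwa [h, Pm.single_zero, sub_zero] at this
  · intro h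
    refine F_le K (aug K R M).toAddMonoidHom.ker (fun J y m hJ => ?_) h
    rw [AddMonoidHom.mem_ker]
    show aug K R M (Bv K J y m) = 0
    rw [aug_Bv, if_neg]
    rintro rfl
    simp at hJ

end Dom

/-- Row FIL. -/
theorem fil (hPd : PdStatement.{u}) : FilStatement.{u} := by
  classical
  intro R S C M _ _ _ _ _ K _ _ e h
  have := Fintype.ofFinite C
  -- the permutation modules
  have hLv : ∀ i, 1 ≤ i → PdLe (MonoidAlgebra R S) e (Pm (Lv K i) M) := by
    intro i hi
    refine hPd R S (Lv K i) M e fun s => ?_
    rw [Lv.stab]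
    refine h s.1 ?_
    have : (dom K s.1).Nonempty := by
      rw [← Finset.card_pos, s.2]
      omega
    obtain ⟨c, hc⟩ := this
    refine ⟨c, fun hn => ?_⟩
    rw [mem_dom, hn] at hc
    simp at hc
  have hTot : PdLe (MonoidAlgebra R S) e (Pm (Tot K) M) := by
    refine hPd R S (Tot K) M e fun y => ?_
    rw [Tot.stab]
    refine h (Tot.sec K y) ?_
    obtain ⟨c⟩ := ‹Nonempty C›
    exact ⟨c, by rw [Tot.sec]; exact Option.some_ne_none _⟩
  -- the filtration
  have hF : ∀ d i, 1 ≤ i → Fintype.card C < i + d → PdLe (MonoidAlgebra R S) e (F K R M i) := by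
    intro d
    induction d with
    | zero =>
      intro i _ hi
      have : Subsingleton (F K R M i) := by
        rw [F_bot K (by omega)]
        infer_instance
      exact pd_of_subsingleton
    | succ d ih =>
      intro i hi hid
      exact pd_mid (Submodule.inclusion (F_anti (R := R) (M := M) K (Nat.le_succ i)))
        (pr K R M i) (Submodule.inclusion_injective _) (pr_surj K i) (pr_exact K i)
        (ih (i + 1) (by omega) (by omega)) (hLv i hi)
  have h1 := hF (Fintype.card C) 1 (le_refl _) (by omega)
  refine pd_right (F K R M 1).subtype (aug K R M) (Submodule.injective_subtype _) (aug_surj K)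
    ?_ h1 (hTot.mono (Nat.le_succ e))
  intro x
  rw [aug_F]
  exact ⟨fun hx => ⟨⟨x, hx⟩, rfl⟩, by rintro ⟨y, rfl⟩; exact y.2⟩

end Pool.Agent.NegK.PL
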