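import Pool.Agent.Lib.MP_28303a_al.PL.Defs

/-! # Regularity from a bound of the projective dimensions -/

set_option autoImplicit false
set_option linter.unusedSectionVars false
set_option linter.unusedVariables false

namespace Pool.Agent.NegK.PL

universe u

open CategoryTheory Pool.Agent.NegK.TT

section

variable {A : Type u} [Ring A]

theorem hasFPRes_of_pd (hA : IsNoetherian A A) : ∀ (n : ℕ) (M : Type u) [AddCommGroup M]
    [Module A M], Module.Finite A M → PdLe A n M → HasFPRes A n M
  | 0, M, _, _, hM, h => ⟨hM, pd_zero.1 h⟩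
  | n + 1, M, _, _, hM, h => by
    obtain ⟨k, f, hf⟩ := Module.Finite.exists_fin' A M
    have := hA
    exact ⟨Fin k → A, inferInstance, inferInstance, f, inferInstance, inferInstance, hf,
      hasFPRes_of_pd hA n _ inferInstance ((pd_ker f hf).2 h)⟩

theorem pd_of_hasFPRes : ∀ (n : ℕ) (M : Type u) [AddCommGroup M] [Module A M],
    HasFPRes A n M → PdLe A n M
  | 0, M, _, _, h => pd_zero.2 h.2
  | n + 1, M, _, _, ⟨P, _, _, f, _, h2, h3, h4⟩ => by
    have := h2
    exact (pd_ker f h3).1 (pd_of_hasFPRes n _ h4)

end

section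

variable {R S : Type u} [Ring R] [Group S] (H : Subgroup S)

/-- The right cosets of a subgroup of finite index have finitely many representatives. -/
theorem exists_rep (hH : H.FiniteIndex) :
    ∃ T : Finset S, ∀ g : S, ∃ s ∈ T, g * s⁻¹ ∈ H := by
  classical
  have := hH
  have : Finite (S ⧸ H) := inferInstance
  have : Fintype (S ⧸ H) := Fintype.ofFinite _
  refine ⟨Finset.univ.image fun q : S ⧸ H => (q.out)⁻¹, fun g => ?_⟩
  refine ⟨((QuotientGroup.mk g⁻¹ : S ⧸ H).out)⁻¹, Finset.mem_image_of_mem _ (Finset.mem_univ _), ?_⟩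
  have h1 : (QuotientGroup.mk ((QuotientGroup.mk g⁻¹ : S ⧸ H).out) : S ⧸ H) =
      QuotientGroup.mk g⁻¹ := QuotientGroup.out_eq' _
  have h2 := QuotientGroup.eq.1 h1.symm
  rwa [inv_inv] at h2 ⊢

variable {M : Type u} [AddCommGroup M] [Module (MonoidAlgebra R S) M]

variable {H} in
/-- An element of the restriction as an element of the module. -/
def Res.val (x : Res R H M) : M := x

variable (R) in
/-- An element of the module as an element of the restriction. -/
def Res.mk (m : M) : Res R H M := m

theorem Res.mk_smul (a : MonoidAlgebra R H) (m : M) :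
    a • Res.mk R H m = Res.mk R H (mdr R H.subtype a • m) := rfl

theorem Res.finite (hH : H.FiniteIndex) (hM : Module.Finite (MonoidAlgebra R S) M) :
    Module.Finite (MonoidAlgebra R H) (Res R H M) := by
  classical
  obtain ⟨T, hT⟩ := exists_rep H hH
  obtain ⟨F, hF⟩ := hM.fg_top
  let B : Finset (Res R H M) := (T ×ˢ F).image fun p : S × M =>
    Res.mk R H ((MonoidAlgebra.single p.1 (1 : R) : MonoidAlgebra R S) • p.2)
  have hB : ∀ s ∈ T, ∀ m ∈ F,
      Res.mk R H ((MonoidAlgebra.single s (1 : R) : MonoidAlgebra R S) • m) ∈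
        Submodule.span (MonoidAlgebra R H) (B : Set (Res R H M)) := fun s hs m hm =>
    Submodule.subset_span (Finset.mem_image_of_mem
      (fun p : S × M => Res.mk R H ((MonoidAlgebra.single p.1 (1 : R) : MonoidAlgebra R S) • p.2))
      (Finset.mem_product.2 ⟨hs, hm⟩ : (s, m) ∈ T ×ˢ F))
  have h1 : ∀ (r : MonoidAlgebra R S), ∀ m ∈ F, Res.mk R H (r • m) ∈
      Submodule.span (MonoidAlgebra R H) (B : Set (Res R H M)) := by
    intro r m hm
    induction r using MonoidAlgebra.induction_linear with
    | zero =>
      rw [zero_smul]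
      exact Submodule.zero_mem _
    | add x y hx hy =>
      rw [add_smul]
      exact Submodule.add_mem _ hx hy
    | single g a =>
      obtain ⟨s, hs, hg⟩ := hT g
      have h2 := Submodule.smul_mem (Submodule.span (MonoidAlgebra R H) (B : Set (Res R H M)))
        (MonoidAlgebra.single (⟨g * s⁻¹, hg⟩ : H) a) (hB s hs m hm)
      have h3 : (MonoidAlgebra.single g a : MonoidAlgebra R S) • m =
          mdr R H.subtype (MonoidAlgebra.single (⟨g * s⁻¹, hg⟩ : H) a) •
            (MonoidAlgebra.single s (1 : R) : MonoidAlgebra R S) • m := by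
        rw [smul_smul]
        show _ = ((MonoidAlgebra.mapDomainRingHom R H.subtype)
          (MonoidAlgebra.single (⟨g * s⁻¹, hg⟩ : H) a) * _) • m
        rw [MonoidAlgebra.mapDomainRingHom_apply, MonoidAlgebra.mapDomain_single,
          MonoidAlgebra.single_mul_single, mul_one]
        show _ = (MonoidAlgebra.single (g * s⁻¹ * s) a : MonoidAlgebra R S) • m
        rw [inv_mul_cancel_right]
      rw [h3]
      exact h2
  have h4 : ∀ x ∈ Submodule.span (MonoidAlgebra R H) (B : Set (Res R H M)),
      ∀ r : MonoidAlgebra R S, Res.mk R H (r • Res.val x) ∈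
        Submodule.span (MonoidAlgebra R H) (B : Set (Res R H M)) := by
    intro x hx
    induction hx using Submodule.span_induction with
    | mem x hx =>
      intro r
      obtain ⟨p, hp, rfl⟩ := Finset.mem_image.1 hx
      show Res.mk R H (r • (MonoidAlgebra.single p.1 (1 : R) : MonoidAlgebra R S) • p.2) ∈ _
      rw [smul_smul]
      exact h1 _ _ (Finset.mem_product.1 hp).2
    | zero =>
      intro r
      show Res.mk R H (r • (0 : M)) ∈ _
      rw [smul_zero]
      exact Submodule.zero_mem _
    | add x y _ _ hx hy =>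
      intro r
      show Res.mk R H (r • (Res.val x + Res.val y)) ∈ _
      rw [smul_add]
      exact Submodule.add_mem _ (hx r) (hy r)
    | smul a x _ hx =>
      intro r
      show Res.mk R H (r • mdr R H.subtype a • Res.val x) ∈ _
      rw [smul_smul]
      exact hx _
  refine ⟨⟨B, ?_⟩⟩
  let N : Submodule (MonoidAlgebra R S) M :=
    { carrier := {m | Res.mk R H m ∈ Submodule.span (MonoidAlgebra R H) (B : Set (Res R H M))}
      add_mem' := fun hx hy =>
        Submodule.add_mem (Submodule.span (MonoidAlgebra R H) (B : Set (Res R H M))) hx hy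
      zero_mem' := Submodule.zero_mem (Submodule.span (MonoidAlgebra R H) (B : Set (Res R H M)))
      smul_mem' := fun r x hx => h4 _ hx r }
  have h6 : (⊤ : Submodule (MonoidAlgebra R S) M) ≤ N := by
    rw [← hF, Submodule.span_le]
    intro m hm
    have h7 := h1 1 m hm
    rw [one_smul] at h7
    exact h7
  refine eq_top_iff.2 fun x _ => ?_
  exact h6 (Submodule.mem_top (x := Res.val x))

theorem noeth_of_res (h : IsNoetherian (MonoidAlgebra R H) (Res R H M)) :
    IsNoetherian (MonoidAlgebra R S) M := by
  classical
  refine ⟨fun N => ?_⟩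
  let N' : Submodule (MonoidAlgebra R H) (Res R H M) :=
    { carrier := {x | Res.val x ∈ N}
      add_mem' := fun hx hy => N.add_mem hx hy
      zero_mem' := N.zero_mem
      smul_mem' := fun a x hx => N.smul_mem (mdr R H.subtype a) hx }
  obtain ⟨F, hF⟩ := h.noetherian N'
  refine ⟨F.image Res.val, le_antisymm (Submodule.span_le.2 fun x hx => ?_) fun x hx => ?_⟩
  · obtain ⟨y, hy, rfl⟩ := Finset.mem_image.1 hx
    have h1 : y ∈ N' := by
      rw [← hF]
      exact Submodule.subset_span hy
    exact h1
  · have h1 : Res.mk R H x ∈ Submodule.span (MonoidAlgebra R H) (F : Set (Res R H M)) := by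
      rw [hF]
      exact hx
    let N'' : Submodule (MonoidAlgebra R H) (Res R H M) :=
      { carrier := {y | Res.val y ∈ Submodule.span (MonoidAlgebra R S)
          ((F.image Res.val : Finset M) : Set M)}
        add_mem' := fun hx hy => Submodule.add_mem (Submodule.span (MonoidAlgebra R S)
          ((F.image Res.val : Finset M) : Set M)) hx hy
        zero_mem' := Submodule.zero_mem (Submodule.span (MonoidAlgebra R S)
          ((F.image Res.val : Finset M) : Set M))
        smul_mem' := fun a x hx => Submodule.smul_mem (Submodule.span (MonoidAlgebra R S)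
          ((F.image Res.val : Finset M) : Set M)) (mdr R H.subtype a) hx }
    have h2 : Submodule.span (MonoidAlgebra R H) (F : Set (Res R H M)) ≤ N'' := by
      refine Submodule.span_le.2 fun y hy => ?_
      show Res.val y ∈ Submodule.span (MonoidAlgebra R S)
        ((F.image Res.val : Finset M) : Set M)
      exact Submodule.subset_span (Finset.mem_coe.2 (Finset.mem_image_of_mem Res.val hy))
    exact h2 h1

end

/-- FIN. -/
theorem fin : FinStatement.{u} := by
  intro R S _ _ H n hH hreg hb
  have hn : IsNoetherian (MonoidAlgebra R H) (MonoidAlgebra R H) := hreg.1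
  have h1 : IsNoetherian (MonoidAlgebra R S) (MonoidAlgebra R S) := by
    refine noeth_of_res H (M := MonoidAlgebra R S) ?_
    have : IsNoetherianRing (MonoidAlgebra R H) := hn
    have := Res.finite (R := R) H (M := MonoidAlgebra R S) hH inferInstance
    exact isNoetherian_of_isNoetherianRing_of_finite _ _
  refine ⟨h1, fun M _ _ hM => ?_⟩
  obtain ⟨d, hd⟩ := hreg.2 (Res R H M) (Res.finite H hH hM)
  exact ⟨d + n, hasFPRes_of_pd h1 (d + n) M hM (hb M d (pd_of_hasFPRes d _ hd))⟩

end Pool.Agent.NegK.PL
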