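import Pool.Agent.Lib.MP_28303a_al.TT.Rows2
import Pool.Agent.Lib.MP_28303a_al.WR.Base

/-! # Torsionfree groups with a poly-Z subgroup of finite index: definitions and statements -/

set_option autoImplicit false
set_option linter.unusedSectionVars false
set_option linter.unusedVariables false

namespace Pool.Agent.NegK.PL

universe u

open CategoryTheory Pool.Agent.NegK.TT

/-- The projective dimension of `M` is at most `n`. -/
abbrev PdLe (A : Type u) [Ring A] (n : ℕ) (M : Type u) [AddCommGroup M] [Module A M] : Prop :=
  HasProjectiveDimensionLE (ModuleCat.of A M) n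

section Rules

variable {A : Type u} [Ring A] {M N P : Type u} [AddCommGroup M] [Module A M] [AddCommGroup N]
  [Module A N] [AddCommGroup P] [Module A P] {n m : ℕ}

theorem pd_zero : PdLe A 0 M ↔ Module.Projective A M := by
  rw [IsProjective.iff_projective, projective_iff_hasProjectiveDimensionLE_zero]

theorem PdLe.mono (h : PdLe A n M) (hnm : n ≤ m) : PdLe A m M :=
  haveI : HasProjectiveDimensionLT (ModuleCat.of A M) (n + 1) := h
  hasProjectiveDimensionLT_of_ge _ (n + 1) (m + 1) (by omega)

theorem PdLe.equiv (h : PdLe A n M) (e : M ≃ₗ[A] N) : PdLe A n N :=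
  haveI : HasProjectiveDimensionLT (ModuleCat.of A M) (n + 1) := h
  hasProjectiveDimensionLT_of_iso e.toModuleIso (n + 1)

theorem pd_of_subsingleton [Subsingleton M] : PdLe A n M :=
  (pd_zero.2 (Module.Projective.of_lifting_property'' fun f hf =>
    ⟨0, LinearMap.ext fun x => Subsingleton.elim _ _⟩)).mono (Nat.zero_le n)

/-- A short exact sequence of modules. -/
theorem ses (f : M →ₗ[A] N) (g : N →ₗ[A] P) (hf : Function.Injective f)
    (hg : Function.Surjective g) (h : Function.Exact f g) :
    (ShortComplex.mk (ModuleCat.ofHom f) (ModuleCat.ofHom g)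
      (by rw [← ModuleCat.ofHom_comp, h.linearMap_comp_eq_zero]; rfl)).ShortExact where
  exact := (ShortComplex.ShortExact.moduleCat_exact_iff_function_exact _).2 h
  mono_f := (ModuleCat.mono_iff_injective _).2 hf
  epi_g := (ModuleCat.epi_iff_surjective _).2 hg

/-- `0 → M → N → P → 0` exact, `pd N ≤ n`, `pd P ≤ n + 1`: `pd M ≤ n`. -/
theorem pd_left (f : M →ₗ[A] N) (g : N →ₗ[A] P) (hf : Function.Injective f)
    (hg : Function.Surjective g) (h : Function.Exact f g) (h2 : PdLe A n N)
    (h3 : PdLe A (n + 1) P) : PdLe A n M :=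
  (ses f g hf hg h).hasProjectiveDimensionLT_X₁ (n + 1) h2 h3

/-- `0 → M → N → P → 0` exact, `pd M ≤ n`, `pd P ≤ n`: `pd N ≤ n`. -/
theorem pd_mid (f : M →ₗ[A] N) (g : N →ₗ[A] P) (hf : Function.Injective f)
    (hg : Function.Surjective g) (h : Function.Exact f g) (h1 : PdLe A n M)
    (h3 : PdLe A n P) : PdLe A n N :=
  (ses f g hf hg h).hasProjectiveDimensionLT_X₂ (n + 1) h1 h3

/-- `0 → M → N → P → 0` exact, `pd M ≤ n`, `pd N ≤ n + 1`: `pd P ≤ n + 1`. -/
theorem pd_right (f : M →ₗ[A] N) (g : N →ₗ[A] P) (hf : Function.Injective f)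
    (hg : Function.Surjective g) (h : Function.Exact f g) (h1 : PdLe A n M)
    (h2 : PdLe A (n + 1) N) : PdLe A (n + 1) P :=
  (ses f g hf hg h).hasProjectiveDimensionLT_X₃ (n + 1) h1 h2

/-- The kernel of a surjection from a projective module. -/
theorem pd_ker [Module.Projective A N] (g : N →ₗ[A] P) (hg : Function.Surjective g) :
    PdLe A n (LinearMap.ker g) ↔ PdLe A (n + 1) P := by
  have h : Function.Exact (LinearMap.ker g).subtype g := LinearMap.exact_subtype_ker_map g
  have hN : PdLe A 0 N := pd_zero.2 ‹_›
  exact ⟨fun h1 => pd_right _ g (Submodule.injective_subtype _) hg h h1 (hN.mono (Nat.zero_le _)),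
    fun h3 => pd_left _ g (Submodule.injective_subtype _) hg h (hN.mono (Nat.zero_le _)) h3⟩

end Rules

/-! ### Restriction to subgroups -/

/-- The restriction of an `R[S]`-module to a subgroup. -/
def Res (R : Type u) [Ring R] {S : Type u} [Group S] (H : Subgroup S) (M : Type u) : Type u := M

section Res

variable {R : Type u} [Ring R] {S : Type u} [Group S] (H : Subgroup S) (M : Type u)
  [AddCommGroup M] [Module (MonoidAlgebra R S) M]

instance : AddCommGroup (Res R H M) := inferInstanceAs (AddCommGroup M)

noncomputable instance : Module (MonoidAlgebra R H) (Res R H M) :=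
  Module.compHom M (mdr R H.subtype)

theorem Res.smul_def (a : MonoidAlgebra R H) (m : M) :
    (a • (show Res R H M from m) : Res R H M) = (mdr R H.subtype a • m : M) := rfl

end Res

/-! ### Permutation modules -/

/-- The permutation module of `X` with coefficients in `M`: finitely supported functions. -/
def Pm (X M : Type u) [AddCommGroup M] : Type u := X →₀ M

section Pm

variable (X M : Type u) [AddCommGroup M]

noncomputable instance : AddCommGroup (Pm X M) := inferInstanceAs (AddCommGroup (X →₀ M))

variable {X M}

/-- The function with value `m` at `x`. -/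
noncomputable def Pm.single (x : X) (m : M) : Pm X M := Finsupp.single x m

theorem Pm.single_add (x : X) (m m' : M) :
    Pm.single x (m + m') = Pm.single x m + Pm.single x m' := Finsupp.single_add x m m'

theorem Pm.single_zero (x : X) : Pm.single x (0 : M) = 0 := Finsupp.single_zero x

/-- `Pm.single` as a homomorphism. -/
noncomputable def Pm.sgl (x : X) : M →+ Pm X M := Finsupp.singleAddHom x

theorem Pm.sgl_apply (x : X) (m : M) : Pm.sgl x m = Pm.single x m := rfl

theorem Pm.hom_ext {N : Type*} [AddZeroClass N] {f g : Pm X M →+ N}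
    (h : ∀ x m, f (Pm.single x m) = g (Pm.single x m)) : f = g :=
  Finsupp.addHom_ext h

theorem Pm.induction {p : Pm X M → Prop} (f : Pm X M) (h0 : p 0)
    (hadd : ∀ a b, p a → p b → p (a + b)) (hs : ∀ x m, p (Pm.single x m)) : p f :=
  Finsupp.induction_linear f h0 hadd hs

/-- Homomorphisms from a permutation module. -/
noncomputable def Pm.lift {N : Type*} [AddCommMonoid N] (h : X → M →+ N) : Pm X M →+ N :=
  Finsupp.liftAddHom h

theorem Pm.lift_single {N : Type*} [AddCommMonoid N] (h : X → M →+ N) (x : X) (m : M) :
    Pm.lift h (Pm.single x m) = h x m :=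
  Finsupp.liftAddHom_apply_single h x m

variable {R : Type u} [Ring R] {S : Type u} [Group S] [MulAction S X]
  [Module (MonoidAlgebra R S) M]

/-- Multiplication by an element of the group ring. -/
noncomputable def Pm.sm (r : MonoidAlgebra R S) : M →+ M := DistribSMul.toAddMonoidHom M r

theorem Pm.sm_apply (r : MonoidAlgebra R S) (m : M) : Pm.sm r m = r • m := rfl

variable (R S X M) in
/-- The action of the coefficients on the permutation module. -/
noncomputable def Pm.actR : R →+* AddMonoid.End (Pm X M) where
  toFun a := Pm.lift fun x => (Pm.sgl x).comp (Pm.sm (MonoidAlgebra.single (1 : S) a))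
  map_one' := Pm.hom_ext fun x m => by
    rw [Pm.lift_single]
    show Pm.single x (Pm.sm (1 : MonoidAlgebra R S) m) = Pm.single x m
    rw [Pm.sm_apply, one_smul]
  map_mul' a b := Pm.hom_ext fun x m => by
    rw [Pm.lift_single]
    show Pm.single x ((MonoidAlgebra.single (1 : S) (a * b) : MonoidAlgebra R S) • m) =
      Pm.lift _ (Pm.lift _ (Pm.single x m))
    rw [Pm.lift_single]
    show _ = Pm.lift _ (Pm.single x ((MonoidAlgebra.single (1 : S) b : MonoidAlgebra R S) • m))
    rw [Pm.lift_single]
    show _ = Pm.single x ((MonoidAlgebra.single (1 : S) a : MonoidAlgebra R S) •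
      (MonoidAlgebra.single (1 : S) b : MonoidAlgebra R S) • m)
    rw [smul_smul, MonoidAlgebra.single_mul_single, one_mul]
  map_zero' := Pm.hom_ext fun x m => by
    rw [Pm.lift_single]
    show Pm.single x ((MonoidAlgebra.single (1 : S) (0 : R) : MonoidAlgebra R S) • m) = 0
    rw [MonoidAlgebra.single_zero, zero_smul, Pm.single_zero]
  map_add' a b := Pm.hom_ext fun x m => by
    rw [Pm.lift_single]
    show Pm.single x ((MonoidAlgebra.single (1 : S) (a + b) : MonoidAlgebra R S) • m) =
      Pm.lift _ (Pm.single x m) + Pm.lift _ (Pm.single x m)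
    rw [Pm.lift_single, Pm.lift_single, MonoidAlgebra.single_add, add_smul, Pm.single_add]
    rfl

variable (R S X M) in
/-- The action of the group on the permutation module. -/
noncomputable def Pm.actS : S →* AddMonoid.End (Pm X M) where
  toFun s := Pm.lift fun x => (Pm.sgl (s • x)).comp (Pm.sm (MonoidAlgebra.single s (1 : R)))
  map_one' := Pm.hom_ext fun x m => by
    rw [Pm.lift_single, one_smul]
    show Pm.single x (Pm.sm (1 : MonoidAlgebra R S) m) = Pm.single x m
    rw [Pm.sm_apply, one_smul]
  map_mul' s t := Pm.hom_ext fun x m => by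
    rw [Pm.lift_single]
    show Pm.single ((s * t) • x)
      ((MonoidAlgebra.single (s * t) (1 : R) : MonoidAlgebra R S) • m) =
      Pm.lift _ (Pm.lift _ (Pm.single x m))
    rw [Pm.lift_single]
    show _ = Pm.lift _
      (Pm.single (t • x) ((MonoidAlgebra.single t (1 : R) : MonoidAlgebra R S) • m))
    rw [Pm.lift_single]
    show _ = Pm.single (s • t • x) ((MonoidAlgebra.single s (1 : R) : MonoidAlgebra R S) •
      (MonoidAlgebra.single t (1 : R) : MonoidAlgebra R S) • m)
    rw [smul_smul, smul_smul, MonoidAlgebra.single_mul_single, one_mul]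

theorem Pm.act_comm (a : R) (s : S) : Commute (Pm.actR X M R S a) (Pm.actS X M R S s) :=
  Pm.hom_ext fun x m => by
    show Pm.lift _ (Pm.lift _ (Pm.single x m)) = Pm.lift _ (Pm.lift _ (Pm.single x m))
    rw [Pm.lift_single, Pm.lift_single]
    show Pm.lift _ (Pm.single (s • x)
        ((MonoidAlgebra.single s (1 : R) : MonoidAlgebra R S) • m)) =
      Pm.lift _ (Pm.single x ((MonoidAlgebra.single (1 : S) a : MonoidAlgebra R S) • m))
    rw [Pm.lift_single, Pm.lift_single]
    show Pm.single (s • x) ((MonoidAlgebra.single (1 : S) a : MonoidAlgebra R S) •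
        (MonoidAlgebra.single s (1 : R) : MonoidAlgebra R S) • m) =
      Pm.single (s • x) ((MonoidAlgebra.single s (1 : R) : MonoidAlgebra R S) •
        (MonoidAlgebra.single (1 : S) a : MonoidAlgebra R S) • m)
    rw [smul_smul, smul_smul, MonoidAlgebra.single_mul_single,
      MonoidAlgebra.single_mul_single, one_mul, mul_one, mul_one, one_mul]

variable (R S X M) in
/-- The action of `R[S]` on the permutation module. -/
noncomputable def Pm.act : MonoidAlgebra R S →+* AddMonoid.End (Pm X M) :=
  MonoidAlgebra.liftNCRingHom (Pm.actR X M R S) (Pm.actS X M R S) Pm.act_comm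

theorem Pm.act_single (s : S) (a : R) (f : Pm X M) :
    Pm.act X M R S (MonoidAlgebra.single s a) f =
      Pm.actR X M R S a (Pm.actS X M R S s f) :=
  congrArg (fun φ : AddMonoid.End (Pm X M) => φ f)
    (MonoidAlgebra.liftNCRingHom_single (Pm.actR X M R S) (Pm.actS X M R S) Pm.act_comm s a)

noncomputable instance : Module (MonoidAlgebra R S) (Pm X M) :=
  Module.compHom (Pm X M) (Pm.act X M R S)

theorem Pm.smul_single (s : S) (a : R) (x : X) (m : M) :
    (MonoidAlgebra.single s a : MonoidAlgebra R S) • Pm.single x m =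
      Pm.single (s • x) ((MonoidAlgebra.single s a : MonoidAlgebra R S) • m) := by
  refine (Pm.act_single s a (Pm.single x m)).trans ?_
  show Pm.lift _ (Pm.lift _ (Pm.single x m)) = _
  rw [Pm.lift_single]
  show Pm.lift _ (Pm.single (s • x)
    ((MonoidAlgebra.single s (1 : R) : MonoidAlgebra R S) • m)) = _
  rw [Pm.lift_single]
  show Pm.single (s • x) ((MonoidAlgebra.single (1 : S) a : MonoidAlgebra R S) •
    (MonoidAlgebra.single s (1 : R) : MonoidAlgebra R S) • m) = _
  rw [smul_smul, MonoidAlgebra.single_mul_single, one_mul, mul_one]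

end Pm

/-! ### Partial sections -/

/-- A cocycle on `C` with values in the integers. -/
structure Coc (S C : Type u) [Group S] [MulAction S C] where
  κ : S → C → ℤ
  mul : ∀ (g h : S) (c : C), κ (g * h) c = κ g (h • c) + κ h c

/-- The partial functions from `C` to the integers with the action of `S` given by the cocycle. -/
def Sec {S C : Type u} [Group S] [MulAction S C] (K : Coc S C) : Type u := C → Option ℤ

section Sec

variable {S C : Type u} [Group S] [MulAction S C] (K : Coc S C)

theorem Coc.one (c : C) : K.κ 1 c = 0 := by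
  have h := K.mul 1 1 c
  rw [one_mul, one_smul] at h
  omega

instance : SMul S (Sec K) where
  smul g s := fun c => (s (g⁻¹ • c)).map fun z => z + K.κ g (g⁻¹ • c)

theorem Sec.smul_apply (g : S) (s : Sec K) (c : C) :
    (g • s) c = (s (g⁻¹ • c)).map fun z => z + K.κ g (g⁻¹ • c) := rfl

theorem Sec.smul_at (g : S) (s : Sec K) (c : C) :
    (g • s) (g • c) = (s c).map fun z => z + K.κ g c := by
  rw [Sec.smul_apply, inv_smul_smul]

instance : MulAction S (Sec K) where
  one_smul s := by
    funext c
    rw [Sec.smul_apply, inv_one, one_smul]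
    cases s c with
    | none => rfl
    | some z =>
      show some (z + K.κ 1 c) = some z
      rw [K.one, add_zero]
  mul_smul g h s := by
    funext c
    rw [Sec.smul_apply, Sec.smul_apply, Sec.smul_apply, mul_inv_rev, mul_smul]
    cases s (h⁻¹ • g⁻¹ • c) with
    | none => rfl
    | some z =>
      show some (z + K.κ (g * h) (h⁻¹ • g⁻¹ • c)) =
        some (z + K.κ h (h⁻¹ • g⁻¹ • c) + K.κ g (g⁻¹ • c))
      rw [K.mul, smul_inv_smul]
      refine congrArg some ?_
      omega

end Sec

/-- Groups with a chain of `n` homomorphisms to the integers. -/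
def PZ : ℕ → (G : Type u) → [Group G] → Prop
  | 0, G, _ => Subsingleton G
  | n + 1, G, _ => ∃ φ : G →* Multiplicative ℤ, PZ n φ.ker

/-! ### Statements of the modules -/

/-- KL. Permutation modules which are projective over the stabilizers are projective. -/
def KlStatement : Prop :=
  ∀ (R S X M : Type u) [Ring R] [Group S] [MulAction S X] [AddCommGroup M]
    [Module (MonoidAlgebra R S) M],
    (∀ x : X, Module.Projective (MonoidAlgebra R (MulAction.stabilizer S x))
      (Res R (MulAction.stabilizer S x) M)) →
    Module.Projective (MonoidAlgebra R S) (Pm X M)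

/-- PD (uses KL). The projective dimension of permutation modules. -/
def PdStatement : Prop :=
  ∀ (R S X M : Type u) [Ring R] [Group S] [MulAction S X] [AddCommGroup M]
    [Module (MonoidAlgebra R S) M] (e : ℕ),
    (∀ x : X, PdLe (MonoidAlgebra R (MulAction.stabilizer S x)) e
      (Res R (MulAction.stabilizer S x) M)) →
    PdLe (MonoidAlgebra R S) e (Pm X M)

/-- RS. Restriction to subgroups, along an injective homomorphism of subgroups. -/
def RsStatement : Prop :=
  ∀ (R S M : Type u) [Ring R] [Group S] [AddCommGroup M] [Module (MonoidAlgebra R S) M] (e : ℕ)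
    (H H' : Subgroup S), H ≤ H' → PdLe (MonoidAlgebra R H') e (Res R H' M) →
      PdLe (MonoidAlgebra R H) e (Res R H M)

/-- FIL (uses PD, RS). The filtration of the permutation module of the functions from `C` to the
integers. -/
def FilStatement : Prop :=
  ∀ (R S C M : Type u) [Ring R] [Group S] [MulAction S C] [Finite C] [Nonempty C] (K : Coc S C)
    [AddCommGroup M] [Module (MonoidAlgebra R S) M] (e : ℕ),
    (∀ s : Sec K, (∃ c, s c ≠ none) → PdLe (MonoidAlgebra R (MulAction.stabilizer S s)) e
      (Res R (MulAction.stabilizer S s) M)) →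
    PdLe (MonoidAlgebra R S) (e + 1) M

/-- FIN. Regularity from a bound of the projective dimensions. -/
def FinStatement : Prop :=
  ∀ (R S : Type u) [Ring R] [Group S] (H : Subgroup S) (n : ℕ), H.FiniteIndex →
    RegularRing (MonoidAlgebra R H) →
    (∀ (M : Type u) [AddCommGroup M] [Module (MonoidAlgebra R S) M] (d : ℕ),
      PdLe (MonoidAlgebra R H) d (Res R H M) → PdLe (MonoidAlgebra R S) (d + n) M) →
    RegularRing (MonoidAlgebra R S)

/-- PTF (uses FIL, RS; part of TFE). The bound. -/
def PtfStatement : Prop :=
  ∀ (R S : Type u) [Ring R] [Group S], TorsionFree S → ∀ (H : Subgroup S) (n : ℕ), H.Normal →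
    H.FiniteIndex → PZ n H → ∀ (M : Type u) [AddCommGroup M] [Module (MonoidAlgebra R S) M]
    (d : ℕ), PdLe (MonoidAlgebra R H) d (Res R H M) → PdLe (MonoidAlgebra R S) (d + n) M

/-- TFE (uses PTF, FIN). Torsionfree groups with a poly-Z subgroup of finite index. -/
def TfeStatement : Prop :=
  ∀ (S : Type u) [Group S], TorsionFree S → ∀ (H : Subgroup S) (n : ℕ), H.FiniteIndex → PZ n H →
    InN S

end Pool.Agent.NegK.PL
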