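import Pool.Agent.Lib.MP_28303a_al.AP.Mix
import Pool.Agent.Lib.MP_28303a_al.PL.Defs

/-!
# Poly-`ℤ` groups
-/

set_option autoImplicit false

namespace Pool.Agent.NegK.PL

universe u v

theorem PZ.of_injective : ∀ (n : ℕ) {G : Type u} [Group G] {H : Type u} [Group H] (f : H →* G),
    Function.Injective f → PZ n G → PZ n H
  | 0, G, _, H, _, f, hf, h => by
    have : Subsingleton G := h
    exact hf.subsingleton
  | n + 1, G, _, H, _, f, hf, ⟨φ, h⟩ => by
    refine ⟨φ.comp f, ?_⟩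
    let f' : (φ.comp f).ker →* φ.ker :=
      { toFun := fun x => ⟨f x.1, x.2⟩
        map_one' := Subtype.ext (map_one f)
        map_mul' := fun x y => Subtype.ext (map_mul f x.1 y.1) }
    exact PZ.of_injective n f' (fun x y hxy => Subtype.ext (hf (congrArg Subtype.val hxy))) h

theorem PZ.ext : ∀ (k n : ℕ) {G : Type u} [Group G] (q : G →* Multiplicative (Fin k → ℤ)),
    PZ n q.ker → PZ (n + k) G
  | 0, n, G, _, q, h => by
    refine PZ.of_injective n (f := (⟨⟨fun g => ⟨g, ?_⟩, rfl⟩, fun _ _ => rfl⟩ : G →* q.ker)) ?_ h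
    · exact Subsingleton.elim _ _
    · exact fun x y hxy => congrArg Subtype.val hxy
  | k + 1, n, G, _, q, h => by
    let p : Multiplicative (Fin (k + 1) → ℤ) →* Multiplicative ℤ :=
      AddMonoidHom.toMultiplicative (Pi.evalAddMonoidHom (fun _ : Fin (k + 1) => ℤ) 0)
    refine ⟨p.comp q, ?_⟩
    let t : Multiplicative (Fin (k + 1) → ℤ) →* Multiplicative (Fin k → ℤ) :=
      AddMonoidHom.toMultiplicative
        (⟨⟨fun v i => v i.succ, rfl⟩, fun _ _ => rfl⟩ : (Fin (k + 1) → ℤ) →+ (Fin k → ℤ))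
    refine PZ.ext k n (G := (p.comp q).ker) ((t.comp q).comp (Subgroup.subtype _)) ?_
    refine PZ.of_injective n
      (f := (⟨⟨fun g => ⟨g.1.1, ?_⟩, rfl⟩, fun _ _ => rfl⟩ : _ →* q.ker)) ?_ h
    · have h1 : (q g.1.1).toAdd 0 = 0 := g.1.2
      have h2 : (fun i : Fin k => (q g.1.1).toAdd i.succ) = 0 := g.2
      refine funext fun i => ?_
      refine Fin.cases ?_ (fun j => ?_) i
      · exact h1
      · exact congrFun h2 j
    · exact fun x y hxy => Subtype.ext (Subtype.ext (congrArg (fun z : q.ker => (z : G)) hxy))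

/-- Extensions by finitely generated torsionfree commutative groups. -/
theorem PZ.ext_add (n : ℕ) {G : Type u} [Group G] (W : Type v) [AddCommGroup W]
    [Module.Finite ℤ W] [IsAddTorsionFree W] (q : G →* Multiplicative W) (h : PZ n q.ker) :
    ∃ m, PZ m G := by
  have : Module.Free ℤ W := inferInstance
  let e : W ≃ₗ[ℤ] (Fin (Module.finrank ℤ W) → ℤ) := (Module.finBasis ℤ W).equivFun
  let e' : Multiplicative W →* Multiplicative (Fin (Module.finrank ℤ W) → ℤ) :=
    AddMonoidHom.toMultiplicative e.toAddEquiv.toAddMonoidHom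
  have he : Function.Injective e' := e.injective
  refine ⟨_, PZ.ext _ n (e'.comp q) (PZ.of_injective n (f := (⟨⟨fun g => ⟨g.1, ?_⟩, rfl⟩,
    fun _ _ => rfl⟩ : _ →* q.ker)) ?_ h)⟩
  · have h1 : e' (q g.1) = 1 := g.2
    exact he (h1.trans (map_one e').symm)
  · exact fun x y hxy => Subtype.ext (congrArg (fun z : q.ker => (z : G)) hxy)

/-- Extensions by finitely generated commutative groups. -/
theorem PZ.finite (n : ℕ) {S : Type u} [Group S] (Q : Type v) [CommGroup Q] [Group.FG Q]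
    (q : S →* Q) (h : PZ n q.ker) :
    ∃ H : Subgroup S, H.Normal ∧ H.FiniteIndex ∧ ∃ m, PZ m H := by
  obtain ⟨k, θ, hθ⟩ := AP.exists_zn' Q
  obtain ⟨e, he0, he⟩ : ∃ e : ℕ, 0 < e ∧ ∀ x : Q, θ x = 1 → x ^ e = 1 := by
    have h1 : Module.Finite ℤ (Additive Q) := Module.Finite.iff_addGroup_fg.2 inferInstance
    let l : Additive Q →ₗ[ℤ] (Fin k → ℤ) := (MonoidHom.toAdditiveLeft θ).toIntLinearMap
    have h2 : Module.IsTorsion ℤ (LinearMap.ker l) := by
      rintro ⟨x, hx⟩
      obtain ⟨m, hm, h3⟩ := hθ x.toMul hx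
      refine ⟨⟨(m : ℤ), mem_nonZeroDivisors_of_ne_zero (by exact_mod_cast hm.ne')⟩, ?_⟩
      refine Subtype.ext ?_
      show (m : ℤ) • x = 0
      rw [natCast_zsmul]
      exact congrArg Additive.ofMul h3
    have h3 : Finite (LinearMap.ker l) := Module.finite_of_fg_torsion _ h2
    refine ⟨Nat.card (LinearMap.ker l), Nat.card_pos, fun x hx => ?_⟩
    have h4 : Nat.card (LinearMap.ker l) • (⟨Additive.ofMul x, hx⟩ : LinearMap.ker l) = 0 :=
      card_nsmul_eq_zero'
    exact congrArg (fun y : LinearMap.ker l => y.1.toMul) h4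
  let P : Subgroup Q := (powMonoidHom e : Q →* Q).range
  have hfin : Finite (Q ⧸ P) := by
    refine CommGroup.finite_of_fg_isMulTorsion (G := Q ⧸ P) fun x => ?_
    obtain ⟨y, rfl⟩ := QuotientGroup.mk_surjective x
    refine isOfFinOrder_iff_pow_eq_one.2 ⟨e, he0, ?_⟩
    rw [← QuotientGroup.mk_pow]
    exact (QuotientGroup.eq_one_iff _).2 ⟨y, rfl⟩
  have hP : P.FiniteIndex := Subgroup.finiteIndex_of_finite_quotient
  have hC : (P.comap q).FiniteIndex := by
    refine ⟨?_⟩
    rw [Subgroup.index_comap]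
    intro h0
    exact hP.index_ne_zero (Nat.eq_zero_of_zero_dvd (h0 ▸ Subgroup.relIndex_dvd_index_of_normal P q.range))
  refine ⟨P.comap q, inferInstance, hC, n + k, ?_⟩
  refine PZ.ext k n ((θ.comp q).comp (Subgroup.subtype _)) (PZ.of_injective n
      (f := (⟨⟨fun g => ⟨g.1.1, ?_⟩, rfl⟩, fun _ _ => rfl⟩ : _ →* q.ker)) ?_ h)
  · have h1 : θ (q g.1.1) = 1 := g.2
    obtain ⟨x, hx⟩ := g.1.2
    have h2 : x ^ e = q g.1.1 := hx
    rw [← h2, map_pow] at h1
    have h3 : θ x = 1 := by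
      have h4 : e • (θ x).toAdd = 0 := h1
      have h5 : (θ x).toAdd = 0 := (smul_eq_zero.1 h4).resolve_left he0.ne'
      exact h5
    rw [MonoidHom.mem_ker, ← h2]
    exact he x h3
  · exact fun x y hxy => Subtype.ext (Subtype.ext (congrArg (fun z : q.ker => (z : S)) hxy))

end Pool.Agent.NegK.PL
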