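import Pool.Agent.Lib.MP_28303a_al.PL.PD
import Pool.Agent.Lib.MP_28303a_al.PL.Fil
import Pool.Agent.Lib.MP_28303a_al.PL.PZ
import Pool.Agent.Lib.MP_28303a_al.PL.Fin
import Pool.Agent.Lib.MP_28303a_al.TT.H73.Ext
import Pool.Agent.Lib.MP_28303a_al.TT.Sl2

/-! # Torsionfree groups with a poly-Z subgroup of finite index -/

set_option autoImplicit false
set_option linter.unusedSectionVars false
set_option linter.unusedVariables false

namespace Pool.Agent.NegK.PL

universe u

open Pool.Agent.NegK.TT PD

theorem mdr_mdr {R : Type u} [Ring R] {G H K : Type u} [Group G] [Group H] [Group K]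
    (f : H →* K) (g : G →* H) (a : MonoidAlgebra R G) :
    mdr R f (mdr R g a) = mdr R (f.comp g) a := by
  induction a using MonoidAlgebra.induction_linear with
  | zero => rw [map_zero, map_zero, map_zero]
  | add x y hx hy => rw [map_add, map_add, map_add, hx, hy]
  | single g a =>
    show MonoidAlgebra.mapDomainRingHom R f (MonoidAlgebra.mapDomainRingHom R _
      (MonoidAlgebra.single g a)) = MonoidAlgebra.mapDomainRingHom R _ (MonoidAlgebra.single g a)
    rw [MonoidAlgebra.mapDomainRingHom_apply, MonoidAlgebra.mapDomainRingHom_apply,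
      MonoidAlgebra.mapDomainRingHom_apply, MonoidAlgebra.mapDomain_single,
      MonoidAlgebra.mapDomain_single, MonoidAlgebra.mapDomain_single]
    rfl

section

variable {R S M : Type u} [Ring R] [Group S] [AddCommGroup M] [Module (MonoidAlgebra R S) M]

theorem pd_sub (H T : Subgroup S) (e : ℕ) (h : PdLe (MonoidAlgebra R H) e (Res R H M)) :
    PdLe (MonoidAlgebra R (H.subgroupOf T)) e (Res R (H.subgroupOf T) (Res R T M)) := by
  let f : H.subgroupOf T →* H :=
    { toFun := fun x => ⟨x.1.1, x.2⟩
      map_one' := rfl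
      map_mul' := fun _ _ => rfl }
  have hf : Function.Injective f := fun x y hxy => by
    have h2 : ((f x : H) : S) = ((f y : H) : S) := by rw [hxy]
    exact Subtype.ext (Subtype.ext h2)
  have h1 := gen R f hf e (Res R H M) h
  let ε : Cf R f (Res R H M) ≃ₗ[MonoidAlgebra R (H.subgroupOf T)]
      Res R (H.subgroupOf T) (Res R T M) :=
    { toFun := fun m => m
      map_add' := fun _ _ => rfl
      map_smul' := fun a m => by
        have h2 : mdr R H.subtype (mdr R f a) =
            mdr R T.subtype (mdr R (H.subgroupOf T).subtype a) := by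
          rw [mdr_mdr, mdr_mdr]
          rfl
        show ((mdr R H.subtype (mdr R f a)) • (show M from m) : M) =
          (mdr R T.subtype (mdr R (H.subgroupOf T).subtype a) • (show M from m) : M)
        rw [h2]
      invFun := fun m => m
      left_inv := fun _ => rfl
      right_inv := fun _ => rfl }
  exact PdLe.equiv h1 ε

theorem pd_all (H : Subgroup S) (hH : ∀ g : S, g ∈ H) (e : ℕ)
    (h : PdLe (MonoidAlgebra R H) e (Res R H M)) : PdLe (MonoidAlgebra R S) e M := by
  let f : S →* H :=
    { toFun := fun x => ⟨x, hH x⟩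
      map_one' := rfl
      map_mul' := fun _ _ => rfl }
  have hf : Function.Injective f := fun x y hxy => congrArg Subtype.val hxy
  have h1 := gen R f hf e (Res R H M) h
  let ε : Cf R f (Res R H M) ≃ₗ[MonoidAlgebra R S] M :=
    { toFun := fun m => m
      map_add' := fun _ _ => rfl
      map_smul' := fun a m => by
        have h2 : mdr R H.subtype (mdr R f a) = a := by
          rw [mdr_mdr]
          have h3 : H.subtype.comp f = MonoidHom.id S := MonoidHom.ext fun _ => rfl
          rw [h3]
          show MonoidAlgebra.mapDomainRingHom R (MonoidHom.id S) a = a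
          rw [MonoidAlgebra.mapDomainRingHom_id]
          rfl
        show ((mdr R H.subtype (mdr R f a)) • (show M from m) : M) = a • (show M from m)
        rw [h2]
      invFun := fun m => m
      left_inv := fun _ => rfl
      right_inv := fun _ => rfl }
  exact PdLe.equiv h1 ε

end

theorem eq_one_of_finite {S : Type u} [Group S] (htf : TorsionFree S) [Finite S] (g : S) :
    g = 1 :=
  htf g (orderOf g) (orderOf_pos g) (pow_orderOf_eq_one g)

section Cocycle

variable {S : Type u} [Group S] (H : Subgroup S) (φ : H →* Multiplicative ℤ)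

theorem rep_mem (g : S) (c : S ⧸ H) : (g • c).out⁻¹ * g * c.out ∈ H := by
  have h1 : ((g • c).out : S ⧸ H) = ((g * c.out : S) : S ⧸ H) := by
    rw [QuotientGroup.out_eq']
    show g • c = g • (QuotientGroup.mk c.out : S ⧸ H)
    rw [QuotientGroup.out_eq']
  have h2 := QuotientGroup.eq.1 h1
  rwa [← mul_assoc] at h2

/-- The cocycle of a homomorphism on a subgroup. -/
noncomputable def coc : Coc S (S ⧸ H) where
  κ g c := (φ ⟨(g • c).out⁻¹ * g * c.out, rep_mem H g c⟩).toAdd
  mul g h c := by
    rw [← toAdd_mul, ← map_mul]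
    refine congrArg (fun x => (φ x).toAdd) (Subtype.ext ?_)
    show ((g * h) • c).out⁻¹ * (g * h) * c.out =
      (g • h • c).out⁻¹ * g * (h • c).out * ((h • c).out⁻¹ * h * c.out)
    rw [mul_smul]
    group

variable {H}

theorem smul_coset [hN : H.Normal] (h : S) (hh : h ∈ H) (c : S ⧸ H) : h • c = c := by
  obtain ⟨x, rfl⟩ := QuotientGroup.mk_surjective c
  show ((h * x : S) : S ⧸ H) = (x : S ⧸ H)
  refine (QuotientGroup.eq.2 ?_).symm
  rw [← mul_assoc]
  have h1 := hN.conj_mem h hh x⁻¹
  rwa [inv_inv] at h1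

theorem stab_pz [hN : H.Normal] (n : ℕ) (hφ : PZ n φ.ker) (s : Sec (coc H φ)) (c : S ⧸ H)
    (hc : s c ≠ none) : PZ n (H.subgroupOf (MulAction.stabilizer S s)) := by
  obtain ⟨z, hz⟩ := Option.ne_none_iff_exists'.1 hc
  have hmem : ∀ x : H.subgroupOf (MulAction.stabilizer S s),
      c.out⁻¹ * x.1.1 * c.out ∈ H := fun x => by
    have h1 := hN.conj_mem x.1.1 x.2 c.out⁻¹
    rwa [inv_inv] at h1
  have hker : ∀ x : H.subgroupOf (MulAction.stabilizer S s),
      φ ⟨c.out⁻¹ * x.1.1 * c.out, hmem x⟩ = 1 := fun x => by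
    have h1 : x.1.1 • s = s := x.1.2
    have h2 := Sec.smul_at (coc H φ) x.1.1 s c
    have h3 : x.1.1 • c = c := smul_coset x.1.1 x.2 c
    rw [h1, h3, hz] at h2
    have h4 : z = z + (coc H φ).κ x.1.1 c := Option.some.inj h2
    have h5 : (coc H φ).κ x.1.1 c = 0 := by omega
    have h6 : φ ⟨(x.1.1 • c).out⁻¹ * x.1.1 * c.out, rep_mem H x.1.1 c⟩ = 1 :=
      Multiplicative.toAdd.injective h5
    rw [← h6]
    refine congrArg φ (Subtype.ext ?_)
    show c.out⁻¹ * x.1.1 * c.out = (x.1.1 • c).out⁻¹ * x.1.1 * c.out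
    rw [h3]
  refine PZ.of_injective n (f := (⟨⟨fun x => ⟨⟨c.out⁻¹ * x.1.1 * c.out, hmem x⟩, hker x⟩, ?_⟩,
    fun x y => ?_⟩ : H.subgroupOf (MulAction.stabilizer S s) →* φ.ker)) ?_ hφ
  · refine Subtype.ext (Subtype.ext ?_)
    show c.out⁻¹ * 1 * c.out = 1
    group
  · refine Subtype.ext (Subtype.ext ?_)
    show c.out⁻¹ * (x.1.1 * y.1.1) * c.out = c.out⁻¹ * x.1.1 * c.out * (c.out⁻¹ * y.1.1 * c.out)
    group
  · intro x y hxy
    have h1 : c.out⁻¹ * x.1.1 * c.out = c.out⁻¹ * y.1.1 * c.out :=
      congrArg (fun w : φ.ker => w.1.1) hxy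
    exact Subtype.ext (Subtype.ext (mul_left_cancel (mul_right_cancel h1)))

end Cocycle

/-- PTF. -/
theorem ptf (hFil : FilStatement.{u}) : PtfStatement.{u} := by
  intro R S _ _ htf H n
  induction n generalizing S with
  | zero =>
    intro hN hfi hPZ M _ _ d hd
    have h1 : Subsingleton H := hPZ
    have h2 : H = ⊥ := (Subgroup.eq_bot_iff_forall H).2 fun x hx =>
      congrArg Subtype.val (Subsingleton.elim (⟨x, hx⟩ : H) 1)
    have h3 : Finite S := by
      subst h2
      have : Finite (S ⧸ (⊥ : Subgroup S)) := inferInstance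
      exact Finite.of_equiv _ (QuotientGroup.quotientBot (G := S)).toEquiv
    exact pd_all H (fun g => by rw [eq_one_of_finite htf g]; exact H.one_mem) d hd
  | succ n ih =>
    intro hN hfi hPZ M _ _ d hd
    obtain ⟨φ, hφ⟩ := hPZ
    have : Finite (S ⧸ H) := inferInstance
    refine hFil R S (S ⧸ H) M (coc H φ) (d + n) fun s hs => ?_
    obtain ⟨c, hc⟩ := hs
    exact ih (MulAction.stabilizer S s) (fun g m hm hg => Subtype.ext (htf g.1 m hm
      (congrArg Subtype.val hg))) (H.subgroupOf (MulAction.stabilizer S s)) inferInstance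
      inferInstance (stab_pz φ n hφ s c hc) (Res R (MulAction.stabilizer S s) M) d
      (pd_sub H (MulAction.stabilizer S s) d hd)

theorem pz_inN : ∀ (n : ℕ) (G : Type u) [Group G], PZ n G → InN G
  | 0, G, _, h => inN_of_subsingleton G fun g => by
    have : Subsingleton G := h
    exact Subsingleton.elim _ _
  | n + 1, G, _, ⟨φ, h⟩ => H73.inN_ext G φ (pz_inN n φ.ker h)

/-- TFE. Torsionfree groups with a subgroup of finite index which is poly-Z. -/
theorem tfe : TfeStatement.{u} := by
  intro S _ htf H n hfi h R _ hR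
  have h1 : PZ n H.normalCore := PZ.of_injective n (Subgroup.inclusion H.normalCore_le)
    (Subgroup.inclusion_injective _) h
  exact fin R S H.normalCore n inferInstance (pz_inN n H.normalCore h1 R hR) fun M _ _ d hd =>
    ptf (fil pdStat) R S htf H.normalCore n inferInstance inferInstance h1 M d hd

end Pool.Agent.NegK.PL
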