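import Pool.Agent.Lib.MP_28303a_al.PL.PZ
import Pool.Agent.Lib.MP_28303a_al.NT.H80.Pgl
import Pool.Agent.Lib.MP_28303a_al.AP.Hom

/-!
# Groups of affine automorphisms with integral linear parts
-/

set_option autoImplicit false
set_option linter.unusedSectionVars false

namespace Pool.Agent.NegK.PL

universe u v

open Matrix
open Pool.Agent.NegK.TW Pool.Agent.NegK.TT Pool.Agent.NegK.NT

section

variable {L : Type v} [Field L] [CharZero L]

theorem tf_sub (O : Subalgebra ℤ L) (M : Submodule O L) : IsAddTorsionFree M := by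
  refine ⟨fun n hn a b hab => ?_⟩
  have h1 : (n : L) * (a : L) = n * (b : L) := by
    have := congrArg Subtype.val hab
    simpa [nsmul_eq_mul] using this
  exact Subtype.ext (mul_left_cancel₀ (Nat.cast_ne_zero.2 hn) h1)

variable {S : Type u} [Group S] (q : S →* GL (Fin 2) L) (w z : S → L)

/-- The entries lie in finitely generated commutative groups. -/
theorem exists_mods [hfg : Group.FG S] (htri : ∀ g, (q g).1 1 0 = 0)
    (ha : ∀ g, IsIntegral ℤ ((q g).1 0 0)) (hd : ∀ g, IsIntegral ℤ ((q g).1 1 1))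
    (hw : ∀ s t, w (s * t) = w s * (q t).1 0 0 + w t)
    (hz : ∀ s t, z (s * t) = w s * (q t).1 0 1 + z s * (q t).1 1 1 + z t) :
    ∃ (O : Subalgebra ℤ L) (M₁ M₂ M₃ : Submodule O L), Module.Finite ℤ M₁ ∧
      Module.Finite ℤ M₂ ∧ Module.Finite ℤ M₃ ∧ ∀ g, (q g).1 0 1 ∈ M₁ ∧ w g ∈ M₂ ∧ z g ∈ M₃ := by
  classical
  obtain ⟨S₀, hS⟩ := hfg.out
  let T : Set S := (S₀ : Set S) ∪ (fun g => g⁻¹) '' (S₀ : Set S)
  have hT : T.Finite := S₀.finite_toSet.union (S₀.finite_toSet.image _)
  let A : Set L := (fun g => (q g).1 0 0) '' T ∪ (fun g => (q g).1 1 1) '' T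
  have hAf : A.Finite := (hT.image _).union (hT.image _)
  have hAi : ∀ x ∈ A, IsIntegral ℤ x := by
    rintro x (⟨g, -, rfl⟩ | ⟨g, -, rfl⟩)
    · exact ha _
    · exact hd _
  let O : Subalgebra ℤ L := Algebra.adjoin ℤ A
  have hO : Module.Finite ℤ O := Module.Finite.iff_fg.2 (fg_adjoin_of_finite hAf hAi)
  let M₁ : Submodule O L := Submodule.span O ((fun g => (q g).1 0 1) '' T)
  let M₂ : Submodule O L := Submodule.span O (w '' T)
  let M₃ : Submodule O L := Submodule.span O (z '' T) ⊔ M₂ * M₁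
  have h1 : M₁.FG := Submodule.fg_span (hT.image _)
  have h2 : M₂.FG := Submodule.fg_span (hT.image _)
  have h3 : M₃.FG := (Submodule.fg_span (hT.image _)).sup (h2.mul h1)
  have f1 : Module.Finite O M₁ := Module.Finite.iff_fg.2 h1
  have f2 : Module.Finite O M₂ := Module.Finite.iff_fg.2 h2
  have f3 : Module.Finite O M₃ := Module.Finite.iff_fg.2 h3
  refine ⟨O, M₁, M₂, M₃, Module.Finite.trans O M₁, Module.Finite.trans O M₂,
    Module.Finite.trans O M₃, ?_⟩
  let P : S → Prop := fun g => (q g).1 0 0 ∈ O ∧ (q g).1 1 1 ∈ O ∧ (q g).1 0 1 ∈ M₁ ∧ w g ∈ M₂ ∧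
    z g ∈ M₃
  have hP : ∀ g ∈ T, P g := fun g hg => ⟨Algebra.subset_adjoin (Or.inl ⟨g, hg, rfl⟩),
    Algebra.subset_adjoin (Or.inr ⟨g, hg, rfl⟩), Submodule.subset_span ⟨g, hg, rfl⟩,
    Submodule.subset_span ⟨g, hg, rfl⟩,
    Submodule.mem_sup_left (Submodule.subset_span ⟨g, hg, rfl⟩)⟩
  have hone : P 1 := by
    have e1 : w 1 = 0 := by
      have := hw 1 1
      rw [H80.one_ij, Matrix.one_apply_eq, mul_one, mul_one] at this
      linear_combination -this
    have e2 : z 1 = 0 := by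
      have := hz 1 1
      rw [H80.one_ij, H80.one_ij, Matrix.one_apply_eq, Matrix.one_apply_ne (by decide), mul_one,
        mul_one, mul_zero] at this
      linear_combination -this
    refine ⟨?_, ?_, ?_, ?_, ?_⟩
    · rw [H80.one_ij, Matrix.one_apply_eq]
      exact O.one_mem
    · rw [H80.one_ij, Matrix.one_apply_eq]
      exact O.one_mem
    · rw [H80.one_ij, Matrix.one_apply_ne (by decide)]
      exact M₁.zero_mem
    · rw [e1]
      exact M₂.zero_mem
    · rw [e2]
      exact M₃.zero_mem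
  have hmul : ∀ g h : S, P g → P h → P (g * h) := by
    rintro g h ⟨g1, g2, g3, g4, g5⟩ ⟨h1, h2, h3, h4, h5⟩
    refine ⟨?_, ?_, ?_, ?_, ?_⟩
    · rw [H80.mul00 q htri]
      exact O.mul_mem g1 h1
    · rw [H80.mul11 q htri]
      exact O.mul_mem g2 h2
    · rw [H80.mul01]
      refine M₁.add_mem (M₁.smul_mem (⟨_, g1⟩ : O) h3) ?_
      rw [mul_comm]
      exact M₁.smul_mem (⟨_, h2⟩ : O) g3
    · rw [hw, mul_comm]
      exact M₂.add_mem (M₂.smul_mem (⟨_, h1⟩ : O) g4) h4
    · rw [hz]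
      refine M₃.add_mem (M₃.add_mem ?_ ?_) h5
      · exact Submodule.mem_sup_right (Submodule.mul_mem_mul g4 h3)
      · rw [mul_comm]
        exact M₃.smul_mem (⟨_, h2⟩ : O) g5
  have key : ∀ g ∈ Subgroup.closure (S₀ : Set S), P g ∧ P g⁻¹ := by
    intro g hg
    induction hg using Subgroup.closure_induction with
    | mem s hs => exact ⟨hP s (Or.inl hs), hP _ (Or.inr ⟨s, hs, rfl⟩)⟩
    | one =>
      rw [inv_one]
      exact ⟨hone, hone⟩
    | mul g h _ _ hg hh =>
      rw [_root_.mul_inv_rev]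
      exact ⟨hmul _ _ hg.1 hh.1, hmul _ _ hh.2 hg.2⟩
    | inv g _ hg =>
      rw [inv_inv]
      exact ⟨hg.2, hg.1⟩
  exact fun g => (key g (by rw [hS]; exact Subgroup.mem_top g)).1.2.2

/-- Finitely generated triangular affine groups with integral diagonal entries are virtually
poly-`ℤ`. -/
theorem pz_tri [hfg : Group.FG S] (htri : ∀ g, (q g).1 1 0 = 0)
    (ha : ∀ g, IsIntegral ℤ ((q g).1 0 0)) (hd : ∀ g, IsIntegral ℤ ((q g).1 1 1))
    (hw : ∀ s t, w (s * t) = w s * (q t).1 0 0 + w t)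
    (hz : ∀ s t, z (s * t) = w s * (q t).1 0 1 + z s * (q t).1 1 1 + z t)
    (hinj : ∀ s, q s = 1 → w s = 0 → z s = 0 → s = 1) :
    ∃ H : Subgroup S, H.Normal ∧ H.FiniteIndex ∧ ∃ m, PZ m H := by
  obtain ⟨O, M₁, M₂, M₃, f1, f2, f3, hmem⟩ := exists_mods q w z htri ha hd hw hz
  have t1 := tf_sub O M₁
  have t2 := tf_sub O M₂
  have t3 := tf_sub O M₃
  let Q := ((H80.dg0 q htri).toHomUnits.prod (H80.dg1 q htri).toHomUnits)
  have h0 : ∀ g : S, Q g = 1 → (q g).1 0 0 = 1 ∧ (q g).1 1 1 = 1 := fun g hg =>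
    ⟨congrArg (fun x : Lˣ × Lˣ => (x.1 : L)) hg, congrArg (fun x : Lˣ × Lˣ => (x.2 : L)) hg⟩
  have hker : ∀ g : Q.rangeRestrict.ker, (q g.1).1 0 0 = 1 ∧ (q g.1).1 1 1 = 1 := fun g =>
    h0 g.1 (congrArg Subtype.val g.2)
  let c : Q.rangeRestrict.ker →* Multiplicative (M₁ × M₂) :=
    MonoidHom.mk' (fun g => Multiplicative.ofAdd (⟨_, (hmem g.1).1⟩, ⟨_, (hmem g.1).2.1⟩))
      fun g h => by
        refine congrArg Multiplicative.ofAdd (Prod.ext (Subtype.ext ?_) (Subtype.ext ?_))
        · show (q (g.1 * h.1)).1 0 1 = (q g.1).1 0 1 + (q h.1).1 0 1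
          rw [H80.mul01, (hker g).1, (hker h).2]
          ring
        · show w (g.1 * h.1) = w g.1 + w h.1
          rw [hw, (hker h).1, mul_one]
  have hc : ∀ g : c.ker, (q g.1.1).1 0 1 = 0 ∧ w g.1.1 = 0 := by
    intro g
    have h1 : c g.1 = 1 := g.2
    have h2 : ((⟨_, (hmem g.1.1).1⟩, ⟨_, (hmem g.1.1).2.1⟩) : M₁ × M₂) = 0 :=
      Multiplicative.ofAdd.injective h1
    exact ⟨congrArg (fun x : M₁ × M₂ => (x.1 : L)) h2, congrArg (fun x : M₁ × M₂ => (x.2 : L)) h2⟩
  let c' : c.ker →* Multiplicative M₃ :=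
    MonoidHom.mk' (fun g => Multiplicative.ofAdd ⟨_, (hmem g.1.1).2.2⟩) fun g h => by
      refine congrArg Multiplicative.ofAdd (Subtype.ext ?_)
      show z (g.1.1 * h.1.1) = z g.1.1 + z h.1.1
      rw [hz, (hc g).2, (hker h.1).2, zero_mul, zero_add, mul_one]
  have h3 : PZ 0 c'.ker := by
    refine ⟨fun x y => ?_⟩
    have key : ∀ x : c'.ker, x.1.1.1 = 1 := by
      intro x
      have h1 : c' x.1 = 1 := x.2
      have h2 : (⟨_, (hmem x.1.1.1).2.2⟩ : M₃) = 0 := Multiplicative.ofAdd.injective h1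
      refine hinj _ ?_ (hc x.1).2 (congrArg Subtype.val h2)
      refine Units.ext (Matrix.ext fun i j => ?_)
      rw [Units.val_one]
      fin_cases i <;> fin_cases j
      · exact (hker x.1.1).1.trans (Matrix.one_apply_eq _).symm
      · exact (hc x.1).1.trans (Matrix.one_apply_ne (by decide)).symm
      · exact (htri _).trans (Matrix.one_apply_ne (by decide)).symm
      · exact (hker x.1.1).2.trans (Matrix.one_apply_eq _).symm
    exact Subtype.ext (Subtype.ext (Subtype.ext ((key x).trans (key y).symm)))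
  obtain ⟨m, h4⟩ := PZ.ext_add 0 M₃ c' h3
  obtain ⟨m', h5⟩ := PZ.ext_add m (M₁ × M₂) c h4
  exact PZ.finite m' Q.range Q.rangeRestrict h5

end

/-- The constant terms of the components. -/
noncomputable def cst₀ (K : Type u) [Field K] (φ : AP.affS K) : Fin 2 → K :=
  fun i => MvPolynomial.coeff 0 (φ.1 (MvPolynomial.X i))

theorem cst₀_mul {K : Type u} [Field K] (φ ψ : AP.affS K) :
    cst₀ K (φ * ψ) = vecMul (cst₀ K φ) (AP.lin K ψ).1 + cst₀ K ψ := by
  funext i
  show MvPolynomial.coeff 0 ((φ.1 * ψ.1) (MvPolynomial.X i)) = _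
  rw [AlgEquiv.mul_apply]
  conv_lhs => rw [AP.exists_lin (ψ.2 i).1]
  rw [AP.au_lin, MvPolynomial.coeff_add, MvPolynomial.coeff_add, MvPolynomial.coeff_C_mul,
    MvPolynomial.coeff_C_mul, MvPolynomial.coeff_zero_C, Pi.add_apply, vecMul, dotProduct,
    Fin.sum_univ_two]
  show _ = MvPolynomial.coeff 0 (φ.1 (MvPolynomial.X 0)) *
    MvPolynomial.coeff (Finsupp.single 0 1) (ψ.1 (MvPolynomial.X i)) +
    MvPolynomial.coeff 0 (φ.1 (MvPolynomial.X 1)) *
    MvPolynomial.coeff (Finsupp.single 1 1) (ψ.1 (MvPolynomial.X i)) +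
    MvPolynomial.coeff 0 (ψ.1 (MvPolynomial.X i))
  ring

theorem eq_one_of {K : Type u} [Field K] (φ : AP.affS K) (h1 : AP.lin K φ = 1)
    (h2 : cst₀ K φ = 0) : φ = 1 := by
  have h3 : ∀ k i, MvPolynomial.coeff (Finsupp.single k 1) (φ.1 (MvPolynomial.X i)) =
      (1 : Matrix (Fin 2) (Fin 2) K) k i := fun k i => by
    rw [← AP.lin_apply, h1]
    rfl
  have h4 : ∀ i, MvPolynomial.coeff 0 (φ.1 (MvPolynomial.X i)) = 0 := fun i => congrFun h2 i
  refine Subtype.ext (AP.au_ext ?_ ?_)
  · rw [AP.exists_lin (φ.2 0).1, h3, h3, h4, Matrix.one_apply_eq,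
      Matrix.one_apply_ne (by decide), MvPolynomial.C_1, one_mul, MvPolynomial.C_0, zero_mul,
      add_zero, add_zero]
    rfl
  · rw [AP.exists_lin (φ.2 1).1, h3, h3, h4, Matrix.one_apply_eq,
      Matrix.one_apply_ne (by decide), MvPolynomial.C_1, one_mul, MvPolynomial.C_0, zero_mul,
      zero_add, add_zero]
    rfl

/-- AFE for finitely generated groups. -/
theorem afe_fg (hT : TfeStatement.{u}) (K : Type u) [Field K] [CharZero K] (S : Type u) [Group S]
    [Group.FG S] (htf : TorsionFree S) (χ : S →* AP.affS K) (hχ : Function.Injective χ)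
    (ht : ∀ g, IsIntegral ℤ (AP.lin K (χ g)).1.trace)
    (hd : ∀ g, IsIntegral ℤ (AP.lin K (χ g)).1.det)
    (hc : ∀ c ∈ commutator S, (AP.lin K (χ c)).1.trace = 2) : InN S := by
  let ι : K →+* AlgebraicClosure K := algebraMap K (AlgebraicClosure K)
  have hcz : CharZero (AlgebraicClosure K) := charZero_of_injective_algebraMap ι.injective
  let q₀ : S →* GL (Fin 2) (AlgebraicClosure K) :=
    (GeneralLinearGroup.map ι).comp ((AP.lin K).comp χ)
  have hq₀ : ∀ s, (q₀ s).1 = (AP.lin K (χ s)).1.map ι := fun s => rfl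
  have htr : ∀ s, (q₀ s).1.trace = ι (AP.lin K (χ s)).1.trace := fun s => by
    rw [Matrix.trace_fin_two, Matrix.trace_fin_two, map_add]
    rfl
  have hdt : ∀ s, (q₀ s).1.det = ι (AP.lin K (χ s)).1.det := fun s => by
    rw [Matrix.det_fin_two, Matrix.det_fin_two, map_sub, map_mul, map_mul]
    rfl
  obtain ⟨P, hP⟩ := H80.tri_two q₀ fun c h => by rw [htr, hc c h, map_ofNat]
  let q : S →* GL (Fin 2) (AlgebraicClosure K) :=
    MonoidHom.mk' (fun s => P⁻¹ * q₀ s * P) fun a b => by
      rw [map_mul]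
      group
  have hq : ∀ s, q₀ s * P = P * q s := fun s => by
    show q₀ s * P = P * (P⁻¹ * q₀ s * P)
    group
  have htq : ∀ s, (q s).1.trace = (q₀ s).1.trace := by
    intro s
    show Matrix.trace ((P⁻¹ * q₀ s * P : GL (Fin 2) (AlgebraicClosure K)).1) = _
    rw [Units.val_mul, Units.val_mul, Matrix.trace_mul_comm, ← Matrix.mul_assoc, ← Units.val_mul,
      mul_inv_cancel, Units.val_one, Matrix.one_mul]
  have hdq : ∀ s, (q s).1.det = (q₀ s).1.det := by
    intro s
    show Matrix.det ((P⁻¹ * q₀ s * P : GL (Fin 2) (AlgebraicClosure K)).1) = _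
    have h1 : (P⁻¹).1.det * P.1.det = 1 := by
      rw [← Matrix.det_mul, ← Units.val_mul, inv_mul_cancel, Units.val_one, Matrix.det_one]
    rw [Units.val_mul, Units.val_mul, Matrix.det_mul, Matrix.det_mul]
    linear_combination (q₀ s).1.det * h1
  have hIt : ∀ s, IsIntegral ℤ (q s).1.trace := fun s => by
    rw [htq, htr]
    exact (ht s).map (ι : K →+* AlgebraicClosure K).toIntAlgHom
  have hId : ∀ s, IsIntegral ℤ (q s).1.det := fun s => by
    rw [hdq, hdt]
    exact (hd s).map (ι : K →+* AlgebraicClosure K).toIntAlgHom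
  have hQ : ∀ s, (q s).1 1 0 = 0 := hP
  have ha : ∀ s, IsIntegral ℤ ((q s).1 0 0) := fun s => by
    refine H80.isIntegral_root (hIt s) (hId s) ?_
    rw [Matrix.trace_fin_two, Matrix.det_fin_two, hQ]
    ring
  have hd' : ∀ s, IsIntegral ℤ ((q s).1 1 1) := fun s => by
    refine H80.isIntegral_root (hIt s) (hId s) ?_
    rw [Matrix.trace_fin_two, Matrix.det_fin_two, hQ]
    ring
  let c : S → Fin 2 → AlgebraicClosure K := fun s i => ι (cst₀ K (χ s) i)
  let r : S → Fin 2 → AlgebraicClosure K := fun s => vecMul (c s) P.1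
  have hcm : ∀ s t, c (s * t) = vecMul (c s) (q₀ t).1 + c t := by
    intro s t
    funext i
    show ι (cst₀ K (χ (s * t)) i) = _
    rw [map_mul, cst₀_mul, Pi.add_apply, Pi.add_apply, map_add, vecMul, vecMul, dotProduct,
      dotProduct, Fin.sum_univ_two, Fin.sum_univ_two, map_add, map_mul, map_mul]
    rfl
  have hrm : ∀ s t, r (s * t) = vecMul (r s) (q t).1 + r t := by
    intro s t
    show vecMul (c (s * t)) P.1 = vecMul (vecMul (c s) P.1) (q t).1 + vecMul (c t) P.1
    rw [hcm, Matrix.add_vecMul, Matrix.vecMul_vecMul, Matrix.vecMul_vecMul, ← Units.val_mul,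
      ← Units.val_mul, hq]
  have hrm' : ∀ s t i, r (s * t) i = r s 0 * (q t).1 0 i + r s 1 * (q t).1 1 i + r t i := by
    intro s t i
    rw [hrm, Pi.add_apply, vecMul, dotProduct, Fin.sum_univ_two]
  obtain ⟨H, hN, hF, m, hm⟩ := pz_tri q (fun s => r s 0) (fun s => r s 1) hQ ha hd'
    (fun s t => by
      show r (s * t) 0 = r s 0 * (q t).1 0 0 + r t 0
      rw [hrm', hQ, mul_zero, add_zero])
    (fun s t => hrm' s t 1) (fun s h1 h2 h3 => by
      have e1 : q₀ s = 1 := by
        have := hq s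
        rw [h1, mul_one] at this
        exact mul_eq_right.1 this
      have e2 : AP.lin K (χ s) = 1 := by
        refine Units.ext (Matrix.ext fun i j => ι.injective ?_)
        have := congrArg (fun x : GL (Fin 2) (AlgebraicClosure K) => x.1 i j) e1
        rw [Units.val_one]
        refine Eq.trans this ?_
        show (1 : Matrix (Fin 2) (Fin 2) (AlgebraicClosure K)) i j = _
        rw [Matrix.one_apply, Matrix.one_apply]
        split_ifs
        · exact (map_one ι).symm
        · exact (map_zero ι).symm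
      have e3 : r s = 0 := by
        funext i
        fin_cases i
        · exact h2
        · exact h3
      have e4 : c s = 0 := by
        have h4 : vecMul (r s) (P⁻¹).1 = c s := by
          show vecMul (vecMul (c s) P.1) (P⁻¹).1 = c s
          rw [Matrix.vecMul_vecMul, ← Units.val_mul, mul_inv_cancel, Units.val_one,
            Matrix.vecMul_one]
        rw [← h4, e3, Matrix.zero_vecMul]
      have e5 : cst₀ K (χ s) = 0 := funext fun i =>
        ι.injective ((congrFun e4 i).trans (map_zero ι).symm)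
      exact hχ ((eq_one_of _ e2 e5).trans (map_one χ).symm))
  exact hT S htf H m hF hm

/-- AFE. Torsionfree groups of affine automorphisms such that the linear parts have integral traces
and determinants and the linear parts of the commutators have trace `2`. -/
theorem afe (hT : TfeStatement.{u}) (K : Type u) [Field K] [CharZero K] (S : Type u) [Group S]
    (htf : TorsionFree S) (χ : S →* AP.affS K) (hχ : Function.Injective χ)
    (ht : ∀ g, IsIntegral ℤ (AP.lin K (χ g)).1.trace)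
    (hd : ∀ g, IsIntegral ℤ (AP.lin K (χ g)).1.det)
    (hc : ∀ c ∈ commutator S, (AP.lin K (χ c)).1.trace = 2) : InRC S := by
  refine ((main.{u}).2.2.2.1 S).2.2.2.2.2.1 fun T => ⟨Subgroup.closure (T : Set S),
    fun s hs => Subgroup.subset_closure hs, inRC_of_inN ?_⟩
  refine afe_fg hT K _ (fun g n hn h => Subtype.ext (htf g.1 n hn (congrArg Subtype.val h)))
    (χ.comp (Subgroup.subtype _)) (hχ.comp Subtype.val_injective) (fun g => ht g.1)
    (fun g => hd g.1) fun c hcc => hc c.1 ?_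
  have h1 : (Subgroup.closure (T : Set S)).subtype c ∈
      (commutator (Subgroup.closure (T : Set S))).map (Subgroup.closure (T : Set S)).subtype :=
    ⟨c, hcc, rfl⟩
  rw [commutator_def, Subgroup.map_commutator] at h1
  exact Subgroup.commutator_mono le_top le_top h1

end Pool.Agent.NegK.PL
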