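import Pool.Agent.Lib.MP_28303a_al.PL.PGS0
import Pool.Agent.Lib.MP_28303a_al.PL.AFE
import Pool.Agent.Lib.MP_28303a_al.P2.Main
import Pool.Agent.Lib.MP_28303a_al.NT.H70.Rig
import Pool.Agent.Lib.MP_28303a_al.AP.Emb

/-! # Torsionfree subgroups of `PGL₂` over rigid fields with integral traces -/

set_option autoImplicit false
set_option linter.unusedSectionVars false
set_option linter.unusedVariables false

namespace Pool.Agent.NegK.PL

universe u

open Matrix
open scoped MatrixGroups
open Pool.Agent.NegK.TW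
open Pool.Agent.NegK.TT
open Pool.Agent.NegK.NT
open P2 (scalar_of_mk mk_of_scalar lft)

/-- FVF: torsionfree groups with a normal subgroup of finite index that acts freely on a tree. -/
def FvfStatement : Prop :=
  ∀ (S : Type u) [Group S], TorsionFree S → ∀ (H : Subgroup S) [H.Normal] [H.FiniteIndex]
    (V : Type u) [MulAction H V] (G : SimpleGraph V), TreeAct H G →
    (∀ (v : V) (h : H), h • v = v → h = 1) → InRC S

/-- PGS: the elliptic subgroups of `PGL₂(K)`, `K` a rigid field. -/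
def PgsStatement : Prop :=
  ∀ (K : Type u) [Field K], NT.H70.Rig K → ∀ (S : Type u) [Group S], TorsionFree S →
    ∀ χ : S →* PGL(Fin 2, K), Function.Injective χ →
    (∀ (s : S) (A : GL (Fin 2) K), ProjGenLinGroup.mk A = χ s →
      ∃ z : ℤ, A.1.trace ^ 2 = (z : K) * A.1.det) → InRC S

namespace PGS

/-- The lift for groups whose elements have square determinants. -/
theorem exists_lift' {K : Type u} [Field K] {Γ : Type u} [Group Γ]
    (ψ : Γ →* PGL(Fin 2, K))
    (hsq : ∀ γ, ∃ A : GL (Fin 2) K, ProjGenLinGroup.mk A = ψ γ ∧ ∃ r : K, r ^ 2 = (A.1.det)⁻¹) :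
    ∃ (Δ : Type u) (_ : Group Δ) (π : Δ →* Γ) (q : Δ →* GL (Fin 2) K) (z : Δ),
      Function.Surjective π ∧ (∀ g, (q g).1.det = 1) ∧
      (∀ g, ProjGenLinGroup.mk (q g) = ψ (π g)) ∧ π z = 1 ∧ (q z).1 = -1 ∧
      (∀ g, π g = 1 → g = 1 ∨ g = z) ∧ Finite π.ker ∧ (Group.FG Γ → Group.FG Δ) := by
  classical
  let π : lft ψ →* Γ := (MonoidHom.fst _ _).comp (lft ψ).subtype
  let q : lft ψ →* GL (Fin 2) K := (MonoidHom.snd _ _).comp (lft ψ).subtype
  have hπ : Function.Surjective π := by
    intro γ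
    obtain ⟨A, hA, r, hr⟩ := hsq γ
    have h2 : A.1.det ≠ 0 := ((Matrix.isUnit_iff_isUnit_det _).1 A.isUnit).ne_zero
    have hr0 : r ≠ 0 := by
      rintro rfl
      rw [zero_pow two_ne_zero] at hr
      exact inv_ne_zero h2 hr.symm
    let c : GL (Fin 2) K := GeneralLinearGroup.scalar (Fin 2) (Units.mk0 r hr0)
    have hc : c.1.det = r ^ 2 := by
      rw [Matrix.det_fin_two]
      simp [c, Matrix.GeneralLinearGroup.coe_scalar, sq]
    refine ⟨⟨(γ, A * c), ?_, ?_⟩, rfl⟩
    · show ProjGenLinGroup.mk (A * c) = ψ γ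
      rw [map_mul, ProjGenLinGroup.mk_scalar, mul_one]
      exact hA
    · show (A * c).1.det = 1
      rw [Units.val_mul, Matrix.det_mul, hc, hr, mul_inv_cancel₀ h2]
  let m1 : GL (Fin 2) K := -1
  have hm1 : m1.1 = -1 := rfl
  have hz : ((1, m1) : Γ × GL (Fin 2) K) ∈ lft ψ := by
    refine ⟨?_, ?_⟩
    · show ProjGenLinGroup.mk m1 = ψ 1
      rw [map_one]
      refine mk_of_scalar (-1) fun i j => ?_
      rw [hm1, Matrix.neg_apply, Matrix.one_apply]
      split_ifs <;> simp
    · show m1.1.det = 1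
      rw [hm1, Matrix.det_fin_two]
      simp
  let z : lft ψ := ⟨_, hz⟩
  have hker : ∀ g : lft ψ, π g = 1 → g = 1 ∨ g = z := by
    rintro ⟨⟨γ, A⟩, h1, h2⟩ h3
    have h3' : γ = 1 := h3
    subst h3'
    have h1' : ProjGenLinGroup.mk A = 1 := by
      have : ProjGenLinGroup.mk A = ψ 1 := h1
      rw [this, map_one]
    obtain ⟨c, hc, hA⟩ := scalar_of_mk h1'
    have h2' : A.1.det = 1 := h2
    rw [Matrix.det_fin_two, hA, hA, hA, hA] at h2'
    have h4 : c ^ 2 = 1 := by
      simpa [sq] using h2'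
    rcases sq_eq_one_iff.1 h4 with h5 | h5
    · refine Or.inl (Subtype.ext (Prod.ext rfl (Units.ext (Matrix.ext fun i j => ?_))))
      show A.1 i j = (1 : Matrix (Fin 2) (Fin 2) K) i j
      rw [hA, h5, Matrix.one_apply]
    · refine Or.inr (Subtype.ext (Prod.ext rfl (Units.ext (Matrix.ext fun i j => ?_))))
      show A.1 i j = m1.1 i j
      rw [hA, h5, hm1, Matrix.neg_apply, Matrix.one_apply]
      split_ifs <;> simp
  have hfin : Finite π.ker := by
    have h1 : (π.ker : Set (lft ψ)) ⊆ {1, z} := by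
      intro g hg
      exact hker g hg
    exact ((Set.toFinite {1, z}).subset h1).to_subtype
  refine ⟨lft ψ, inferInstance, π, q, z, hπ, fun g => g.2.2, fun g => g.2.1, rfl, hm1, hker,
    hfin, fun hfg => ?_⟩
  obtain ⟨S, hS⟩ := hfg.out
  choose l hl using hπ
  refine ⟨⟨S.image l ∪ {z}, ?_⟩⟩
  rw [eq_top_iff]
  intro g _
  let H := Subgroup.closure ((S.image l ∪ {z} : Finset (lft ψ)) : Set (lft ψ))
  have hz' : z ∈ H := Subgroup.subset_closure (by simp)
  have h1 : H.map π = ⊤ := by
    rw [eq_top_iff, ← hS, Subgroup.closure_le]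
    intro s hs
    exact ⟨l s, Subgroup.subset_closure (by
      rw [Finset.coe_union, Finset.coe_image]
      exact Or.inl ⟨s, hs, rfl⟩), hl s⟩
  have h2 : π g ∈ H.map π := by
    rw [h1]
    trivial
  obtain ⟨h, hh, hgh⟩ := h2
  have h3 : π (h⁻¹ * g) = 1 := by
    rw [map_mul, map_inv, hgh, inv_mul_cancel]
  have h4 : g = h * (h⁻¹ * g) := by rw [mul_inv_cancel_left]
  rw [h4]
  refine H.mul_mem hh ?_
  rcases hker _ h3 with h5 | h5
  · rw [h5]
    exact H.one_mem
  · rw [h5]
    exact hz'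


/-- The subgroup of the elements with a square determinant. -/
theorem exists_sq {K : Type u} [Field K] {S : Type u} [Group S] [hfg : Group.FG S]
    (χ : S →* PGL(Fin 2, K)) : ∃ S₁ : Subgroup S, S₁.Normal ∧ S₁.FiniteIndex ∧
      ∀ s ∈ S₁, ∃ A : GL (Fin 2) K, ProjGenLinGroup.mk A = χ s ∧ ∃ r : K, r ^ 2 = (A.1.det)⁻¹ := by
  let sq : Subgroup Kˣ := (powMonoidHom 2 : Kˣ →* Kˣ).range
  obtain ⟨δ, hδ⟩ := H80.descend (ProjGenLinGroup.mk (n := Fin 2) (R := K))
    ProjGenLinGroup.mk_surjective ((QuotientGroup.mk' sq).comp GeneralLinearGroup.det)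
    (fun g hg => by
      obtain ⟨c, hc, hA⟩ := scalar_of_mk hg
      refine (QuotientGroup.eq_one_iff _).2 ⟨Units.mk0 c hc, Units.ext ?_⟩
      show c ^ 2 = g.1.det
      rw [Matrix.det_fin_two, hA, hA, hA, hA]
      simp
      ring)
  let f : S →* Kˣ ⧸ sq := δ.comp χ
  have h2 : ∀ x : Kˣ ⧸ sq, x ^ 2 = 1 := by
    intro x
    induction x using QuotientGroup.induction_on with
    | H u => exact (QuotientGroup.eq_one_iff _).2 ⟨u, rfl⟩
  have hfin : Finite f.range := by
    have h3 : Group.FG f.range := inferInstance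
    refine CommGroup.finite_of_fg_isMulTorsion _ fun x => ?_
    rw [isOfFinOrder_iff_pow_eq_one]
    exact ⟨2, two_pos, Subtype.ext (h2 x.1)⟩
  refine ⟨f.ker, inferInstance, Subgroup.finiteIndex_ker f, fun s hs => ?_⟩
  obtain ⟨A, hA⟩ := ProjGenLinGroup.mk_surjective (χ s)
  refine ⟨A, hA, ?_⟩
  have h3 : δ (ProjGenLinGroup.mk A) = 1 := by
    rw [hA]
    exact hs
  rw [hδ] at h3
  obtain ⟨u, hu⟩ := (QuotientGroup.eq_one_iff _).1 h3
  refine ⟨((u⁻¹ : Kˣ) : K), ?_⟩
  have h4 : (u : K) ^ 2 = A.1.det := congrArg Units.val hu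
  rw [← h4, Units.val_inv_eq_inv_val, inv_pow]

/-- Poly-`ℤ` groups are torsionfree. -/
theorem pz_tf : ∀ (n : ℕ) (G : Type u) [Group G], PZ n G → TorsionFree G
  | 0, G, _, h => fun g n _ _ => by
    have : Subsingleton G := h
    exact Subsingleton.elim _ _
  | m + 1, G, _, ⟨φ, h⟩ => fun g n hn hg => by
    have h1 : φ g = 1 := by
      have h2 : φ g ^ n = 1 := by rw [← map_pow, hg, map_one]
      have h3 : n • (φ g).toAdd = 0 := congrArg Multiplicative.toAdd h2
      rcases smul_eq_zero.1 h3 with h4 | h4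
      · omega
      · exact Multiplicative.toAdd.injective h4
    exact congrArg Subtype.val (pz_tf m _ h ⟨g, h1⟩ n hn (Subtype.ext hg))

section

variable {K : Type u} [Field K] (hK : NT.H70.Rig K) {S : Type u} [Group S] (htf : TorsionFree S)
  (S₁ : Subgroup S) [S₁.Normal] [S₁.FiniteIndex] {Δ : Type u} [Group Δ] (π : Δ →* S₁)
  (q : Δ →* GL (Fin 2) K) (z : Δ) (hπ : Function.Surjective π) (hd : ∀ g, (q g).1.det = 1)
  (hz : π z = 1) (hz' : (q z).1 = -1) (hker : ∀ g, π g = 1 → g = 1 ∨ g = z)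
  (hq : Function.Injective q) (ht : ∀ g, ∃ t : ℤ, (q g).1.trace = t)

include hK hz' hq hz in
theorem z_facts : z ≠ 1 ∧ z * z = 1 ∧ ∀ g, g * z = z * g := by
  have := hK.char
  have h1 : ∀ g, q (g * z) = q (z * g) := by
    intro g
    refine Units.ext ?_
    rw [map_mul, map_mul, Units.val_mul, Units.val_mul, hz', mul_neg, neg_mul, mul_one, one_mul]
  refine ⟨?_, ?_, fun g => hq (h1 g)⟩
  · rintro rfl
    rw [map_one, Units.val_one] at hz'
    have h2 := congrFun (congrFun hz' 0) 0
    rw [Matrix.neg_apply, Matrix.one_apply_eq] at h2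
    have h3 : (2 : K) = 0 := by linear_combination h2
    exact two_ne_zero h3
  · apply hq
    refine Units.ext ?_
    rw [map_mul, map_one, Units.val_mul, hz', Units.val_one]
    simp

include hK htf hπ hd hz hz' hker hq ht in
/-- The irreducible case. -/
theorem caseA (hF : FvfStatement.{u}) (x y : Δ) (hxy : (q (x * y * x⁻¹ * y⁻¹)).1.trace ≠ 2) :
    InRC S := by
  have := hK.char
  obtain ⟨θ, hθ⟩ := AP.Emb.emb3 hK q hq ht (fun h => Or.inl (hd h)) x y hxy
  obtain ⟨z1, z2, z3⟩ := z_facts hK S₁ π q z hz hz' hq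
  -- the image of `z` is scalar
  have hs : (θ z).1 0 1 = 0 ∧ (θ z).1 1 0 = 0 ∧ (θ z).1 0 0 = (θ z).1 1 1 := by
    by_contra hm
    have h1 := comm_of_comm (x := θ x) (y := θ y) (m := θ z) (by rw [← map_mul, z3, map_mul])
      (by rw [← map_mul, z3, map_mul]) hm
    rw [← map_mul, ← map_mul] at h1
    have h2 := hθ h1
    apply hxy
    rw [h2, mul_inv_cancel_right, mul_inv_cancel, map_one, Units.val_one, Matrix.trace_one]
    simp
  -- the action on the forms
  let F : Δ →* Equiv.Perm (ULift.{u} NT5.Fm) :=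
    { toFun := fun g =>
        { toFun := fun w => ⟨θ g • w.down⟩
          invFun := fun w => ⟨θ g⁻¹ • w.down⟩
          left_inv := fun w => ULift.ext _ _ (by
            show θ g⁻¹ • θ g • w.down = w.down
            rw [← mul_smul, ← map_mul, inv_mul_cancel, map_one, one_smul])
          right_inv := fun w => ULift.ext _ _ (by
            show θ g • θ g⁻¹ • w.down = w.down
            rw [← mul_smul, ← map_mul, mul_inv_cancel, map_one, one_smul]) }
      map_one' := Equiv.ext fun w => ULift.ext _ _ (by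
        show θ 1 • w.down = w.down
        rw [map_one, one_smul])
      map_mul' := fun g h => Equiv.ext fun w => ULift.ext _ _ (by
        show θ (g * h) • w.down = θ g • θ h • w.down
        rw [map_mul, mul_smul]) }
  obtain ⟨F', hF'⟩ := H80.descend π hπ F fun g hg => by
    rcases hker g hg with rfl | rfl
    · exact map_one F
    · refine Equiv.ext fun w => ULift.ext _ _ ?_
      exact smul_scalar hs w.down
  let act : MulAction S₁ (ULift.{u} NT5.Fm) := MulAction.compHom _ F'
  have hact : ∀ (g : Δ) (w : ULift.{u} NT5.Fm), π g • w = ⟨θ g • w.down⟩ := by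
    intro g w
    show F' (π g) w = _
    rw [hF']
    rfl
  have hfree : ∀ (w : ULift.{u} NT5.Fm) (h : S₁), h • w = w → h = 1 := by
    intro w h hh
    obtain ⟨g, rfl⟩ := hπ h
    rw [hact] at hh
    obtain ⟨n, hn, h1⟩ := NT5.Fm.order_fixG (g := θ g) (q := w.down) (congrArg ULift.down hh)
    rw [← map_pow] at h1
    have h2 : g ^ n = 1 := hθ (h1.trans (map_one θ).symm)
    refine Subtype.ext (htf _ n hn ?_)
    have h3 : (π g) ^ n = 1 := by rw [← map_pow, h2, map_one]
    exact congrArg Subtype.val h3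
  have htr : TreeAct S₁ NT5.grf.{u} := by
    refine ⟨NT5.grf_isTree, fun h w w' hw => ?_, fun h w w' hw hc => ?_⟩
    · obtain ⟨g, rfl⟩ := hπ h
      rw [hact, hact]
      show NT5.Fm.P (θ g • w.down) (θ g • w'.down) = 5
      rw [NT5.Fm.P_smulG]
      exact hw
    · have h1 : (h * h) • w = w := by rw [mul_smul, hc.1, hc.2]
      have h2 : h * h = 1 := hfree w _ h1
      have h3 : h = 1 := Subtype.ext (htf h.1 2 two_pos (by
        rw [pow_two]
        exact congrArg Subtype.val h2))
      rw [h3, one_smul] at hc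
      rw [hc.1] at hw
      exact NT5.grf.loopless.irrefl _ hw
  exact hF S htf S₁ _ NT5.grf htr hfree

include hK htf hπ hd hz hz' hker hq ht in
/-- The triangular case. -/
theorem caseB (hT : TfeStatement.{u}) [hfgΔ : Group.FG Δ]
    (hc : ∀ x y : Δ, (q (x * y * x⁻¹ * y⁻¹)).1.trace = 2) : InN S := by
  have := hK.char
  let ι : K →+* AlgebraicClosure K := algebraMap K (AlgebraicClosure K)
  have hcz : CharZero (AlgebraicClosure K) := charZero_of_injective_algebraMap ι.injective
  let q₀ : Δ →* GL (Fin 2) (AlgebraicClosure K) := (GeneralLinearGroup.map ι).comp q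
  have htr : ∀ s, (q₀ s).1.trace = ι (q s).1.trace := fun s => by
    rw [Matrix.trace_fin_two, Matrix.trace_fin_two, map_add]
    rfl
  have hdt : ∀ s, (q₀ s).1.det = 1 := fun s => by
    have h1 : (q₀ s).1.det = ι (q s).1.det := by
      rw [Matrix.det_fin_two, Matrix.det_fin_two, map_sub, map_mul, map_mul]
      rfl
    rw [h1, hd, map_one]
  obtain ⟨P, hP⟩ := simple_tri q₀ hdt fun x y => by rw [htr, hc, map_ofNat]
  let q' : Δ →* GL (Fin 2) (AlgebraicClosure K) :=
    MonoidHom.mk' (fun s => P⁻¹ * q₀ s * P) fun a b => by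
      rw [map_mul]
      group
  have htq : ∀ s, (q' s).1.trace = (q₀ s).1.trace := by
    intro s
    show Matrix.trace ((P⁻¹ * q₀ s * P : GL (Fin 2) (AlgebraicClosure K)).1) = _
    rw [Units.val_mul, Units.val_mul, Matrix.trace_mul_comm, ← Matrix.mul_assoc, ← Units.val_mul,
      mul_inv_cancel, Units.val_one, Matrix.one_mul]
  have hdq : ∀ s, (q' s).1.det = 1 := by
    intro s
    show Matrix.det ((P⁻¹ * q₀ s * P : GL (Fin 2) (AlgebraicClosure K)).1) = _
    have h1 : (P⁻¹).1.det * P.1.det = 1 := by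
      rw [← Matrix.det_mul, ← Units.val_mul, inv_mul_cancel, Units.val_one, Matrix.det_one]
    rw [Units.val_mul, Units.val_mul, Matrix.det_mul, Matrix.det_mul, hdt, mul_one, h1]
  have hIt : ∀ s, IsIntegral ℤ (q' s).1.trace := fun s => by
    obtain ⟨t, h1⟩ := ht s
    rw [htq, htr, h1, map_intCast]
    exact isIntegral_algebraMap (R := ℤ) (A := AlgebraicClosure K) (x := t)
  have hId : ∀ s, IsIntegral ℤ (q' s).1.det := fun s => by
    rw [hdq]
    exact isIntegral_one
  have hQ : ∀ s, (q' s).1 1 0 = 0 := hP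
  have ha : ∀ s, IsIntegral ℤ ((q' s).1 0 0) := fun s => by
    refine H80.isIntegral_root (hIt s) (hId s) ?_
    rw [Matrix.trace_fin_two, Matrix.det_fin_two, hQ]
    ring
  have hd' : ∀ s, IsIntegral ℤ ((q' s).1 1 1) := fun s => by
    refine H80.isIntegral_root (hIt s) (hId s) ?_
    rw [Matrix.trace_fin_two, Matrix.det_fin_two, hQ]
    ring
  obtain ⟨H, hN, hF, m, hm⟩ := pz_tri q' (fun _ => 0) (fun _ => 0) hQ ha hd'
    (fun s t => by ring) (fun s t => by ring) (fun s h1 _ _ => by
      have e1 : P⁻¹ * q₀ s * P = 1 := h1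
      have e2 : q₀ s = 1 := by
        have e3 : P * (P⁻¹ * q₀ s * P) * P⁻¹ = q₀ s := by group
        rw [← e3, e1]
        group
      refine hq (Units.ext (Matrix.ext fun i j => ι.injective ?_))
      have e4 := congrArg (fun x : GL (Fin 2) (AlgebraicClosure K) => x.1 i j) e2
      rw [map_one, Units.val_one]
      refine Eq.trans e4 ?_
      show (1 : Matrix (Fin 2) (Fin 2) (AlgebraicClosure K)) i j = _
      rw [Matrix.one_apply, Matrix.one_apply]
      split_ifs
      · exact (map_one ι).symm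
      · exact (map_zero ι).symm)
  have htH := pz_tf m H hm
  obtain ⟨z1, z2, z3⟩ := z_facts hK S₁ π q z hz hz' hq
  have hinj : Function.Injective (π.comp H.subtype) := by
    refine (injective_iff_map_eq_one _).2 fun g hg => ?_
    rcases hker g.1 hg with h1 | h1
    · exact Subtype.ext h1
    · refine htH g 2 two_pos (Subtype.ext ?_)
      show g.1 ^ 2 = 1
      rw [h1, pow_two]
      exact z2
  let H₁ : Subgroup S₁ := H.map π
  have hfi : H₁.FiniteIndex :=
    ⟨fun h0 => hF.index_ne_zero (Nat.eq_zero_of_zero_dvd (h0 ▸ Subgroup.index_map_dvd H hπ))⟩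
  let H₂ : Subgroup S := H₁.map S₁.subtype
  have hfi2 : H₂.FiniteIndex := by
    refine ⟨?_⟩
    have h1 : H₂.index = H₁.index * S₁.index := by
      rw [Subgroup.index_map_subtype]
    rw [h1]
    exact mul_ne_zero hfi.index_ne_zero Subgroup.FiniteIndex.index_ne_zero
  have hpz : PZ m H₂ := by
    let e : H →* H₂ := (S₁.subtype.comp (π.comp H.subtype)).codRestrict H₂ fun g =>
      ⟨π g.1, ⟨g.1, g.2, rfl⟩, rfl⟩
    have he : Function.Bijective e := by
      constructor
      · intro a b hab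
        have h2 : (π a.1).1 = (π b.1).1 := congrArg (fun x : H₂ => x.1) hab
        exact hinj (Subtype.ext h2)
      · rintro ⟨_, _, ⟨g, hg, rfl⟩, rfl⟩
        exact ⟨⟨g, hg⟩, rfl⟩
    let e' := MulEquiv.ofBijective e he
    exact PZ.of_injective m e'.symm.toMonoidHom e'.symm.injective hm
  exact hT S htf H₂ m hfi2 hpz

end

end PGS

open PGS in
/-- PGS for finitely generated groups. -/
theorem pgs_fg (hT : TfeStatement.{u}) (hF : FvfStatement.{u}) (K : Type u) [Field K]
    (hK : NT.H70.Rig K) (S : Type u) [Group S] [Group.FG S] (htf : TorsionFree S)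
    (χ : S →* PGL(Fin 2, K)) (hχ : Function.Injective χ)
    (ht : ∀ (s : S) (A : GL (Fin 2) K), ProjGenLinGroup.mk A = χ s →
      ∃ z : ℤ, A.1.trace ^ 2 = (z : K) * A.1.det) : InRC S := by
  obtain ⟨S₁, hn, hfi, hsq⟩ := exists_sq χ
  have hfg1 : Group.FG S₁ := inferInstance
  obtain ⟨Δ, _, π, q, z, hπ, hd, hmk, hz, hz', hker, hfin, hfgΔ⟩ :=
    exists_lift' (χ.comp S₁.subtype) fun s => hsq s.1 s.2
  have hfg2 : Group.FG Δ := hfgΔ hfg1
  have hq : Function.Injective q := by
    refine (injective_iff_map_eq_one _).2 fun g hg => ?_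
    have h1 : χ (π g).1 = 1 := by
      have h2 := hmk g
      rw [hg, map_one] at h2
      exact h2.symm
    have h2 : π g = 1 := Subtype.ext (hχ (h1.trans (map_one χ).symm))
    rcases hker g h2 with h3 | h3
    · exact h3
    · rw [h3] at hg
      rw [hg, Units.val_one] at hz'
      have h4 := congrFun (congrFun hz' 0) 0
      rw [Matrix.neg_apply, Matrix.one_apply_eq] at h4
      have := hK.char
      have h5 : (2 : K) = 0 := by linear_combination h4
      exact absurd h5 two_ne_zero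
  have htr : ∀ g, ∃ t : ℤ, (q g).1.trace = t := by
    intro g
    obtain ⟨t, h1⟩ := ht (π g).1 (q g) (hmk g)
    rw [hd, mul_one] at h1
    have h2 : IsIntegral ℤ (q g).1.trace := by
      refine IsIntegral.of_pow two_pos ?_
      rw [h1]
      exact isIntegral_algebraMap (R := ℤ) (A := K) (x := t)
    exact hK.int _ h2
  by_cases hall : ∀ x y : Δ, (q (x * y * x⁻¹ * y⁻¹)).1.trace = 2
  · exact inRC_of_inN (caseB hK htf S₁ π q z hπ hd hz hz' hker hq htr hT hall)
  · push Not at hall
    obtain ⟨x, y, hxy⟩ := hall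
    exact caseA hK htf S₁ π q z hπ hd hz hz' hker hq htr hF x y hxy

/-- PGS. -/
theorem pgs (hT : TfeStatement.{u}) (hF : FvfStatement.{u}) : PgsStatement.{u} := by
  intro K _ hK S _ htf χ hχ ht
  refine ((main.{u}).2.2.2.1 S).2.2.2.2.2.1 fun T => ⟨Subgroup.closure (T : Set S),
    fun s hs => Subgroup.subset_closure hs, ?_⟩
  exact pgs_fg hT hF K hK _
    (fun g n hn h => Subtype.ext (htf g.1 n hn (congrArg Subtype.val h)))
    (χ.comp (Subgroup.subtype _)) (hχ.comp Subtype.val_injective) fun s A hA => ht s.1 A hA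

end Pool.Agent.NegK.PL
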