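import Pool.Agent.Lib.MP_28303a_al.PL.AFE
import Pool.Agent.Lib.MP_28303a_al.AP.Emb
import Pool.Agent.Lib.MP_28303a_al.AP.Sd

/-!
# Groups of affine automorphisms over rigid fields with integral traces
-/

set_option autoImplicit false
set_option linter.unusedSectionVars false

namespace Pool.Agent.NegK.PL

universe u v

open Matrix
open Pool.Agent.NegK.TW Pool.Agent.NegK.TT Pool.Agent.NegK.NT

namespace RGA

open H22.G (dt mulE ext2 tr_eq dt_eq sq_eq dd dd_comm dt_inv dt_comm nondeg adj_eq tr_smul)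

/-! ### Torsion groups of integral matrices -/

theorem expand {R : Type*} [Ring R] (N : R) (j : ℕ) :
    ∃ S : R, (1 + N) ^ j = 1 + (j : R) * N + N * N * S := by
  induction j with
  | zero => exact ⟨0, by rw [pow_zero, Nat.cast_zero, zero_mul, mul_zero, add_zero, add_zero]⟩
  | succ j ih =>
    obtain ⟨S, hS⟩ := ih
    refine ⟨S + (j : R) + S * N, ?_⟩
    have h1 : (j : R) * N * N = N * N * (j : R) := by
      rw [mul_assoc]
      exact (Nat.cast_commute j (N * N)).eq
    rw [pow_succ, hS, mul_add, mul_one, add_mul, add_mul, one_mul, h1, Nat.cast_succ, mul_add,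
      mul_add, add_mul, one_mul, mul_assoc (N * N) S N]
    abel

section Mink

variable {n : Type*} [Fintype n] [DecidableEq n]

theorem mink_step (Y : Matrix n n ℤ) (p : ℕ) (hp : p.Prime) (k : ℕ)
    (h : (1 + (3 : ℤ) ^ (k + 1) • Y) ^ p = 1) : ∃ Z : Matrix n n ℤ, Y = (3 : ℤ) • Z := by
  obtain ⟨c, hc⟩ : ∃ c : ℤ, (3 : ℤ) ^ (k + 1) = c := ⟨_, rfl⟩
  have hc3 : c = 3 * 3 ^ k := by rw [← hc, pow_succ, mul_comm]
  have hc0 : c ≠ 0 := by
    rw [← hc]
    exact pow_ne_zero _ (by norm_num)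
  rw [hc] at h
  by_cases hp3 : p = 3
  · subst hp3
    have e : (1 + c • Y) ^ 3 = 1 + (3 * c) •
        (Y + c • (Y * Y) + (3 * 3 ^ k * 3 ^ k : ℤ) • (Y * Y * Y)) := by
      have e1 : (3 * c) * (3 * 3 ^ k * 3 ^ k : ℤ) = c * (c * c) := by
        rw [hc3]
        ring
      rw [smul_add, smul_add, smul_smul, smul_smul, e1, pow_succ, pow_succ, pow_one]
      simp only [mul_add, add_mul, one_mul, mul_one, Matrix.smul_mul, Matrix.mul_smul, smul_smul]
      have e2 : (3 * c) • Y = c • Y + c • Y + c • Y := by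
        rw [← add_smul, ← add_smul]
        congr 1
        ring
      have e3 : (3 * c * c) • (Y * Y) = (c * c) • (Y * Y) + (c * c) • (Y * Y) +
          (c * c) • (Y * Y) := by
        rw [← add_smul, ← add_smul]
        congr 1
        ring
      rw [e2, e3]
      abel
    rw [e] at h
    have h1 : (3 * c) • (Y + c • (Y * Y) + (3 * 3 ^ k * 3 ^ k : ℤ) • (Y * Y * Y)) = 0 :=
      add_eq_left.1 h
    have h2 := (smul_eq_zero.1 h1).resolve_left (mul_ne_zero (by norm_num) hc0)
    refine ⟨-((3 : ℤ) ^ k • (Y * Y) + (3 ^ k * 3 ^ k : ℤ) • (Y * Y * Y)), ?_⟩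
    rw [smul_neg, smul_add, smul_smul, smul_smul, ← hc3, ← mul_assoc]
    rw [add_assoc] at h2
    exact eq_neg_of_add_eq_zero_left h2
  · obtain ⟨S, hS⟩ := expand (c • Y) p
    rw [hS] at h
    have e : (1 : Matrix n n ℤ) + (p : Matrix n n ℤ) * (c • Y) + (c • Y) * (c • Y) * S =
        1 + c • ((p : ℤ) • Y + c • (Y * Y * S)) := by
      rw [add_assoc]
      refine congrArg (fun z => 1 + z) ?_
      have e1 : (p : Matrix n n ℤ) * (c • Y) = c • ((p : ℤ) • Y) := by
        rw [← nsmul_eq_mul, natCast_zsmul, smul_comm]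
      have e2 : (c • Y) * (c • Y) * S = c • (c • (Y * Y * S)) := by
        simp only [Matrix.smul_mul, Matrix.mul_smul]
      rw [e1, e2, smul_add]
    rw [e] at h
    have h1 := (smul_eq_zero.1 (add_eq_left.1 h)).resolve_left hc0
    obtain ⟨a, b, hab⟩ : IsCoprime (p : ℤ) 3 := by
      have : Nat.Coprime p 3 := (Nat.coprime_primes hp Nat.prime_three).2 hp3
      exact_mod_cast Nat.isCoprime_iff_coprime.2 this
    refine ⟨b • Y - (a * 3 ^ k) • (Y * Y * S), ?_⟩
    have h2 : (p : ℤ) • Y = -(c • (Y * Y * S)) := eq_neg_of_add_eq_zero_left h1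
    have h3 : Y = (a * p + b * 3) • Y := by rw [hab, one_smul]
    rw [smul_sub, smul_smul, smul_smul, mul_comm 3 b]
    rw [add_smul, mul_smul, h2] at h3
    have h4 : a • -(c • (Y * Y * S)) = -((3 * (a * 3 ^ k)) • (Y * Y * S)) := by
      rw [smul_neg, smul_smul, hc3]
      congr 2
      ring
    rw [h4] at h3
    rw [sub_eq_neg_add]
    exact h3

theorem mink_prime (g : Matrix n n ℤ) (p : ℕ) (hp : p.Prime) (hg : g ^ p = 1)
    (h : ∃ X : Matrix n n ℤ, g = 1 + (3 : ℤ) • X) : g = 1 := by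
  have key : ∀ k : ℕ, ∃ X : Matrix n n ℤ, g = 1 + (3 : ℤ) ^ (k + 1) • X := by
    intro k
    induction k with
    | zero =>
      obtain ⟨X, hX⟩ := h
      exact ⟨X, by rw [zero_add, pow_one]; exact hX⟩
    | succ k ih =>
      obtain ⟨Y, hY⟩ := ih
      obtain ⟨Z, hZ⟩ := mink_step Y p hp k (by rw [← hY]; exact hg)
      exact ⟨Z, by rw [hY, hZ, smul_smul, ← pow_succ]⟩
  ext i j
  obtain ⟨k, hk⟩ := pow_unbounded_of_one_lt |g i j - (1 : Matrix n n ℤ) i j| (by norm_num : (1 : ℤ) < 3)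
  obtain ⟨X, hX⟩ := key k
  have h1 : (3 : ℤ) ^ (k + 1) ∣ g i j - (1 : Matrix n n ℤ) i j := by
    refine ⟨X i j, ?_⟩
    rw [hX, Matrix.add_apply, Matrix.smul_apply, smul_eq_mul]
    ring
  have h2 : |g i j - (1 : Matrix n n ℤ) i j| < 3 ^ (k + 1) := by
    refine lt_of_lt_of_le hk ?_
    exact pow_le_pow_right₀ (by norm_num) (Nat.le_succ k)
  exact sub_eq_zero.1 (Int.eq_zero_of_abs_lt_dvd h1 h2)

/-- Integral matrices of finite order which are congruent to `1` modulo `3` are trivial. -/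
theorem mink (g : Matrix n n ℤ) (h : ∃ X : Matrix n n ℤ, g = 1 + (3 : ℤ) • X) (m : ℕ) (hm : 0 < m)
    (hg : g ^ m = 1) : g = 1 := by
  induction m using Nat.strong_induction_on with
  | _ m ih =>
    by_cases hm1 : m = 1
    · rw [hm1, pow_one] at hg
      exact hg
    · obtain ⟨k, hk⟩ := Nat.minFac_dvd m
      have hp := Nat.minFac_prime hm1
      have hk0 : 0 < k := by
        rcases Nat.eq_zero_or_pos k with h0 | h0
        · rw [h0, mul_zero] at hk
          omega
        · exact h0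
      have hkm : k < m := by
        have := hp.two_le
        nlinarith
      refine ih k hkm hk0 ?_
      refine mink_prime (g ^ k) m.minFac hp ?_ ?_
      · rw [← pow_mul, mul_comm, ← hk]
        exact hg
      · obtain ⟨X, hX⟩ := h
        clear ih hk hkm hk0
        induction k with
        | zero => exact ⟨0, by rw [pow_zero, smul_zero, add_zero]⟩
        | succ k ih =>
          obtain ⟨Y, hY⟩ := ih
          refine ⟨Y + X + (3 : ℤ) • (Y * X), ?_⟩
          rw [pow_succ, hY, hX]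
          simp only [mul_add, add_mul, one_mul, mul_one, Matrix.smul_mul, Matrix.mul_smul,
            smul_add]
          abel

end Mink

/-- Torsion groups of integral matrices are finite. -/
theorem tors_fin {T : Type*} [Group T] (f : T →* GL (Fin 2) ℤ)
    (hf : ∀ g, ∃ m, 0 < m ∧ f g ^ m = 1) : Finite f.range := by
  let ρ : GL (Fin 2) ℤ →* GL (Fin 2) (ZMod 3) := GeneralLinearGroup.map (Int.castRingHom (ZMod 3))
  have key : ∀ g : T, ρ (f g) = 1 → f g = 1 := by
    intro g h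
    obtain ⟨m, hm, h1⟩ := hf g
    refine Units.ext (mink (f g).1 ?_ m hm ?_)
    · have h3 : ∀ i j, ∃ z : ℤ, (f g).1 i j - (1 : Matrix (Fin 2) (Fin 2) ℤ) i j = 3 * z := by
        intro i j
        have h4 : (((f g).1 i j - (1 : Matrix (Fin 2) (Fin 2) ℤ) i j : ℤ) : ZMod 3) = 0 := by
          have h5 : (((f g).1 i j : ℤ) : ZMod 3) = (1 : Matrix (Fin 2) (Fin 2) (ZMod 3)) i j :=
            congrArg (fun x : GL (Fin 2) (ZMod 3) => x.1 i j) h
          rw [Int.cast_sub, h5, Matrix.one_apply, Matrix.one_apply]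
          split_ifs <;> simp
        exact (ZMod.intCast_zmod_eq_zero_iff_dvd _ 3).1 h4
      choose X hX using h3
      refine ⟨Matrix.of X, Matrix.ext fun i j => ?_⟩
      rw [Matrix.add_apply, Matrix.smul_apply, Matrix.of_apply, smul_eq_mul, ← hX]
      ring
    · rw [← Units.val_pow_eq_pow_val, h1, Units.val_one]
  refine Finite.of_injective (fun x : f.range => ρ x.1) ?_
  rintro ⟨_, ⟨a, rfl⟩⟩ ⟨_, ⟨b, rfl⟩⟩ h
  have h1 : f (a * b⁻¹) = 1 := key _ (by
    rw [map_mul, map_mul, map_inv, map_inv]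
    exact mul_inv_eq_one.2 h)
  refine Subtype.ext (mul_inv_eq_one.1 ?_)
  rw [← map_inv, ← map_mul]
  exact h1

/-! ### Finitely generated modules -/

section Mod

variable {K : Type v} [Field K] {S : Type u} [Group S] (ψ : S →* GL (Fin 2) K)

/-- The additive group generated by the image. -/
def As : Submodule ℤ (Matrix (Fin 2) (Fin 2) K) := Submodule.span ℤ (Set.range fun s => (ψ s).1)

theorem as_mem (s : S) : (ψ s).1 ∈ As ψ := Submodule.subset_span ⟨s, rfl⟩

theorem as_mul {a : Matrix (Fin 2) (Fin 2) K} (ha : a ∈ As ψ) (s : S) :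
    a * (ψ s).1 ∈ As ψ := by
  unfold As at ha
  induction ha using Submodule.span_induction with
  | mem x hx =>
    obtain ⟨t, rfl⟩ := hx
    have h := as_mem ψ (t * s)
    rw [map_mul, Units.val_mul] at h
    exact h
  | zero =>
    rw [zero_mul]
    exact Submodule.zero_mem _
  | add x y _ _ hx hy =>
    rw [add_mul]
    exact Submodule.add_mem _ hx hy
  | smul z x _ hx =>
    rw [smul_mul_assoc]
    exact Submodule.smul_mem _ z hx

theorem as_fg (ht : ∀ s, ∃ z : ℤ, (ψ s).1.trace = (z : K)) (x y : S)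
    (hxy : (ψ (x * y * x⁻¹ * y⁻¹)).1.trace ≠ 2) : (As ψ).FG := by
  obtain ⟨Φ, hΦ⟩ : ∃ Φ : S →* Matrix (Fin 2) (Fin 2) K, ∀ s, Φ s = (ψ s).1 :=
    ⟨(Units.coeHom _).comp ψ, fun _ => rfl⟩
  have hD : dd (Φ x) (Φ y) ≠ 0 := by
    rw [dd_comm]
    refine mul_ne_zero (mul_ne_zero (left_ne_zero_of_mul_eq_one (dt_inv Φ x))
      (left_ne_zero_of_mul_eq_one (dt_inv Φ y))) (sub_ne_zero.2 fun h => hxy ?_)
    rw [tr_eq, ← hΦ]
    exact h.symm
  let b : Fin 4 → S := ![1, x, y, x * y]
  let L : Matrix (Fin 2) (Fin 2) K →ₗ[ℤ] (Fin 4 → K) :=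
    { toFun := fun a i => (a * (ψ (b i)).1).trace
      map_add' := fun a a' => funext fun i => by
        rw [add_mul, Matrix.trace_add]
        rfl
      map_smul' := fun z a => funext fun i => by
        rw [smul_mul_assoc, Matrix.trace_smul]
        rfl }
  have hL : Function.Injective L := by
    refine (injective_iff_map_eq_zero L).2 fun a ha => ?_
    have h1 : ∀ i, H22.G.tr (a * Φ (b i)) = 0 := fun i => by
      rw [← tr_eq, hΦ]
      exact congrFun ha i
    have k1 : H22.G.tr (a * Φ 1) = 0 := h1 0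
    have k2 : H22.G.tr (a * Φ x) = 0 := h1 1
    have k3 : H22.G.tr (a * Φ y) = 0 := h1 2
    have k4 : H22.G.tr (a * Φ (x * y)) = 0 := h1 3
    rw [map_one, mul_one, H22.G.tr] at k1
    rw [map_mul] at k4
    rw [H22.G.tr, mulE a, mulE a] at k2 k3 k4
    obtain ⟨r1, r2, r3, r4⟩ := nondeg (Φ x) (Φ y) hD (a 0 0) (a 0 1) (a 1 0) (a 1 1)
      k1 (by linear_combination k2) (by linear_combination k3) (by linear_combination k4)
    exact ext2 r1 r2 r3 r4
  let ι : (Fin 4 → ℤ) →ₗ[ℤ] (Fin 4 → K) :=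
    { toFun := fun w i => (w i : K)
      map_add' := fun w w' => funext fun i => Int.cast_add _ _
      map_smul' := fun z w => funext fun i => by
        show ((z * w i : ℤ) : K) = z • (w i : K)
        rw [Int.cast_mul, zsmul_eq_mul] }
  have hno : IsNoetherian ℤ (LinearMap.range ι) := inferInstance
  have hle : (As ψ).map L ≤ LinearMap.range ι := by
    rw [Submodule.map_le_iff_le_comap]
    refine Submodule.span_le.2 ?_
    rintro _ ⟨s, rfl⟩
    choose w hw using fun i => ht (s * b i)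
    refine ⟨w, funext fun i => ?_⟩
    show (w i : K) = ((ψ s).1 * (ψ (b i)).1).trace
    rw [← hw, map_mul, Units.val_mul]
  exact Submodule.fg_of_fg_map_injective L hL (isNoetherian_submodule.1 hno _ hle)

variable (r : S → Fin 2 → K) (hr : ∀ s t, r (s * t) = vecMul (r s) (ψ t).1 + r t)

include hr in
theorem exists_mod [hfg : Group.FG S] (hA : (As ψ).FG) :
    ∃ M : Submodule ℤ (Fin 2 → K), M.FG ∧ ∀ s, r s ∈ M := by
  classical
  obtain ⟨T, hT⟩ := hfg.out
  let f : S → Matrix (Fin 2) (Fin 2) K →ₗ[ℤ] (Fin 2 → K) := fun t =>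
    { toFun := fun a => vecMul (r t) a
      map_add' := fun a b => Matrix.vecMul_add _ _ _
      map_smul' := fun z a => Matrix.vecMul_smul _ _ _ }
  let M : Submodule ℤ (Fin 2 → K) := ⨆ t ∈ T, (As ψ).map (f t)
  have hM : M.FG := Submodule.fg_biSup T _ fun t _ => hA.map (f t)
  have hle : ∀ t ∈ T, (As ψ).map (f t) ≤ M := fun t ht =>
    le_iSup₂ (f := fun t (_ : t ∈ T) => (As ψ).map (f t)) t ht
  have hmul : ∀ w ∈ M, ∀ s, vecMul w (ψ s).1 ∈ M := by
    intro w hw s
    let g : (Fin 2 → K) →ₗ[ℤ] (Fin 2 → K) :=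
      { toFun := fun w => vecMul w (ψ s).1
        map_add' := fun a b => Matrix.add_vecMul _ _ _
        map_smul' := fun z a => Matrix.smul_vecMul _ _ _ }
    have h1 : M ≤ M.comap g := iSup₂_le fun t ht => by
      rw [Submodule.map_le_iff_le_comap]
      intro a ha
      show vecMul (vecMul (r t) a) (ψ s).1 ∈ M
      rw [Matrix.vecMul_vecMul]
      exact hle t ht ⟨a * (ψ s).1, as_mul ψ ha s, rfl⟩
    exact h1 hw
  have h1 : r 1 = 0 := by
    have h2 := hr 1 1
    rw [mul_one, map_one, Units.val_one, Matrix.vecMul_one] at h2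
    exact left_eq_add.1 h2
  refine ⟨M, hM, fun s => ?_⟩
  have hs : s ∈ Subgroup.closure (T : Set S) := by
    rw [hT]
    exact Subgroup.mem_top s
  induction hs using Subgroup.closure_induction with
  | mem t ht =>
    refine hle t ht ⟨1, ?_, Matrix.vecMul_one _⟩
    have h := as_mem ψ 1
    rw [map_one, Units.val_one] at h
    exact h
  | one =>
    rw [h1]
    exact M.zero_mem
  | mul g h _ _ hg hh =>
    rw [hr]
    exact M.add_mem (hmul _ hg h) hh
  | inv g _ hg =>
    have h2 := hr g g⁻¹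
    rw [mul_inv_cancel, h1] at h2
    rw [← neg_eq_of_add_eq_zero_right h2.symm]
    exact M.neg_mem (hmul _ hg _)

include hr in
/-- Torsionfree groups such that the linear parts form a finite group. -/
theorem ell (hT : TfeStatement.{u}) [CharZero K] (htf : TorsionFree S)
    (hinj : ∀ s, ψ s = 1 → r s = 0 → s = 1) (M : Submodule ℤ (Fin 2 → K)) (hM : M.FG)
    (hr' : ∀ s, r s ∈ M) (q : S →* GL (Fin 2) ℤ) (hq : ∀ s, q s = 1 → ψ s = 1) (T : Subgroup S)
    (hfin : Finite (q.comp T.subtype).range) : InN T := by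
  let f := q.comp T.subtype
  have hF : f.ker.FiniteIndex := Subgroup.finiteIndex_ker f
  have hk : ∀ s : f.ker, ψ s.1.1 = 1 := fun s => hq _ s.2
  let τ : f.ker →* Multiplicative M :=
    MonoidHom.mk' (fun s => Multiplicative.ofAdd ⟨r s.1.1, hr' _⟩) fun s t => by
      refine congrArg Multiplicative.ofAdd (Subtype.ext ?_)
      show r (s.1.1 * t.1.1) = r s.1.1 + r t.1.1
      rw [hr, hk t, Units.val_one, Matrix.vecMul_one]
  have h0 : PZ 0 τ.ker := by
    refine ⟨fun x y => ?_⟩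
    have key : ∀ x : τ.ker, x.1.1.1 = 1 := by
      intro x
      have h1 : τ x.1 = 1 := x.2
      have h2 : (⟨r x.1.1.1, hr' _⟩ : M) = 0 := Multiplicative.ofAdd.injective h1
      exact hinj _ (hk x.1) (congrArg Subtype.val h2)
    exact Subtype.ext (Subtype.ext (Subtype.ext ((key x).trans (key y).symm)))
  have i1 : Module.Finite ℤ M := Module.Finite.iff_fg.2 hM
  have i2 : IsAddTorsionFree M := ⟨fun m hm x y h => Subtype.ext (funext fun i => by
    have h1 : m • (x.1 i) = m • (y.1 i) := congrFun (congrArg Subtype.val h) i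
    rw [nsmul_eq_mul, nsmul_eq_mul] at h1
    exact mul_left_cancel₀ (Nat.cast_ne_zero.2 hm) h1)⟩
  obtain ⟨m, hm⟩ := PZ.ext_add 0 M τ h0
  exact hT T (fun g n hn h => Subtype.ext (htf g.1 n hn (congrArg Subtype.val h))) f.ker m hF hm

end Mod

/-- Groups which act on the tree of `GL₂(ℤ)`. -/
theorem of_gl (S : Type u) [Group S] (q : S →* GL (Fin 2) ℤ)
    (hE : ∀ T : Subgroup S, (∀ g ∈ T, ∃ n, 0 < n ∧ q g ^ n = 1) → InN T) : InRC S := by
  let i : MulAction S (ULift.{u} NT5.Fm) :=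
    { smul := fun h x => ⟨q h • x.down⟩
      one_smul := fun x => ULift.ext _ _ (by
        show q 1 • x.down = x.down
        rw [map_one, one_smul])
      mul_smul := fun h h' x => ULift.ext _ _ (by
        show q (h * h') • x.down = q h • q h' • x.down
        rw [map_mul, mul_smul]) }
  have hadj : ∀ (g : S) (v w : ULift.{u} NT5.Fm), NT5.grf.Adj v w → NT5.grf.Adj (g • v) (g • w) := by
    intro h x y hx
    show NT5.Fm.P (q h • x.down) (q h • y.down) = 5
    rw [NT5.Fm.P_smulG]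
    exact hx
  have hfix : ∀ (g : S) (x : ULift.{u} NT5.Fm ⊕ NT5.grf.{u}.edgeSet),
      (letI := AP.sdAct NT5.grf.{u} hadj; g • x = x) → ∃ n, 0 < n ∧ q g ^ n = 1 := by
    intro g x hx
    obtain ⟨v, hv⟩ := AP.sd_fix NT5.grf.{u} hadj g x hx
    have h3 : q (g * g) • v.down = v.down := by
      rw [map_mul, mul_smul]
      exact congrArg ULift.down hv
    obtain ⟨n, hn, h4⟩ := NT5.Fm.order_fixG h3
    refine ⟨2 * n, by omega, ?_⟩
    rwa [map_mul, ← pow_two, ← pow_mul] at h4
  have htree : (AP.sd NT5.grf.{u}).IsTree :=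
    AP.sd_isTree NT5.grf ⟨NT5.Fm.one⟩ (fun q => NT5.Fm.ht q.down) (fun _ _ h => NT5.Fm.ha_aux h)
      (fun _ _ _ h h' k k' => ULift.ext _ _ (NT5.Fm.hb_aux h h' k k')) fun q => by
        rcases NT5.Fm.hc_aux q.down with h | ⟨y, h, h'⟩
        · exact Or.inl (ULift.ext _ _ h)
        · exact Or.inr ⟨⟨y⟩, h, h'⟩
  letI := AP.sdAct NT5.grf.{u} hadj
  refine H66.wald S _ (AP.sd NT5.grf.{u}) (AP.sd_act NT5.grf.{u} hadj htree) (fun x => ?_)
    fun x y _ => ?_
  · exact inRC_of_inN (hE _ fun g hg => hfix g x hg)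
  · exact hE _ fun g hg => hfix g x hg.1

/-! ### Commutators -/

/-- If the commutators have the trace `2` then so have the elements of the commutator subgroup. -/
theorem comm_two {K : Type v} [Field K] {S : Type u} [Group S] (ψ : S →* GL (Fin 2) K)
    (ht : ∀ s, ∃ z : ℤ, (ψ s).1.trace = (z : K))
    (hK : ∀ χ : K, χ ≠ 0 → (∃ t : ℤ, χ + χ⁻¹ = t) → χ = 1 ∨ χ = -1)
    (hc : ∀ x y : S, (ψ (x * y * x⁻¹ * y⁻¹)).1.trace = 2) :
    ∀ c ∈ commutator S, (ψ c).1.trace = 2 := by
  obtain ⟨Φ, hΦ⟩ : ∃ Φ : S →* Matrix (Fin 2) (Fin 2) K, ∀ s, Φ s = (ψ s).1 :=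
    ⟨(Units.coeHom _).comp ψ, fun _ => rfl⟩
  let D : Subgroup (GL (Fin 2) K) := ψ.range ⊓ Matrix.GeneralLinearGroup.det.ker
  have hD : ∀ g : D, (g.1.1 : Matrix (Fin 2) (Fin 2) K).det = 1 := fun g =>
    congrArg Units.val g.2.2
  let φ : D →* Matrix.SpecialLinearGroup (Fin 2) K :=
    { toFun := fun g => ⟨g.1.1, hD g⟩
      map_one' := rfl
      map_mul' := fun g h => rfl }
  have hφ : Function.Injective φ := fun a b h =>
    Subtype.ext (Units.ext (congrArg Subtype.val h))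
  have hcm := H22.comm_of φ hφ (fun g => by
      obtain ⟨s, hs⟩ := g.2.1
      obtain ⟨t, h1⟩ := ht s
      refine ⟨t, ?_⟩
      rw [← h1, hs, ← H22.tr_eq]
      rfl) hK fun a b => by
      obtain ⟨s, hs⟩ := a.2.1
      obtain ⟨t, ht⟩ := b.2.1
      have h1 := hc s t
      rw [map_mul, map_mul, map_mul, map_inv, map_inv, hs, ht] at h1
      rw [← H22.tr_eq]
      exact h1
  have hcm' : ∀ a b : S, (ψ a).1.det = 1 → (ψ b).1.det = 1 → Φ a * Φ b = Φ b * Φ a := by
    intro a b ha hb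
    have ha' : ψ a ∈ D := ⟨⟨a, rfl⟩, Units.ext ha⟩
    have hb' : ψ b ∈ D := ⟨⟨b, rfl⟩, Units.ext hb⟩
    have h1 := congrArg (fun x : D => x.1.1) (hcm ⟨_, ha'⟩ ⟨_, hb'⟩)
    rw [hΦ, hΦ]
    exact h1
  intro c hcc
  suffices h : (ψ c).1.det = 1 ∧ (ψ c).1.trace = 2 from h.2
  rw [commutator_eq_closure] at hcc
  induction hcc using Subgroup.closure_induction with
  | mem c h =>
    obtain ⟨a, b, rfl⟩ := h
    refine ⟨?_, ?_⟩
    · rw [commutatorElement_def, dt_eq, ← hΦ]
      exact dt_comm Φ a b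
    · rw [commutatorElement_def]
      exact hc a b
  | one =>
    rw [map_one, Units.val_one, Matrix.det_one, Matrix.trace_one, Fintype.card_fin]
    exact ⟨rfl, rfl⟩
  | mul a b _ _ ha hb =>
    refine ⟨?_, ?_⟩
    · rw [map_mul, Units.val_mul, Matrix.det_mul, ha.1, hb.1, one_mul]
    · have sq : ∀ s : S, (ψ s).1.det = 1 → (ψ s).1.trace = 2 →
          (Φ s - 1) * (Φ s - 1) = 0 := by
        intro s h1 h2
        have h3 := sq_eq (Φ s)
        rw [← tr_eq, ← dt_eq, hΦ, h1, h2, one_smul, ← hΦ] at h3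
        rw [sub_mul, mul_sub, h3, two_smul, mul_one, one_mul]
        abel
      have hX := sq a ha.1 ha.2
      have hY := sq b hb.1 hb.2
      have hXY : (Φ a - 1) * (Φ b - 1) = (Φ b - 1) * (Φ a - 1) := by
        simp only [sub_mul, mul_sub, one_mul, mul_one]
        rw [hcm' a b ha.1 hb.1]
        abel
      have hZ : ((Φ a - 1) * (Φ b - 1)) * ((Φ a - 1) * (Φ b - 1)) = 0 := by
        rw [mul_assoc, ← mul_assoc (Φ b - 1), ← hXY, mul_assoc (Φ a - 1) (Φ b - 1), hY, mul_zero,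
          mul_zero]
      have h4 : ((Φ a - 1) * (Φ b - 1)).trace = 0 :=
        (Matrix.isNilpotent_trace_of_isNilpotent ⟨2, by rw [pow_two, hZ]⟩).eq_zero
      have h5 : (1 : Matrix (Fin 2) (Fin 2) K).trace = 2 := by
        rw [Matrix.trace_one, Fintype.card_fin]
        rfl
      rw [mul_sub, sub_mul, mul_one, one_mul, Matrix.trace_sub, Matrix.trace_sub,
        Matrix.trace_sub, h5, hΦ, hΦ, ha.2, hb.2] at h4
      rw [map_mul, Units.val_mul]
      linear_combination h4
  | inv a _ ha =>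
    have h1 : (ψ a⁻¹).1.det = 1 := by
      have h2 := dt_inv Φ a
      rw [← dt_eq, ← dt_eq, hΦ, hΦ, ha.1, one_mul] at h2
      exact h2
    refine ⟨h1, ?_⟩
    have h2 := adj_eq Φ a
    have h3 : dt (Φ a) = 1 := by rw [← dt_eq, hΦ, ha.1]
    rw [h3, one_smul] at h2
    rw [← hΦ, ← h2, tr_eq]
    show Φ a 1 1 + Φ a 0 0 = 2
    have h4 := ha.2
    rw [tr_eq, ← hΦ] at h4
    rw [add_comm]
    exact h4

/-! ### The theorem -/

theorem rga_fg (hT : TfeStatement.{u}) {K : Type u} [Field K] (hK : H70.Rig K) (S : Type u)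
    [Group S] [Group.FG S] (htf : TorsionFree S) (χ : S →* AP.affS K) (hχ : Function.Injective χ)
    (ht : ∀ g, ∃ z : ℤ, (AP.lin K (χ g)).1.trace = (z : K))
    (hd : ∀ g, (AP.lin K (χ g)).1.det = 1 ∨ (AP.lin K (χ g)).1.det = -1) : InRC S := by
  have := hK.char
  let ψ : S →* GL (Fin 2) K := (AP.lin K).comp χ
  by_cases hc : ∀ x y : S, (ψ (x * y * x⁻¹ * y⁻¹)).1.trace = 2
  · refine afe hT K S htf χ hχ (fun g => ?_) (fun g => ?_) (comm_two ψ ht hK.units hc)
    · obtain ⟨z, hz⟩ := ht g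
      rw [hz]
      exact isIntegral_algebraMap (R := ℤ) (x := z)
    · rcases hd g with h | h <;> rw [h]
      · exact isIntegral_one
      · exact isIntegral_one.neg
  push Not at hc
  obtain ⟨x, y, hxy⟩ := hc
  have htr : ∀ g : ψ.range, ∃ t : ℤ, Matrix.trace (g.1 : Matrix (Fin 2) (Fin 2) K) = t := by
    rintro ⟨_, ⟨h, rfl⟩⟩
    exact ht h
  have hdt : ∀ g : ψ.range, Matrix.det (g.1 : Matrix (Fin 2) (Fin 2) K) = 1 ∨
      Matrix.det (g.1 : Matrix (Fin 2) (Fin 2) K) = -1 := by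
    rintro ⟨_, ⟨h, rfl⟩⟩
    exact hd h
  obtain ⟨θ, hθ⟩ := AP.Emb.emb3 hK ψ.range.subtype Subtype.val_injective htr hdt
    ⟨ψ x, x, rfl⟩ ⟨ψ y, y, rfl⟩ (by
      rw [map_mul, map_mul, map_mul, map_inv, map_inv] at hxy
      exact hxy)
  let q : S →* GL (Fin 2) ℤ := θ.comp ψ.rangeRestrict
  have hq : ∀ s, q s = 1 → ψ s = 1 := by
    intro s h
    have h4 : ψ.rangeRestrict s = 1 := hθ (h.trans (map_one θ).symm)
    exact congrArg Subtype.val h4
  have hr : ∀ s t, cst₀ K (χ (s * t)) = vecMul (cst₀ K (χ s)) (ψ t).1 + cst₀ K (χ t) := by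
    intro s t
    rw [map_mul, cst₀_mul]
    rfl
  obtain ⟨M, hM, hrM⟩ := exists_mod ψ (fun s => cst₀ K (χ s)) hr (as_fg ψ ht x y hxy)
  refine of_gl S q fun T h => ?_
  refine ell ψ (fun s => cst₀ K (χ s)) hr hT htf (fun s h1 h2 => ?_) M hM hrM q hq T ?_
  · exact hχ ((eq_one_of _ h1 h2).trans (map_one χ).symm)
  · exact tors_fin _ fun g => h g.1 g.2

end RGA

open RGA in
/-- RGA. Torsionfree groups of affine automorphisms over a rigid field such that the linear parts
have integral traces and determinants `± 1`. -/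
theorem rga (hT : TfeStatement.{u}) {K : Type u} [Field K] (hK : H70.Rig K) (S : Type u)
    [Group S] (htf : TorsionFree S) (χ : S →* AP.affS K) (hχ : Function.Injective χ)
    (ht : ∀ g, ∃ z : ℤ, (AP.lin K (χ g)).1.trace = (z : K))
    (hd : ∀ g, (AP.lin K (χ g)).1.det = 1 ∨ (AP.lin K (χ g)).1.det = -1) : InRC S := by
  refine ((main.{u}).2.2.2.1 S).2.2.2.2.2.1 fun T => ⟨Subgroup.closure (T : Set S),
    fun s hs => Subgroup.subset_closure hs, ?_⟩
  exact rga_fg hT hK _ (fun g n hn h => Subtype.ext (htf g.1 n hn (congrArg Subtype.val h)))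
    (χ.comp (Subgroup.subtype _)) (hχ.comp Subtype.val_injective) (fun g => ht g.1)
    fun g => hd g.1

end Pool.Agent.NegK.PL
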