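import Pool.Agent.Lib.MP_28303a_al.PL.PZ

/-! # Finitely generated groups of triangular matrices with integral diagonal are virtually
poly-Z -/

set_option autoImplicit false
set_option linter.unusedSectionVars false
set_option linter.unusedVariables false

namespace Pool.Agent.NegK.PL

universe u v

/-- TRN. Finitely generated groups of triangular matrices with integral diagonal. -/
def TrnStatement : Prop :=
  ∀ (L : Type v) (S : Type u) [Field L] [CharZero L] [Group S] (_ : Group.FG S) (ι : Type)
    [Fintype ι] [DecidableEq ι] (b : ι → ℕ) (ρ : S →* GL ι L), Function.Injective b →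
    Function.Injective ρ → (∀ s, ((ρ s : GL ι L) : Matrix ι ι L).BlockTriangular b) →
    (∀ s i, IsIntegral ℤ (((ρ s : GL ι L) : Matrix ι ι L) i i)) →
    ∃ H : Subgroup S, H.Normal ∧ H.FiniteIndex ∧ ∃ n, PZ n H

namespace TRN

section Graded

variable {L : Type v} [Field L] {O : Subalgebra ℤ L} {ι : Type} [Fintype ι] [DecidableEq ι]

/-- Triangular matrices with the entry `(i, j)` in `W ^ (b j - b i)`. -/
def Gd (W : Submodule O L) (b : ι → ℕ) (M : Matrix ι ι L) : Prop :=
  ∀ i j, (b j < b i → M i j = 0) ∧ (b i ≤ b j → M i j ∈ W ^ (b j - b i))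

variable {W : Submodule O L} {b : ι → ℕ}

theorem mem_pow_zero {a : L} (h : a ∈ O) : a ∈ W ^ 0 := by
  rw [pow_zero, Submodule.mem_one]
  exact ⟨⟨a, h⟩, rfl⟩

theorem Gd.one (hb : Function.Injective b) : Gd W b (1 : Matrix ι ι L) := by
  intro i j
  constructor
  · intro h
    exact Matrix.one_apply_ne fun hij => by rw [hij] at h; exact lt_irrefl _ h
  · intro h
    by_cases hij : i = j
    · rw [hij, Matrix.one_apply_eq, Nat.sub_self]
      exact mem_pow_zero O.one_mem
    · rw [Matrix.one_apply_ne hij]
      exact Submodule.zero_mem _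

theorem Gd.mul {M N : Matrix ι ι L} (h : Gd W b M) (h' : Gd W b N) : Gd W b (M * N) := by
  intro i j
  constructor
  · intro hij
    rw [Matrix.mul_apply]
    refine Finset.sum_eq_zero fun l _ => ?_
    by_cases h1 : b l < b i
    · rw [(h i l).1 h1, zero_mul]
    · rw [(h' l j).1 (by omega), mul_zero]
  · intro hij
    rw [Matrix.mul_apply]
    refine Submodule.sum_mem _ fun l _ => ?_
    by_cases h1 : b l < b i
    · rw [(h i l).1 h1, zero_mul]
      exact Submodule.zero_mem _
    · by_cases h2 : b j < b l
      · rw [(h' l j).1 h2, mul_zero]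
        exact Submodule.zero_mem _
      · have e : b j - b i = (b l - b i) + (b j - b l) := by omega
        rw [e, pow_add]
        exact Submodule.mul_mem_mul ((h i l).2 (by omega)) ((h' l j).2 (by omega))

end Graded

section

variable {L : Type v} [Field L] {ι : Type} [Fintype ι] [DecidableEq ι] {b : ι → ℕ}

/-- The diagonal of a product. -/
theorem diag_mul (hb : Function.Injective b) {M N : Matrix ι ι L} (hM : M.BlockTriangular b)
    (hN : N.BlockTriangular b) (i : ι) : (M * N) i i = M i i * N i i := by
  rw [Matrix.mul_apply, Finset.sum_eq_single i]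
  · intro l _ hl
    have hbl : b l ≠ b i := fun h => hl (hb h)
    rcases lt_or_gt_of_ne hbl with h | h
    · rw [hM h, zero_mul]
    · rw [hN h, mul_zero]
  · intro h
    exact absurd (Finset.mem_univ i) h

/-- The bound for the entries. -/
theorem bound (hb : Function.Injective b) {S : Type u} [Group S] (hS : Group.FG S)
    (ρ : S →* GL ι L) (htr : ∀ s, ((ρ s : GL ι L) : Matrix ι ι L).BlockTriangular b)
    (hi : ∀ s i, IsIntegral ℤ (((ρ s : GL ι L) : Matrix ι ι L) i i)) :
    ∃ Λ : Submodule ℤ L, Λ.FG ∧ ∀ s i j, ((ρ s : GL ι L) : Matrix ι ι L) i j ∈ Λ := by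
  classical
  obtain ⟨T, hT⟩ := (Group.fg_iff_monoid_fg.1 hS).fg_top
  let O : Subalgebra ℤ L := Algebra.adjoin ℤ
    (((T ×ˢ Finset.univ : Finset (S × ι)) : Set (S × ι)).image
      fun p => ((ρ p.1 : GL ι L) : Matrix ι ι L) p.2 p.2)
  have hO : Module.Finite ℤ O := by
    have h1 : (Subalgebra.toSubmodule O).FG := by
      refine fg_adjoin_of_finite ((Finset.finite_toSet _).image _) ?_
      rintro x ⟨p, _, rfl⟩
      exact hi p.1 p.2
    exact Module.Finite.iff_fg.2 h1
  let W : Submodule O L := Submodule.span O
    ({1} ∪ (((T ×ˢ Finset.univ : Finset (S × (ι × ι))) : Set (S × (ι × ι))).image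
      fun p => ((ρ p.1 : GL ι L) : Matrix ι ι L) p.2.1 p.2.2))
  have hW : W.FG :=
    Submodule.fg_span ((Set.finite_singleton 1).union ((Finset.finite_toSet _).image _))
  have h1W : (1 : L) ∈ W := Submodule.subset_span (Or.inl rfl)
  have hTW : ∀ s ∈ T, ∀ i j, ((ρ s : GL ι L) : Matrix ι ι L) i j ∈ W := fun s hs i j =>
    Submodule.subset_span (Or.inr ⟨(s, (i, j)),
      Finset.mem_coe.2 (Finset.mem_product.2 ⟨hs, Finset.mem_univ _⟩), rfl⟩)
  have hmono : ∀ (k l : ℕ), k ≤ l → W ^ k ≤ W ^ l := by
    intro k l hkl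
    induction l, hkl using Nat.le_induction with
    | base => exact le_rfl
    | succ l _ ih =>
      refine ih.trans fun x hx => ?_
      rw [pow_succ]
      have := Submodule.mul_mem_mul hx h1W
      rwa [mul_one] at this
  have hgen : ∀ s ∈ T, Gd W b ((ρ s : GL ι L) : Matrix ι ι L) := by
    intro s hs i j
    refine ⟨fun h => htr s h, fun h => ?_⟩
    rcases Nat.eq_or_lt_of_le h with h1 | h1
    · have hij : i = j := hb h1
      rw [← hij, Nat.sub_self]
      exact mem_pow_zero (Algebra.subset_adjoin ⟨(s, i),
        Finset.mem_coe.2 (Finset.mem_product.2 ⟨hs, Finset.mem_univ _⟩), rfl⟩)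
    · have h2 := hmono 1 (b j - b i) (by omega)
      rw [pow_one] at h2
      exact h2 (hTW s hs i j)
  have hall : ∀ s, Gd W b ((ρ s : GL ι L) : Matrix ι ι L) := by
    intro s
    have hs : s ∈ Submonoid.closure (T : Set S) := by
      rw [hT]
      exact Submonoid.mem_top s
    induction hs using Submonoid.closure_induction with
    | mem x hx => exact hgen x hx
    | one =>
      rw [map_one]
      exact Gd.one hb
    | mul x y _ _ hx hy =>
      rw [map_mul]
      exact hx.mul hy
  obtain ⟨B, hB⟩ : ∃ B : ℕ, ∀ i, b i ≤ B :=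
    ⟨Finset.univ.sup b, fun i => Finset.le_sup (Finset.mem_univ i)⟩
  have hWn : (W ^ B).FG := hW.pow B
  have hfin : Module.Finite O (W ^ B : Submodule O L) := Module.Finite.iff_fg.2 hWn
  have hfin2 : Module.Finite ℤ (W ^ B : Submodule O L) := Module.Finite.trans O _
  refine ⟨(W ^ B).restrictScalars ℤ, Module.Finite.iff_fg.1 hfin2, fun s i j => ?_⟩
  rcases lt_or_ge (b j) (b i) with h | h
  · rw [(hall s i j).1 h]
    exact Submodule.zero_mem _
  · have hbj := hB j
    exact hmono _ B (by omega) ((hall s i j).2 h)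

/-- Unipotent groups with entries in a finitely generated module. -/
theorem uni [CharZero L] (hb : Function.Injective b) (B : ℕ) (hB : ∀ i, b i ≤ B)
    (Λ : Submodule ℤ L) [Module.Finite ℤ Λ] : ∀ (r k : ℕ), B < k + r → 1 ≤ k →
    ∀ (G : Type u) [Group G] (f : G →* GL ι L), Function.Injective f →
    (∀ s, ((f s : GL ι L) : Matrix ι ι L).BlockTriangular b) →
    (∀ s i, ((f s : GL ι L) : Matrix ι ι L) i i = 1) →
    (∀ s i j, ((f s : GL ι L) : Matrix ι ι L) i j ∈ Λ) →
    (∀ s i j, b i < b j → b j < b i + k → ((f s : GL ι L) : Matrix ι ι L) i j = 0) →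
    ∃ n, PZ n G := by
  intro r
  induction r with
  | zero =>
    intro k hk _ G _ f hf htr hd _ h0
    refine ⟨0, ⟨fun s t => ?_⟩⟩
    have key : ∀ s : G, s = 1 := by
      intro s
      refine hf ?_
      rw [map_one]
      refine Units.ext (Matrix.ext fun i j => ?_)
      rcases lt_trichotomy (b i) (b j) with h | h | h
      · have hbj := hB j
        rw [h0 s i j h (by omega), Units.val_one, Matrix.one_apply_ne fun hij => by
          rw [hij] at h; exact lt_irrefl _ h]
      · rw [hb h, hd, Units.val_one, Matrix.one_apply_eq]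
      · rw [htr s h, Units.val_one, Matrix.one_apply_ne fun hij => by
          rw [hij] at h; exact lt_irrefl _ h]
    rw [key s, key t]
  | succ r ih =>
    intro k hk hk1 G _ f hf htr hd hΛ h0
    have hΛt : IsAddTorsionFree Λ := ⟨fun m hm x y h => Subtype.ext (by
      have h1 : m • (x : L) = m • (y : L) := congrArg Subtype.val h
      rw [nsmul_eq_mul, nsmul_eq_mul] at h1
      exact mul_left_cancel₀ (Nat.cast_ne_zero.2 hm) h1)⟩
    -- the entries on the `k`-th superdiagonal
    have hmul : ∀ s t : G, ∀ i j, b j = b i + k →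
        ((f (s * t) : GL ι L) : Matrix ι ι L) i j =
          ((f s : GL ι L) : Matrix ι ι L) i j + ((f t : GL ι L) : Matrix ι ι L) i j := by
      intro s t i j hij
      have hne : i ≠ j := fun h => by rw [h] at hij; omega
      rw [map_mul, Units.val_mul, Matrix.mul_apply, ← Finset.add_sum_erase _ _ (Finset.mem_univ i),
        ← Finset.add_sum_erase _ _ (Finset.mem_erase.2 ⟨hne.symm, Finset.mem_univ j⟩), hd, hd,
        one_mul, mul_one, Finset.sum_eq_zero, add_zero, add_comm]
      intro l hl
      have hl1 : l ≠ j := (Finset.mem_erase.1 hl).1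
      have hl2 : l ≠ i := (Finset.mem_erase.1 (Finset.mem_erase.1 hl).2).1
      have hbi : b l ≠ b i := fun h => hl2 (hb h)
      have hbj : b l ≠ b j := fun h => hl1 (hb h)
      rcases lt_or_gt_of_ne hbi with h | h
      · rw [htr s h, zero_mul]
      · rcases lt_or_gt_of_ne hbj with h' | h'
        · rw [h0 s i l h (by omega), zero_mul]
        · rw [htr t h', mul_zero]
    let δ : G →* Multiplicative (ι → ι → Λ) :=
      { toFun := fun s => Multiplicative.ofAdd fun i j =>
          if b j = b i + k then ⟨((f s : GL ι L) : Matrix ι ι L) i j, hΛ s i j⟩ else 0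
        map_one' := by
          refine congrArg Multiplicative.ofAdd (funext fun i => funext fun j => ?_)
          split_ifs with h
          · refine Subtype.ext ?_
            show ((f 1 : GL ι L) : Matrix ι ι L) i j = 0
            have h1 := hmul 1 1 i j h
            rw [mul_one] at h1
            exact left_eq_add.1 h1
          · rfl
        map_mul' := fun s t => by
          refine congrArg Multiplicative.ofAdd (funext fun i => funext fun j => ?_)
          show _ = (if b j = b i + k then
            (⟨((f s : GL ι L) : Matrix ι ι L) i j, hΛ s i j⟩ : Λ) else 0) +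
            if b j = b i + k then ⟨((f t : GL ι L) : Matrix ι ι L) i j, hΛ t i j⟩ else 0
          split_ifs with h
          · exact Subtype.ext (hmul s t i j h)
          · rw [add_zero] }
    obtain ⟨m, hm⟩ := ih (k + 1) (by omega) (by omega) δ.ker (f.comp δ.ker.subtype)
      (hf.comp δ.ker.subtype_injective) (fun s => htr s.1) (fun s i => hd s.1 i)
      (fun s i j => hΛ s.1 i j) (by
        intro s i j h1 h2
        by_cases h3 : b j < b i + k
        · exact h0 s.1 i j h1 h3
        · have h4 : b j = b i + k := by omega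
          have h5 := congrFun (congrFun (congrArg Multiplicative.toAdd
            (show δ s.1 = 1 from s.2)) i) j
          have h6 : (if b j = b i + k then
            (⟨((f s.1 : GL ι L) : Matrix ι ι L) i j, hΛ s.1 i j⟩ : Λ) else 0) = 0 := h5
          rw [if_pos h4] at h6
          exact congrArg Subtype.val h6)
    exact PZ.ext_add m (ι → ι → Λ) δ hm

end

end TRN

open TRN in
/-- TRN. -/
theorem trn : TrnStatement.{u, v} := by
  intro L S _ _ _ hS ι _ _ b ρ hb hρ htr hi
  obtain ⟨Λ, hΛ, hmem⟩ := bound hb hS ρ htr hi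
  have hΛf : Module.Finite ℤ Λ := Module.Finite.iff_fg.2 hΛ
  obtain ⟨B, hB⟩ : ∃ B : ℕ, ∀ i, b i ≤ B :=
    ⟨Finset.univ.sup b, fun i => Finset.le_sup (Finset.mem_univ i)⟩
  let q : S →* (ι → L)ˣ := MonoidHom.toHomUnits
    { toFun := fun s i => ((ρ s : GL ι L) : Matrix ι ι L) i i
      map_one' := by
        funext i
        rw [map_one, Units.val_one, Matrix.one_apply_eq]
        rfl
      map_mul' := fun s t => by
        funext i
        rw [map_mul, Units.val_mul, diag_mul hb (htr s) (htr t)]
        rfl }
  have hFG : Group.FG q.range := by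
    have := hS
    exact Group.fg_range q
  have hq : ∀ s : q.rangeRestrict.ker, ∀ i, ((ρ s.1 : GL ι L) : Matrix ι ι L) i i = 1 := by
    intro s i
    have h1 : q s.1 = 1 := congrArg Subtype.val s.2
    exact congrFun (congrArg Units.val h1) i
  obtain ⟨m, hm⟩ := uni hb B hB Λ (B + 1) 1 (by omega) le_rfl q.rangeRestrict.ker
    (ρ.comp q.rangeRestrict.ker.subtype) (hρ.comp q.rangeRestrict.ker.subtype_injective)
    (fun s => htr s.1) hq (fun s i j => hmem s.1 i j) (fun s i j h1 h2 => by omega)
  exact PZ.finite m q.range q.rangeRestrict hm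

/-- TRN for an arbitrary linear order. -/
theorem trn_order {L : Type v} {S : Type u} [Field L] [CharZero L] [Group S] (hS : Group.FG S)
    {ι : Type} [Fintype ι] [DecidableEq ι] {α : Type*} [LinearOrder α] (b : ι → α)
    (ρ : S →* GL ι L) (hb : Function.Injective b) (hρ : Function.Injective ρ)
    (htr : ∀ s, ((ρ s : GL ι L) : Matrix ι ι L).BlockTriangular b)
    (hi : ∀ s i, IsIntegral ℤ (((ρ s : GL ι L) : Matrix ι ι L) i i)) :
    ∃ H : Subgroup S, H.Normal ∧ H.FiniteIndex ∧ ∃ n, PZ n H := by
  classical
  have hlt : ∀ i j, b i < b j → (Finset.univ.filter fun l => b l < b i).card <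
      (Finset.univ.filter fun l => b l < b j).card := by
    intro i j hij
    refine Finset.card_lt_card (Finset.ssubset_iff_subset_ne.2 ⟨fun l hl => ?_, fun h => ?_⟩)
    · rw [Finset.mem_filter] at hl ⊢
      exact ⟨hl.1, hl.2.trans hij⟩
    · have h1 : i ∈ Finset.univ.filter fun l => b l < b j :=
        Finset.mem_filter.2 ⟨Finset.mem_univ i, hij⟩
      rw [← h, Finset.mem_filter] at h1
      exact lt_irrefl _ h1.2
  refine trn L S hS ι (fun i => (Finset.univ.filter fun l => b l < b i).card) ρ ?_ hρ ?_ hi
  · intro i j hij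
    by_contra hne
    rcases lt_or_gt_of_ne (fun h => hne (hb h) : b i ≠ b j) with h | h
    · exact absurd hij (hlt i j h).ne
    · exact absurd hij (hlt j i h).ne'
  · intro s i j hij
    refine htr s ?_
    by_contra h
    rcases lt_or_eq_of_le (not_lt.1 h) with h1 | h1
    · exact lt_asymm hij (hlt i j h1)
    · have h2 : i = j := hb h1
      rw [h2] at hij
      exact lt_irrefl _ hij

end Pool.Agent.NegK.PL
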