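import Pool.Agent.Lib.MP_28303a_al.PL.TRN

/-! # Block triangular groups: the entries and the kernel of the blocks -/

set_option autoImplicit false
set_option linter.unusedSectionVars false
set_option linter.unusedVariables false

namespace Pool.Agent.NegK.PL

universe u v

namespace TRN

variable {L : Type v} [Field L] {ι : Type} [Fintype ι] [DecidableEq ι] {b : ι → ℕ}

/-- The entries of a finitely generated block triangular group whose blocks have entries in a ring
which is a finitely generated `ℤ`-module. -/
theorem boundB {S : Type u} [Group S] (hS : Group.FG S) (ρ : S →* GL ι L)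
    (htr : ∀ s, ((ρ s : GL ι L) : Matrix ι ι L).BlockTriangular b) (O : Subalgebra ℤ L)
    [hO : Module.Finite ℤ O]
    (hi : ∀ s i j, b i = b j → ((ρ s : GL ι L) : Matrix ι ι L) i j ∈ O) :
    ∃ Λ : Submodule ℤ L, Λ.FG ∧ ∀ s i j, ((ρ s : GL ι L) : Matrix ι ι L) i j ∈ Λ := by
  classical
  obtain ⟨T, hT⟩ := (Group.fg_iff_monoid_fg.1 hS).fg_top
  let W : Submodule O L := Submodule.span O
    ({1} ∪ (((T ×ˢ Finset.univ : Finset (S × (ι × ι))) : Set (S × (ι × ι))).image
      fun p => ((ρ p.1 : GL ι L) : Matrix ι ι L) p.2.1 p.2.2))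
  have hW : W.FG :=
    Submodule.fg_span ((Set.finite_singleton 1).union ((Finset.finite_toSet _).image _))
  have h1W : (1 : L) ∈ W := Submodule.subset_span (Or.inl rfl)
  have hTW : ∀ s ∈ T, ∀ i j, ((ρ s : GL ι L) : Matrix ι ι L) i j ∈ W := fun s hs i j =>
    Submodule.subset_span (Or.inr ⟨(s, (i, j)),
      Finset.mem_coe.2 (Finset.mem_product.2 ⟨hs, Finset.mem_univ _⟩), rfl⟩)
  have hmono : ∀ (k l : ℕ), k ≤ l → W ^ k ≤ W ^ l := by
    intro k l hkl
    induction l, hkl using Nat.le_induction with
    | base => exact le_rfl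
    | succ l _ ih =>
      refine ih.trans fun x hx => ?_
      rw [pow_succ]
      have := Submodule.mul_mem_mul hx h1W
      rwa [mul_one] at this
  have hgen : ∀ s ∈ T, Gd W b ((ρ s : GL ι L) : Matrix ι ι L) := by
    intro s hs i j
    refine ⟨fun h => htr s h, fun h => ?_⟩
    rcases Nat.eq_or_lt_of_le h with h1 | h1
    · rw [h1, Nat.sub_self]
      exact mem_pow_zero (hi s i j h1)
    · have h2 := hmono 1 (b j - b i) (by omega)
      rw [pow_one] at h2
      exact h2 (hTW s hs i j)
  have hone : Gd W b (1 : Matrix ι ι L) := by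
    intro i j
    constructor
    · intro h
      exact Matrix.one_apply_ne fun hij => by rw [hij] at h; exact lt_irrefl _ h
    · intro h
      by_cases hij : i = j
      · rw [hij, Matrix.one_apply_eq, Nat.sub_self]
        exact mem_pow_zero O.one_mem
      · rw [Matrix.one_apply_ne hij]
        exact Submodule.zero_mem _
  have hall : ∀ s, Gd W b ((ρ s : GL ι L) : Matrix ι ι L) := by
    intro s
    have hs : s ∈ Submonoid.closure (T : Set S) := by
      rw [hT]
      exact Submonoid.mem_top s
    induction hs using Submonoid.closure_induction with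
    | mem x hx => exact hgen x hx
    | one =>
      rw [map_one]
      exact hone
    | mul x y _ _ hx hy =>
      rw [map_mul]
      exact hx.mul hy
  obtain ⟨B, hB⟩ : ∃ B : ℕ, ∀ i, b i ≤ B :=
    ⟨Finset.univ.sup b, fun i => Finset.le_sup (Finset.mem_univ i)⟩
  have hWn : (W ^ B).FG := hW.pow B
  have hfin : Module.Finite O (W ^ B : Submodule O L) := Module.Finite.iff_fg.2 hWn
  have hfin2 : Module.Finite ℤ (W ^ B : Submodule O L) := Module.Finite.trans O _
  refine ⟨(W ^ B).restrictScalars ℤ, Module.Finite.iff_fg.1 hfin2, fun s i j => ?_⟩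
  rcases lt_or_ge (b j) (b i) with h | h
  · rw [(hall s i j).1 h]
    exact Submodule.zero_mem _
  · have hbj := hB j
    exact hmono _ B (by omega) ((hall s i j).2 h)

/-- Block unipotent groups with entries in a finitely generated module. -/
theorem uniB [CharZero L] (B : ℕ) (hB : ∀ i, b i ≤ B) (Λ : Submodule ℤ L)
    [Module.Finite ℤ Λ] : ∀ (r k : ℕ), B < k + r → 1 ≤ k →
    ∀ (G : Type u) [Group G] (f : G →* GL ι L), Function.Injective f →
    (∀ s, ((f s : GL ι L) : Matrix ι ι L).BlockTriangular b) →
    (∀ s i j, b i = b j → ((f s : GL ι L) : Matrix ι ι L) i j = (1 : Matrix ι ι L) i j) →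
    (∀ s i j, ((f s : GL ι L) : Matrix ι ι L) i j ∈ Λ) →
    (∀ s i j, b i < b j → b j < b i + k → ((f s : GL ι L) : Matrix ι ι L) i j = 0) →
    ∃ n, PZ n G := by
  intro r
  induction r with
  | zero =>
    intro k hk _ G _ f hf htr hd _ h0
    refine ⟨0, ⟨fun s t => ?_⟩⟩
    have key : ∀ s : G, s = 1 := by
      intro s
      refine hf ?_
      rw [map_one]
      refine Units.ext (Matrix.ext fun i j => ?_)
      rcases lt_trichotomy (b i) (b j) with h | h | h
      · have hbj := hB j
        rw [h0 s i j h (by omega), Units.val_one, Matrix.one_apply_ne fun hij => by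
          rw [hij] at h; exact lt_irrefl _ h]
      · rw [hd s i j h, Units.val_one]
      · rw [htr s h, Units.val_one, Matrix.one_apply_ne fun hij => by
          rw [hij] at h; exact lt_irrefl _ h]
    rw [key s, key t]
  | succ r ih =>
    intro k hk hk1 G _ f hf htr hd hΛ h0
    have hΛt : IsAddTorsionFree Λ := ⟨fun m hm x y h => Subtype.ext (by
      have h1 : m • (x : L) = m • (y : L) := congrArg Subtype.val h
      rw [nsmul_eq_mul, nsmul_eq_mul] at h1
      exact mul_left_cancel₀ (Nat.cast_ne_zero.2 hm) h1)⟩
    -- the entries on the `k`-th block superdiagonal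
    have hmul : ∀ s t : G, ∀ i j, b j = b i + k →
        ((f (s * t) : GL ι L) : Matrix ι ι L) i j =
          ((f s : GL ι L) : Matrix ι ι L) i j + ((f t : GL ι L) : Matrix ι ι L) i j := by
      intro s t i j hij
      have hne : i ≠ j := fun h => by rw [h] at hij; omega
      rw [map_mul, Units.val_mul, Matrix.mul_apply, ← Finset.add_sum_erase _ _ (Finset.mem_univ i),
        ← Finset.add_sum_erase _ _ (Finset.mem_erase.2 ⟨hne.symm, Finset.mem_univ j⟩),
        hd s i i rfl, hd t j j rfl, Matrix.one_apply_eq, Matrix.one_apply_eq,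
        one_mul, mul_one, Finset.sum_eq_zero, add_zero, add_comm]
      intro l hl
      have hl1 : l ≠ j := (Finset.mem_erase.1 hl).1
      have hl2 : l ≠ i := (Finset.mem_erase.1 (Finset.mem_erase.1 hl).2).1
      rcases lt_trichotomy (b l) (b i) with h | h | h
      · rw [htr s h, zero_mul]
      · rw [hd s i l h.symm, Matrix.one_apply_ne hl2.symm, zero_mul]
      · rcases lt_trichotomy (b l) (b j) with h' | h' | h'
        · rw [h0 s i l h (by omega), zero_mul]
        · rw [hd t l j h', Matrix.one_apply_ne hl1, mul_zero]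
        · rw [htr t h', mul_zero]
    let δ : G →* Multiplicative (ι → ι → Λ) :=
      { toFun := fun s => Multiplicative.ofAdd fun i j =>
          if b j = b i + k then ⟨((f s : GL ι L) : Matrix ι ι L) i j, hΛ s i j⟩ else 0
        map_one' := by
          refine congrArg Multiplicative.ofAdd (funext fun i => funext fun j => ?_)
          split_ifs with h
          · refine Subtype.ext ?_
            show ((f 1 : GL ι L) : Matrix ι ι L) i j = 0
            have h1 := hmul 1 1 i j h
            rw [mul_one] at h1
            exact left_eq_add.1 h1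
          · rfl
        map_mul' := fun s t => by
          refine congrArg Multiplicative.ofAdd (funext fun i => funext fun j => ?_)
          show _ = (if b j = b i + k then
            (⟨((f s : GL ι L) : Matrix ι ι L) i j, hΛ s i j⟩ : Λ) else 0) +
            if b j = b i + k then ⟨((f t : GL ι L) : Matrix ι ι L) i j, hΛ t i j⟩ else 0
          split_ifs with h
          · exact Subtype.ext (hmul s t i j h)
          · rw [add_zero] }
    obtain ⟨m, hm⟩ := ih (k + 1) (by omega) (by omega) δ.ker (f.comp δ.ker.subtype)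
      (hf.comp δ.ker.subtype_injective) (fun s => htr s.1) (fun s i j h => hd s.1 i j h)
      (fun s i j => hΛ s.1 i j) (by
        intro s i j h1 h2
        by_cases h3 : b j < b i + k
        · exact h0 s.1 i j h1 h3
        · have h4 : b j = b i + k := by omega
          have h5 := congrFun (congrFun (congrArg Multiplicative.toAdd
            (show δ s.1 = 1 from s.2)) i) j
          have h6 : (if b j = b i + k then
            (⟨((f s.1 : GL ι L) : Matrix ι ι L) i j, hΛ s.1 i j⟩ : Λ) else 0) = 0 := h5
          rw [if_pos h4] at h6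
          exact congrArg Subtype.val h6)
    exact PZ.ext_add m (ι → ι → Λ) δ hm

/-- The kernel of the blocks of a finitely generated block triangular group whose blocks have
entries in a ring which is a finitely generated `ℤ`-module. Only subgroups on which the
representation is injective are considered. -/
theorem kerB [CharZero L] {S : Type u} [Group S] (hS : Group.FG S) (ρ : S →* GL ι L)
    (htr : ∀ s, ((ρ s : GL ι L) : Matrix ι ι L).BlockTriangular b) (O : Subalgebra ℤ L)
    [hO : Module.Finite ℤ O]
    (hi : ∀ s i j, b i = b j → ((ρ s : GL ι L) : Matrix ι ι L) i j ∈ O) (G : Type u) [Group G]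
    (f : G →* S) (hf : Function.Injective (ρ.comp f))
    (h1 : ∀ s i j, b i = b j → ((ρ (f s) : GL ι L) : Matrix ι ι L) i j = (1 : Matrix ι ι L) i j) :
    ∃ n, PZ n G := by
  obtain ⟨Λ, hΛ, hmem⟩ := boundB hS ρ htr O hi
  have hΛf : Module.Finite ℤ Λ := Module.Finite.iff_fg.2 hΛ
  obtain ⟨B, hB⟩ : ∃ B : ℕ, ∀ i, b i ≤ B :=
    ⟨Finset.univ.sup b, fun i => Finset.le_sup (Finset.mem_univ i)⟩
  exact uniB B hB Λ (B + 1) 1 (by omega) le_rfl G (ρ.comp f) hf (fun s => htr (f s)) h1
    (fun s i j => hmem (f s) i j) (fun s i j h2 h3 => by omega)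

end TRN

/-- Block unipotent groups of matrices with entries in a finitely generated `ℤ`-module. -/
theorem pz_unip (n : ℕ) (b : Fin n → ℕ) (L : Type v) (F : Type u) [Field L] [CharZero L] [Group F]
    (ρ : F →* GL (Fin n) L) (hinj : Function.Injective ρ)
    (hu : ∀ g i j, b j ≤ b i → ((ρ g : GL (Fin n) L) : Matrix (Fin n) (Fin n) L) i j =
      (1 : Matrix (Fin n) (Fin n) L) i j)
    (W : Submodule ℤ L) (hW : W.FG)
    (hWe : ∀ g i j, ((ρ g : GL (Fin n) L) : Matrix (Fin n) (Fin n) L) i j ∈ W) :
    ∃ m, PZ m F := by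
  have hWf : Module.Finite ℤ W := Module.Finite.iff_fg.2 hW
  obtain ⟨B, hB⟩ : ∃ B : ℕ, ∀ i, b i ≤ B :=
    ⟨Finset.univ.sup b, fun i => Finset.le_sup (Finset.mem_univ i)⟩
  refine TRN.uniB (b := b) B hB W (B + 1) 1 (by omega) le_rfl F ρ hinj (fun s i j h => ?_)
    (fun s i j h => hu s i j h.ge) hWe (fun s i j h2 h3 => by omega)
  rw [hu s i j (le_of_lt h), Matrix.one_apply_ne fun hij => by rw [hij] at h; exact lt_irrefl _ h]

end Pool.Agent.NegK.PL
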