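import Pool.Agent.Lib.MP_28303a_al.PL.Ptf
import Pool.Agent.Lib.MP_28303a_al.NT.Main
import Pool.Agent.Lib.MP_28303a_al.NT.H1.Gl2

/-! # `K₀` of poly-Z groups -/

set_option autoImplicit false
set_option linter.unusedSectionVars false
set_option linter.unusedVariables false

namespace Pool.Agent.NegK.PL

universe u

open Pool.Agent.NegK.TW Pool.Agent.NegK.TT Pool.Agent.NegK.NT

/-- `K₀(R) → K₀(R[G])` is onto for poly-Z groups. -/
theorem pz_inK : ∀ (n : ℕ) (G : Type u) [Group G], PZ n G → InK G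
  | 0, G, _, h => inK_of_subsingleton G fun g => by
    have : Subsingleton G := h
    exact Subsingleton.elim _ _
  | n + 1, G, _, ⟨φ, h⟩ => by
    obtain ⟨T, hT⟩ := H1.exists_TD_line G φ
    let Y : Trees G := ⟨1, fun _ => T.V, fun _ => T.act, fun _ => T.G, fun _ => T.tree⟩
    have key : ∀ v, PZ n (Y.st v) := by
      intro v
      have h1 : ∀ g : Y.st v, φ g.1 = 1 := fun g =>
        hT g.1 ⟨v 0, (Subgroup.mem_iInf.1 g.2) 0⟩
      exact PZ.of_injective n ((Y.st v).subtype.codRestrict φ.ker h1)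
        (fun a b hab => Subtype.ext (congrArg (fun z : φ.ker => z.1) hab)) h
    exact trees_inK Y (fun v => inRC_of_inN (pz_inN n _ (key v))) fun v => pz_inK n _ (key v)

end Pool.Agent.NegK.PL
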