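import Pool.Agent.Lib.MP_28303a_al.AP.Sub
import Pool.Agent.Lib.MP_28303a_al.TT.Main3
import Pool.Agent.Lib.MP_28303a_al.TT.Sl2

/-! # Tame automorphisms fixing a long path have finite order

Over a field of characteristic zero a tame automorphism of the affine plane which fixes a reduced
path with seven edges of the tree has finite order. -/

set_option autoImplicit false

namespace Pool.Agent.NegK.PL.ACY

universe u

open MvPolynomial Pool.Agent.NegK.AP

variable {K : Type u} [Field K]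

/-- The elements of the edge group. -/
def Bor (φ : Au K) (a b c d e : K) : Prop :=
  φ (X 0) = C a * X 0 + C b * X 1 + C c ∧ φ (X 1) = C d * X 1 + C e

theorem exists_bor {φ : Au K} (hA : φ ∈ affS K) (hB : φ ∈ triS K) :
    ∃ a b c d e : K, a ≠ 0 ∧ d ≠ 0 ∧ Bor φ a b c d e := by
  obtain ⟨a, c, d, P, ha, hc, h⟩ := hB
  have h1 := exists_lin (hA 0).1
  rw [(tri_coeff h).1] at h1
  exact ⟨a, _, _, c, d, ha, hc, h1, h.2⟩

theorem lin_inj {a b c a' b' c' : K}
    (h : (C a * X 0 + C b * X 1 + C c : MvPolynomial (Fin 2) K) =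
      C a' * X 0 + C b' * X 1 + C c') : a = a' ∧ b = b' ∧ c = c' := by
  have h1 := coeff_lin a b c
  have h2 := coeff_lin a' b' c'
  rw [h] at h1
  exact ⟨h1.1.symm.trans h2.1, h1.2.1.symm.trans h2.2.1, h1.2.2.symm.trans h2.2.2⟩

theorem bor_mul {φ ψ : Au K} {a b c d e a' b' c' d' e' : K} (h : Bor φ a b c d e)
    (h' : Bor ψ a' b' c' d' e') :
    Bor (φ * ψ) (a' * a) (a' * b + b' * d) (a' * c + b' * e + c') (d' * d) (d' * e + e') := by
  constructor
  · rw [AlgEquiv.mul_apply, h'.1, au_lin, h.1, h.2]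
    simp only [C_mul, C_add]
    ring
  · rw [AlgEquiv.mul_apply, h'.2, map_add, map_mul, au_C, au_C, h.2]
    simp only [C_mul, C_add]
    ring

theorem bor_pow {φ : Au K} {a b c d e : K} (h : Bor φ a b c d e) (n : ℕ) :
    ∃ b' c' e' : K, Bor (φ ^ n) (a ^ n) b' c' (d ^ n) e' := by
  induction n with
  | zero => exact ⟨0, 0, 0, by simp [Bor]⟩
  | succ n ih =>
    obtain ⟨b', c', e', h'⟩ := ih
    have h1 := bor_mul h' h
    rw [← pow_succ, ← pow_succ', ← pow_succ'] at h1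
    exact ⟨_, _, _, h1⟩

theorem bor_unique {φ : Au K} {a b c d e a' b' c' d' e' : K} (h : Bor φ a b c d e)
    (h' : Bor φ a' b' c' d' e') : a = a' ∧ b = b' ∧ c = c' ∧ d = d' ∧ e = e' := by
  have h1 := lin_inj (h.1.symm.trans h'.1)
  have h2 : (C 0 * X 0 + C d * X 1 + C e : MvPolynomial (Fin 2) K) =
      C 0 * X 0 + C d' * X 1 + C e' := by
    rw [C_0, zero_mul, zero_add, zero_add, ← h.2, ← h'.2]
  have h3 := lin_inj h2
  exact ⟨h1.1, h1.2.1, h1.2.2, h3.2.1, h3.2.2⟩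

/-- An affine automorphism which maps `X 1` to a polynomial in `X 1` is triangular. -/
theorem mem_tri_of_aff {ψ : Au K} (h : ψ ∈ affS K)
    (hα' : coeff (Finsupp.single 0 1) (ψ (X 1)) = 0) : ψ ∈ triS K := by
  have e0 := exists_lin (h 0).1
  have e1 := exists_lin (h 1).1
  set α := coeff (Finsupp.single 0 1) (ψ (X 0))
  set β := coeff (Finsupp.single 1 1) (ψ (X 0))
  set γ := coeff 0 (ψ (X 0))
  set β' := coeff (Finsupp.single 1 1) (ψ (X 1))
  set γ' := coeff 0 (ψ (X 1))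
  rw [hα', C_0, zero_mul, zero_add] at e1
  have hβ' : β' ≠ 0 := by
    intro h0
    rw [h0, C_0, zero_mul, zero_add] at e1
    have h5 := one_le_deg ψ 1
    rw [e1, totalDegree_C] at h5
    omega
  have hα : α ≠ 0 := by
    intro h0
    rw [h0, C_0, zero_mul, zero_add] at e0
    have h5 : ψ (C β' * X 0 + C (-β) * X 1 + C (β * γ' - β' * γ)) = 0 := by
      rw [au_lin, e0, e1, C_neg, C_sub, C_mul, C_mul]
      ring
    have h6 := ψ.injective (h5.trans (map_zero ψ).symm)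
    have h7 := (coeff_lin β' (-β) (β * γ' - β' * γ)).1
    rw [h6, coeff_zero] at h7
    exact hβ' h7.symm
  refine ⟨α, β', γ', Polynomial.C β * Polynomial.X + Polynomial.C γ, hα, hβ', ?_, e1⟩
  rw [e0, map_add, map_mul, Polynomial.aeval_C, Polynomial.aeval_C, Polynomial.aeval_X, add_assoc]
  rfl

/-- The affine step. -/
theorem stepA {s φ φ' : Au K} (hs : s ∈ affS K) (hs' : s ∉ triS K) (he : φ * s = s * φ')
    {a b c d e a' b' c' d' e' : K} (h : Bor φ a b c d e) (h' : Bor φ' a' b' c' d' e') :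
    ∃ p q r : K, p ≠ 0 ∧ d' = a ∧ p * b + q * d = d' * q ∧ p * c + q * e + r = d' * r + e' := by
  have e1 := exists_lin (hs 1).1
  set p := coeff (Finsupp.single 0 1) (s (X 1)) with hp
  set q := coeff (Finsupp.single 1 1) (s (X 1))
  set r := coeff 0 (s (X 1))
  have hp0 : p ≠ 0 := fun h0 => hs' (mem_tri_of_aff hs (hp.symm.trans h0))
  have h1 : (φ * s) (X 1) = C (p * a) * X 0 + C (p * b + q * d) * X 1 +
      C (p * c + q * e + r) := by
    rw [AlgEquiv.mul_apply, e1, au_lin, h.1, h.2]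
    simp only [C_mul, C_add]
    ring
  have h2 : (s * φ') (X 1) = C (d' * p) * X 0 + C (d' * q) * X 1 + C (d' * r + e') := by
    rw [AlgEquiv.mul_apply, h'.2, map_add, map_mul, au_C, au_C, e1]
    simp only [C_mul, C_add]
    ring
  rw [he, h2] at h1
  obtain ⟨h3, h4, h5⟩ := lin_inj h1
  refine ⟨p, q, r, hp0, ?_, h4.symm, h5.symm⟩
  exact mul_right_cancel₀ hp0 (h3.trans (mul_comm p a))

theorem aeval_inj {P Q : Polynomial K}
    (h : Polynomial.aeval (X 1 : MvPolynomial (Fin 2) K) P = Polynomial.aeval (X 1) Q) : P = Q := by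
  have ht : Transcendental K (X 1 : MvPolynomial (Fin 2) K) := transcendental_X K 1
  exact (transcendental_iff_injective.1 ht) h

/-- The triangular step. -/
theorem stepB {s φ φ' : Au K} (hs : s ∈ triS K) (hs' : s ∉ affS K) (he : φ * s = s * φ')
    {a b c d e a' b' c' d' e' : K} (h : Bor φ a b c d e) (h' : Bor φ' a' b' c' d' e') :
    ∃ (P : Polynomial K) (p q r : K), 2 ≤ P.natDegree ∧ a' = a ∧ d' = d ∧
      q * e + r = d' * r + e' ∧
      Polynomial.C p * (Polynomial.C b * Polynomial.X + Polynomial.C c) +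
        P.comp (Polynomial.C d * Polynomial.X + Polynomial.C e) =
      Polynomial.C a * P + Polynomial.C b' * (Polynomial.C q * Polynomial.X + Polynomial.C r) +
        Polynomial.C c' := by
  obtain ⟨p, q, r, P, hp, hq, hT⟩ := hs
  have hP : 2 ≤ P.natDegree := by
    by_contra hcon
    refine hs' (height2 1 ⟨p, q, r, P, hp, hq, hT⟩ ?_ ?_)
    · simp [dA, dB]
    · rw [one_mul]
      have h1 : dB (1 : Au K) = 1 := by simp [dB]
      rw [h1]
      refine max_le ?_ ?_
      · rw [hT.1]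
        refine le_trans (totalDegree_add _ _) (max_le ?_ ?_)
        · rw [deg_C_mul hp, totalDegree_X]
        · refine le_trans (deg_aeval_le _ _) ?_
          rw [totalDegree_X, mul_one]
          omega
      · rw [hT.2]
        refine le_trans (totalDegree_add _ _) (max_le ?_ ?_)
        · rw [deg_C_mul hq, totalDegree_X]
        · rw [totalDegree_C]
          exact Nat.zero_le _
  have h1 : (φ * s) (X 0) = C (p * a) * X 0 + Polynomial.aeval (X 1)
      (Polynomial.C p * (Polynomial.C b * Polynomial.X + Polynomial.C c) +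
        P.comp (Polynomial.C d * Polynomial.X + Polynomial.C e)) := by
    rw [AlgEquiv.mul_apply, hT.1, map_add, map_mul, au_C, au_aeval, h.1, h.2]
    simp only [map_add, map_mul, Polynomial.aeval_comp, Polynomial.aeval_C, Polynomial.aeval_X,
      algebraMap_eq]
    ring
  have h2 : (s * φ') (X 0) = C (a' * p) * X 0 + Polynomial.aeval (X 1)
      (Polynomial.C a' * P + Polynomial.C b' * (Polynomial.C q * Polynomial.X + Polynomial.C r) +
        Polynomial.C c') := by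
    rw [AlgEquiv.mul_apply, h'.1, au_lin, hT.1, hT.2]
    simp only [map_add, map_mul, Polynomial.aeval_C, Polynomial.aeval_X, algebraMap_eq]
    ring
  have h3 : (φ * s) (X 1) = C 0 * X 0 + C (q * d) * X 1 + C (q * e + r) := by
    rw [AlgEquiv.mul_apply, hT.2, map_add, map_mul, au_C, au_C, h.2]
    simp only [C_mul, C_add, C_0]
    ring
  have h4 : (s * φ') (X 1) = C 0 * X 0 + C (d' * q) * X 1 + C (d' * r + e') := by
    rw [AlgEquiv.mul_apply, h'.2, map_add, map_mul, au_C, au_C, hT.2]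
    simp only [C_mul, C_add, C_0]
    ring
  have haa : ∀ (x : K) (Q : Polynomial K),
      coeff (Finsupp.single 0 1) (C x * X 0 + Polynomial.aeval (X 1) Q : MvPolynomial (Fin 2) K) =
        x := fun x Q => by
    rw [coeff_add, coeff_aeval_X, add_zero]
    have h6 := (coeff_lin x 0 0).1
    rw [C_0, zero_mul, add_zero, add_zero] at h6
    exact h6
  have ha : a' = a := by
    have h5 := congrArg (coeff (Finsupp.single 0 1)) (h1.symm.trans ((congrArg (fun z : Au K => z (X 0)) he).trans h2))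
    rw [haa, haa] at h5
    exact mul_right_cancel₀ hp (h5.symm.trans (mul_comm p a))
  have hd : d' = d := by
    have h5 := lin_inj (h3.symm.trans ((congrArg (fun z : Au K => z (X 1)) he).trans h4))
    exact mul_right_cancel₀ hq (h5.2.1.symm.trans (mul_comm q d))
  refine ⟨P, p, q, r, hP, ha, hd, ?_, ?_⟩
  · exact (lin_inj (h3.symm.trans ((congrArg (fun z : Au K => z (X 1)) he).trans h4))).2.2
  · have h5 := h1.symm.trans ((congrArg (fun z : Au K => z (X 0)) he).trans h2)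
    rw [ha, mul_comm a p] at h5
    exact aeval_inj (add_left_cancel h5)

/-- The leading coefficients. -/
theorem stepB_pow {s φ φ' : Au K} (hs : s ∈ triS K) (hs' : s ∉ affS K) (he : φ * s = s * φ')
    {a b c d e a' b' c' d' e' : K} (h : Bor φ a b c d e) (h' : Bor φ' a' b' c' d' e')
    (hd : d ≠ 0) : a' = a ∧ d' = d ∧ ∃ n : ℕ, 2 ≤ n ∧ a = d ^ n := by
  obtain ⟨P, p, q, r, hP, h1, h2, -, h3⟩ := stepB hs hs' he h h'
  refine ⟨h1, h2, P.natDegree, hP, ?_⟩
  have h4 := congrArg (fun Q : Polynomial K => Q.coeff P.natDegree) h3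
  simp only [Polynomial.coeff_add, Polynomial.coeff_C_mul] at h4
  have hX : (Polynomial.X : Polynomial K).coeff P.natDegree = 0 :=
    Polynomial.coeff_X_of_ne_one (by omega)
  have hC : ∀ x : K, (Polynomial.C x : Polynomial K).coeff P.natDegree = 0 := fun x =>
    Polynomial.coeff_C_ne_zero (by omega)
  have hL : (Polynomial.C d * Polynomial.X + Polynomial.C e : Polynomial K).natDegree = 1 :=
    Polynomial.natDegree_linear hd
  have h5 : (P.comp (Polynomial.C d * Polynomial.X + Polynomial.C e)).coeff P.natDegree =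
      P.leadingCoeff * d ^ P.natDegree := by
    have h6 := Polynomial.coeff_comp_degree_mul_degree (p := P)
      (q := Polynomial.C d * Polynomial.X + Polynomial.C e) (by rw [hL]; exact one_ne_zero)
    rw [hL, mul_one] at h6
    rw [h6, Polynomial.leadingCoeff_linear hd]
  rw [h5, hX, hC, hC, hC] at h4
  simp only [mul_zero, add_zero, zero_add] at h4
  have hl : P.leadingCoeff ≠ 0 := by
    intro h0
    rw [Polynomial.leadingCoeff_eq_zero] at h0
    rw [h0] at hP
    simp at hP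
  have h7 : P.leadingCoeff * d ^ P.natDegree = P.leadingCoeff * a := by
    rw [h4, mul_comm a]
    rfl
  exact (mul_left_cancel₀ hl h7).symm

/-- Translations. -/
theorem stepB_tr [CharZero K] {s φ φ' : Au K} (hs : s ∈ triS K) (hs' : s ∉ affS K)
    (he : φ * s = s * φ') {c e c' e' : K} (h : Bor φ 1 0 c 1 e) (h' : Bor φ' 1 0 c' 1 e') :
    e = 0 ∧ e' = 0 := by
  obtain ⟨P, p, q, r, hP, -, -, h1, h3⟩ := stepB hs hs' he h h'
  have he0 : e = 0 := by
    by_contra hne
    have h4 : ∀ y : K, P.eval (y + e) = P.eval y + (c' - p * c) := by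
      intro y
      have h5 := congrArg (Polynomial.eval y) h3
      simp only [Polynomial.eval_add, Polynomial.eval_mul, Polynomial.eval_C, Polynomial.eval_X,
        Polynomial.eval_comp] at h5
      rw [one_mul] at h5
      linear_combination h5
    have h6 : ∀ k : ℕ, P.eval ((k : K) * e) = P.eval 0 + (k : K) * (c' - p * c) := by
      intro k
      induction k with
      | zero => simp
      | succ k ih =>
        have h7 : ((k + 1 : ℕ) : K) * e = (k : K) * e + e := by push_cast; ring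
        rw [h7, h4, ih]
        push_cast
        ring
    have h8 : P = Polynomial.C ((c' - p * c) / e) * Polynomial.X + Polynomial.C (P.eval 0) := by
      refine Polynomial.eq_of_infinite_eval_eq _ _ ?_
      refine Set.Infinite.mono (s := Set.range fun k : ℕ => (k : K) * e) ?_ ?_
      · rintro _ ⟨k, rfl⟩
        show P.eval ((k : K) * e) = _
        rw [h6]
        simp only [Polynomial.eval_add, Polynomial.eval_mul, Polynomial.eval_C, Polynomial.eval_X]
        field_simp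
        ring
      · refine Set.infinite_range_of_injective fun k l hkl => ?_
        have h9 := mul_right_cancel₀ hne hkl
        exact_mod_cast h9
    have h10 : P.natDegree ≤ 1 := by
      rw [h8]
      exact Polynomial.natDegree_linear_le
    omega
  refine ⟨he0, ?_⟩
  rw [he0] at h1
  linear_combination -h1

theorem conj_eq {φ φ' s : Au K} (h : φ' = s⁻¹ * φ * s) : φ * s = s * φ' := by
  rw [h]; group

/-- The algebraic heart: a path with the steps `A`, `B`, `A`, `B`, `A`. -/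
theorem key [CharZero K] (g : Au K) (x : ℕ → Au K)
    (hfA : ∀ i < 6, (x i)⁻¹ * g * x i ∈ affS K) (hfB : ∀ i < 6, (x i)⁻¹ * g * x i ∈ triS K)
    (hA : ∀ i, i = 0 ∨ i = 2 ∨ i = 4 → (x i)⁻¹ * x (i + 1) ∈ affS K ∧ (x i)⁻¹ * x (i + 1) ∉ triS K)
    (hB : ∀ i, i = 1 ∨ i = 3 → (x i)⁻¹ * x (i + 1) ∈ triS K ∧ (x i)⁻¹ * x (i + 1) ∉ affS K) :
    ∃ n : ℕ, 0 < n ∧ g ^ n = 1 := by
  set y : ℕ → Au K := fun i => (x i)⁻¹ * g * x i with hy
  have hst : ∀ (n i : ℕ), y i ^ n * ((x i)⁻¹ * x (i + 1)) = ((x i)⁻¹ * x (i + 1)) * y (i + 1) ^ n := by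
    intro n i
    have h1 : ∀ i, y i ^ n = (x i)⁻¹ * g ^ n * x i := fun i => by
      have := map_pow (MulAut.conj (x i)⁻¹) g n
      simp only [MulAut.conj_apply, inv_inv] at this
      exact this.symm
    rw [h1, h1]
    group
  have hst1 : ∀ i : ℕ, y i * ((x i)⁻¹ * x (i + 1)) = ((x i)⁻¹ * x (i + 1)) * y (i + 1) := fun i => by
    have := hst 1 i
    rwa [pow_one, pow_one] at this
  have hb : ∀ i < 6, ∃ a b c d e : K, a ≠ 0 ∧ d ≠ 0 ∧ Bor (y i) a b c d e := fun i hi =>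
    exists_bor (hfA i hi) (hfB i hi)
  choose! a b c d e ha hd hbor using hb
  -- the diagonal entries
  have hA0 : ∀ i, i = 0 ∨ i = 2 ∨ i = 4 → d (i + 1) = a i ∧ d i = a (i + 1) := by
    intro i hi
    have hi6 : i < 6 := by omega
    have hi7 : i + 1 < 6 := by omega
    obtain ⟨h1, h2⟩ := hA i hi
    obtain ⟨-, -, -, -, h3, -, -⟩ := stepA h1 h2 (hst1 i) (hbor i hi6) (hbor (i + 1) hi7)
    have h4 : ((x i)⁻¹ * x (i + 1))⁻¹ ∉ triS K := fun h => h2 (by
      have := inv_mem h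
      rwa [inv_inv] at this)
    have h5 : y (i + 1) * ((x i)⁻¹ * x (i + 1))⁻¹ = ((x i)⁻¹ * x (i + 1))⁻¹ * y i := by
      have := hst1 i
      rw [mul_inv_eq_iff_eq_mul, mul_assoc, this, inv_mul_cancel_left]
    obtain ⟨-, -, -, -, h6, -, -⟩ := stepA (inv_mem h1) h4 h5 (hbor (i + 1) hi7) (hbor i hi6)
    exact ⟨h3, h6⟩
  have hB0 : ∀ i, i = 1 ∨ i = 3 → a (i + 1) = a i ∧ d (i + 1) = d i ∧
      ∃ n : ℕ, 2 ≤ n ∧ a i = d i ^ n := by
    intro i hi
    have hi6 : i < 6 := by omega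
    have hi7 : i + 1 < 6 := by omega
    obtain ⟨h1, h2⟩ := hB i hi
    exact stepB_pow h1 h2 (hst1 i) (hbor i hi6) (hbor (i + 1) hi7) (hd i hi6)
  obtain ⟨h12a, h12d, n, hn, h1n⟩ := hB0 1 (Or.inl rfl)
  obtain ⟨h34a, h34d, m, hm, h3m⟩ := hB0 3 (Or.inr rfl)
  obtain ⟨h01, h01'⟩ := hA0 0 (Or.inl rfl)
  obtain ⟨h23, h23'⟩ := hA0 2 (Or.inr (Or.inl rfl))
  obtain ⟨h45, h45'⟩ := hA0 4 (Or.inr (Or.inr rfl))
  norm_num at h12a h12d h34a h34d h01 h01' h23 h23' h45 h45'
  -- `d 1 = d 2 = a 3 = d 3 ^ m = a 2 ^ m = a 1 ^ m = d 1 ^ (n m)`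
  have hnm : d 1 ^ (n * m) = d 1 := by
    rw [pow_mul, ← h1n, ← h12a, ← h23, ← h3m, ← h23', h12d]
  set N := n * m - 1 with hN
  have hN0 : 0 < N := by
    have : 2 * 2 ≤ n * m := Nat.mul_le_mul hn hm
    omega
  have hdN : d 1 ^ N = 1 := by
    have h1 : d 1 ^ (N + 1) = d 1 := by
      rw [show N + 1 = n * m by omega]
      exact hnm
    rw [pow_succ] at h1
    exact mul_right_cancel₀ (hd 1 (by norm_num)) (h1.trans (one_mul _).symm)
  have haN : a 1 ^ N = 1 := by
    rw [h1n, ← pow_mul, mul_comm n N, pow_mul, hdN, one_pow]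
  -- the powers
  have hp : ∀ i < 6, ∃ b' c' e' : K, Bor (y i ^ N) (a i ^ N) b' c' (d i ^ N) e' := fun i hi =>
    bor_pow (hbor i hi) N
  choose! b' c' e' hbor' using hp
  have e1 : a 0 = d 1 := h01.symm
  have e2 : d 0 = a 1 := h01'
  have e3 : a 3 = d 1 := by rw [← h23', h12d]
  have e4 : d 3 = a 1 := by rw [h23, h12a]
  have e5 : a 4 = d 1 := by rw [h34a, e3]
  have e6 : d 4 = a 1 := by rw [h34d, e4]
  have e7 : a 5 = a 1 := by rw [← h45', e6]
  have e8 : d 5 = d 1 := by rw [h45, e5]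
  have hone : ∀ i < 6, a i ^ N = 1 ∧ d i ^ N = 1 := by
    intro i hi
    interval_cases i
    · rw [e1, e2]; exact ⟨hdN, haN⟩
    · exact ⟨haN, hdN⟩
    · rw [h12a, h12d]; exact ⟨haN, hdN⟩
    · rw [e3, e4]; exact ⟨hdN, haN⟩
    · rw [e5, e6]; exact ⟨hdN, haN⟩
    · rw [e7, e8]; exact ⟨haN, hdN⟩
  have hbor1 : ∀ i < 6, Bor (y i ^ N) 1 (b' i) (c' i) 1 (e' i) := by
    intro i hi
    have := hbor' i hi
    rwa [(hone i hi).1, (hone i hi).2] at this
  -- the affine steps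
  have hA1 : ∀ i, i = 0 ∨ i = 2 ∨ i = 4 → b' i = 0 ∧ b' (i + 1) = 0 ∧
      ∃ p q : K, p ≠ 0 ∧ p * c' i + q * e' i = e' (i + 1) := by
    intro i hi
    have hi6 : i < 6 := by omega
    have hi7 : i + 1 < 6 := by omega
    obtain ⟨h1, h2⟩ := hA i hi
    obtain ⟨p, q, r, hp, -, h3, h3'⟩ := stepA h1 h2 (hst N i) (hbor1 i hi6) (hbor1 (i + 1) hi7)
    have h4 : ((x i)⁻¹ * x (i + 1))⁻¹ ∉ triS K := fun h => h2 (by
      have := inv_mem h
      rwa [inv_inv] at this)
    have h5 : y (i + 1) ^ N * ((x i)⁻¹ * x (i + 1))⁻¹ = ((x i)⁻¹ * x (i + 1))⁻¹ * y i ^ N := by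
      have := hst N i
      rw [mul_inv_eq_iff_eq_mul, mul_assoc, this, inv_mul_cancel_left]
    obtain ⟨p', q', r', hp', -, h6, -⟩ :=
      stepA (inv_mem h1) h4 h5 (hbor1 (i + 1) hi7) (hbor1 i hi6)
    refine ⟨?_, ?_, p, q, hp, ?_⟩
    · refine (mul_eq_zero.1 (?_ : p * b' i = 0)).resolve_left hp
      linear_combination h3
    · refine (mul_eq_zero.1 (?_ : p' * b' (i + 1) = 0)).resolve_left hp'
      linear_combination h6
    · linear_combination h3'
  obtain ⟨-, hb1, -⟩ := hA1 0 (Or.inl rfl)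
  obtain ⟨hb2, hb3, p, q, hp0, hpq⟩ := hA1 2 (Or.inr (Or.inl rfl))
  obtain ⟨hb4, -, -⟩ := hA1 4 (Or.inr (Or.inr rfl))
  norm_num at hb1 hb3 hpq
  have t1 := hbor1 1 (by norm_num)
  have t2 := hbor1 2 (by norm_num)
  have t3 := hbor1 3 (by norm_num)
  have t4 := hbor1 4 (by norm_num)
  rw [hb1] at t1
  rw [hb2] at t2
  rw [hb3] at t3
  rw [hb4] at t4
  obtain ⟨-, h2e⟩ := stepB_tr (hB 1 (Or.inl rfl)).1 (hB 1 (Or.inl rfl)).2 (hst N 1) t1 t2
  obtain ⟨h3e, -⟩ := stepB_tr (hB 3 (Or.inr rfl)).1 (hB 3 (Or.inr rfl)).2 (hst N 3) t3 t4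
  have hc2 : c' 2 = 0 := by
    refine (mul_eq_zero.1 (?_ : p * c' 2 = 0)).resolve_left hp0
    rw [h2e, h3e] at hpq
    linear_combination hpq
  have h2 : y 2 ^ N = 1 := by
    refine au_ext ?_ ?_
    · rw [t2.1, hc2]
      simp
    · rw [t2.2, h2e]
      simp
  refine ⟨N, hN0, ?_⟩
  have h3 : y 2 ^ N = (x 2)⁻¹ * g ^ N * x 2 := by
    have := map_pow (MulAut.conj (x 2)⁻¹) g N
    simp only [MulAut.conj_apply, inv_inv] at this
    exact this.symm
  rw [h2] at h3
  have h4 : g ^ N = x 2 * ((x 2)⁻¹ * g ^ N * x 2) * (x 2)⁻¹ := by group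
  rw [h4, ← h3]
  group

/-! ## Paths -/

theorem stab_l {g x : tame K}
    (h : g • (Sum.inl (x : tame K ⧸ tA K) : (tame K ⧸ tA K) ⊕ (tame K ⧸ tB K)) =
      Sum.inl (x : tame K ⧸ tA K)) : (x.1)⁻¹ * g.1 * x.1 ∈ affS K := by
  have h1 : ((g * x : tame K) : tame K ⧸ tA K) = (x : tame K ⧸ tA K) := Sum.inl_injective h
  have h2 := inv_mem (QuotientGroup.eq.1 h1)
  have h3 := Subgroup.mem_subgroupOf.1 h2
  have h4 : ((((g * x)⁻¹ * x)⁻¹ : tame K) : Au K) = (x.1)⁻¹ * g.1 * x.1 := by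
    push_cast
    group
  rwa [h4] at h3

theorem stab_r {g x : tame K}
    (h : g • (Sum.inr (x : tame K ⧸ tB K) : (tame K ⧸ tA K) ⊕ (tame K ⧸ tB K)) =
      Sum.inr (x : tame K ⧸ tB K)) : (x.1)⁻¹ * g.1 * x.1 ∈ triS K := by
  have h1 : ((g * x : tame K) : tame K ⧸ tB K) = (x : tame K ⧸ tB K) := Sum.inr_injective h
  have h2 := inv_mem (QuotientGroup.eq.1 h1)
  have h3 := Subgroup.mem_subgroupOf.1 h2
  have h4 : ((((g * x)⁻¹ * x)⁻¹ : tame K) : Au K) = (x.1)⁻¹ * g.1 * x.1 := by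
    push_cast
    group
  rwa [h4] at h3

theorem mem_l {x y : tame K} : (x : tame K ⧸ tA K) = (y : tame K ⧸ tA K) ↔
    (x.1)⁻¹ * y.1 ∈ affS K := by
  rw [QuotientGroup.eq, Subgroup.mem_subgroupOf]
  push_cast
  exact Iff.rfl

theorem mem_r {x y : tame K} : (x : tame K ⧸ tB K) = (y : tame K ⧸ tB K) ↔
    (x.1)⁻¹ * y.1 ∈ triS K := by
  rw [QuotientGroup.eq, Subgroup.mem_subgroupOf]
  push_cast
  exact Iff.rfl

/-- A reduced path with six edges which begins at a triangular vertex. -/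
theorem acy6 [CharZero K] (v : ℕ → (tame K ⧸ tA K) ⊕ (tame K ⧸ tB K))
    (hadj : ∀ j < 6, (cosetGraph (tA K) (tB K)).Adj (v j) (v (j + 1)))
    (hne : ∀ j < 5, v j ≠ v (j + 2)) (h0 : ∃ q, v 0 = Sum.inr q) (g : tame K)
    (hg : ∀ j ≤ 6, g • v j = v j) : ∃ n : ℕ, 0 < n ∧ g ^ n = 1 := by
  choose! x hx using hadj
  have hr : ∀ j, (∃ q, v j = Sum.inr q) → j < 6 →
      v j = Sum.inr (x j : tame K ⧸ tB K) ∧ v (j + 1) = Sum.inl (x j : tame K ⧸ tA K) := by
    rintro j ⟨q, hq⟩ hj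
    rcases hx j hj with h | h
    · exact absurd (hq.symm.trans h.1) Sum.inr_ne_inl
    · exact h
  have hl : ∀ j, (∃ q, v j = Sum.inl q) → j < 6 →
      v j = Sum.inl (x j : tame K ⧸ tA K) ∧ v (j + 1) = Sum.inr (x j : tame K ⧸ tB K) := by
    rintro j ⟨q, hq⟩ hj
    rcases hx j hj with h | h
    · exact h
    · exact absurd (hq.symm.trans h.1) Sum.inl_ne_inr
  have h1 := hr 0 h0 (by norm_num)
  have h2 := hl 1 ⟨_, h1.2⟩ (by norm_num)
  have h3 := hr 2 ⟨_, h2.2⟩ (by norm_num)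
  have h4 := hl 3 ⟨_, h3.2⟩ (by norm_num)
  have h5 := hr 4 ⟨_, h4.2⟩ (by norm_num)
  have h6 := hl 5 ⟨_, h5.2⟩ (by norm_num)
  norm_num at h1 h2 h3 h4 h5 h6
  have hfix : ∀ i < 6, (x i).1⁻¹ * g.1 * (x i).1 ∈ affS K ∧ (x i).1⁻¹ * g.1 * (x i).1 ∈ triS K := by
    intro i hi
    have hgi := hg i (by omega)
    have hgi' := hg (i + 1) (by omega)
    rcases hx i hi with h | h
    · rw [h.1] at hgi
      rw [h.2] at hgi'
      exact ⟨stab_l hgi, stab_r hgi'⟩
    · rw [h.1] at hgi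
      rw [h.2] at hgi'
      exact ⟨stab_l hgi', stab_r hgi⟩
  obtain ⟨n, hn, h⟩ := key g.1 (fun i => (x i).1) (fun i hi => (hfix i hi).1)
    (fun i hi => (hfix i hi).2) (fun i hi => by
      rcases hi with rfl | rfl | rfl
      · refine ⟨mem_l.1 (Sum.inl_injective (h1.2.symm.trans h2.1)), fun h => hne 0 (by norm_num) ?_⟩
        rw [h1.1, h2.2, mem_r.2 h]
      · refine ⟨mem_l.1 (Sum.inl_injective (h3.2.symm.trans h4.1)), fun h => hne 2 (by norm_num) ?_⟩
        rw [h3.1, h4.2, mem_r.2 h]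
      · refine ⟨mem_l.1 (Sum.inl_injective (h5.2.symm.trans h6.1)), fun h => hne 4 (by norm_num) ?_⟩
        rw [h5.1, h6.2, mem_r.2 h]) (fun i hi => by
      rcases hi with rfl | rfl
      · refine ⟨mem_r.1 (Sum.inr_injective (h2.2.symm.trans h3.1)), fun h => hne 1 (by norm_num) ?_⟩
        rw [h2.1, h3.2, mem_l.2 h]
      · refine ⟨mem_r.1 (Sum.inr_injective (h4.2.symm.trans h5.1)), fun h => hne 3 (by norm_num) ?_⟩
        rw [h4.1, h5.2, mem_l.2 h])
  exact ⟨n, hn, Subtype.ext (by rw [SubmonoidClass.coe_pow, h]; rfl)⟩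

/-- A tame automorphism in characteristic zero which fixes a reduced path with seven edges has
finite order. -/
theorem acy [CharZero K] (v : ℕ → (tame K ⧸ tA K) ⊕ (tame K ⧸ tB K))
    (hadj : ∀ j < 7, (cosetGraph (tA K) (tB K)).Adj (v j) (v (j + 1)))
    (hne : ∀ j < 6, v j ≠ v (j + 2)) (g : tame K)
    (hg : ∀ j ≤ 7, g • v j = v j) : ∃ n : ℕ, 0 < n ∧ g ^ n = 1 := by
  rcases h0 : v 0 with q | q
  · refine acy6 (fun j => v (j + 1)) (fun j hj => hadj (j + 1) (by omega))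
      (fun j hj => hne (j + 1) (by omega)) ?_ g fun j hj => hg (j + 1) (by omega)
    obtain ⟨x, h | h⟩ := hadj 0 (by norm_num)
    · exact ⟨_, h.2⟩
    · exact absurd (h0.symm.trans h.1) Sum.inl_ne_inr
  · exact acy6 v (fun j hj => hadj j (by omega)) (fun j hj => hne j (by omega)) ⟨q, h0⟩ g
      fun j hj => hg j (by omega)

/-- The stabilizers of the paths with seven edges. -/
theorem stab_eq_bot [CharZero K] {Γ : Type u} [Group Γ] (htf : TorsionFree Γ)
    (χ : Γ →* tame K) (hχ : Function.Injective χ)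
    (v : ℕ → (tame K ⧸ tA K) ⊕ (tame K ⧸ tB K))
    (hadj : ∀ j < 7, (cosetGraph (tA K) (tB K)).Adj (v j) (v (j + 1)))
    (hne : ∀ j < 6, v j ≠ v (j + 2)) (g : Γ) (hg : ∀ j ≤ 7, χ g • v j = v j) : g = 1 := by
  obtain ⟨n, hn, h⟩ := acy v hadj hne (χ g) hg
  refine htf g n hn (hχ ?_)
  rw [map_pow, h, map_one]

/-- The condition on the long paths for torsionfree groups of tame automorphisms. -/
theorem longRC [CharZero K] {Γ : Type u} [Group Γ] (htf : TorsionFree Γ)
    (χ : Γ →* tame K) (hχ : Function.Injective χ) :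
    @TW.LongRC Γ _ ((tame K ⧸ tA K) ⊕ (tame K ⧸ tB K)) (MulAction.compHom _ χ)
      (cosetGraph (tA K) (tB K)) := by
  let _ : MulAction Γ ((tame K ⧸ tA K) ⊕ (tame K ⧸ tB K)) := MulAction.compHom _ χ
  refine ⟨6, fun l hl v hv hv' => TT.inRC_of_inN (TT.inN_of_subsingleton _ fun g => ?_)⟩
  refine Subtype.ext (stab_eq_bot htf χ hχ v (fun j hj => hv j (by omega))
    (fun j hj => hv' j (by omega)) g.1 fun j hj => ?_)
  exact Subgroup.mem_iInf.1 g.2 (⟨j, by omega⟩ : Fin (l + 2))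

end Pool.Agent.NegK.PL.ACY
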