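import Pool.Agent.Lib.MP_28303a_al.NT5.C2

/-! # Reduction of the K-theory of groups with a homomorphism to matrices of degree two

The theorem of `NT5.C0`, `NT5.C1` with the condition on the edges as a hypothesis. -/

set_option autoImplicit false
set_option linter.unusedSectionVars false
set_option linter.unusedVariables false

namespace Pool.Agent.NegK.PL.AFG

universe u

open Matrix WithZero
open Pool.Agent.NegK.TW
open Pool.Agent.NegK.TT
open Pool.Agent.NegK.NT
open Pool.Agent.NegK.NT5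
open H1 (TD)

/-- The groups which embed into `Γ` such that the images of the elements in `GL₂(A)` have finite
order, the traces and determinants of the images in `GL₂(K)` are integral and the traces of the
commutators are `2` are in the class `InRC`. -/
def Edges {Γ : Type u} [Group Γ] {A : Type u} [CommRing A] (φ : Γ →* GL (Fin 2) A)
    {K : Type u} [Field K] (ψ : Γ →* GL (Fin 2) K) : Prop :=
  ∀ (G : Type u) [Group G] (f : G →* Γ), Function.Injective f →
    (∀ g, ∃ n, 0 < n ∧ φ (f g) ^ n = 1) → (∀ g, IsIntegral ℤ (ψ (f g)).1.trace) →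
    (∀ g, IsIntegral ℤ (ψ (f g)).1.det) → (∀ c ∈ commutator G, (ψ (f c)).1.trace = 2) → InRC G

/-- Finitely generated groups over finitely generated fields. -/
theorem fg (hI : ItStatement.{u}) (A : Type u) [CommRing A] (N : ℕ) (hN : 0 < N)
    (hA : (N : A) = 0) (L : Type u) [Field L] [CharZero L] (E : Set L) (hfin : E.Finite)
    (hL : ∀ x : L, ∃ a b : L, a ∈ Subring.closure E ∧ b ∈ Subring.closure E ∧ x = a / b)
    (m : ℕ) (v : Fin m → Valuation L (WithZero (Multiplicative ℤ)))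
    (hv : ∀ a ∈ Subring.closure E, (∀ i, v i a ≤ 1) → IsIntegral ℤ a)
    (Γ : Type u) [Group Γ] [Group.FG Γ] (φ : Γ →* GL (Fin 2) A) (ψ : Γ →* GL (Fin 2) L)
    (hB : ∀ g i j, (ψ g).1 i j ∈ Subring.closure E) (hE : Edges φ ψ)
    (k : Type u) [Ring k] (hk : RegularRing k) :
    ⨆ H : {H : Subgroup Γ // AlgTr ψ H}, img k H.1 = ⊤ := by
  obtain ⟨ι, _, T, hTA⟩ := gl2_trees' A N hN hA Γ φ
  obtain ⟨M, w, hw, hgeo⟩ := exists_geo L E hfin hL
  choose T1 hT1 using fun a => H1.exists_TD_gl L (v a)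
  choose T2 hT2 using fun a => H1.exists_TD_line _ ((vdet (v a)).comp ψ)
  choose T3 hT3 using fun a => H1.exists_TD_line _ ((vdet (w a)).comp ψ)
  choose T4 hT4 hT4' using fun a => exists_TD_glE L (w a)
  have hdet : ∀ g, Matrix.det (ψ g).1 ∈ Subring.closure E := by
    intro g
    rw [Matrix.det_fin_two]
    exact Subring.sub_mem _ (Subring.mul_mem _ (hB g 0 0) (hB g 1 1))
      (Subring.mul_mem _ (hB g 0 1) (hB g 1 0))
  have htr : ∀ g, Matrix.trace (ψ g).1 ∈ Subring.closure E := by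
    intro g
    rw [Matrix.trace_fin_two]
    exact Subring.add_mem _ (hB g 0 0) (hB g 1 1)
  have hdet' : ∀ g, Matrix.det (ψ g).1 * Matrix.det (ψ g⁻¹).1 = 1 := by
    intro g
    have h1 : (ψ g).1 * (ψ g⁻¹).1 = 1 := by
      rw [← Units.val_mul, ← map_mul, mul_inv_cancel, map_one, Units.val_one]
    rw [← Matrix.det_mul, h1, Matrix.det_one]
  have main := it_fin hI Γ (((Fin m ⊕ Fin m) ⊕ (Fin M ⊕ Fin M)) ⊕ ι)
    (Sum.elim (Sum.elim (Sum.elim (fun a => (T1 a).comp ψ) T2)
      (Sum.elim T3 fun a => (T4 a).comp ψ)) T)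
    (fun i => ∃ a, i = Sum.inl (Sum.inr (Sum.inr a))) ?_ k hk
  · rw [eq_top_iff, ← main]
    refine iSup_le fun H => ?_
    refine le_trans ?_ (le_iSup (fun H : {H : Subgroup Γ // AlgTr ψ H} => img k H.1)
      ⟨H.1, fun h hh => ?_⟩)
    · exact le_rfl
    · have h1 : Matrix.trace (ψ h).1 ^ 2 / Matrix.det (ψ h).1 =
          Matrix.trace (ψ h).1 ^ 2 * Matrix.det (ψ h⁻¹).1 := by
        have h2 := hdet' h
        have h3 : Matrix.det (ψ h).1 ≠ 0 := left_ne_zero_of_mul_eq_one h2
        rw [div_eq_iff h3, mul_assoc, mul_comm (Matrix.det (ψ h⁻¹).1), h2, mul_one]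
      refine hgeo _ ?_ fun a => ?_
      · rw [h1]
        exact Subring.mul_mem _ (Subring.pow_mem _ (htr h) 2) (hdet h⁻¹)
      · obtain ⟨x, hx⟩ := H.2 (Sum.inl (Sum.inr (Sum.inr a))) ⟨a, rfl⟩
        have h2 := hT4 a (ψ h) ⟨x, hx h hh⟩
        have h3 : Matrix.det (ψ h).1 ≠ 0 := left_ne_zero_of_mul_eq_one (hdet' h)
        have h4 : w a (Matrix.det (ψ h).1) ≠ 0 := (Valuation.ne_zero_iff (w a)).2 h3
        rw [map_div₀, map_pow]
        exact div_le_one_of_le₀ h2 zero_le
  · rintro i ⟨a, rfl⟩ H x y hxy hfix hell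
    have hdv : ∀ g ∈ H, ∀ b, v b (Matrix.det (ψ g).1) = 1 := fun g hg b =>
      vdet_eq_one (v b) (hT2 b g (hell g hg (Sum.inl (Sum.inl (Sum.inr b)))))
    have hdw : ∀ g ∈ H, ∀ b, w b (Matrix.det (ψ g).1) = 1 := fun g hg b =>
      vdet_eq_one (w b) (hT3 b g (hell g hg (Sum.inl (Sum.inr (Sum.inl b)))))
    have htv : ∀ g ∈ H, ∀ b, v b (Matrix.trace (ψ g).1) ≤ 1 := fun g hg b =>
      hT1 b (ψ g) (hell g hg (Sum.inl (Sum.inl (Sum.inl b)))) (hdv g hg b).le
    have hti : ∀ g ∈ H, IsIntegral ℤ (Matrix.trace (ψ g).1) := fun g hg =>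
      hv _ (htr g) fun b => htv g hg b
    refine hE H H.subtype Subtype.val_injective
      (fun g => hTA g.1 fun i => hell g.1 g.2 (Sum.inr i)) (fun g => hti g.1 g.2)
      (fun g => hv _ (hdet g.1) fun b => (hdv g.1 g.2 b).le) fun c hc => ?_
    have h1 := hT4' a x y hxy H (ψ.comp H.subtype) (fun s => ⟨(hfix s.1 s.2).1,
      (hfix s.1 s.2).2, hdw s.1 s.2 a⟩) c hc
    by_contra h2
    have h3 := hw a _ ((hti c.1 c.2).sub (by
      exact (isIntegral_algebraMap (R := ℤ) (A := L) (x := (2 : ℤ))))) (sub_ne_zero.2 (by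
        simpa using h2))
    have h4 : w a (Matrix.trace (ψ c.1).1 - 2) < 1 := h1
    have h5 : (algebraMap ℤ L) 2 = 2 := by simp
    rw [h5] at h3
    rw [h3] at h4
    exact lt_irrefl _ h4

/-- A finitely generated group of matrices of degree two is a group of matrices over a finitely
generated field. -/
theorem exists_field {K : Type u} [Field K] [CharZero K] {Δ : Type u} [Group Δ]
    (ψ : Δ →* GL (Fin 2) K) (E : Finset K)
    (hE : ∀ g i j, (ψ g).1 i j ∈ Subring.closure (E : Set K)) :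
    ∃ (L : Type u) (_ : Field L) (_ : CharZero L) (ι : L →+* K) (F : Set L) (m : ℕ)
      (v : Fin m → Valuation L (WithZero (Multiplicative ℤ))) (ψ0 : Δ →* GL (Fin 2) L),
      F.Finite ∧
      (∀ x : L, ∃ a b : L, a ∈ Subring.closure F ∧ b ∈ Subring.closure F ∧ x = a / b) ∧
      (∀ a ∈ Subring.closure F, (∀ i, v i a ≤ 1) → IsIntegral ℤ a) ∧
      (∀ g i j, (ψ0 g).1 i j ∈ Subring.closure F) ∧
      ∀ g, GeneralLinearGroup.map ι (ψ0 g) = ψ g := by
  classical
  let B : Subring K := Subring.closure (E : Set K)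
  let L := FractionRing B
  have hBL : Function.Injective (algebraMap B L) := IsFractionRing.injective B L
  have hcz : CharZero B := by
    refine charZero_of_injective_ringHom (f := (Int.castRingHom B)) fun a b hab => ?_
    have h1 := congrArg Subtype.val hab
    have h2 : ((a : ℤ) : K) = b := by
      simpa using h1
    exact_mod_cast h2
  have hczL : CharZero L := charZero_of_injective_algebraMap hBL
  let ι : L →+* K := IsFractionRing.lift (g := B.subtype) Subtype.val_injective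
  have hι : ∀ b : B, ι (algebraMap B L b) = (b : K) := fun b =>
    IsFractionRing.lift_algebraMap (g := B.subtype) Subtype.val_injective b
  -- the matrices over `L`
  let χ : Δ →* Matrix (Fin 2) (Fin 2) B :=
    { toFun := fun g => Matrix.of fun i j => ⟨(ψ g).1 i j, hE g i j⟩
      map_one' := by
        ext i j
        change (ψ 1).1 i j = (((1 : Matrix (Fin 2) (Fin 2) B) i j : B) : K)
        rw [map_one, Units.val_one, Matrix.one_apply, Matrix.one_apply]
        split_ifs <;> rfl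
      map_mul' := fun g h => by
        ext i j
        rw [Matrix.mul_apply]
        change (ψ (g * h)).1 i j = ((∑ k, _ : B) : K)
        rw [map_mul, Units.val_mul, Matrix.mul_apply, AddSubmonoidClass.coe_finsetSum]
        rfl }
  let ψ0 : Δ →* GL (Fin 2) L := (GeneralLinearGroup.map (algebraMap B L)).comp χ.toHomUnits
  have h0 : ∀ g i j, (ψ0 g).1 i j = algebraMap B L ⟨(ψ g).1 i j, hE g i j⟩ := fun g i j => rfl
  have h1 : ∀ g, GeneralLinearGroup.map ι (ψ0 g) = ψ g := by
    intro g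
    refine Units.ext (Matrix.ext fun i j => ?_)
    show ι ((ψ0 g).1 i j) = _
    rw [h0, hι]
  -- the generators
  let E' : Finset B := (E.finite_toSet.preimage
    (f := ((↑) : B → K)) Subtype.val_injective.injOn).toFinset
  have hE' : Subring.closure (E' : Set B) = ⊤ := by
    rw [Set.Finite.coe_toFinset, eq_top_iff]
    intro x _
    have h3 : (x : K) ∈ (Subring.closure (((↑) : B → K) ⁻¹' (E : Set K))).map B.subtype := by
      rw [RingHom.map_closure]
      refine Subring.closure_mono ?_ x.2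
      intro y hy
      exact ⟨⟨y, Subring.subset_closure hy⟩, hy, rfl⟩
    obtain ⟨y, hy, hxy⟩ := h3
    rwa [Subtype.ext (a1 := x) (a2 := y) hxy.symm]
  obtain ⟨m, v, hv⟩ := H70.valg B E' hE' L
  have hcl : Subring.closure (algebraMap B L '' (E' : Set B)) = (algebraMap B L).range := by
    rw [← RingHom.map_closure, hE', ← RingHom.range_eq_map]
  have hcl' : ∀ b : B, algebraMap B L b ∈ Subring.closure (algebraMap B L '' (E' : Set B)) :=
    fun b => by
      rw [hcl]
      exact ⟨b, rfl⟩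
  refine ⟨L, inferInstance, hczL, ι, algebraMap B L '' (E' : Set B), m, v, ψ0,
    E'.finite_toSet.image _, fun x => ?_, fun a ha h => ?_, fun g i j => by rw [h0]; exact hcl' _,
    h1⟩
  · obtain ⟨a, b, hb, rfl⟩ := IsFractionRing.div_surjective (A := B) x
    exact ⟨_, _, hcl' a, hcl' b, rfl⟩
  · rw [hcl] at ha
    obtain ⟨b, rfl⟩ := ha
    exact map_isIntegral_int (algebraMap B L) (hv b h)

/-- Reduction to the subgroups such that `tr(ψ h)² / det(ψ h)` is algebraic for all elements. -/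
theorem c0' (hI : ItStatement.{u}) (A : Type u) [CommRing A] (N : ℕ) (hN : 0 < N)
    (hA : (N : A) = 0) (K : Type u) [Field K] [CharZero K]
    (Γ : Type u) [Group Γ] (φ : Γ →* GL (Fin 2) A) (ψ : Γ →* GL (Fin 2) K) (hE : Edges φ ψ)
    (k : Type u) [Ring k] (hk : RegularRing k) :
    ⨆ H : {H : Subgroup Γ // AlgTr ψ H}, img k H.1 = ⊤ := by
  classical
  refine gen_loc Γ (AlgTr ψ) k fun S => ?_
  let H := Subgroup.closure (S : Set Γ)
  have hfg : Group.FG H := (Group.fg_iff_subgroup_fg _).2 ⟨S, rfl⟩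
  obtain ⟨E, hent⟩ := entries ψ S
  obtain ⟨L, _, _, ι, F, m, v, ψ0, hFf, hFL, hFv, hFB, hψ0⟩ :=
    exists_field (ψ.comp H.subtype) E fun g i j => hent g.1 g.2 i j
  have hmap : ∀ (g : H) i j, ι ((ψ0 g).1 i j) = (ψ g.1).1 i j := fun g i j => by
    have h1 : GeneralLinearGroup.map ι (ψ0 g) = ψ g.1 := hψ0 g
    rw [← h1]
    rfl
  have htr : ∀ g : H, ι (ψ0 g).1.trace = (ψ g.1).1.trace := fun g => by
    rw [Matrix.trace_fin_two, Matrix.trace_fin_two, map_add, hmap, hmap]
  have hdt : ∀ g : H, ι (ψ0 g).1.det = (ψ g.1).1.det := fun g => by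
    rw [Matrix.det_fin_two, Matrix.det_fin_two, map_sub, map_mul, map_mul, hmap, hmap, hmap, hmap]
  have main := fg hI A N hN hA L F hFf hFL m v hFv H (φ.comp H.subtype) ψ0 hFB ?_ k hk
  · rw [eq_top_iff, ← main]
    refine iSup_le fun V => ?_
    refine le_trans ?_ (le_iSup (fun V : {V : Subgroup H // AlgTr ψ (V.map H.subtype)} =>
      img k V.1) ⟨V.1, ?_⟩)
    · exact le_rfl
    · rintro _ ⟨h, hh, rfl⟩
      have h5 := isAlg_map ι (V.2 h hh)
      rw [map_div₀, map_pow, htr, hdt] at h5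
      exact h5
  · intro G _ f hf h1 h2 h3 h4
    refine hE G (H.subtype.comp f) (Subtype.val_injective.comp hf) h1 (fun g => ?_)
      (fun g => ?_) fun c hc => ?_
    · show IsIntegral ℤ (ψ (f g).1).1.trace
      rw [← htr]
      exact map_isIntegral_int ι (h2 g)
    · show IsIntegral ℤ (ψ (f g).1).1.det
      rw [← hdt]
      exact map_isIntegral_int ι (h3 g)
    · show (ψ (f c).1).1.trace = 2
      rw [← htr, h4 c hc, map_ofNat]

/-- Reduction to finitely generated subgroups with a homomorphism to `GL₂(ℚ̄)` with the kernel of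
`ψ`. -/
theorem c1' (A : Type u) [CommRing A] (N : ℕ) (hN : 0 < N)
    (hA : (N : A) = 0) (K : Type u) [Field K] [CharZero K]
    (Γ : Type u) [Group Γ] (φ : Γ →* GL (Fin 2) A) (ψ : Γ →* GL (Fin 2) K) (hE : Edges φ ψ)
    (k : Type u) [Ring k] (hk : RegularRing k) :
    ⨆ H : {H : Subgroup Γ // QEmb ψ H}, img k H.1 = ⊤ := by
  rw [eq_top_iff, ← c0' ER71.itAll A N hN hA K Γ φ ψ hE k hk]
  refine iSup_le fun H => ?_
  refine ER71.img_gen (fun G : {G : Subgroup H.1 // G.FG} => G.1) k (fg_gen H.1 k) _ fun G => ?_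
  have hfg0 : (G.1.map H.1.subtype : Subgroup Γ).FG := by
    classical
    obtain ⟨S, hS⟩ := G.2
    exact ⟨S.image H.1.subtype, by rw [Finset.coe_image, ← MonoidHom.map_closure, hS]⟩
  refine le_iSup (fun H : {H : Subgroup Γ // QEmb ψ H} => img k H.1) ⟨G.1.map H.1.subtype,
    hfg0, ?_⟩
  have hfg : Group.FG (G.1.map H.1.subtype : Subgroup Γ) :=
    (Group.fg_iff_subgroup_fg _).2 hfg0
  obtain ⟨q', hq'⟩ := emb_all (ψ.comp (G.1.map H.1.subtype).subtype) (fun h => by
    obtain ⟨g, _, hg⟩ := h.2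
    have h1 := H.2 g.1 g.2
    have h2 : (ψ.comp (G.1.map H.1.subtype).subtype) h = ψ g.1 := by
      show ψ h.1 = _
      rw [← hg]
      rfl
    rw [h2]
    exact h1)
  exact ⟨q', hq'⟩

/-- The case without a component in positive characteristic. -/
theorem c2' (K : Type u) [Field K] [CharZero K] (Γ : Type u) [Group Γ] (ψ : Γ →* GL (Fin 2) K)
    (hE : ∀ (G : Type u) [Group G] (f : G →* Γ), Function.Injective f →
      (∀ g, IsIntegral ℤ (ψ (f g)).1.trace) → (∀ g, IsIntegral ℤ (ψ (f g)).1.det) →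
      (∀ c ∈ commutator G, (ψ (f c)).1.trace = 2) → InRC G)
    (k : Type u) [Ring k] (hk : RegularRing k) :
    ⨆ H : {H : Subgroup Γ // QEmb ψ H}, img k H.1 = ⊤ :=
  c1' PUnit.{u + 1} 1 one_pos (Subsingleton.elim _ _) K Γ 1 ψ
    (fun G _ f hf _ h2 h3 h4 => hE G f hf h2 h3 h4) k hk

end Pool.Agent.NegK.PL.AFG
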