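import Pool.Agent.Lib.MP_28303a_al.AP.Sub

/-! # The linear part of affine automorphisms -/

set_option autoImplicit false
set_option linter.unusedSectionVars false
set_option linter.unusedVariables false

namespace Pool.Agent.NegK.PL

universe u

open MvPolynomial Matrix
open Pool.Agent.NegK.AP

section

variable {K : Type u} [Field K]

/-- The coefficient of `X i` in `g (X j)`. -/
noncomputable def linM (g : Au K) : Matrix (Fin 2) (Fin 2) K :=
  Matrix.of fun i j => coeff (Finsupp.single i 1) (g (X j))

/-- The constant coefficient of `g (X j)`. -/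
noncomputable def trs (g : Au K) (j : Fin 2) : K := coeff 0 (g (X j))

theorem aff_apply {g : Au K} (hg : g ∈ affS K) (j : Fin 2) :
    g (X j) = C (linM g 0 j) * X 0 + C (linM g 1 j) * X 1 + C (trs g j) := exists_lin (hg j).1

theorem coeff_lin_X (a b c : K) (i : Fin 2) :
    coeff (Finsupp.single i 1) (C a * X 0 + C b * X 1 + C c : MvPolynomial (Fin 2) K) =
      if i = 0 then a else b := by
  fin_cases i
  · exact (coeff_lin a b c).1
  · exact (coeff_lin a b c).2.1

theorem mul_apply' (g h : Au K) (hg : g ∈ affS K) (hh : h ∈ affS K) (j : Fin 2) :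
    (g * h) (X j) = C (linM g 0 0 * linM h 0 j + linM g 0 1 * linM h 1 j) * X 0 +
      C (linM g 1 0 * linM h 0 j + linM g 1 1 * linM h 1 j) * X 1 +
      C (trs g 0 * linM h 0 j + trs g 1 * linM h 1 j + trs h j) := by
  rw [AlgEquiv.mul_apply, aff_apply hh, au_lin, aff_apply hg 0, aff_apply hg 1]
  simp only [C_add, C_mul]
  ring

theorem linM_mul (g h : Au K) (hg : g ∈ affS K) (hh : h ∈ affS K) :
    linM (g * h) = linM g * linM h := by
  ext i j
  show coeff (Finsupp.single i 1) ((g * h) (X j)) = _
  rw [mul_apply' g h hg hh, coeff_lin_X, Matrix.mul_apply, Fin.sum_univ_two]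
  fin_cases i <;> rfl

theorem trs_mul (g h : Au K) (hg : g ∈ affS K) (hh : h ∈ affS K) (j : Fin 2) :
    trs (g * h) j = trs g 0 * linM h 0 j + trs g 1 * linM h 1 j + trs h j := by
  show coeff 0 ((g * h) (X j)) = _
  rw [mul_apply' g h hg hh, (coeff_lin _ _ _).2.2]

theorem linM_one : linM (1 : Au K) = 1 := by
  ext i j
  show coeff (Finsupp.single i 1) (X j : MvPolynomial (Fin 2) K) = _
  have h : (X j : MvPolynomial (Fin 2) K) = C (if j = 0 then 1 else 0) * X 0 +
      C (if j = 0 then 0 else 1) * X 1 + C 0 := by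
    fin_cases j <;> simp
  rw [h, coeff_lin_X]
  fin_cases i <;> fin_cases j <;> simp

theorem trs_one (j : Fin 2) : trs (1 : Au K) j = 0 := by
  show coeff 0 (X j : MvPolynomial (Fin 2) K) = 0
  have h : (X j : MvPolynomial (Fin 2) K) = C (if j = 0 then 1 else 0) * X 0 +
      C (if j = 0 then 0 else 1) * X 1 + C 0 := by
    fin_cases j <;> simp
  rw [h, (coeff_lin _ _ _).2.2]

/-- The linear part of an affine automorphism. -/
noncomputable def lin (K : Type u) [Field K] : affS K →* GL (Fin 2) K :=
  MonoidHom.toHomUnits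
    { toFun := fun g => linM g.1
      map_one' := linM_one
      map_mul' := fun g h => linM_mul g.1 h.1 g.2 h.2 }

theorem lin_apply (g : affS K) (i j : Fin 2) :
    (lin K g).1 i j = coeff (Finsupp.single i 1) (g.1 (X j)) := rfl

theorem lin_val (g : affS K) : (lin K g).1 = linM g.1 := rfl

theorem aff_ext {g h : affS K} (h1 : lin K g = lin K h) (h2 : ∀ j, trs g.1 j = trs h.1 j) :
    g = h := by
  have h3 : linM g.1 = linM h.1 := by
    rw [← lin_val, ← lin_val, h1]
  refine Subtype.ext (au_ext ?_ ?_)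
  · rw [aff_apply g.2, aff_apply h.2, h3, h2]
  · rw [aff_apply g.2, aff_apply h.2, h3, h2]

/-- The translations commute. -/
theorem lin_comm {g h : affS K} (hg : lin K g = 1) (hh : lin K h = 1) : g * h = h * g := by
  have e1 : linM g.1 = 1 := by rw [← lin_val, hg]; rfl
  have e2 : linM h.1 = 1 := by rw [← lin_val, hh]; rfl
  refine aff_ext ?_ fun j => ?_
  · rw [map_mul, map_mul, hg, hh]
  · show trs (g.1 * h.1) j = trs (h.1 * g.1) j
    rw [trs_mul _ _ g.2 h.2, trs_mul _ _ h.2 g.2, e1, e2]
    have key : ∀ (a b : Fin 2 → K) (j : Fin 2), a 0 * (1 : Matrix (Fin 2) (Fin 2) K) 0 j +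
        a 1 * (1 : Matrix (Fin 2) (Fin 2) K) 1 j + b j = a j + b j := by
      intro a b j
      rw [Matrix.one_apply, Matrix.one_apply]
      fin_cases j <;> simp
    rw [key (trs g.1) (trs h.1), key (trs h.1) (trs g.1), add_comm]

end

end Pool.Agent.NegK.PL
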