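import Pool.Agent.Lib.MP_28303a_al.PL.AFG
import Pool.Agent.Lib.MP_28303a_al.PL.Lin

/-! # Groups of affine automorphisms of the plane over fields of characteristic `0` -/

set_option autoImplicit false
set_option linter.unusedSectionVars false
set_option linter.unusedVariables false

namespace Pool.Agent.NegK.PL

universe u

open Matrix
open Pool.Agent.NegK.TW
open Pool.Agent.NegK.TT
open Pool.Agent.NegK.NT
open Pool.Agent.NegK.NT5
open Pool.Agent.NegK.AP (affS)

/-- The theorem on the edges. -/
def AfeStatement : Prop :=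
  ∀ (K : Type u) [Field K] [CharZero K] (S : Type u) [Group S], TorsionFree S →
    ∀ χ : S →* affS K, Function.Injective χ →
    (∀ g, IsIntegral ℤ (lin K (χ g)).1.trace) → (∀ g, IsIntegral ℤ (lin K (χ g)).1.det) →
    (∀ c ∈ commutator S, (lin K (χ c)).1.trace = 2) → InRC S

/-- The subgroups with a homomorphism to `GL₂(ℚ̄)` with a commutative kernel. -/
def QCom {Γ : Type u} [Group Γ] (H : Subgroup Γ) : Prop :=
  H.FG ∧ ∃ ψ : H →* GL (Fin 2) (AlgebraicClosure ℚ), ∀ a b, ψ a = 1 → ψ b = 1 → a * b = b * a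

/-- Let `K` be a field of characteristic `0` and `Γ` a torsionfree group of affine automorphisms of
the plane. Then `K₀(k[Γ])` is generated by the images of the `K₀(k[H])`, `H` a finitely generated
subgroup with a homomorphism to `GL₂(ℚ̄)` with a commutative kernel. -/
theorem afg (hAfe : AfeStatement.{u}) (K : Type u) [Field K] [CharZero K] (Γ : Type u) [Group Γ]
    (htf : TorsionFree Γ) (χ : Γ →* affS K) (hχ : Function.Injective χ) (k : Type u) [Ring k]
    (hk : RegularRing k) :
    ⨆ H : {H : Subgroup Γ // QCom H}, img k H.1 = ⊤ := by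
  have h1 := AFG.c2' K Γ ((lin K).comp χ) (fun G _ f hf h1 h2 h3 => hAfe K G
    (fun g n hn hg => hf (by
      rw [map_one]
      exact htf (f g) n hn (by rw [← map_pow, hg, map_one]))) (χ.comp f) (hχ.comp hf) h1 h2 h3)
    k hk
  rw [eq_top_iff, ← h1]
  refine iSup_le fun H => ?_
  obtain ⟨hfg, ψ', h2⟩ := H.2
  refine le_trans ?_ (le_iSup (fun H : {H : Subgroup Γ // QCom H} => img k H.1)
    ⟨H.1, hfg, ψ', fun a b ha hb => ?_⟩)
  · exact le_rfl
  · have ha' : lin K (χ a.1) = 1 := (h2 a).1 ha
    have hb' : lin K (χ b.1) = 1 := (h2 b).1 hb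
    refine Subtype.ext (hχ ?_)
    show χ (a.1 * b.1) = χ (b.1 * a.1)
    rw [map_mul, map_mul, lin_comm ha' hb']

end Pool.Agent.NegK.PL
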