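import Pool.Agent.Lib.MP_28303a_al.PL.AFE
import Pool.Agent.Lib.MP_28303a_al.PL.AFM

/-! # AFE: the statement of `PL.AFM` -/

set_option autoImplicit false

namespace Pool.Agent.NegK.PL

universe u

theorem afeS (hT : TfeStatement.{u}) : AfeStatement.{u} := by
  intro K _ _ S _ htf χ hχ ht hd hc
  exact afe hT K S htf χ hχ ht hd hc

end Pool.Agent.NegK.PL
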