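import Mathlib

/-! # Embeddings into `GL₃` -/

set_option autoImplicit false
set_option linter.unusedSectionVars false
set_option linter.unusedVariables false

namespace Pool.Agent.NegK.PL

universe u

open Matrix
open scoped MatrixGroups

section

variable {F : Type*} [Field F]

theorem gl2_det_ne (A : GL (Fin 2) F) : A.1.det ≠ 0 :=
  ((Matrix.isUnit_iff_isUnit_det _).1 A.isUnit).ne_zero

/-- The adjoint representation of `GL₂` on the matrices of trace zero. -/
noncomputable def adM (A : Matrix (Fin 2) (Fin 2) F) : Matrix (Fin 3) (Fin 3) F :=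
  A.det⁻¹ • !![A 0 0 ^ 2, -(2 * A 0 0 * A 0 1), -(A 0 1 ^ 2);
    -(A 0 0 * A 1 0), A 0 0 * A 1 1 + A 0 1 * A 1 0, A 0 1 * A 1 1;
    -(A 1 0 ^ 2), 2 * A 1 0 * A 1 1, A 1 1 ^ 2]

theorem adM_one : adM (1 : Matrix (Fin 2) (Fin 2) F) = 1 := by
  ext i j
  fin_cases i <;> fin_cases j <;> simp [adM]

theorem adM_mul (A B : Matrix (Fin 2) (Fin 2) F) : adM (A * B) = adM A * adM B := by
  rw [adM, adM, adM, Matrix.det_mul, Matrix.smul_mul, Matrix.mul_smul, smul_smul, mul_inv]
  congr 1
  ext i j
  fin_cases i <;> fin_cases j <;>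
    simp [Matrix.mul_apply, Fin.sum_univ_two, Fin.sum_univ_three] <;> ring

/-- The adjoint representation. -/
noncomputable def ad : GL (Fin 2) F →* GL (Fin 3) F :=
  MonoidHom.toHomUnits
    { toFun := fun A => adM A.1
      map_one' := adM_one
      map_mul' := fun A B => adM_mul A.1 B.1 }

theorem ad_eq_one (A : GL (Fin 2) F) : ad A = 1 ↔ ProjGenLinGroup.mk A = 1 := by
  rw [ProjGenLinGroup.mk_eq_one, GeneralLinearGroup.mem_center_iff_val_mem_range_scalar]
  have hD := gl2_det_ne A
  constructor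
  · intro h
    have h1 : adM A.1 = 1 := congrArg Units.val h
    have e : ∀ i j, adM A.1 i j = (1 : Matrix (Fin 3) (Fin 3) F) i j := fun i j => by rw [h1]
    have e02 := e 0 2
    have e20 := e 2 0
    have e00 := e 0 0
    have e22 := e 2 2
    simp only [adM, Matrix.smul_apply, smul_eq_mul, Matrix.of_apply, Matrix.cons_val_zero,
      Matrix.cons_val, Matrix.one_apply_eq] at e02 e20 e00 e22
    rw [Matrix.one_apply_ne (by decide)] at e02 e20
    have hb : A.1 0 1 = 0 := by
      have h2 := (mul_eq_zero.1 e02).resolve_left (inv_ne_zero hD)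
      exact pow_eq_zero_iff two_ne_zero |>.1 (neg_eq_zero.1 h2)
    have hc : A.1 1 0 = 0 := by
      have h2 := (mul_eq_zero.1 e20).resolve_left (inv_ne_zero hD)
      exact pow_eq_zero_iff two_ne_zero |>.1 (neg_eq_zero.1 h2)
    have hdet : A.1.det = A.1 0 0 * A.1 1 1 := by
      rw [Matrix.det_fin_two, hb, zero_mul, sub_zero]
    have ha0 : A.1 0 0 ≠ 0 := fun h0 => hD (by rw [hdet, h0, zero_mul])
    have had : A.1 0 0 = A.1 1 1 := by
      rw [inv_mul_eq_iff_eq_mul₀ hD, mul_one, hdet, pow_two] at e00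
      exact mul_left_cancel₀ ha0 e00
    refine ⟨A.1 0 0, ?_⟩
    ext i j
    fin_cases i <;> fin_cases j
    · simp [Matrix.scalar_apply]
    · simp [Matrix.scalar_apply, hb]
    · simp [Matrix.scalar_apply, hc]
    · simp [Matrix.scalar_apply, had]
  · rintro ⟨c, hc⟩
    have hc0 : c ≠ 0 := by
      rintro rfl
      apply hD
      rw [← hc, Matrix.det_fin_two]
      simp [Matrix.scalar_apply]
    refine Units.ext ?_
    show adM A.1 = 1
    have he : c⁻¹ * c⁻¹ * (c * c) = 1 := by
      rw [mul_assoc, inv_mul_cancel_left₀ hc0, inv_mul_cancel₀ hc0]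
    rw [← hc]
    ext i j
    fin_cases i <;> fin_cases j <;> simp [adM, Matrix.scalar_apply, pow_two]
    all_goals exact he

/-- `PGL₂ → GL₃`. -/
noncomputable def ad3 : PGL(Fin 2, F) →* GL (Fin 3) F :=
  ProjGenLinGroup.lift ad (by
    ext1 u
    rw [MonoidHom.comp_apply, MonoidHom.one_apply, ad_eq_one, ProjGenLinGroup.mk_scalar])

theorem ad3_eq_one (x : PGL(Fin 2, F)) : ad3 x = 1 ↔ x = 1 := by
  obtain ⟨A, rfl⟩ := ProjGenLinGroup.mk_surjective x
  exact ad_eq_one A

/-- `GL₂ → GL₃`. -/
noncomputable def bl : GL (Fin 2) F →* GL (Fin 3) F :=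
  MonoidHom.toHomUnits
    { toFun := fun A => !![A.1 0 0, A.1 0 1, 0; A.1 1 0, A.1 1 1, 0; 0, 0, 1]
      map_one' := by
        ext i j
        fin_cases i <;> fin_cases j <;> simp
      map_mul' := fun A B => by
        ext i j
        fin_cases i <;> fin_cases j <;>
          simp [Matrix.mul_apply, Fin.sum_univ_two, Fin.sum_univ_three] }

theorem bl_eq_one (A : GL (Fin 2) F) : bl A = 1 ↔ A = 1 := by
  constructor
  · intro h
    have h1 : (bl A).1 = 1 := congrArg Units.val h
    have e : ∀ i j, (bl A).1 i j = (1 : Matrix (Fin 3) (Fin 3) F) i j := fun i j => by rw [h1]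
    refine Units.ext (Matrix.ext fun i j => ?_)
    rw [Units.val_one]
    fin_cases i <;> fin_cases j
    · exact e 0 0
    · exact e 0 1
    · exact e 1 0
    · exact e 1 1
  · intro h
    rw [h, map_one]

end

end Pool.Agent.NegK.PL
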