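import Pool.Agent.Lib.MP_28303a_al.PL.AFM
import Pool.Agent.Lib.MP_28303a_al.PL.Three
import Pool.Agent.Lib.MP_28303a_al.P2.Main
import Pool.Agent.Lib.MP_28303a_al.P2.Pos
import Pool.Agent.Lib.MP_28303a_al.AP.Stmt2

/-! # Reduction to groups with a homomorphism to `GL₃(ℚ̄)` with a commutative kernel -/

set_option autoImplicit false
set_option linter.unusedSectionVars false
set_option linter.unusedVariables false

namespace Pool.Agent.NegK.PL

universe u

open Matrix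
open scoped MatrixGroups
open Pool.Agent.NegK.TW
open Pool.Agent.NegK.TT
open Pool.Agent.NegK.NT
open Pool.Agent.NegK.NT5
open Pool.Agent.NegK.AP (affS)

/-- Finitely generated groups with a homomorphism to `GL₃(ℚ̄)` with a commutative kernel. -/
def Q3 (G : Type u) [Group G] : Prop :=
  Group.FG G ∧ ∃ ψ : G →* GL (Fin 3) (AlgebraicClosure ℚ), ∀ a b, ψ a = 1 → ψ b = 1 → a * b = b * a

/-- `K₀(k[Γ])` is generated by the images of the `K₀(k[H])`, `H` a subgroup in the class `Q3`, for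
all regular rings `k`. -/
def Gen3 (Γ : Type u) [Group Γ] : Prop :=
  ∀ (k : Type u) [Ring k], RegularRing k → ⨆ H : {H : Subgroup Γ // Q3 H}, img k H.1 = ⊤

theorem gen_mono {Γ : Type u} [Group Γ] {P P' : Subgroup Γ → Prop} (h : ∀ H, P H → P' H)
    (k : Type u) [Ring k] (h1 : ⨆ H : {H : Subgroup Γ // P H}, img k H.1 = ⊤) :
    ⨆ H : {H : Subgroup Γ // P' H}, img k H.1 = ⊤ := by
  rw [eq_top_iff, ← h1]
  exact iSup_le fun H => le_iSup (fun H : {H : Subgroup Γ // P' H} => img k H.1) ⟨H.1, h H.1 H.2⟩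

theorem gen3_kneg {Γ : Type u} [Group Γ] (h : Gen3 Γ) (R : Type u) [Ring R] (hR : RegularRing R)
    (i : ℕ) :
    ⨆ H : {H : Subgroup Γ // Q3 H}, ((KNegFun i).hom (mdr R H.1.subtype)).range = ⊤ :=
  ER71.kneg_of_gen (fun H : Subgroup Γ => Q3 H) (fun k _ hk => h k hk) i R hR

theorem q3_bot (Γ : Type u) [Group Γ] : Q3 (⊥ : Subgroup Γ) :=
  ⟨inferInstance, 1, fun a b _ _ => Subsingleton.elim _ _⟩

/-- Generation by a family of subgroups which are generated by subgroups in `Q3`. -/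
theorem gen3_of_gen {Γ : Type u} [Group Γ] {ι : Type*} (H : ι → Subgroup Γ)
    (hg : ∀ (k : Type u) [Ring k], RegularRing k → ⨆ i, img k (H i) = ⊤)
    (hH : ∀ i, Gen3 (H i)) : Gen3 Γ := by
  intro k _ hk
  rw [eq_top_iff, ← hg k hk]
  refine iSup_le fun i => ?_
  refine ER71.img_gen (fun G : {G : Subgroup (H i) // Q3 G} => G.1) k (hH i k hk) _ fun G => ?_
  refine le_iSup (fun H : {H : Subgroup Γ // Q3 H} => img k H.1) ⟨G.1.map (H i).subtype, ?_⟩
  have e : G.1 ≃* (G.1.map (H i).subtype : Subgroup Γ) :=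
    G.1.equivMapOfInjective _ Subtype.val_injective
  obtain ⟨hfg, ψ, hψ⟩ := G.2
  refine ⟨(Group.fg_iff_subgroup_fg _).2 ?_, ψ.comp e.symm.toMonoidHom, fun a b ha hb => ?_⟩
  · classical
    obtain ⟨S, hS⟩ := (Group.fg_iff_subgroup_fg G.1).1 hfg
    exact ⟨S.image (H i).subtype, by rw [Finset.coe_image, ← MonoidHom.map_closure, hS]⟩
  · have h1 := hψ (e.symm a) (e.symm b) ha hb
    rw [← map_mul, ← map_mul] at h1
    exact e.symm.injective h1

theorem gen3_of_inK {Γ : Type u} [Group Γ] (h : InK Γ) : Gen3 Γ := by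
  intro k _ hk
  rw [eq_top_iff]
  intro z _
  obtain ⟨x, rfl⟩ := h k hk z
  refine le_iSup (fun H : {H : Subgroup Γ // Q3 H} => img k H.1) ⟨⊥, q3_bot Γ⟩ ?_
  exact ⟨K0.map (cst k (⊥ : Subgroup Γ)) x, by rw [k0_map_map, mdr_comp_cst]⟩

/-- The isomorphism classes. -/
theorem gen3_equiv {Γ Γ' : Type u} [Group Γ] [Group Γ'] (e : Γ ≃* Γ') (h : Gen3 Γ) : Gen3 Γ' := by
  intro k _ hk
  rw [eq_top_iff]
  intro z _
  have h2 : (⊤ : AddSubgroup (K0 (MonoidAlgebra k Γ))) ≤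
      (⨆ H : {H : Subgroup Γ' // Q3 H}, img k H.1).comap (K0.map (mdr k e.toMonoidHom)) := by
    rw [← h k hk]
    refine iSup_le fun H => ?_
    rintro _ ⟨y, rfl⟩
    show K0.map (mdr k e.toMonoidHom) (K0.map (mdr k H.1.subtype) y) ∈
      (⨆ H : {H : Subgroup Γ' // Q3 H}, img k H.1)
    have e' : H.1 ≃* (H.1.map e.toMonoidHom : Subgroup Γ') :=
      H.1.equivMapOfInjective _ e.injective
    obtain ⟨hfg, ψ, hψ⟩ := H.2
    refine le_iSup (fun H : {H : Subgroup Γ' // Q3 H} => img k H.1)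
      ⟨H.1.map e.toMonoidHom, (Group.fg_iff_subgroup_fg _).2 ?_, ψ.comp e'.symm.toMonoidHom,
        fun a b ha hb => ?_⟩ ?_
    · classical
      obtain ⟨S, hS⟩ := (Group.fg_iff_subgroup_fg H.1).1 hfg
      exact ⟨S.image e.toMonoidHom, by rw [Finset.coe_image, ← MonoidHom.map_closure, hS]⟩
    · have h1 := hψ (e'.symm a) (e'.symm b) ha hb
      rw [← map_mul, ← map_mul] at h1
      exact e'.symm.injective h1
    · refine ⟨K0.map (mdr k ((e.toMonoidHom.comp H.1.subtype).codRestrict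
        (H.1.map e.toMonoidHom) fun x => ⟨x.1, x.2, rfl⟩)) y, ?_⟩
      rw [k0_map_map, k0_map_map, mdr_comp_mdr, mdr_comp_mdr]
      rfl
  have h3 := h2 (AddSubgroup.mem_top (K0.map (mdr k e.symm.toMonoidHom) z))
  have h4 : K0.map (mdr k e.toMonoidHom) (K0.map (mdr k e.symm.toMonoidHom) z) = z := by
    rw [k0_map_map, mdr_comp_mdr]
    have h5 : e.toMonoidHom.comp e.symm.toMonoidHom = MonoidHom.id Γ' := by
      ext x
      simp
    rw [h5, mdr_id, k0_map_id]
  rw [← h4]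
  exact h3

/-- `K₀` of the groups in the class. -/
theorem inK_of_gen3 {Γ : Type u} [Group Γ] (h : Gen3 Γ) (h1 : ∀ H : Subgroup Γ, Q3 H → InK H) :
    InK Γ := by
  intro R _ hR
  rw [← AddMonoidHom.range_eq_top, eq_top_iff, ← h R hR]
  refine iSup_le fun H => ?_
  rintro _ ⟨y, rfl⟩
  obtain ⟨x, rfl⟩ := h1 H.1 H.2 R hR y
  exact ⟨x, by rw [k0_map_map, mdr_comp_cst]⟩

/-- Vanishing of the negative K-groups. -/
theorem vanish_of_gen3 {Γ : Type u} [Group Γ] (h : Gen3 Γ) (R : Type u) [Ring R]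
    (hR : RegularRing R) (n : ℕ)
    (h1 : ∀ H : Subgroup Γ, Q3 H → Subsingleton (KNeg n (MonoidAlgebra R H))) :
    Subsingleton (KNeg n (MonoidAlgebra R Γ)) := by
  have h2 : (⊤ : AddSubgroup (KNeg n (MonoidAlgebra R Γ))) ≤ ⊥ := by
    rw [← gen3_kneg h R hR n]
    refine iSup_le fun H => ?_
    rintro _ ⟨z, rfl⟩
    rw [(h1 H.1 H.2).elim z 0, map_zero]
    exact AddSubgroup.zero_mem _
  exact ⟨fun x y => (h2 (AddSubgroup.mem_top x) : x = 0).trans
    (h2 (AddSubgroup.mem_top y) : y = 0).symm⟩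

/-- Fields of characteristic zero or positive characteristic. -/
theorem char_cases (K : Type u) [Field K] : CharZero K ∨ ∃ p : ℕ, 0 < p ∧ (p : K) = 0 := by
  obtain ⟨p, hp⟩ := CharP.exists K
  rcases Nat.eq_zero_or_pos p with rfl | h
  · exact Or.inl (CharP.charP_to_charZero K)
  · exact Or.inr ⟨p, h, CharP.cast_eq_zero K p⟩

/-- Torsionfree subgroups of `PGL₂(K)`, `K` any field. -/
theorem gen3_pgl (K : Type u) [Field K] (Γ : Type u) [Group Γ] (htf : TorsionFree Γ)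
    (ψ : Γ →* PGL(Fin 2, K)) (hψ : Function.Injective ψ) : Gen3 Γ := by
  rcases char_cases K with hK | ⟨p, hp, hpK⟩
  · intro k _ hk
    have h1 := P2.pgl_two K Γ htf ψ hψ k hk 0
    refine gen_mono (P := fun H : Subgroup Γ => H.FG ∧
      ∃ ψ' : H →* PGL(Fin 2, AlgebraicClosure ℚ), Function.Injective ψ') (fun H hH => ?_) k h1
    obtain ⟨hfg, ψ', hψ'⟩ := hH
    refine ⟨(Group.fg_iff_subgroup_fg _).2 hfg, ad3.comp ψ', fun a b ha hb => ?_⟩
    have ha' : a = 1 := hψ' (((ad3_eq_one _).1 ha).trans (map_one ψ').symm)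
    rw [ha', one_mul, mul_one]
  · exact gen3_of_inK (P2.pgl_pos p hp hpK htf ψ hψ)

/-- Torsionfree subgroups of `GL₂(K)`, `K` any field. -/
theorem gen3_gl (K : Type u) [Field K] (Γ : Type u) [Group Γ] (htf : TorsionFree Γ)
    (ψ : Γ →* GL (Fin 2) K) (hψ : Function.Injective ψ) : Gen3 Γ := by
  rcases char_cases K with hK | ⟨p, hp, hpK⟩
  · intro k _ hk
    have h1 := linear_two K Γ htf ψ hψ k hk 0
    refine gen_mono (P := fun H : Subgroup Γ => H.FG ∧
      ∃ ψ' : H →* GL (Fin 2) (AlgebraicClosure ℚ), Function.Injective ψ') (fun H hH => ?_) k h1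
    obtain ⟨hfg, ψ', hψ'⟩ := hH
    refine ⟨(Group.fg_iff_subgroup_fg _).2 hfg, bl.comp ψ', fun a b ha hb => ?_⟩
    have ha' : a = 1 := hψ' (((bl_eq_one _).1 ha).trans (map_one ψ').symm)
    rw [ha', one_mul, mul_one]
  · let L := FractionRing (MvPolynomial PEmpty.{u + 1} ℤ)
    refine gen3_of_inK (NT.matrix K p hp hpK L (NT.H70.rig_ratFunc PEmpty.{u + 1} L) Γ htf
      (ψ.prod (1 : Γ →* GL (Fin 2) L)) fun g g' hg => hψ (congrArg Prod.fst hg))

/-- Torsionfree groups of affine automorphisms of the plane, characteristic `0`. -/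
theorem gen3_aff (hAfe : AfeStatement.{u}) (K : Type u) [Field K] [CharZero K] (Γ : Type u)
    [Group Γ] (htf : TorsionFree Γ) (χ : Γ →* affS K) (hχ : Function.Injective χ) : Gen3 Γ := by
  intro k _ hk
  refine gen_mono (P := fun H : Subgroup Γ => QCom H) (fun H hH => ?_) k
    (afg hAfe K Γ htf χ hχ k hk)
  obtain ⟨hfg, ψ', hψ'⟩ := hH
  exact ⟨(Group.fg_iff_subgroup_fg _).2 hfg, bl.comp ψ', fun a b ha hb =>
    hψ' a b ((bl_eq_one _).1 ha) ((bl_eq_one _).1 hb)⟩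

end Pool.Agent.NegK.PL
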