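import Pool.Agent.Lib.MP_28303a_al.PL.PZ
import Pool.Agent.Lib.MP_28303a_al.AP.Hom

/-! # Finitely generated triangular groups with integral diagonal are virtually poly-Z -/

set_option autoImplicit false

namespace Pool.Agent.NegK.PL

universe u

/-- TRZ. Finitely generated groups of triangular automorphisms with integral diagonal. -/
def TrzStatement : Prop :=
  ∀ (K S : Type u) [Field K] [CharZero K] [Group S] (_ : Group.FG S) (χ : S →* AP.triS K),
    Function.Injective χ →
    (∀ s, IsIntegral ℤ (AP.dg K (χ s) : K × K).1 ∧ IsIntegral ℤ (AP.dg K (χ s) : K × K).2) →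
    ∃ H : Subgroup S, H.Normal ∧ H.FiniteIndex ∧ ∃ n, PZ n H

namespace TRZ

open Polynomial AP

section Graded

variable {K : Type u} [Field K] {O : Subalgebra ℤ K}

/-- Polynomials of degree at most `n` with the coefficient of index `i` in `W ^ (n - i)`. -/
def Fl (W : Submodule O K) (n : ℕ) (P : K[X]) : Prop :=
  (∀ i, i ≤ n → P.coeff i ∈ W ^ (n - i)) ∧ ∀ i, n < i → P.coeff i = 0

variable {W : Submodule O K} {n m : ℕ} {P Q : K[X]}

theorem Fl.add (h : Fl W n P) (h' : Fl W n Q) : Fl W n (P + Q) :=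
  ⟨fun i hi => by
    rw [coeff_add]
    exact (W ^ (n - i)).add_mem (h.1 i hi) (h'.1 i hi), fun i hi => by
    rw [coeff_add, h.2 i hi, h'.2 i hi, add_zero]⟩

theorem Fl.zero : Fl W n (0 : K[X]) :=
  ⟨fun i _ => by
    rw [coeff_zero]
    exact (W ^ (n - i)).zero_mem, fun i _ => coeff_zero i⟩

theorem Fl.sum {ι : Type*} {s : Finset ι} {f : ι → K[X]} (h : ∀ i ∈ s, Fl W n (f i)) :
    Fl W n (∑ i ∈ s, f i) := by
  classical
  induction s using Finset.induction_on with
  | empty => exact Fl.zero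
  | insert a s ha ih =>
    rw [Finset.sum_insert ha]
    exact (h a (Finset.mem_insert_self a s)).add
      (ih fun i hi => h i (Finset.mem_insert_of_mem hi))

theorem Fl.mul (h : Fl W n P) (h' : Fl W m Q) : Fl W (n + m) (P * Q) := by
  constructor
  · intro i hi
    rw [coeff_mul]
    refine Submodule.sum_mem _ fun x hx => ?_
    have hx' : x.1 + x.2 = i := Finset.HasAntidiagonal.mem_antidiagonal.1 hx
    by_cases h1 : n < x.1
    · rw [h.2 _ h1, zero_mul]
      exact Submodule.zero_mem _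
    · by_cases h2 : m < x.2
      · rw [h'.2 _ h2, mul_zero]
        exact Submodule.zero_mem _
      · have e : n + m - i = (n - x.1) + (m - x.2) := by omega
        rw [e, pow_add]
        exact Submodule.mul_mem_mul (h.1 _ (by omega)) (h'.1 _ (by omega))
  · intro i hi
    rw [coeff_mul]
    refine Finset.sum_eq_zero fun x hx => ?_
    have hx' : x.1 + x.2 = i := Finset.HasAntidiagonal.mem_antidiagonal.1 hx
    by_cases h1 : n < x.1
    · rw [h.2 _ h1, zero_mul]
    · rw [h'.2 _ (by omega), mul_zero]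

theorem Fl.C {a : K} (h : a ∈ W ^ n) : Fl W n (Polynomial.C a) := by
  constructor
  · intro i _
    rw [coeff_C]
    split_ifs with h1
    · rw [h1, Nat.sub_zero]
      exact h
    · exact Submodule.zero_mem _
  · intro i hi
    rw [coeff_C, if_neg (by omega)]

theorem mem_pow_zero {a : K} (h : a ∈ O) : a ∈ W ^ 0 := by
  rw [pow_zero, Submodule.mem_one]
  exact ⟨⟨a, h⟩, rfl⟩

theorem Fl.lin {c d : K} (hc : c ∈ O) (hd : d ∈ W) :
    Fl W 1 (Polynomial.C c * X + Polynomial.C d) := by
  have h1 : Fl W 1 (X : K[X]) := by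
    constructor
    · intro i _
      rw [coeff_X]
      split_ifs with h1
      · rw [← h1]
        exact mem_pow_zero O.one_mem
      · exact Submodule.zero_mem _
    · intro i hi
      rw [coeff_X, if_neg (by omega)]
  have h2 := (Fl.C (n := 0) (mem_pow_zero (W := W) hc)).mul h1
  rw [zero_add] at h2
  exact h2.add (Fl.C (by rwa [pow_one]))

theorem Fl.pow (h : Fl W 1 P) (j : ℕ) : Fl W j (P ^ j) := by
  induction j with
  | zero =>
    rw [pow_zero, ← Polynomial.C_1]
    exact Fl.C (mem_pow_zero O.one_mem)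
  | succ j ih =>
    rw [pow_succ]
    exact ih.mul h

theorem Fl.comp (h : Fl W n P) (h' : Fl W 1 Q) : Fl W n (P.comp Q) := by
  rw [comp_eq_sum_left, Polynomial.sum]
  refine Fl.sum fun i hi => ?_
  have hi' : i ≤ n := by
    by_contra h1
    exact (mem_support_iff.1 hi) (h.2 i (by omega))
  have h2 := (Fl.C (h.1 i hi')).mul (h'.pow i)
  rwa [Nat.sub_add_cancel hi'] at h2

/-- Triangular automorphisms with coefficients in the graded modules. -/
def Gd (W : Submodule O K) (n : ℕ) (φ : Au K) : Prop :=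
  ∃ (a c d : K) (P : K[X]), a ∈ O ∧ c ∈ O ∧ d ∈ W ∧ Fl W n P ∧ Tri φ a c d P

theorem Gd.one : Gd W n (1 : Au K) :=
  ⟨1, 1, 0, 0, O.one_mem, O.one_mem, W.zero_mem, Fl.zero, by simp [Tri]⟩

theorem Gd.mul {φ ψ : Au K} (h : Gd W n φ) (h' : Gd W n ψ) : Gd W n (φ * ψ) := by
  obtain ⟨a, c, d, P, ha, hc, hd, hP, h1⟩ := h
  obtain ⟨a', c', d', P', ha', hc', hd', hP', h1'⟩ := h'
  refine ⟨_, _, _, _, O.mul_mem ha' ha, O.mul_mem hc' hc,
    W.add_mem (W.smul_mem ⟨c', hc'⟩ hd) hd', ?_, tri_mul h1 h1'⟩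
  have h2 := (Fl.C (n := 0) (mem_pow_zero (W := W) ha')).mul hP
  rw [zero_add] at h2
  exact h2.add (hP'.comp (Fl.lin hc hd))

end Graded

/-! ### Coefficients -/

variable {K : Type u} [Field K]

theorem coeff_p {φ : Au K} {a c d : K} {P : K[X]} (h : Tri φ a c d P) (i : ℕ) :
    MvPolynomial.coeff (Finsupp.single 1 i) (φ (MvPolynomial.X 0)) = P.coeff i := by
  rw [h.1, MvPolynomial.coeff_add, MvPolynomial.coeff_C_mul, MvPolynomial.coeff_X,
    Polynomial.aeval_eq_sum_range, MvPolynomial.coeff_sum]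
  have h0 : ¬ (Finsupp.single 0 1 : Fin 2 →₀ ℕ) = Finsupp.single 1 i := fun h => by
    simpa using DFunLike.congr_fun h 0
  rw [if_neg h0, mul_zero, zero_add]
  have h1 : ∀ j : ℕ, MvPolynomial.coeff (Finsupp.single 1 i)
      (P.coeff j • (MvPolynomial.X 1 : MvPolynomial (Fin 2) K) ^ j) =
      if j = i then P.coeff j else 0 := by
    intro j
    rw [MvPolynomial.coeff_smul, MvPolynomial.coeff_X_pow]
    by_cases hj : j = i
    · rw [if_pos (by rw [hj]), if_pos hj, smul_eq_mul, mul_one]
    · rw [if_neg (fun h => hj (by simpa using DFunLike.congr_fun h 1)), if_neg hj, smul_zero]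
  rw [Finset.sum_congr rfl fun j _ => h1 j, Finset.sum_ite_eq']
  split_ifs with h2
  · rfl
  · rw [Polynomial.coeff_eq_zero_of_natDegree_lt]
    rw [Finset.mem_range] at h2
    omega

theorem coeff_d {φ : Au K} {a c d : K} {P : K[X]} (h : Tri φ a c d P) :
    MvPolynomial.coeff 0 (φ (MvPolynomial.X 1)) = d := by
  rw [h.2]
  have := (coeff_lin 0 c d).2.2
  rwa [MvPolynomial.C_0, zero_mul, zero_add] at this

theorem uni {φ : triS K} (h : dg K φ = 1) : ∃ (d : K) (P : K[X]), Tri φ.1 1 1 d P := by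
  obtain ⟨φ, a, c, d, P, ha, hc, h3⟩ := φ
  have h2 : (MvPolynomial.coeff (Finsupp.single 0 1) (φ (MvPolynomial.X 0)),
      MvPolynomial.coeff (Finsupp.single 1 1) (φ (MvPolynomial.X 1))) = ((1, 1) : K × K) :=
    congrArg Units.val h
  rw [(tri_coeff h3).1, (tri_coeff h3).2] at h2
  have h4 : a = 1 := congrArg Prod.fst h2
  have h5 : c = 1 := congrArg Prod.snd h2
  subst h4
  subst h5
  exact ⟨d, P, h3⟩

/-- The `d` part of an element. -/
noncomputable def dd (φ : Au K) : K := MvPolynomial.coeff 0 (φ (MvPolynomial.X 1))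

/-- The coefficients of the `P` part of an element. -/
noncomputable def pp (φ : Au K) (i : ℕ) : K :=
  MvPolynomial.coeff (Finsupp.single 1 i) (φ (MvPolynomial.X 0))

theorem dd_mul {φ ψ : triS K} (h : dg K φ = 1) (h' : dg K ψ = 1) :
    dd (φ * ψ).1 = dd φ.1 + dd ψ.1 := by
  obtain ⟨d, P, h1⟩ := uni h
  obtain ⟨d', P', h1'⟩ := uni h'
  have h2 := tri_mul h1 h1'
  rw [dd, dd, dd, coeff_d h1, coeff_d h1', Subgroup.coe_mul, coeff_d h2, one_mul]

theorem pp_mul {φ ψ : triS K} (h : dg K φ = 1) (h' : dg K ψ = 1) (hd : dd φ.1 = 0) (i : ℕ) :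
    pp (φ * ψ).1 i = pp φ.1 i + pp ψ.1 i := by
  obtain ⟨d, P, h1⟩ := uni h
  obtain ⟨d', P', h1'⟩ := uni h'
  have h2 := tri_mul h1 h1'
  rw [dd, coeff_d h1] at hd
  subst hd
  rw [pp, pp, pp, coeff_p h1, coeff_p h1', Subgroup.coe_mul, coeff_p h2, Polynomial.C_1, one_mul,
    one_mul, Polynomial.C_0, add_zero, Polynomial.comp_X, Polynomial.coeff_add]

theorem eq_one {φ : triS K} (h : dg K φ = 1) (hd : dd φ.1 = 0) (hp : ∀ i, pp φ.1 i = 0) :
    φ = 1 := by
  obtain ⟨d, P, h1⟩ := uni h
  rw [dd, coeff_d h1] at hd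
  subst hd
  have hP : P = 0 := Polynomial.ext fun i => by
    rw [← coeff_p h1, Polynomial.coeff_zero]
    exact hp i
  subst hP
  refine Subtype.ext (au_ext ?_ ?_)
  · rw [h1.1, MvPolynomial.C_1, one_mul, map_zero, add_zero]
    rfl
  · rw [h1.2, MvPolynomial.C_1, one_mul, MvPolynomial.C_0, add_zero]
    rfl

/-- The bound for the coefficients. -/
theorem bound {S : Type u} [Group S] (hS : Group.FG S) (χ : S →* triS K)
    (hi : ∀ s, IsIntegral ℤ (dg K (χ s) : K × K).1 ∧ IsIntegral ℤ (dg K (χ s) : K × K).2) :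
    ∃ (Λ : Submodule ℤ K) (n : ℕ), Λ.FG ∧ ∀ s, dd (χ s).1 ∈ Λ ∧ (∀ i, pp (χ s).1 i ∈ Λ) ∧
      ∀ i, n < i → pp (χ s).1 i = 0 := by
  classical
  obtain ⟨T, hT⟩ := (Group.fg_iff_monoid_fg.1 hS).fg_top
  let O : Subalgebra ℤ K := Algebra.adjoin ℤ
    (((T : Set S).image fun s => (dg K (χ s) : K × K).1) ∪
      ((T : Set S).image fun s => (dg K (χ s) : K × K).2))
  have hO : Module.Finite ℤ O := by
    have h1 : (Subalgebra.toSubmodule O).FG := by
      refine fg_adjoin_of_finite ((T.finite_toSet.image _).union (T.finite_toSet.image _)) ?_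
      rintro x (⟨s, _, rfl⟩ | ⟨s, _, rfl⟩)
      · exact (hi s).1
      · exact (hi s).2
    exact Module.Finite.iff_fg.2 h1
  have hdata : ∀ s, ∃ (a c d : K) (P : K[X]), Tri (χ s).1 a c d P ∧
      a = (dg K (χ s) : K × K).1 ∧ c = (dg K (χ s) : K × K).2 := by
    intro s
    obtain ⟨a, c, d, P, _, _, h⟩ := (χ s).2
    exact ⟨a, c, d, P, h, (tri_coeff h).1.symm, (tri_coeff h).2.symm⟩
  choose a c d P hT1 ha hc using hdata
  let W : Submodule O K := Submodule.span O
    ({1} ∪ ((T : Set S).image d) ∪ ⋃ s ∈ T, ((P s).support : Set ℕ).image (P s).coeff)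
  have hW : W.FG := by
    refine Submodule.fg_span ?_
    refine ((Set.finite_singleton 1).union (T.finite_toSet.image d)).union ?_
    exact Set.Finite.biUnion T.finite_toSet fun s _ => (Finset.finite_toSet _).image _
  have h1W : (1 : K) ∈ W := Submodule.subset_span (Or.inl (Or.inl rfl))
  have hdW : ∀ s ∈ T, d s ∈ W := fun s hs => Submodule.subset_span (Or.inl (Or.inr ⟨s, hs, rfl⟩))
  have hPW : ∀ s ∈ T, ∀ i, (P s).coeff i ∈ W := by
    intro s hs i
    by_cases h : (P s).coeff i = 0
    · rw [h]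
      exact W.zero_mem
    · refine Submodule.subset_span (Or.inr ?_)
      exact Set.mem_biUnion hs ⟨i, Polynomial.mem_support_iff.2 h, rfl⟩
  have hmono : ∀ (k l : ℕ), k ≤ l → W ^ k ≤ W ^ l := by
    intro k l hkl
    induction l, hkl using Nat.le_induction with
    | base => exact le_rfl
    | succ l _ ih =>
      refine ih.trans fun x hx => ?_
      rw [pow_succ]
      have := Submodule.mul_mem_mul hx h1W
      rwa [mul_one] at this
  let n : ℕ := T.sup (fun s => (P s).natDegree) + 1
  have hgen : ∀ s ∈ T, Gd W n (χ s).1 := by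
    intro s hs
    refine ⟨a s, c s, d s, P s, ?_, ?_, hdW s hs, ⟨fun i hin => ?_, fun i hin => ?_⟩, hT1 s⟩
    · rw [ha]
      exact Algebra.subset_adjoin (Or.inl ⟨s, hs, rfl⟩)
    · rw [hc]
      exact Algebra.subset_adjoin (Or.inr ⟨s, hs, rfl⟩)
    · by_cases h : i = n
      · have hd : (P s).natDegree ≤ T.sup (fun s => (P s).natDegree) :=
          Finset.le_sup (f := fun s => (P s).natDegree) hs
        rw [Polynomial.coeff_eq_zero_of_natDegree_lt (by omega)]
        exact Submodule.zero_mem _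
      · have h2 := hmono 1 (n - i) (by omega)
        rw [pow_one] at h2
        exact h2 (hPW s hs i)
    · have hd : (P s).natDegree ≤ T.sup (fun s => (P s).natDegree) :=
        Finset.le_sup (f := fun s => (P s).natDegree) hs
      exact Polynomial.coeff_eq_zero_of_natDegree_lt (by omega)
  have hall : ∀ s, Gd W n (χ s).1 := by
    intro s
    have hs : s ∈ Submonoid.closure (T : Set S) := by
      rw [hT]
      exact Submonoid.mem_top s
    induction hs using Submonoid.closure_induction with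
    | mem x hx => exact hgen x hx
    | one =>
      rw [map_one]
      exact Gd.one
    | mul x y _ _ hx hy =>
      rw [map_mul]
      exact hx.mul hy
  have hWn : (W ^ n).FG := hW.pow n
  have hfin : Module.Finite O (W ^ n : Submodule O K) := Module.Finite.iff_fg.2 hWn
  have hfin2 : Module.Finite ℤ (W ^ n : Submodule O K) := Module.Finite.trans O _
  refine ⟨(W ^ n).restrictScalars ℤ, n, Module.Finite.iff_fg.1 hfin2, fun s => ?_⟩
  obtain ⟨a', c', d', P', _, _, hd', hP', h'⟩ := hall s
  refine ⟨?_, fun i => ?_, fun i hin => ?_⟩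
  · rw [dd, coeff_d h']
    have h2 := hmono 1 n (by omega)
    rw [pow_one] at h2
    exact h2 hd'
  · rw [pp, coeff_p h']
    by_cases hin : i ≤ n
    · exact hmono (n - i) n (by omega) (hP'.1 i hin)
    · rw [hP'.2 i (by omega)]
      exact Submodule.zero_mem _
  · rw [pp, coeff_p h']
    exact hP'.2 i hin

end TRZ

open TRZ AP in
/-- TRZ. -/
theorem trz : TrzStatement.{u} := by
  intro K S _ _ _ hS χ hχ hi
  obtain ⟨Λ, n, hΛ, hb⟩ := bound hS χ hi
  have hΛf : Module.Finite ℤ Λ := Module.Finite.iff_fg.2 hΛ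
  have hΛt : IsAddTorsionFree Λ := ⟨fun m hm x y h => Subtype.ext (by
    have h1 : m • (x : K) = m • (y : K) := congrArg Subtype.val h
    rw [nsmul_eq_mul, nsmul_eq_mul] at h1
    exact mul_left_cancel₀ (Nat.cast_ne_zero.2 hm) h1)⟩
  let q : S →* (K × K)ˣ := (dg K).comp χ
  have hFG : Group.FG q.range := by
    have := hS
    exact Group.fg_range q
  have hq : ∀ s : q.rangeRestrict.ker, dg K (χ s.1) = 1 := fun s => congrArg Subtype.val s.2
  let δ : q.rangeRestrict.ker →* Multiplicative Λ :=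
    { toFun := fun s => Multiplicative.ofAdd ⟨dd (χ s.1).1, (hb s.1).1⟩
      map_one' := by
        refine congrArg Multiplicative.ofAdd (Subtype.ext ?_)
        show dd (χ (1 : S)).1 = 0
        have h := dd_mul (φ := 1) (ψ := 1) (map_one (dg K)) (map_one (dg K))
        rw [mul_one] at h
        rw [map_one]
        exact left_eq_add.1 h
      map_mul' := fun s t => by
        refine congrArg Multiplicative.ofAdd (Subtype.ext ?_)
        show dd (χ (s.1 * t.1)).1 = dd (χ s.1).1 + dd (χ t.1).1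
        rw [map_mul]
        exact dd_mul (hq s) (hq t) }
  have hδ : ∀ s : δ.ker, dd (χ s.1.1).1 = 0 := fun s => congrArg Subtype.val
    (congrArg Multiplicative.toAdd (show δ s.1 = 1 from s.2))
  let π : δ.ker →* Multiplicative (Fin (n + 1) → Λ) :=
    { toFun := fun s => Multiplicative.ofAdd fun i => ⟨pp (χ s.1.1).1 i, (hb s.1.1).2.1 i⟩
      map_one' := by
        refine congrArg Multiplicative.ofAdd (funext fun i => Subtype.ext ?_)
        show pp (χ (1 : S)).1 i = 0
        have h := pp_mul (φ := 1) (ψ := 1) (map_one (dg K)) (map_one (dg K))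
          (by rw [← map_one χ]; exact hδ 1) i
        rw [mul_one] at h
        rw [map_one]
        exact left_eq_add.1 h
      map_mul' := fun s t => by
        refine congrArg Multiplicative.ofAdd (funext fun i => Subtype.ext ?_)
        show pp (χ (s.1.1 * t.1.1)).1 i = pp (χ s.1.1).1 i + pp (χ t.1.1).1 i
        rw [map_mul]
        exact pp_mul (hq s.1) (hq t.1) (hδ s) i }
  have hπ : Subsingleton π.ker := by
    refine ⟨fun s t => ?_⟩
    have key : ∀ s : π.ker, s = 1 := by
      intro s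
      have h1 : ∀ i : Fin (n + 1), pp (χ s.1.1.1).1 i = 0 := fun i => congrArg Subtype.val
        (congrFun (congrArg Multiplicative.toAdd (show π s.1 = 1 from s.2)) i)
      have h2 : χ s.1.1.1 = 1 := by
        refine eq_one (hq s.1.1) (hδ s.1) fun i => ?_
        by_cases hin : n < i
        · exact (hb s.1.1.1).2.2 i hin
        · exact h1 ⟨i, by omega⟩
      exact Subtype.ext (Subtype.ext (Subtype.ext (hχ (h2.trans (map_one χ).symm))))
    rw [key s, key t]
  obtain ⟨m, hm⟩ := PZ.ext_add 0 (Fin (n + 1) → Λ) π hπ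
  obtain ⟨m', hm'⟩ := PZ.ext_add m Λ δ hm
  exact PZ.finite m' q.range q.rangeRestrict hm'

end Pool.Agent.NegK.PL
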