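import Pool.Agent.Lib.MP_28303a_al.PL.AFM
import Pool.Agent.Lib.MP_28303a_al.PL.TRZ
import Pool.Agent.Lib.MP_28303a_al.AP.Mix

/-! # Torsionfree groups of triangular automorphisms -/

set_option autoImplicit false
set_option linter.unusedSectionVars false
set_option linter.unusedVariables false

namespace Pool.Agent.NegK.PL

universe u

open Matrix
open Pool.Agent.NegK.TW
open Pool.Agent.NegK.TT
open Pool.Agent.NegK.NT
open Pool.Agent.NegK.NT5
open H1 (TD)
open Pool.Agent.NegK.AP (triS dg Tri Au)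

namespace TRI

variable {K : Type u} [Field K]

/-- The action on the second variable. -/
noncomputable def ypM (K : Type u) [Field K] : triS K →* Matrix (Fin 2) (Fin 2) K where
  toFun φ := !![MvPolynomial.coeff (Finsupp.single 1 1) (φ.1 (MvPolynomial.X 1)), 0;
    MvPolynomial.coeff 0 (φ.1 (MvPolynomial.X 1)), 1]
  map_one' := by
    have h : Tri (1 : Au K) 1 1 0 0 := by simp [Tri]
    show !![MvPolynomial.coeff (Finsupp.single 1 1) ((1 : Au K) (MvPolynomial.X 1)), 0;
      MvPolynomial.coeff 0 ((1 : Au K) (MvPolynomial.X 1)), 1] = _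
    rw [(AP.tri_coeff h).2, TRZ.coeff_d h]
    ext i j
    fin_cases i <;> fin_cases j <;> rfl
  map_mul' := by
    rintro ⟨φ, a, c, d, P, ha, hc, h⟩ ⟨ψ, a', c', d', P', ha', hc', h'⟩
    show !![MvPolynomial.coeff (Finsupp.single 1 1) ((φ * ψ) (MvPolynomial.X 1)), 0;
      MvPolynomial.coeff 0 ((φ * ψ) (MvPolynomial.X 1)), 1] =
      !![MvPolynomial.coeff (Finsupp.single 1 1) (φ (MvPolynomial.X 1)), 0;
      MvPolynomial.coeff 0 (φ (MvPolynomial.X 1)), 1] *
      !![MvPolynomial.coeff (Finsupp.single 1 1) (ψ (MvPolynomial.X 1)), 0;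
      MvPolynomial.coeff 0 (ψ (MvPolynomial.X 1)), 1]
    rw [(AP.tri_coeff (AP.tri_mul h h')).2, TRZ.coeff_d (AP.tri_mul h h'), (AP.tri_coeff h).2,
      TRZ.coeff_d h, (AP.tri_coeff h').2, TRZ.coeff_d h']
    ext i j
    fin_cases i <;> fin_cases j <;> simp [Matrix.mul_apply, Fin.sum_univ_two] <;> ring

/-- The action on the second variable. -/
noncomputable def yp (K : Type u) [Field K] : triS K →* GL (Fin 2) K := (ypM K).toHomUnits

theorem yp_trace (φ : triS K) : (yp K φ).1.trace = (dg K φ).1.2 + 1 := by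
  rw [Matrix.trace_fin_two]
  rfl

theorem yp_det (φ : triS K) : (yp K φ).1.det = (dg K φ).1.2 := by
  rw [Matrix.det_fin_two]
  show (dg K φ).1.2 * 1 - 0 * _ = _
  rw [zero_mul, sub_zero, mul_one]

/-- The kernel. -/
theorem yp_one (φ : triS K) (h : yp K φ = 1) :
    ∃ (a : K) (P : Polynomial K), a = (dg K φ).1.1 ∧ Tri φ.1 a 1 0 P := by
  obtain ⟨φ, a, c, d, P, ha, hc, h3⟩ := φ
  have h1 := congrArg (fun M : GL (Fin 2) K => M.1) h
  have h4 := congrFun (congrFun h1 0) 0
  have h5 := congrFun (congrFun h1 1) 0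
  have h6 : MvPolynomial.coeff (Finsupp.single 1 1) (φ (MvPolynomial.X 1)) = 1 := h4
  have h7 : MvPolynomial.coeff 0 (φ (MvPolynomial.X 1)) = 0 := h5
  rw [(AP.tri_coeff h3).2] at h6
  rw [TRZ.coeff_d h3] at h7
  subst h6
  subst h7
  exact ⟨a, P, (AP.tri_coeff h3).1.symm, h3⟩

theorem tri_pow {φ : Au K} {a : K} {P : Polynomial K} (h : Tri φ a 1 0 P) (n : ℕ) :
    Tri (φ ^ n) (a ^ n) 1 0 (Polynomial.C (∑ i ∈ Finset.range n, a ^ i) * P) := by
  induction n with
  | zero => simp [Tri]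
  | succ n ih =>
    have h1 := AP.tri_mul ih h
    rw [← pow_succ] at h1
    have e : Polynomial.C a * (Polynomial.C (∑ i ∈ Finset.range n, a ^ i) * P) +
        P.comp (Polynomial.C 1 * Polynomial.X + Polynomial.C 0) =
        Polynomial.C (∑ i ∈ Finset.range (n + 1), a ^ i) * P := by
      rw [Finset.sum_range_succ', pow_zero, Polynomial.C_1, one_mul, Polynomial.C_0, add_zero,
        Polynomial.comp_X, ← mul_assoc, ← Polynomial.C_mul, Finset.mul_sum, Polynomial.C_add,
        Polynomial.C_1, add_mul, one_mul]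
      simp only [pow_succ']
    rw [e, ← pow_succ', mul_one, mul_zero, zero_add] at h1
    exact h1

theorem pow_eq_one {φ : Au K} {a : K} {P : Polynomial K} (h : Tri φ a 1 0 P) {n : ℕ}
    (ha : a ^ n = 1) (h1 : a ≠ 1) : φ ^ n = 1 := by
  have h2 := tri_pow h n
  have h3 : ∑ i ∈ Finset.range n, a ^ i = 0 := by
    have h4 := mul_geom_sum a n
    rw [ha, sub_self] at h4
    exact (mul_eq_zero.1 h4).resolve_left (sub_ne_zero.2 h1)
  rw [h3, ha, Polynomial.C_0, zero_mul] at h2
  refine AP.au_ext ?_ ?_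
  · rw [h2.1]
    simp
  · rw [h2.2]
    simp

theorem comm {φ ψ : Au K} {P P' : Polynomial K} (h : Tri φ 1 1 0 P) (h' : Tri ψ 1 1 0 P') :
    φ * ψ = ψ * φ := by
  have h1 := AP.tri_mul h h'
  have h2 := AP.tri_mul h' h
  simp only [Polynomial.C_1, one_mul, Polynomial.C_0, add_zero, Polynomial.comp_X, mul_one,
    mul_zero] at h1 h2
  refine AP.au_ext ?_ ?_
  · rw [h1.1, h2.1, add_comm P]
  · rw [h1.2, h2.2]

/-! ### Groups -/

section

variable [CharZero K]

theorem isIntegral_of_pow {x : K × K} {m : ℕ} (hm : 0 < m) (h : x ^ m = 1) :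
    IsIntegral ℤ x.1 ∧ IsIntegral ℤ x.2 := by
  have h1 : x.1 ^ m = 1 := congrArg Prod.fst h
  have h2 : x.2 ^ m = 1 := congrArg Prod.snd h
  exact ⟨IsIntegral.of_pow hm (by rw [h1]; exact isIntegral_one),
    IsIntegral.of_pow hm (by rw [h2]; exact isIntegral_one)⟩

theorem torsionFree_sub {Γ : Type u} [Group Γ] (htf : TorsionFree Γ) (H : Subgroup Γ) :
    TorsionFree H := fun g n hn hg =>
  Subtype.ext (htf g.1 n hn (congrArg Subtype.val hg))

/-- Torsionfree groups of triangular automorphisms with integral diagonals. -/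
theorem inRC (hTfe : TfeStatement.{u}) (hTrz : TrzStatement.{u}) (Γ : Type u) [Group Γ]
    (htf : TorsionFree Γ) (χ : Γ →* triS K) (hχ : Function.Injective χ)
    (hi : ∀ g, IsIntegral ℤ (dg K (χ g) : K × K).1 ∧ IsIntegral ℤ (dg K (χ g) : K × K).2) :
    InRC Γ := by
  refine ((TT.main.{u}).2.2.2.1 Γ).2.2.2.2.2.1 fun S => ⟨Subgroup.closure (S : Set Γ),
    fun s hs => Subgroup.subset_closure hs, ?_⟩
  have hfg : Group.FG (Subgroup.closure (S : Set Γ)) := (Group.fg_iff_subgroup_fg _).2 ⟨S, rfl⟩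
  obtain ⟨H, _, hH, n, hn⟩ := hTrz K _ hfg (χ.comp (Subgroup.subtype _))
    (hχ.comp Subtype.val_injective) fun s => hi s.1
  exact inRC_of_inN (hTfe _ (torsionFree_sub htf _) H n hH hn)

/-- Finitely generated torsionfree groups of triangular automorphisms such that the diagonals have
finite order. -/
theorem qcom (G : Type u) [Group G] [Group.FG G] (htf : TorsionFree G) (χ : G →* triS K)
    (hχ : Function.Injective χ) (h : ∀ g, ∃ m, 0 < m ∧ dg K (χ g) ^ m = 1) :
    ∃ ψ : G →* GL (Fin 2) (AlgebraicClosure ℚ), ∀ a b, ψ a = 1 → ψ b = 1 → a * b = b * a := by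
  obtain ⟨ψ, hψ⟩ := emb_all ((yp K).comp χ) fun g => by
    obtain ⟨m, hm, h1⟩ := h g
    have h2 := (isIntegral_of_pow hm (congrArg Units.val h1)).2
    show IsAlgebraic ℤ ((yp K (χ g)).1.trace ^ 2 / (yp K (χ g)).1.det)
    rw [yp_trace, yp_det]
    have h3 : IsAlgebraic ℤ ((dg K (χ g)).1.2) := h2.isAlgebraic
    rw [div_eq_mul_inv]
    exact ((h3.add isAlgebraic_one).pow 2).mul h3.inv
  have key : ∀ a, ψ a = 1 → ∃ P, Tri (χ a).1 1 1 0 P := by
    intro a ha
    obtain ⟨α, P, hα, hP⟩ := yp_one (χ a) ((hψ a).1 ha)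
    obtain ⟨m, hm, h1⟩ := h a
    by_cases h2 : α = 1
    · rw [h2] at hP
      exact ⟨P, hP⟩
    · have h3 : α ^ m = 1 := by
        rw [hα]
        exact congrArg (fun z : (K × K)ˣ => z.1.1) h1
      have h4 := pow_eq_one hP h3 h2
      have h5 : a ^ m = 1 := hχ (Subtype.ext (by
        rw [map_pow, map_one]
        exact h4))
      have h6 := htf a m hm h5
      exact ⟨0, by rw [h6, map_one]; simp [Tri]⟩
  refine ⟨ψ, fun a b ha hb => hχ (Subtype.ext ?_)⟩
  obtain ⟨P, hP⟩ := key a ha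
  obtain ⟨Q, hQ⟩ := key b hb
  rw [map_mul, map_mul]
  exact comm hP hQ

end

end TRI

section

variable (hTfe : TfeStatement.{u}) (hTrz : TrzStatement.{u}) (K : Type u) [Field K] [CharZero K]
  (Γ : Type u) [Group Γ] (htf : TorsionFree Γ) (χ : Γ →* triS K) (hχ : Function.Injective χ)

include htf hχ in
/-- The images of the subgroups such that the diagonals have finite order. -/
theorem tri_le (k : Type u) [Ring k] (W : Subgroup Γ)
    (hW : ∀ w ∈ W, ∃ m, 0 < m ∧ dg K (χ w) ^ m = 1) :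
    img k W ≤ ⨆ H : {H : Subgroup Γ // QCom H}, img k H.1 := by
  refine ER71.img_gen (fun G : {G : Subgroup W // G.FG} => G.1) k (fg_gen W k) _ fun G => ?_
  have hfg0 : (G.1.map W.subtype : Subgroup Γ).FG := by
    classical
    obtain ⟨S, hS⟩ := G.2
    exact ⟨S.image W.subtype, by rw [Finset.coe_image, ← MonoidHom.map_closure, hS]⟩
  have hfg : Group.FG (G.1.map W.subtype : Subgroup Γ) :=
    (Group.fg_iff_subgroup_fg _).2 hfg0
  refine le_iSup (fun H : {H : Subgroup Γ // QCom H} => img k H.1) ⟨G.1.map W.subtype, hfg0, ?_⟩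
  refine TRI.qcom _ (TRI.torsionFree_sub htf _)
    (χ.comp (Subgroup.subtype _)) (hχ.comp Subtype.val_injective) fun g => ?_
  obtain ⟨w, _, hw⟩ := g.2
  refine hW g.1 ?_
  rw [← hw]
  exact w.2

include hTfe hTrz htf hχ in
/-- TRI, finitely generated groups: trees such that the stabilizers are the subgroups with
diagonals of finite order. -/
theorem tri_trees (hfg : Group.FG Γ) : ∃ Y : Trees Γ, (∀ v, InRC (Y.st v)) ∧
    ∀ v, ∀ w ∈ Y.st v, ∃ m, 0 < m ∧ dg K (χ w) ^ m = 1 := by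
  let q : Γ →* (K × K)ˣ := (dg K).comp χ
  have hfq : Group.FG q.range := inferInstance
  obtain ⟨n, θ, hθ⟩ := AP.exists_zn' q.range
  choose T hT using fun i : Fin n => H1.exists_TD_line Γ
    ((AddMonoidHom.toMultiplicative (Pi.evalAddMonoidHom (fun _ : Fin n => ℤ) i)).comp
      (θ.comp q.rangeRestrict))
  let Y : Trees Γ := ⟨n, fun j => (T j).V, fun j => (T j).act, fun j => (T j).G,
    fun j => (T j).tree⟩
  have key : ∀ v, ∀ w ∈ Y.st v, ∃ m, 0 < m ∧ dg K (χ w) ^ m = 1 := by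
    intro v w hw
    have h1 : θ (q.rangeRestrict w) = 1 := by
      apply Multiplicative.toAdd.injective
      funext i
      exact congrArg Multiplicative.toAdd (hT i w ⟨v i, (Subgroup.mem_iInf.1 hw) i⟩)
    obtain ⟨m, hm, h2⟩ := hθ _ h1
    exact ⟨m, hm, congrArg Subtype.val h2⟩
  refine ⟨Y, fun v => ?_, key⟩
  refine TRI.inRC hTfe hTrz _ (TRI.torsionFree_sub htf _)
    (χ.comp (Subgroup.subtype _)) (hχ.comp Subtype.val_injective) fun g => ?_
  obtain ⟨m, hm, h1⟩ := key v g.1 g.2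
  exact TRI.isIntegral_of_pow hm (congrArg Units.val h1)

include hTfe hTrz htf hχ in
/-- TRI. Let `K` be a field of characteristic `0` and `Γ` a torsionfree group of triangular
automorphisms. Then `K₀(k[Γ])` is generated by the images of the `K₀(k[H])`, `H` a finitely
generated subgroup with a homomorphism to `GL₂(ℚ̄)` with a commutative kernel. -/
theorem tri_gen (k : Type u) [Ring k] (hk : RegularRing k) :
    ⨆ H : {H : Subgroup Γ // QCom H}, img k H.1 = ⊤ := by
  refine ER71.gen_loc k _ fun S => ⟨Subgroup.closure (S : Set Γ),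
    fun s hs => Subgroup.subset_closure hs, ?_⟩
  have hfg : Group.FG (Subgroup.closure (S : Set Γ)) := (Group.fg_iff_subgroup_fg _).2 ⟨S, rfl⟩
  obtain ⟨Y, h1, h2⟩ := tri_trees hTfe hTrz K _
    (TRI.torsionFree_sub htf _) (χ.comp (Subgroup.subtype _))
    (hχ.comp Subtype.val_injective) hfg
  refine ER71.img_gen (fun v => Y.st v) k (trees Y h1 k hk) _ fun v => ?_
  refine tri_le K Γ htf χ hχ k _ ?_
  rintro _ ⟨w, hw, rfl⟩
  exact h2 v w hw

include hTfe hTrz htf hχ in
/-- Torsionfree groups of triangular automorphisms are in the class `InL`. -/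
theorem tri_inL : H19.InL Γ := by
  refine ((TT.main.{u}).2.2.2.1 Γ).2.2.2.2.1 fun S => ⟨Subgroup.closure (S : Set Γ),
    fun s hs => Subgroup.subset_closure hs, ?_⟩
  have hfg : Group.FG (Subgroup.closure (S : Set Γ)) := (Group.fg_iff_subgroup_fg _).2 ⟨S, rfl⟩
  obtain ⟨Y, h1, _⟩ := tri_trees hTfe hTrz K _
    (TRI.torsionFree_sub htf _) (χ.comp (Subgroup.subtype _))
    (hχ.comp Subtype.val_injective) hfg
  exact inL_of_gen Y (fun k _ hk => trees Y h1 k hk) fun v =>
    ((TT.main.{u}).2.2.2.1 _).2.1 (h1 v)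

include hTfe hTrz htf hχ in
/-- Torsionfree groups of triangular automorphisms with integral diagonals. -/
theorem tri_inRC
    (hi : ∀ g, IsIntegral ℤ (dg K (χ g) : K × K).1 ∧ IsIntegral ℤ (dg K (χ g) : K × K).2) :
    InRC Γ :=
  TRI.inRC hTfe hTrz Γ htf χ hχ hi

end

end Pool.Agent.NegK.PL
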