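import Pool.Agent.Lib.MP_28303a_al.PL.Asm
import Pool.Agent.Lib.MP_28303a_al.PL.TRI
import Pool.Agent.Lib.MP_28303a_al.PL.AfeS
import Pool.Agent.Lib.MP_28303a_al.PL.Ptf
import Pool.Agent.Lib.MP_28303a_al.PL.Red
import Pool.Agent.Lib.MP_28303a_al.NT.ER71.All

/-! # Torsionfree groups of automorphisms of the plane -/

set_option autoImplicit false
set_option linter.unusedSectionVars false
set_option linter.unusedVariables false

namespace Pool.Agent.NegK.PL

universe u

open Matrix
open Pool.Agent.NegK.TW Pool.Agent.NegK.TT Pool.Agent.NegK.NT Pool.Agent.NegK.AP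

/-- The triangular groups. -/
theorem tri : TriStatement.{u} := fun K _ _ Γ _ htf χ hχ =>
  ⟨tri_inL tfe trz K Γ htf χ hχ, fun k _ hk => tri_gen tfe trz K Γ htf χ hχ k hk⟩

/-- The affine groups. -/
theorem afeAll : AfeStatement.{u} := afeS tfe

/-- Let `K` be a field of characteristic `0` and `Γ` a torsionfree group of automorphisms of the
polynomial ring `K[x, y]`. Then the groups `K_{-n}(R[Γ])`, `R` regular, `n ≥ 0`, are generated by
the images of the groups `K_{-n}(R[H])`, `H` a finitely generated subgroup of `Γ` with a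
homomorphism to `GL₂(ℚ̄)` with a commutative kernel. -/
theorem plane (K : Type u) [Field K] [CharZero K] (Γ : Type u) [Group Γ] (htf : TorsionFree Γ)
    (χ : Γ →* (MvPolynomial (Fin 2) K ≃ₐ[K] MvPolynomial (Fin 2) K)) (hχ : Function.Injective χ)
    (n : ℕ) (k : Type u) [Ring k] (hk : RegularRing k) :
    ⨆ H : {H : Subgroup Γ // QCom H}, ((KNegFun n).hom (mdr k H.1.subtype)).range = ⊤ :=
  pl_main tri afeAll K Γ htf χ hχ n k hk

theorem gen3_of_q {Γ : Type u} [Group Γ] (h : ∀ (k : Type u) [Ring k], RegularRing k →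
    ⨆ H : {H : Subgroup Γ // QCom H}, img k H.1 = ⊤) : Gen3 Γ := by
  intro k _ hk
  refine gen_mono (P := fun H : Subgroup Γ => QCom H) (fun H hH => ?_) k (h k hk)
  obtain ⟨hfg, ψ', hψ'⟩ := hH
  exact ⟨(Group.fg_iff_subgroup_fg _).2 hfg, bl.comp ψ', fun a b ha hb =>
    hψ' a b ((bl_eq_one _).1 ha) ((bl_eq_one _).1 hb)⟩

/-- Torsionfree groups of automorphisms of the polynomial ring `K[x, y]`, `K` any field. -/
theorem gen3_au (K : Type u) [Field K] (Γ : Type u) [Group Γ] (htf : TorsionFree Γ)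
    (χ : Γ →* (MvPolynomial (Fin 2) K ≃ₐ[K] MvPolynomial (Fin 2) K))
    (hχ : Function.Injective χ) : Gen3 Γ := by
  rcases char_cases K with hK | ⟨p, hp, hpK⟩
  · exact gen3_of_q fun k _ hk => pl_k0 htf ((JK.tameEquiv K).toMonoidHom.comp χ)
      ((JK.tameEquiv K).injective.comp hχ) tri afeAll k hk
  · let L := FractionRing (MvPolynomial PEmpty.{u + 1} ℤ)
    let α : Γ →* Au K × GL (Fin 0) K × GL (Fin 2) L := MonoidHom.prod χ (MonoidHom.prod 1 1)
    have hα : Function.Injective α := fun g h hgh => hχ (congrArg Prod.fst hgh)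
    refine gen3_of_inK (JK.au_inK hp hpK hpK (fun i : Fin 0 => i.elim0) (fun k => ?_)
      (NT.H70.rig_ratFunc PEmpty.{u + 1} L) α (fun g => ?_) ?_ NT.ER71.relAll hα)
    · simp
    · intro i
      exact i.elim0
    · rintro ⟨_, g, rfl⟩ m hm hg
      refine Subtype.ext ?_
      have h1 : α (g ^ m) = α 1 := by
        rw [map_pow, map_one]
        exact congrArg Subtype.val hg
      have h2 : g = 1 := htf g m hm (hα h1)
      show α g = 1
      rw [h2, map_one]

end Pool.Agent.NegK.PL
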