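import Pool.Agent.Lib.MP_28303a_al.PL.AFM
import Pool.Agent.Lib.MP_28303a_al.PL.ACY
import Pool.Agent.Lib.MP_28303a_al.JK.Fin
import Pool.Agent.Lib.MP_28303a_al.NT.ER71.Gen
import Pool.Agent.Lib.MP_28303a_al.NT.Main

/-! # Torsionfree groups of polynomial automorphisms of the plane in characteristic `0` -/

set_option autoImplicit false
set_option linter.unusedSectionVars false
set_option linter.unusedVariables false

namespace Pool.Agent.NegK.PL

universe u

open Pool.Agent.NegK.TW Pool.Agent.NegK.TT Pool.Agent.NegK.NT Pool.Agent.NegK.AP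

/-- The theorem on the triangular groups. -/
def TriStatement : Prop :=
  ∀ (K : Type u) [Field K] [CharZero K] (Γ : Type u) [Group Γ], TorsionFree Γ →
    ∀ χ : Γ →* triS K, Function.Injective χ → H19.InL Γ ∧
      ∀ (k : Type u) [Ring k], RegularRing k → ⨆ H : {H : Subgroup Γ // QCom H}, img k H.1 = ⊤

theorem qcom_map {Γ : Type u} [Group Γ] (S : Subgroup Γ) (H : Subgroup S) (h : QCom H) :
    QCom (H.map S.subtype) := by
  obtain ⟨hfg, ψ, hψ⟩ := h
  let e : H ≃* H.map S.subtype := H.equivMapOfInjective _ (Subgroup.subtype_injective S)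
  refine ⟨?_, ψ.comp e.symm.toMonoidHom, fun a b ha hb => ?_⟩
  · rw [← Group.fg_iff_subgroup_fg] at hfg ⊢
    exact Group.fg_of_surjective (f := e.toMonoidHom) e.surjective
  · apply e.symm.injective
    have h1 : e.symm (a * b) = e.symm a * e.symm b := map_mul e.symm a b
    have h2 : e.symm (b * a) = e.symm b * e.symm a := map_mul e.symm b a
    rw [h1, h2]
    exact hψ (e.symm a) (e.symm b) ha hb

theorem qcom_bot {Γ : Type u} [Group Γ] : QCom (⊥ : Subgroup Γ) :=
  ⟨⟨∅, by simp⟩, 1, fun a b _ _ => Subsingleton.elim _ _⟩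

section

variable {K : Type u} [Field K] [CharZero K] {Γ : Type u} [Group Γ] (htf : TorsionFree Γ)
  (χ : Γ →* tame K) (hχ : Function.Injective χ)

/-- The action on the tree. -/
@[reducible] noncomputable def act : MulAction Γ ((tame K ⧸ tA K) ⊕ (tame K ⧸ tB K)) :=
  MulAction.compHom _ χ

theorem conj_A (x : tame K) (g : Γ) (hg : g ∈ @MulAction.stabilizer Γ _ _ (act χ)
    (Sum.inl (x : tame K ⧸ tA K) : (tame K ⧸ tA K) ⊕ (tame K ⧸ tB K))) :
    x⁻¹ * χ g * x ∈ tA K := by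
  have hconj : x⁻¹ * χ g * x = ((χ g * x)⁻¹ * x)⁻¹ := by group
  have hg' : (Sum.inl ((χ g * x : tame K) : tame K ⧸ tA K) :
      (tame K ⧸ tA K) ⊕ (tame K ⧸ tB K)) = Sum.inl (x : tame K ⧸ tA K) := hg
  rw [hconj]
  exact inv_mem (QuotientGroup.eq.1 (Sum.inl_injective hg'))

theorem conj_B (x : tame K) (g : Γ) (hg : g ∈ @MulAction.stabilizer Γ _ _ (act χ)
    (Sum.inr (x : tame K ⧸ tB K) : (tame K ⧸ tA K) ⊕ (tame K ⧸ tB K))) :
    x⁻¹ * χ g * x ∈ tB K := by
  have hconj : x⁻¹ * χ g * x = ((χ g * x)⁻¹ * x)⁻¹ := by group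
  have hg' : (Sum.inr ((χ g * x : tame K) : tame K ⧸ tB K) :
      (tame K ⧸ tA K) ⊕ (tame K ⧸ tB K)) = Sum.inr (x : tame K ⧸ tB K) := hg
  rw [hconj]
  exact inv_mem (QuotientGroup.eq.1 (Sum.inr_injective hg'))

theorem tree_act : @TreeAct Γ _ _ (act χ) (cosetGraph (tA K) (tB K)) := by
  let _ := act χ
  refine ⟨tree, ?_, ?_⟩
  · rintro g v w ⟨x, h⟩
    refine ⟨χ g * x, ?_⟩
    rcases h with ⟨rfl, rfl⟩ | ⟨rfl, rfl⟩
    · exact Or.inl ⟨rfl, rfl⟩
    · exact Or.inr ⟨rfl, rfl⟩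
  · rintro g v w ⟨x, h⟩ ⟨h1, _⟩
    rcases h with ⟨rfl, rfl⟩ | ⟨rfl, rfl⟩
    · exact Sum.inl_ne_inr h1
    · exact Sum.inr_ne_inl h1

include hχ in
theorem cj_inj (S : Subgroup (Au K)) {H : Type u} [Group H] (f : H →* Γ)
    (hf : Function.Injective f) (x : tame K)
    (hx : ∀ h, x⁻¹ * χ (f h) * x ∈ S.subgroupOf (tame K)) :
    Function.Injective (cj χ S f x hx) := by
  refine (injective_iff_map_eq_one _).2 fun h h1 => ?_
  have h2 : ((x⁻¹ * χ (f h) * x : tame K) : Au K) = 1 := by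
    rw [← cj_apply χ S f x hx h, h1]
    rfl
  have h3 : x⁻¹ * χ (f h) * x = 1 := Subtype.ext h2
  have h4 : χ (f h) = 1 := by
    have h5 : χ (f h) = x * (x⁻¹ * χ (f h) * x) * x⁻¹ := by group
    rw [h5, h3]
    group
  exact hf ((hχ (h4.trans (map_one χ).symm)).trans (map_one f).symm)

theorem tf_of_inj {H : Type u} [Group H] (htf : TorsionFree Γ) (f : H →* Γ)
    (hf : Function.Injective f) : TorsionFree H := fun h n hn h1 => hf (by
  rw [map_one]
  exact htf _ n hn (by rw [← map_pow, h1, map_one]))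

include htf hχ in
/-- `K₀(k[Γ])` is generated by finitely generated subgroups with a homomorphism to `GL₂(ℚ̄)` with a
commutative kernel. -/
theorem pl_k0 (hTri : TriStatement.{u}) (hAfe : AfeStatement.{u})
    (k : Type u) [Ring k] (hk : RegularRing k) :
    ⨆ H : {H : Subgroup Γ // QCom H}, img k H.1 = ⊤ := by
  let _ := act χ
  have hB : ∀ (x : tame K) (S : Subgroup Γ), (∀ g : S, x⁻¹ * χ g.1 * x ∈ tB K) → H19.InL S ∧
      ∀ (k : Type u) [Ring k], RegularRing k →
        ⨆ H : {H : Subgroup S // QCom H}, img k H.1 = ⊤ := by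
    intro x S hS
    exact hTri K S (tf_of_inj htf S.subtype (Subgroup.subtype_injective S))
      (cj χ (triS K) S.subtype x hS) (cj_inj χ hχ _ _ (Subgroup.subtype_injective S) x hS)
  have hlong : LongRC Γ (cosetGraph (tA K) (tB K)) := ACY.longRC htf χ hχ
  have hE : ∀ v w, (cosetGraph (tA K) (tB K)).Adj v w →
      H19.InL (MulAction.stabilizer Γ v ⊓ MulAction.stabilizer Γ w : Subgroup Γ) := by
    rintro v w ⟨x, h⟩
    rcases h with ⟨rfl, rfl⟩ | ⟨rfl, rfl⟩
    · exact (hB x _ fun g => conj_B χ x g.1 (Subgroup.mem_inf.1 g.2).2).1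
    · exact (hB x _ fun g => conj_B χ x g.1 (Subgroup.mem_inf.1 g.2).1).1
  have main : ⨆ v, img k (MulAction.stabilizer Γ v) = ⊤ :=
    ((H19.main.{u}).1 Γ _ (cosetGraph (tA K) (tB K)) (tree_act χ) hE (Or.inr hlong)).1 k hk 0
  rw [eq_top_iff, ← main]
  refine iSup_le fun v => ?_
  have key : ∀ S : Subgroup Γ, ⨆ H : {H : Subgroup S // QCom H}, img k H.1 = ⊤ →
      img k S ≤ ⨆ H : {H : Subgroup Γ // QCom H}, img k H.1 := fun S h1 =>
    ER71.img_gen _ k h1 _ fun H =>
      le_iSup (fun H : {H : Subgroup Γ // QCom H} => img k H.1) ⟨_, qcom_map _ _ H.2⟩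
  rcases v with q | q
  · obtain ⟨x, rfl⟩ := QuotientGroup.mk_surjective q
    have hS : ∀ g : MulAction.stabilizer Γ
        (Sum.inl (x : tame K ⧸ tA K) : (tame K ⧸ tA K) ⊕ (tame K ⧸ tB K)),
        x⁻¹ * χ g.1 * x ∈ tA K := fun g => conj_A χ x g.1 g.2
    exact key _ (afg hAfe K (MulAction.stabilizer Γ
        (Sum.inl (x : tame K ⧸ tA K) : (tame K ⧸ tA K) ⊕ (tame K ⧸ tB K)))
      (tf_of_inj htf (Subgroup.subtype _) (Subgroup.subtype_injective _))
      (cj χ (affS K) (Subgroup.subtype _) x hS)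
      (cj_inj χ hχ _ _ (Subgroup.subtype_injective _) x hS) k hk)
  · obtain ⟨x, rfl⟩ := QuotientGroup.mk_surjective q
    exact key _ ((hB x _ fun g => conj_B χ x g.1 g.2).2 k hk)

end

/-- Let `K` be a field of characteristic `0` and `Γ` a torsionfree group of automorphisms of the
polynomial ring `K[x, y]`. -/
theorem pl_main (hTri : TriStatement.{u}) (hAfe : AfeStatement.{u})
    (K : Type u) [Field K] [CharZero K] (Γ : Type u) [Group Γ] (htf : TorsionFree Γ)
    (χ : Γ →* (MvPolynomial (Fin 2) K ≃ₐ[K] MvPolynomial (Fin 2) K)) (hχ : Function.Injective χ)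
    (n : ℕ) (k : Type u) [Ring k] (hk : RegularRing k) :
    ⨆ H : {H : Subgroup Γ // QCom H}, ((KNegFun n).hom (mdr k H.1.subtype)).range = ⊤ :=
  ER71.kneg_of_gen (fun H : Subgroup Γ => QCom H) (fun k _ hk =>
    pl_k0 htf ((JK.tameEquiv K).toMonoidHom.comp χ) ((JK.tameEquiv K).injective.comp hχ)
      hTri hAfe k hk) n k hk

end Pool.Agent.NegK.PL
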