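import Pool.Agent.Lib.MP_28303a_al.PL.Lin
import Pool.Agent.Lib.MP_28303a_al.AP.Tk
import Pool.Agent.Lib.MP_28303a_al.NT.Main
import Pool.Agent.Lib.MP_28303a_al.NT.H70.Rig

/-! # Groups of affine automorphisms of the plane over rigid fields -/

set_option autoImplicit false
set_option linter.unusedSectionVars false
set_option linter.unusedVariables false

namespace Pool.Agent.NegK.PL

universe u

open Matrix
open Pool.Agent.NegK.TW
open Pool.Agent.NegK.TT
open Pool.Agent.NegK.NT
open Pool.Agent.NegK.AP (affS)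

/-- RGA: the elliptic groups. -/
def RgaStatement : Prop :=
  ∀ (K : Type u) [Field K], NT.H70.Rig K → ∀ (S : Type u) [Group S], TorsionFree S →
    ∀ χ : S →* affS K, Function.Injective χ →
    (∀ g, ∃ z : ℤ, (lin K (χ g)).1.trace = (z : K)) →
    (∀ g, (lin K (χ g)).1.det = 1 ∨ (lin K (χ g)).1.det = -1) → InRC S

/-- RGB: torsionfree groups of affine automorphisms of the plane over a rigid field. -/
theorem rgb (hRga : RgaStatement.{u}) (K : Type u) [Field K] (hK : NT.H70.Rig K) (Γ : Type u)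
    [Group Γ] (htf : TorsionFree Γ) (χ : Γ →* affS K) (hχ : Function.Injective χ) :
    H19.InL Γ := by
  have hc : CharZero K := hK.char
  have hsub : ∀ H : Subgroup Γ, TorsionFree H := fun H g m hm hg =>
    Subtype.ext (htf g.1 m hm (congrArg Subtype.val hg))
  refine ((TT.main.{u}).2.2.2.1 Γ).2.2.2.2.1 fun S => ⟨Subgroup.closure (S : Set Γ),
    fun s hs => Subgroup.subset_closure hs, ?_⟩
  have hfg : Group.FG (Subgroup.closure (S : Set Γ)) := (Group.fg_iff_subgroup_fg _).2 ⟨S, rfl⟩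
  obtain ⟨Δ, hΔ⟩ : ∃ Δ, Subgroup.closure (S : Set Γ) = Δ := ⟨_, rfl⟩
  rw [hΔ] at hfg ⊢
  let χ' : Δ →* affS K := χ.comp Δ.subtype
  have hχ' : Function.Injective χ' := hχ.comp Subtype.val_injective
  obtain ⟨ι, hι, T, hT⟩ := AP.trees_K K hK.int Δ ((lin K).comp χ')
  obtain ⟨n, ⟨e⟩⟩ := Finite.exists_equiv_fin ι
  let Y : Trees Δ := ⟨n, fun j => (T (e.symm j)).V, fun j => (T (e.symm j)).act,
    fun j => (T (e.symm j)).G, fun j => (T (e.symm j)).tree⟩
  refine trees_inL Y fun v => ?_
  have key := hT (Y.st v) fun g hg a => by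
    have h1 := Subgroup.mem_iInf.1 hg (e a)
    have h2 : (T (e.symm (e a))).Ell g := ⟨v (e a), h1⟩
    rwa [Equiv.symm_apply_apply] at h2
  exact hRga K hK _ (fun g m hm hg => Subtype.ext (hsub Δ g.1 m hm (congrArg Subtype.val hg)))
    (χ'.comp (Y.st v).subtype) (hχ'.comp Subtype.val_injective) (fun g => (key g.1 g.2).1)
    fun g => (key g.1 g.2).2

end Pool.Agent.NegK.PL
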