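import Pool.Agent.Lib.MP_28303a_al.PL.All
import Pool.Agent.Lib.MP_28303a_al.PL.RGB

/-! # Torsionfree groups of automorphisms of the plane over rigid fields -/

set_option autoImplicit false
set_option linter.unusedSectionVars false
set_option linter.unusedVariables false

namespace Pool.Agent.NegK.PL

universe u

open Matrix
open Pool.Agent.NegK.TW Pool.Agent.NegK.TT Pool.Agent.NegK.NT Pool.Agent.NegK.AP

section

variable {K : Type u} [Field K] [CharZero K] {Γ : Type u} [Group Γ] (htf : TorsionFree Γ)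
  (χ : Γ →* tame K) (hχ : Function.Injective χ)

include htf hχ in
/-- If torsionfree groups of affine automorphisms are in `InL`, then so are torsionfree groups of
automorphisms. -/
theorem inL_tame (hAff : ∀ (S : Type u) [Group S], TorsionFree S → ∀ χ : S →* affS K,
    Function.Injective χ → H19.InL S) : H19.InL Γ := by
  let _ := act χ
  have hB : ∀ (x : tame K) (S : Subgroup Γ), (∀ g : S, x⁻¹ * χ g.1 * x ∈ tB K) → H19.InL S := by
    intro x S hS
    exact (tri K S (tf_of_inj htf S.subtype (Subgroup.subtype_injective S))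
      (cj χ (triS K) S.subtype x hS) (cj_inj χ hχ _ _ (Subgroup.subtype_injective S) x hS)).1
  have hlong : LongRC Γ (cosetGraph (tA K) (tB K)) := ACY.longRC htf χ hχ
  have hE : ∀ v w, (cosetGraph (tA K) (tB K)).Adj v w →
      H19.InL (MulAction.stabilizer Γ v ⊓ MulAction.stabilizer Γ w : Subgroup Γ) := by
    rintro v w ⟨x, h⟩
    rcases h with ⟨rfl, rfl⟩ | ⟨rfl, rfl⟩
    · exact hB x _ fun g => conj_B χ x g.1 (Subgroup.mem_inf.1 g.2).2
    · exact hB x _ fun g => conj_B χ x g.1 (Subgroup.mem_inf.1 g.2).1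
  refine ((H19.main.{u}).1 Γ _ (cosetGraph (tA K) (tB K)) (tree_act χ) hE (Or.inr hlong)).2
    fun v => ?_
  rcases v with q | q
  · obtain ⟨x, rfl⟩ := QuotientGroup.mk_surjective q
    have hS : ∀ g : MulAction.stabilizer Γ
        (Sum.inl (x : tame K ⧸ tA K) : (tame K ⧸ tA K) ⊕ (tame K ⧸ tB K)),
        x⁻¹ * χ g.1 * x ∈ tA K := fun g => conj_A χ x g.1 g.2
    exact hAff (MulAction.stabilizer Γ
        (Sum.inl (x : tame K ⧸ tA K) : (tame K ⧸ tA K) ⊕ (tame K ⧸ tB K)))
      (tf_of_inj htf (Subgroup.subtype _) (Subgroup.subtype_injective _))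
      (cj χ (affS K) (Subgroup.subtype _) x hS)
      (cj_inj χ hχ _ _ (Subgroup.subtype_injective _) x hS)
  · obtain ⟨x, rfl⟩ := QuotientGroup.mk_surjective q
    exact hB x _ fun g => conj_B χ x g.1 g.2

end

/-- Torsionfree groups of automorphisms of `K[x, y]`, `K` a rigid field, are in `InL`. -/
theorem asr (hRga : RgaStatement.{u}) (K : Type u) [Field K] (hK : NT.H70.Rig K) (Γ : Type u)
    [Group Γ] (htf : TorsionFree Γ)
    (χ : Γ →* (MvPolynomial (Fin 2) K ≃ₐ[K] MvPolynomial (Fin 2) K)) (hχ : Function.Injective χ) :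
    H19.InL Γ := by
  have hc : CharZero K := hK.char
  exact inL_tame htf ((JK.tameEquiv K).toMonoidHom.comp χ) ((JK.tameEquiv K).injective.comp hχ)
    fun S _ hS χ' hχ' => rgb hRga K hK S hS χ' hχ'

end Pool.Agent.NegK.PL
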