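import Pool.Agent.Lib.MP_28303a_al.JK.Fin
import Pool.Agent.Lib.MP_28303a_al.NT.ER71.All
import Pool.Agent.Lib.MP_28303a_al.AP.Stmt2

/-! # Torsionfree groups of automorphisms of the plane in positive characteristic -/

set_option autoImplicit false
set_option linter.unusedSectionVars false
set_option linter.unusedVariables false

namespace Pool.Agent.NegK.PL

universe u

open Matrix
open Pool.Agent.NegK.TW Pool.Agent.NegK.TT Pool.Agent.NegK.NT
open Pool.Agent.NegK.AP (Au)

/-- Groups of automorphisms in positive characteristic. -/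
theorem inK_au (K : Type u) [Field K] (p : ℕ) (hp : 0 < p) (hpK : (p : K) = 0) (Γ : Type u)
    [Group Γ] (htf : TorsionFree Γ) (χ : Γ →* Au K) (hχ : Function.Injective χ) : InK Γ := by
  let L := FractionRing (MvPolynomial PEmpty.{u + 1} ℤ)
  let χ' : Γ →* Au K × GL (Fin 0) K × GL (Fin 2) L := χ.prod 1
  have hχ' : Function.Injective χ' := fun g g' hg => hχ (congrArg Prod.fst hg)
  refine JK.au_inK (F := K) (A := K) (N := p) hp hpK hpK (n := 0) (fun _ => 0)
    (fun k => by simp) (NT.H70.rig_ratFunc PEmpty.{u + 1} L) χ' (fun g i => i.elim0) ?_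
    NT.ER71.relAll hχ'
  rintro ⟨_, g, rfl⟩ m hm hg
  refine Subtype.ext ?_
  have h1 : χ' (g ^ m) = χ' 1 := by
    rw [map_pow, map_one]
    exact congrArg Subtype.val hg
  show χ' g = 1
  rw [htf g m hm (hχ' h1), map_one]

end Pool.Agent.NegK.PL
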