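import Pool.Agent.Lib.MP_28303a_al.PL.Flt

/-!
# Row FLI: the filtration for a tree with an action of a subgroup of finite index

The subgroup `H` acts on a tree; the induced family of trees over `S ⧸ H` is
`(S ⧸ H) × V` with the action `g (c, v) = (g c, κ(g, c) v)`, `κ(g, c) = ρ(g c)⁻¹ g ρ(c)`, where
`ρ` is a set of representatives.
-/

set_option autoImplicit false
set_option linter.unusedSectionVars false

namespace Pool.Agent.NegK.PL

universe u

open CategoryTheory Pool.Agent.NegK.TT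
open Pool.Agent.NegK.TW (OTree)

namespace FLI

variable {S : Type u} [Group S] (H : Subgroup S)

/-- representatives of the cosets -/
noncomputable def rep (c : S ⧸ H) : S := Quotient.out c

theorem rep_mk (c : S ⧸ H) : (QuotientGroup.mk (rep H c) : S ⧸ H) = c := Quotient.out_eq c

/-- the cocycle -/
noncomputable def kap (g : S) (c : S ⧸ H) : H :=
  ⟨(rep H (g • c))⁻¹ * g * rep H c, by
    rw [mul_assoc, ← QuotientGroup.eq, rep_mk]
    have h : (QuotientGroup.mk (g * rep H c) : S ⧸ H) = g • (QuotientGroup.mk (rep H c) : S ⧸ H) :=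
      rfl
    rw [h, rep_mk]⟩

theorem kap_val (g : S) (c : S ⧸ H) :
    (kap H g c : S) = (rep H (g • c))⁻¹ * g * rep H c := rfl

theorem kap_one (c : S ⧸ H) : kap H 1 c = 1 := by
  apply Subtype.ext
  rw [kap_val, one_smul, mul_one, inv_mul_cancel, Subgroup.coe_one]

theorem kap_mul (g h : S) (c : S ⧸ H) : kap H (g * h) c = kap H g (h • c) * kap H h c := by
  apply Subtype.ext
  rw [Subgroup.coe_mul, kap_val, kap_val, kap_val, mul_smul]
  group

/-- the induced set -/
def Ix (X : Type u) : Type u := (S ⧸ H) × X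

variable {H} {X : Type u} [MulAction H X]

noncomputable instance : MulAction S (Ix H X) where
  smul g x := (g • x.1, kap H g x.1 • x.2)
  one_smul x := by
    show ((1 : S) • x.1, kap H 1 x.1 • x.2) = x
    rw [one_smul, kap_one, one_smul]
    rfl
  mul_smul g h x := by
    show ((g * h) • x.1, kap H (g * h) x.1 • x.2) =
      (g • (h • x.1), kap H g (h • x.1) • kap H h x.1 • x.2)
    rw [mul_smul, kap_mul, mul_smul]

theorem Ix.smul_def (g : S) (x : Ix H X) :
    g • x = ((g • x.1, kap H g x.1 • x.2) : (S ⧸ H) × X) := rfl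

variable {V E : Type u} [MulAction H V] [MulAction H E]

/-- the induced family of trees -/
noncomputable def ind [Nonempty V] (T : OTree H V E)
    (hT : ∀ F : V → Prop, (∀ e, F (T.o e) ↔ F (T.t e)) → ∀ v w, F v ↔ F w) :
    Frt S (S ⧸ H) (Ix H V) (Ix H E) where
  π x := x.1
  o e := (e.1, T.o e.2)
  t e := (e.1, T.t e.2)
  H e := {x | x.1 = e.1 ∧ x.2 ∈ T.H e.2}
  π_smul _ _ := rfl
  o_smul g e := by
    rw [Ix.smul_def, Ix.smul_def]
    exact Prod.ext rfl (T.o_smul _ _)
  t_smul g e := by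
    rw [Ix.smul_def, Ix.smul_def]
    exact Prod.ext rfl (T.t_smul _ _)
  π_t _ := rfl
  t_mem e := ⟨rfl, T.t_mem e.2⟩
  o_notMem e h := T.o_notMem e.2 h.2
  cross e e' hne := by
    constructor
    · rintro ⟨h1, h2⟩
      exact ⟨h1, (T.cross e.2 e'.2 fun h3 => hne (Prod.ext h1 h3)).1 h2⟩
    · rintro ⟨h1, h2⟩
      exact ⟨h1, (T.cross e.2 e'.2 fun h3 => hne (Prod.ext h1 h3)).2 h2⟩
  conn F hF v w h := by
    obtain ⟨c, v⟩ := v
    obtain ⟨c', w⟩ := w
    have h' : c = c' := h
    subst h'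
    exact hT (fun v => F (c, v)) (fun e => hF (c, e)) v w
  surj c := ⟨(c, Classical.arbitrary V), rfl⟩

end FLI

open FLI in
/-- Row FLI: a subgroup of finite index acts on a tree. -/
theorem fli {R S V E M : Type u} [Ring R] [Group S] (H : Subgroup S) (hH : H.FiniteIndex)
    [MulAction H V] [MulAction H E] [Nonempty V] (T : OTree H V E)
    (hT : ∀ F : V → Prop, (∀ e, F (T.o e) ↔ F (T.t e)) → ∀ v w, F v ↔ F w)
    [AddCommGroup M] [Module (MonoidAlgebra R S) M] (e : ℕ)
    (h : ∀ B B' : Subgroup S, B'.FiniteIndex →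
      (∃ (g : S) (v : V), ∀ b ∈ B, b ∈ B' → ∃ k : H, (k : S) = g⁻¹ * b * g ∧ k • v = v) →
      PdLe (MonoidAlgebra R B) e (Res R B M)) :
    PdLe (MonoidAlgebra R S) (e + 1) M := by
  have : Finite (S ⧸ H) := Subgroup.finite_quotient_of_finiteIndex
  refine flt R S (S ⧸ H) (FLI.Ix H V) (FLI.Ix H E) M (FLI.ind T hT) e fun s hs => ?_
  obtain ⟨c, hc⟩ := hs
  obtain ⟨x, hx⟩ := Option.ne_none_iff_exists'.1 hc
  have hxc : x.1 = c := s.2 c x hx
  refine h _ (MulAction.stabilizer S c) ?_ ⟨rep H c, x.2, fun b hb hbc => ?_⟩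
  · have h1 : Finite (MulAction.orbit S c) := Set.toFinite _
    have h2 : Finite (S ⧸ MulAction.stabilizer S c) :=
      Finite.of_equiv _ (MulAction.orbitEquivQuotientStabilizer S c)
    exact Subgroup.finiteIndex_of_finite_quotient
  · rw [MulAction.mem_stabilizer_iff] at hb hbc
    refine ⟨kap H b c, ?_, ?_⟩
    · rw [kap_val, hbc]
    · have h1 : (b • s).1 (b • c) = (s.1 c).map (b • ·) := Psc.smul_at _ b s c
      rw [hb, hbc, hx] at h1
      have h2 : x = b • x := Option.some_injective _ h1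
      have h3 := congrArg Prod.snd h2
      rw [Ix.smul_def] at h3
      have h4 : x.2 = kap H b x.1 • x.2 := h3
      rw [hxc] at h4
      exact h4.symm

/-- A subgroup of finite index of a torsionfree group acts on a tree with finite stabilizers. -/
theorem fli_finite {R S V E M : Type u} [Ring R] [Group S] (hS : TorsionFree S) (H : Subgroup S)
    (hH : H.FiniteIndex) [MulAction H V] [MulAction H E] [Nonempty V] (T : OTree H V E)
    (hT : ∀ F : V → Prop, (∀ e, F (T.o e) ↔ F (T.t e)) → ∀ v w, F v ↔ F w)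
    (hV : ∀ v : V, Finite (MulAction.stabilizer H v))
    [AddCommGroup M] [Module (MonoidAlgebra R S) M] (d : ℕ)
    (h : PdLe (MonoidAlgebra R H) d (Res R H M)) : PdLe (MonoidAlgebra R S) (d + 1) M := by
  refine fli H hH T hT d fun B B' hB' hB => ?_
  obtain ⟨g, v, hB⟩ := hB
  -- `B` is trivial
  have hfin : Finite ((B ⊓ B' : Subgroup S)) := by
    have hv := hV v
    choose k hk1 hk2 using fun b : (B ⊓ B' : Subgroup S) => hB b.1 b.2.1 b.2.2
    refine Finite.of_injective
      (fun b => (⟨k b, MulAction.mem_stabilizer_iff.2 (hk2 b)⟩ : MulAction.stabilizer H v)) ?_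
    intro a b hab
    have h1 : k a = k b := congrArg Subtype.val hab
    have h2 : g⁻¹ * a.1 * g = g⁻¹ * b.1 * g := by rw [← hk1, ← hk1, h1]
    exact Subtype.ext (mul_left_cancel (mul_right_cancel h2))
  have hbot : B = ⊥ := by
    rw [eq_bot_iff]
    intro b hb
    rw [Subgroup.mem_bot]
    -- a power of `b` is in `B'`, hence of finite order
    obtain ⟨n, hn, hbn⟩ : ∃ n : ℕ, 0 < n ∧ b ^ n ∈ B' := by
      obtain ⟨n, hn, _, h2⟩ := Subgroup.exists_pow_mem_of_index_ne_zero hB'.index_ne_zero b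
      exact ⟨n, hn, h2⟩
    have h3 : IsOfFinOrder (⟨b ^ n, B.pow_mem hb n, hbn⟩ : (B ⊓ B' : Subgroup S)) :=
      isOfFinOrder_of_finite _
    have h4 : IsOfFinOrder (b ^ n) := by
      have := (B ⊓ B' : Subgroup S).subtype.isOfFinOrder h3
      exact this
    have h5 := (isOfFinOrder_pow.1 h4).resolve_right (by omega)
    obtain ⟨r, hr, hbr⟩ := isOfFinOrder_iff_pow_eq_one.1 h5
    exact hS b r hr hbr
  subst hbot
  exact rs R S M d _ _ bot_le h

end Pool.Agent.NegK.PL
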