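import Pool.Agent.Lib.MP_28303a_al.PL.KL

/-! MP_28303a_al, theorem PL, rows PD and RS (helper98): projective dimension of permutation
modules, restriction to subgroups. -/

set_option autoImplicit false

namespace Pool.Agent.NegK.PL.PD

open MonoidAlgebra

universe u

/-! ### Restriction along an injective homomorphism -/

/-- The restriction of an `R[G]`-module along a homomorphism. -/
def Cf (R : Type u) [Ring R] {H G : Type u} [Group H] [Group G] (_f : H →* G) (M : Type u) :
    Type u := M

section Cf

variable (R : Type u) [Ring R] {H G : Type u} [Group H] [Group G] (f : H →* G)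
  {M N : Type u} [AddCommGroup M] [Module (MonoidAlgebra R G) M] [AddCommGroup N]
  [Module (MonoidAlgebra R G) N]

instance : AddCommGroup (Cf R f M) := inferInstanceAs (AddCommGroup M)

noncomputable instance : Module (MonoidAlgebra R H) (Cf R f M) := Module.compHom M (mdr R f)

/-- The identity as an additive equivalence. -/
def un : Cf R f M ≃+ M := AddEquiv.refl M

theorem un_smul (a : MonoidAlgebra R H) (m : Cf R f M) :
    un R f (a • m) = mdr R f a • un R f m := rfl

/-- The restriction of a linear map. -/
noncomputable def cmap (φ : M →ₗ[MonoidAlgebra R G] N) : Cf R f M →ₗ[MonoidAlgebra R H] Cf R f N where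
  toFun m := φ (un R f m)
  map_add' := map_add φ
  map_smul' a m := map_smul φ (mdr R f a) (un R f m)

theorem cmap_apply (φ : M →ₗ[MonoidAlgebra R G] N) (m : Cf R f M) :
    cmap R f φ m = φ (un R f m) := rfl

/-- Restriction keeps projective modules (injective homomorphisms). -/
theorem proj (hf : Function.Injective f) (hM : Module.Projective (MonoidAlgebra R G) M) :
    Module.Projective (MonoidAlgebra R H) (Cf R f M) := by
  classical
  let rel : Setoid G :=
    { r := fun g g' => ∃ k : H, f k * g = g'
      iseqv := ⟨fun g => ⟨1, by simp⟩,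
        fun {g g'} ⟨k, hk⟩ => ⟨k⁻¹, by rw [← hk, map_inv, inv_mul_cancel_left]⟩,
        fun {g g' g''} ⟨k, hk⟩ ⟨l, hl⟩ => ⟨l * k, by rw [map_mul, mul_assoc, hk, hl]⟩⟩ }
  let t : G → G := fun g => Quotient.out (Quotient.mk rel g)
  have ht : ∀ g, ∃ k : H, f k * t g = g := fun g => Quotient.mk_out (s := rel) g
  have ht' : ∀ (k : H) (g : G), t (f k * g) = t g := by
    intro k g
    have h1 : Quotient.mk rel (f k * g) = Quotient.mk rel g :=
      Quotient.sound (s := rel) (Setoid.symm (⟨k, rfl⟩ : rel.r g (f k * g)))
    show Quotient.out (Quotient.mk rel (f k * g)) = Quotient.out (Quotient.mk rel g)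
    rw [h1]
  choose h hh using ht
  have hh' : ∀ (k : H) (g : G), h (f k * g) = k * h g := by
    intro k g
    apply hf
    have h1 := hh (f k * g)
    rw [ht' k g] at h1
    have h2 : f (k * h g) * t g = f k * g := by rw [map_mul, mul_assoc, hh]
    exact mul_right_cancel (h1.trans h2.symm)
  obtain ⟨σ, hσ⟩ := (Module.projective_def' (R := MonoidAlgebra R G) (P := M)).1 hM
  -- the map between free modules
  let θm : M → MonoidAlgebra R G →+ ((M × G) →₀ MonoidAlgebra R H) := fun m =>
    (Finsupp.liftAddHom fun g : G =>
      (Finsupp.singleAddHom (m, t g)).comp (MonoidAlgebra.singleAddHom (h g))).comp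
        (MonoidAlgebra.coeffAddEquiv (R := R) (M := G)).toAddMonoidHom
  have hθm : ∀ m g r, θm m (single g r) = Finsupp.single (m, t g) (single (h g) r) := by
    intro m g r
    show Finsupp.liftAddHom _ (coeff (single g r)) = _
    rw [coeff_single, Finsupp.liftAddHom_apply_single]
    rfl
  let θ : (M →₀ MonoidAlgebra R G) →+ ((M × G) →₀ MonoidAlgebra R H) := Finsupp.liftAddHom θm
  have hθ : ∀ m a, θ (Finsupp.single m a) = θm m a := fun m a =>
    Finsupp.liftAddHom_apply_single _ m a
  have hθs : ∀ (a : MonoidAlgebra R H) (v : M →₀ MonoidAlgebra R G),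
      θ (mdr R f a • v) = a • θ v := by
    intro a v
    induction v using Finsupp.induction_linear with
    | zero => simp
    | add v w hv hw => rw [smul_add, map_add, hv, hw, map_add, smul_add]
    | single m b =>
      rw [Finsupp.smul_single, hθ, hθ, smul_eq_mul]
      induction b using MonoidAlgebra.induction_linear with
      | zero => rw [mul_zero, map_zero, smul_zero]
      | add v w hv hw => rw [mul_add, map_add, hv, hw, map_add, smul_add]
      | single g r =>
        induction a using MonoidAlgebra.induction_linear with
        | zero => rw [map_zero, zero_mul, map_zero, zero_smul]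
        | add v w hv hw => rw [map_add, add_mul, map_add, hv, hw, add_smul]
        | single k r' =>
          rw [mdr_single, single_mul_single, hθm, hθm, ht', hh', Finsupp.smul_single,
            smul_eq_mul, single_mul_single]
  let s : ((M × G) →₀ MonoidAlgebra R H) →ₗ[MonoidAlgebra R H] Cf R f M :=
    Finsupp.linearCombination (MonoidAlgebra R H) fun p : M × G =>
      (un R f).symm ((single p.2 1 : MonoidAlgebra R G) • p.1)
  have hs : ∀ v : M →₀ MonoidAlgebra R G, un R f (s (θ v)) =
      Finsupp.linearCombination (MonoidAlgebra R G) (id : M → M) v := by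
    intro v
    induction v using Finsupp.induction_linear with
    | zero => simp
    | add v w hv hw => rw [map_add, map_add, map_add, hv, hw, map_add]
    | single m b =>
      rw [hθ, Finsupp.linearCombination_single]
      induction b using MonoidAlgebra.induction_linear with
      | zero => rw [map_zero, map_zero, map_zero, zero_smul]
      | add v w hv hw => rw [map_add, map_add, map_add, hv, hw, add_smul]
      | single g r =>
        rw [hθm]
        show un R f (Finsupp.linearCombination (MonoidAlgebra R H) _ _) = _
        rw [Finsupp.linearCombination_single, un_smul, AddEquiv.apply_symm_apply, mdr_single,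
          ← mul_smul, single_mul_single, mul_one, hh]
        rfl
  let i : Cf R f M →ₗ[MonoidAlgebra R H] ((M × G) →₀ MonoidAlgebra R H) :=
    { toFun := fun m => θ (σ (un R f m))
      map_add' := fun m m' => by rw [map_add, map_add, map_add]
      map_smul' := fun a m => by
        rw [un_smul, map_smul, hθs]; rfl }
  refine Module.Projective.of_split i s ?_
  refine LinearMap.ext fun m => ?_
  apply (un R f).injective
  show un R f (s (θ (σ (un R f m)))) = un R f m
  rw [hs]
  exact LinearMap.congr_fun hσ (un R f m)

end Cf

/-- The projection of the free module. -/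
noncomputable def fr (A : Type u) [Ring A] (M : Type u) [AddCommGroup M] [Module A M] :
    (M →₀ A) →ₗ[A] M := Finsupp.linearCombination A id

theorem fr_surj (A : Type u) [Ring A] (M : Type u) [AddCommGroup M] [Module A M] :
    Function.Surjective (fr A M) := fun m =>
  ⟨Finsupp.single m 1, by rw [fr, Finsupp.linearCombination_single, one_smul]; rfl⟩

section Gen

variable (R : Type u) [Ring R] {H G : Type u} [Group H] [Group G] (f : H →* G)

/-- Restriction along an injective homomorphism does not raise the projective dimension. -/
theorem gen (hf : Function.Injective f) (e : ℕ) :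
    ∀ (M : Type u) [AddCommGroup M] [Module (MonoidAlgebra R G) M],
      PdLe (MonoidAlgebra R G) e M → PdLe (MonoidAlgebra R H) e (Cf R f M) := by
  induction e with
  | zero =>
    intro M _ _ hM
    exact pd_zero.2 (proj R f hf (pd_zero.1 hM))
  | succ e ih =>
    intro M _ _ hM
    have h1 := (pd_ker (fr (MonoidAlgebra R G) M) (fr_surj _ _)).2 hM
    have h2 := ih _ h1
    have h3 : PdLe (MonoidAlgebra R H) (e + 1) (Cf R f (M →₀ MonoidAlgebra R G)) :=
      (pd_zero.2 (proj R f hf inferInstance)).mono (Nat.zero_le _)
    refine pd_right (A := MonoidAlgebra R H) (M := Cf R f (LinearMap.ker (fr (MonoidAlgebra R G) M)))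
      (N := Cf R f (M →₀ MonoidAlgebra R G)) (P := Cf R f M)
      (cmap R f (LinearMap.ker (fr (MonoidAlgebra R G) M)).subtype)
      (cmap R f (fr (MonoidAlgebra R G) M)) ?_ ?_ ?_ h2 h3
    · exact Submodule.injective_subtype (LinearMap.ker (fr (MonoidAlgebra R G) M))
    · exact fr_surj (MonoidAlgebra R G) M
    · exact LinearMap.exact_subtype_ker_map (fr (MonoidAlgebra R G) M)

end Gen

/-! ### Maps of permutation modules -/

section Map

variable {R S X M N : Type u} [Ring R] [Group S] [MulAction S X] [AddCommGroup M]
  [Module (MonoidAlgebra R S) M] [AddCommGroup N] [Module (MonoidAlgebra R S) N]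

/-- The map of permutation modules as an additive map. -/
noncomputable def pm₀ (X : Type u) (φ : M →+ N) : Pm X M →+ Pm X N :=
  Finsupp.mapRange.addMonoidHom φ

theorem pm₀_single (φ : M →+ N) (x : X) (m : M) :
    pm₀ X φ (Pm.single x m) = Pm.single x (φ m) := Finsupp.mapRange_single (hf := map_zero φ)

variable (X) in
/-- The map of permutation modules. -/
noncomputable def pm (φ : M →ₗ[MonoidAlgebra R S] N) :
    Pm X M →ₗ[MonoidAlgebra R S] Pm X N where
  toFun := pm₀ X φ.toAddMonoidHom
  map_add' := map_add _
  map_smul' a d := by
    show pm₀ X φ.toAddMonoidHom (a • d) = a • pm₀ X φ.toAddMonoidHom d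
    induction d using Pm.induction with
    | h0 => rw [smul_zero, map_zero, smul_zero]
    | hadd v w hv hw => rw [smul_add, map_add, hv, hw, map_add, smul_add]
    | hs z m =>
      induction a using MonoidAlgebra.induction_linear with
      | zero => rw [zero_smul, map_zero, zero_smul]
      | add v w hv hw => rw [add_smul, map_add, hv, hw, add_smul]
      | single s r =>
        rw [Pm.smul_single, pm₀_single, pm₀_single, Pm.smul_single]
        show Pm.single (s • z) (φ ((single s r : MonoidAlgebra R S) • m)) = _
        rw [map_smul]
        rfl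

theorem pm_apply (φ : M →ₗ[MonoidAlgebra R S] N) (d : Pm X M) (x : X) :
    (show X →₀ N from pm X φ d) x = φ ((show X →₀ M from d) x) := rfl

theorem pm_inj (φ : M →ₗ[MonoidAlgebra R S] N) (h : Function.Injective φ) :
    Function.Injective (pm X φ) :=
  Finsupp.mapRange_injective φ (map_zero φ) h

theorem pm_surj (φ : M →ₗ[MonoidAlgebra R S] N) (h : Function.Surjective φ) :
    Function.Surjective (pm X φ) :=
  Finsupp.mapRange_surjective φ (map_zero φ) h

theorem pm_exact {P : Type u} [AddCommGroup P] [Module (MonoidAlgebra R S) P]
    (φ : M →ₗ[MonoidAlgebra R S] N) (ψ : N →ₗ[MonoidAlgebra R S] P) (hφ : Function.Injective φ)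
    (h : Function.Exact φ ψ) : Function.Exact (pm X φ) (pm X ψ) := by
  classical
  intro d
  constructor
  · intro hd
    have h1 : ∀ x, ∃ m, φ m = (show X →₀ N from d) x := by
      intro x
      have h2 := pm_apply ψ d x
      rw [hd] at h2
      exact (h _).1 h2.symm
    choose m hm using h1
    have h3 : ∀ x, (show X →₀ N from d) x = 0 → m x = 0 := by
      intro x hx
      apply hφ
      rw [hm, hx, map_zero]
    refine ⟨(Finsupp.onFinset (show X →₀ N from d).support m fun x hx => ?_ : X →₀ M), ?_⟩
    · rw [Finsupp.mem_support_iff]
      exact fun h4 => hx (h3 x h4)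
    · refine Finsupp.ext (fun x => ?_ : ∀ x, (show X →₀ N from _) x = (show X →₀ N from d) x)
      rw [pm_apply]
      exact hm x
  · rintro ⟨d', rfl⟩
    refine Finsupp.ext (fun x => ?_ : ∀ x, (show X →₀ P from _) x = (0 : X →₀ P) x)
    rw [pm_apply, pm_apply]
    exact h.apply_apply_eq_zero _

end Map

end PD

universe u

open MonoidAlgebra PD in
/-- **RS.** -/
theorem rs : RsStatement.{u} := by
  intro R S M _ _ _ _ e H H' hle hM
  have h1 := gen R (Subgroup.inclusion hle) (Subgroup.inclusion_injective hle) e
    (Res R H' M) hM
  let ε : Cf R (Subgroup.inclusion hle) (Res R H' M) ≃ₗ[MonoidAlgebra R H] Res R H M :=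
    { toFun := fun m => m
      map_add' := fun _ _ => rfl
      map_smul' := fun a m => by
        have h2 : mdr R H'.subtype (mdr R (Subgroup.inclusion hle) a) = mdr R H.subtype a := by
          rw [mdr_comp_apply]
          rfl
        show ((mdr R H'.subtype (mdr R (Subgroup.inclusion hle) a)) • (show M from m) : M) =
          (mdr R H.subtype a • (show M from m) : M)
        rw [h2]
      invFun := fun m => m
      left_inv := fun _ => rfl
      right_inv := fun _ => rfl }
  exact PdLe.equiv h1 ε

open MonoidAlgebra PD in
/-- Restriction from the whole group. -/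
theorem rs_top {R S M : Type u} [Ring R] [Group S] [AddCommGroup M]
    [Module (MonoidAlgebra R S) M] {e : ℕ} (H : Subgroup S)
    (hM : PdLe (MonoidAlgebra R S) e M) : PdLe (MonoidAlgebra R H) e (Res R H M) :=
  gen R H.subtype H.subtype_injective e M hM

open MonoidAlgebra PD in
/-- **PD.** -/
theorem pd (kl : KlStatement.{u}) : PdStatement.{u} := by
  intro R S X M _ _ _ _ _ e
  induction e generalizing M with
  | zero =>
    intro h
    exact pd_zero.2 (kl R S X M fun x => pd_zero.1 (h x))
  | succ e ih =>
    intro h
    let F := M →₀ MonoidAlgebra R S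
    let g : F →ₗ[MonoidAlgebra R S] M := fr (MonoidAlgebra R S) M
    have hg : Function.Surjective g := fr_surj _ _
    have hF : ∀ H : Subgroup S, PdLe (MonoidAlgebra R H) 0 (Res R H F) := fun H =>
      rs_top H (pd_zero.2 inferInstance)
    have h1 : PdLe (MonoidAlgebra R S) e (Pm X (LinearMap.ker g)) := by
      refine ih _ fun x => ?_
      exact pd_left (A := MonoidAlgebra R (MulAction.stabilizer S x))
        (M := Cf R (MulAction.stabilizer S x).subtype (LinearMap.ker g))
        (N := Cf R (MulAction.stabilizer S x).subtype F)
        (P := Cf R (MulAction.stabilizer S x).subtype M)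
        (cmap R (MulAction.stabilizer S x).subtype (LinearMap.ker g).subtype)
        (cmap R (MulAction.stabilizer S x).subtype g)
        (Submodule.injective_subtype (LinearMap.ker g)) hg
        (LinearMap.exact_subtype_ker_map g) ((hF _).mono (Nat.zero_le _)) (h x)
    have h2 : PdLe (MonoidAlgebra R S) (e + 1) (Pm X F) :=
      (pd_zero.2 (kl R S X F fun x => pd_zero.1 (hF _))).mono (Nat.zero_le _)
    exact pd_right (pm X (LinearMap.ker g).subtype) (pm X g)
      (pm_inj _ (Submodule.injective_subtype _)) (pm_surj _ hg)
      (pm_exact _ _ (Submodule.injective_subtype _) (LinearMap.exact_subtype_ker_map _)) h1 h2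

/-- **PD** without hypothesis. -/
theorem pdStat : PdStatement.{u} := pd kl

end Pool.Agent.NegK.PL
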