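import Pool.Agent.Lib.MP_28303a_al.PL.Fil
import Pool.Agent.Lib.MP_28303a_al.PL.PD

/-!
# Row FLT: the filtration of the permutation module of the sections of a finite family of trees

`S` acts on a finite set `C` and on a family of trees over `C` (vertices `V`, edges `E`, without
inversions). The permutation module of the sections `C → V` has a filtration whose graded pieces
are the permutation modules of the partial sections `C → E`.
-/

set_option autoImplicit false
set_option linter.unusedSectionVars false

namespace Pool.Agent.NegK.PL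

universe u

open CategoryTheory Pool.Agent.NegK.TT

/-- a family of trees over `C`: `H e` is the half tree behind the edge `e` -/
structure Frt (S C V E : Type u) [Group S] [MulAction S C] [MulAction S V] [MulAction S E] where
  π : V → C
  o : E → V
  t : E → V
  H : E → Set V
  π_smul : ∀ (g : S) (v : V), π (g • v) = g • π v
  o_smul : ∀ (g : S) (e : E), o (g • e) = g • o e
  t_smul : ∀ (g : S) (e : E), t (g • e) = g • t e
  π_t : ∀ e, π (t e) = π (o e)
  t_mem : ∀ e, t e ∈ H e
  o_notMem : ∀ e, o e ∉ H e
  cross : ∀ e e', e' ≠ e → (o e' ∈ H e ↔ t e' ∈ H e)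
  conn : ∀ F : V → Prop, (∀ e, F (o e) ↔ F (t e)) → ∀ v w, π v = π w → (F v ↔ F w)
  surj : ∀ c, ∃ v, π v = c

/-- the partial sections of the family of the vertices -/
def Psc {S C V E : Type u} [Group S] [MulAction S C] [MulAction S V] [MulAction S E]
    (T : Frt S C V E) : Type u := {s : C → Option V // ∀ c v, s c = some v → T.π v = c}

section Psc

variable {S C V E : Type u} [Group S] [MulAction S C] [MulAction S V] [MulAction S E]
  (T : Frt S C V E)

instance : SMul S (Psc T) where
  smul g s := ⟨fun c => (s.1 (g⁻¹ • c)).map (g • ·), by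
    intro c v h
    obtain ⟨w, hw, rfl⟩ := Option.map_eq_some_iff.1 h
    rw [T.π_smul, s.2 _ _ hw, smul_inv_smul]⟩

theorem Psc.smul_apply (g : S) (s : Psc T) (c : C) :
    (g • s).1 c = (s.1 (g⁻¹ • c)).map (g • ·) := rfl

theorem Psc.smul_at (g : S) (s : Psc T) (c : C) :
    (g • s).1 (g • c) = (s.1 c).map (g • ·) := by
  rw [Psc.smul_apply, inv_smul_smul]

instance : MulAction S (Psc T) where
  one_smul s := by
    refine Subtype.ext (funext fun c => ?_)
    rw [Psc.smul_apply, inv_one, one_smul]
    cases s.1 c with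
    | none => rfl
    | some z =>
      show some ((1 : S) • z) = some z
      rw [one_smul]
  mul_smul g h s := by
    refine Subtype.ext (funext fun c => ?_)
    rw [Psc.smul_apply, Psc.smul_apply, Psc.smul_apply, mul_inv_rev, mul_smul]
    cases s.1 (h⁻¹ • g⁻¹ • c) with
    | none => rfl
    | some z =>
      show some ((g * h) • z) = some (g • h • z)
      rw [mul_smul]

end Psc

/-- FLT (uses PD, RS). The filtration for a finite family of trees. -/
def FltStatement : Prop :=
  ∀ (R S C V E M : Type u) [Ring R] [Group S] [MulAction S C] [MulAction S V] [MulAction S E]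
    [Finite C] [Nonempty C] (T : Frt S C V E) [AddCommGroup M] [Module (MonoidAlgebra R S) M]
    (e : ℕ),
    (∀ s : Psc T, (∃ c, s.1 c ≠ none) → PdLe (MonoidAlgebra R (MulAction.stabilizer S s)) e
      (Res R (MulAction.stabilizer S s) M)) →
    PdLe (MonoidAlgebra R S) (e + 1) M

namespace FLT

section Tot

variable {S C V E : Type u} [Group S] [MulAction S C] [MulAction S V] [MulAction S E]
  (T : Frt S C V E)

/-- the sections of the family of the vertices -/
def Tot (T : Frt S C V E) : Type u := {y : C → V // ∀ c, T.π (y c) = c}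

instance : SMul S (Tot T) where
  smul g y := ⟨fun c => g • y.1 (g⁻¹ • c), fun c => by
    rw [T.π_smul, y.2, smul_inv_smul]⟩

theorem Tot.smul_apply (g : S) (y : Tot T) (c : C) : (g • y).1 c = g • y.1 (g⁻¹ • c) := rfl

instance : MulAction S (Tot T) where
  one_smul y := by
    refine Subtype.ext (funext fun c => ?_)
    rw [Tot.smul_apply, inv_one, one_smul, one_smul]
  mul_smul g h y := by
    refine Subtype.ext (funext fun c => ?_)
    rw [Tot.smul_apply, Tot.smul_apply, Tot.smul_apply, mul_inv_rev, mul_smul, mul_smul]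

/-- a section as a partial section -/
def Tot.sec (y : Tot T) : Psc T := ⟨fun c => some (y.1 c), fun c v h => by
  rw [← Option.some_injective _ h, y.2]⟩

theorem Tot.sec_smul (g : S) (y : Tot T) : Tot.sec T (g • y) = g • Tot.sec T y := rfl

theorem Tot.stab_le (y : Tot T) :
    MulAction.stabilizer S y ≤ MulAction.stabilizer S (Tot.sec T y) := by
  intro g hg
  rw [MulAction.mem_stabilizer_iff] at hg ⊢
  rw [← Tot.sec_smul, hg]

/-- a section -/
noncomputable def yz : Tot T := ⟨fun c => (T.surj c).choose, fun c => (T.surj c).choose_spec⟩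

open Classical in
/-- change one value of a function -/
noncomputable def updf (y : C → V) (v : V) (c : C) : V := if c = T.π v then v else y c

theorem updf_of (y : C → V) {v : V} {c : C} (h : c = T.π v) : updf T y v c = v := by
  rw [updf, if_pos h]

theorem updf_ne (y : C → V) {v : V} {c : C} (h : c ≠ T.π v) : updf T y v c = y c := by
  rw [updf, if_neg h]

/-- change one value -/
noncomputable def upd (y : Tot T) (v : V) : Tot T :=
  ⟨updf T y.1 v, fun c => by
    by_cases h : c = T.π v
    · rw [updf_of T _ h, h]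
    · rw [updf_ne T _ h, y.2]⟩

theorem upd_of (y : Tot T) {v : V} {c : C} (h : c = T.π v) : (upd T y v).1 c = v :=
  updf_of T y.1 h

theorem upd_ne (y : Tot T) {v : V} {c : C} (h : c ≠ T.π v) : (upd T y v).1 c = y.1 c :=
  updf_ne T y.1 h

theorem upd_self (y : Tot T) (c : C) : upd T y (y.1 c) = y := by
  refine Subtype.ext (funext fun d => ?_)
  by_cases h : d = T.π (y.1 c)
  · rw [upd_of T y h, h, y.2]
  · rw [upd_ne T y h]

theorem upd_upd (y : Tot T) {v w : V} (h : T.π v = T.π w) : upd T (upd T y v) w = upd T y w := by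
  refine Subtype.ext (funext fun d => ?_)
  by_cases hd : d = T.π w
  · rw [upd_of T _ hd, upd_of T _ hd]
  · rw [upd_ne T _ hd, upd_ne T _ hd, upd_ne T _ (by rw [h]; exact hd)]

theorem upd_comm (y : Tot T) {v w : V} (h : T.π v ≠ T.π w) :
    upd T (upd T y v) w = upd T (upd T y w) v := by
  refine Subtype.ext (funext fun d => ?_)
  by_cases hd : d = T.π w
  · have hd' : d ≠ T.π v := by rw [hd]; exact h.symm
    rw [upd_of T _ hd, upd_ne T _ hd', upd_of T _ hd]
  · by_cases hd' : d = T.π v
    · rw [upd_ne T _ hd, upd_of T _ hd', upd_of T _ hd']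
    · rw [upd_ne T _ hd, upd_ne T _ hd', upd_ne T _ hd', upd_ne T _ hd]

theorem smul_upd (g : S) (y : Tot T) (v : V) : g • upd T y v = upd T (g • y) (g • v) := by
  refine Subtype.ext (funext fun d => ?_)
  rw [Tot.smul_apply]
  by_cases hd : d = T.π (g • v)
  · rw [upd_of T _ hd, upd_of T _ (by rw [hd, T.π_smul, inv_smul_smul])]
  · rw [upd_ne T _ hd, Tot.smul_apply, upd_ne T _ (fun h => hd (by
      rw [T.π_smul, ← h, smul_inv_smul]))]

/-- the place of an edge -/
def pl (e : E) : C := T.π (T.o e)

theorem pl_smul (g : S) (e : E) : pl T (g • e) = g • pl T e := by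
  rw [pl, T.o_smul, T.π_smul]
  rfl

theorem pl_t (e : E) : T.π (T.t e) = pl T e := T.π_t e

end Tot

section B

variable {S C V E : Type u} [Group S] [MulAction S C] [MulAction S V] [MulAction S E]
  (T : Frt S C V E) {M : Type u} [AddCommGroup M]

/-- the element given by a list of edges and a section -/
noncomputable def Bv : List E → Tot T → M → Pm (Tot T) M
  | [], y, m => Pm.single y m
  | e :: l, y, m => Bv l (upd T y (T.t e)) m - Bv l (upd T y (T.o e)) m

theorem Bv_nil (y : Tot T) (m : M) : Bv T [] y m = Pm.single y m := rfl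

theorem Bv_cons (e : E) (l : List E) (y : Tot T) (m : M) :
    Bv T (e :: l) y m = Bv T l (upd T y (T.t e)) m - Bv T l (upd T y (T.o e)) m := rfl

theorem Bv_add (l : List E) (m m' : M) : ∀ y : Tot T,
    Bv T l y (m + m') = Bv T l y m + Bv T l y m' := by
  induction l with
  | nil =>
    intro y
    rw [Bv_nil, Bv_nil, Bv_nil, Pm.single_add]
  | cons e l ih =>
    intro y
    rw [Bv_cons, Bv_cons, Bv_cons, ih, ih]
    abel

/-- `Bv` as a homomorphism -/
noncomputable def BvH (l : List E) (y : Tot T) : M →+ Pm (Tot T) M :=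
  AddMonoidHom.mk' (Bv T l y) (fun m m' => Bv_add T l m m' y)

theorem BvH_apply (l : List E) (y : Tot T) (m : M) : BvH T l y m = Bv T l y m := rfl

variable {R : Type u} [Ring R] [Module (MonoidAlgebra R S) M]

theorem smul_Bv (g : S) (r : R) (l : List E) (m : M) : ∀ y : Tot T,
    (MonoidAlgebra.single g r : MonoidAlgebra R S) • Bv T l y m =
      Bv T (l.map (g • ·)) (g • y) ((MonoidAlgebra.single g r : MonoidAlgebra R S) • m) := by
  induction l with
  | nil =>
    intro y
    rw [List.map_nil, Bv_nil, Bv_nil, Pm.smul_single]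
  | cons e l ih =>
    intro y
    rw [List.map_cons, Bv_cons, Bv_cons, smul_sub, ih, ih, smul_upd, smul_upd, T.t_smul, T.o_smul]

/-- the values at the places of the list do not matter -/
theorem Bv_upd (l : List E) (m : M) : ∀ (y : Tot T) (v : V), T.π v ∈ l.map (pl T) →
    Bv T l (upd T y v) m = Bv T l y m := by
  induction l with
  | nil =>
    intro y v h
    simp at h
  | cons e l ih =>
    intro y v h
    rw [Bv_cons, Bv_cons]
    by_cases hv : T.π v = pl T e
    · rw [upd_upd T y (by rw [pl_t, hv]), upd_upd T y (show T.π v = T.π (T.o e) from hv)]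
    · have h' : T.π v ∈ l.map (pl T) := by
        rw [List.map_cons, List.mem_cons] at h
        exact h.resolve_left hv
      rw [upd_comm T y (v := v) (w := T.t e) (by rw [pl_t]; exact hv),
        upd_comm T y (v := v) (w := T.o e) hv, ih _ _ h', ih _ _ h']

theorem Bv_perm {l l' : List E} (h : l.Perm l') (m : M) :
    ∀ y : Tot T, (l.map (pl T)).Nodup → Bv T l y m = Bv T l' y m := by
  induction h with
  | nil => exact fun y _ => rfl
  | cons e _ ih =>
    intro y hn
    rw [List.map_cons, List.nodup_cons] at hn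
    rw [Bv_cons, Bv_cons, ih _ hn.2, ih _ hn.2]
  | swap e e' l =>
    intro y hn
    rw [List.map_cons, List.map_cons, List.nodup_cons, List.mem_cons, not_or] at hn
    have hne : pl T e' ≠ pl T e := hn.1.1
    simp only [Bv_cons]
    rw [upd_comm T y (v := T.t e) (w := T.t e') (by rw [pl_t, pl_t]; exact hne.symm),
      upd_comm T y (v := T.t e) (w := T.o e') (by rw [pl_t]; exact hne.symm),
      upd_comm T y (v := T.o e) (w := T.t e') (by rw [pl_t]; exact hne.symm),
      upd_comm T y (v := T.o e) (w := T.o e') hne.symm]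
    abel
  | trans h1 _ ih1 ih2 =>
    intro y hn
    rw [ih1 y hn, ih2 y ((h1.map (pl T)).nodup_iff.1 hn)]

/-! ### The filtration -/

/-- the generators -/
def gens (M : Type u) [AddCommGroup M] (i : ℕ) : Set (Pm (Tot T) M) :=
  {b | ∃ (l : List E) (y : Tot T) (m : M), (l.map (pl T)).Nodup ∧ i ≤ l.length ∧ b = Bv T l y m}

theorem nodup_map (g : S) {l : List E} (h : (l.map (pl T)).Nodup) :
    ((l.map (g • ·)).map (pl T)).Nodup := by
  rw [List.map_map]
  have : (pl T ∘ fun e => g • e) = (fun c : C => g • c) ∘ pl T := by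
    funext e
    exact pl_smul T g e
  rw [this, ← List.map_map]
  exact h.map (MulAction.injective g)

/-- the filtration -/
noncomputable def F (R : Type u) [Ring R] (M : Type u) [AddCommGroup M]
    [Module (MonoidAlgebra R S) M] (i : ℕ) : Submodule (MonoidAlgebra R S) (Pm (Tot T) M) :=
  { AddSubgroup.closure (gens T M i) with
    smul_mem' := by
      intro a x hx
      refine smul_mem_of (AddSubgroup.closure (gens T M i)) ?_ a x hx
      intro g r x hx
      induction hx using AddSubgroup.closure_induction with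
      | mem x hx =>
        obtain ⟨l, y, m, hn, hl, rfl⟩ := hx
        rw [smul_Bv]
        exact AddSubgroup.subset_closure ⟨_, _, _, nodup_map T g hn,
          by rwa [List.length_map], rfl⟩
      | zero => rw [smul_zero]; exact AddSubgroup.zero_mem _
      | add a b _ _ ha hb => rw [smul_add]; exact AddSubgroup.add_mem _ ha hb
      | neg a _ ha => rw [smul_neg]; exact AddSubgroup.neg_mem _ ha }

theorem mem_F {i : ℕ} {x : Pm (Tot T) M} :
    x ∈ F T R M i ↔ x ∈ AddSubgroup.closure (gens T M i) := Iff.rfl

theorem Bv_mem {i : ℕ} {l : List E} (hn : (l.map (pl T)).Nodup) (h : i ≤ l.length) (y : Tot T)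
    (m : M) : Bv T l y m ∈ F T R M i :=
  (mem_F T).2 (AddSubgroup.subset_closure ⟨l, y, m, hn, h, rfl⟩)

theorem F_le {i : ℕ} (W : AddSubgroup (Pm (Tot T) M))
    (h : ∀ (l : List E) (y : Tot T) (m : M), (l.map (pl T)).Nodup → i ≤ l.length →
      Bv T l y m ∈ W) {x : Pm (Tot T) M} (hx : x ∈ F T R M i) : x ∈ W := by
  have : AddSubgroup.closure (gens T M i) ≤ W := by
    rw [AddSubgroup.closure_le]
    rintro x ⟨l, y, m, hn, hl, rfl⟩
    exact h l y m hn hl
  exact this ((mem_F T).1 hx)

theorem F_anti {i j : ℕ} (hij : i ≤ j) : F T R M j ≤ F T R M i := by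
  intro x hx
  refine F_le T (F T R M i).toAddSubgroup (fun l y m hn hl => ?_) hx
  exact Bv_mem (R := R) T hn (hij.trans hl) y m

theorem F_bot [Fintype C] {i : ℕ} (hi : Fintype.card C < i) : F T R M i = ⊥ := by
  rw [eq_bot_iff]
  intro x hx
  refine F_le T (⊥ : AddSubgroup (Pm (Tot T) M)) (fun l _ _ hn hl => ?_) hx
  have := hn.length_le_card
  rw [List.length_map] at this
  omega

/-- changing one value outside the places of `l` -/
theorem tel1 {l : List E} (hn : (l.map (pl T)).Nodup) (y : Tot T) (m : M) (v w : V)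
    (hvw : T.π v = T.π w) (hv : T.π v ∉ l.map (pl T)) :
    Bv T l (upd T y v) m - Bv T l (upd T y w) m ∈ F T R M (l.length + 1) := by
  have hstep : ∀ e : E, pl T e = T.π w →
      Bv T l (upd T y (T.t e)) m - Bv T l (upd T y (T.o e)) m ∈ F T R M (l.length + 1) := by
    intro e he
    rw [← Bv_cons]
    refine Bv_mem T ?_ (by rw [List.length_cons]) _ _
    rw [List.map_cons, List.nodup_cons, he, ← hvw]
    exact ⟨hv, hn⟩
  have h := T.conn (fun x => T.π x = T.π w →
    Bv T l (upd T y x) m - Bv T l (upd T y w) m ∈ F T R M (l.length + 1)) ?_ v w hvw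
  · refine h.2 (fun _ => ?_) hvw
    rw [sub_self]
    exact zero_mem _
  · intro e
    constructor
    · intro h1 h2
      have h3 : pl T e = T.π w := by rw [← h2, pl_t]
      have := add_mem (hstep e h3) (h1 h3)
      rwa [sub_add_sub_cancel] at this
    · intro h1 h2
      have h4 := sub_mem (h1 (by rw [pl_t]; exact h2)) (hstep e h2)
      rwa [sub_sub_sub_cancel_left] at h4

/-- the section does not matter modulo the next step -/
theorem tel [Finite C] {l : List E} (hn : (l.map (pl T)).Nodup) (y z : Tot T) (m : M) :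
    Bv T l y m - Bv T l z m ∈ F T R M (l.length + 1) := by
  classical
  have := Fintype.ofFinite C
  have key : ∀ U : Finset C, ∀ y z : Tot T, (∀ c, c ∉ U → y.1 c = z.1 c) →
      Bv T l y m - Bv T l z m ∈ F T R M (l.length + 1) := by
    intro U
    induction U using Finset.induction_on with
    | empty =>
      intro y z h
      have : y = z := Subtype.ext (funext fun c => h c (Finset.notMem_empty c))
      rw [this, sub_self]
      exact zero_mem _
    | insert c U hc ih =>
      intro y z h
      have h1 := ih (upd T y (z.1 c)) z (fun d hd => by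
        by_cases hdc : d = c
        · rw [upd_of T _ (by rw [z.2, hdc]), hdc]
        · rw [upd_ne T _ (by rw [z.2]; exact hdc)]
          exact h d (by rw [Finset.mem_insert, not_or]; exact ⟨hdc, hd⟩))
      have h2 : Bv T l y m - Bv T l (upd T y (z.1 c)) m ∈ F T R M (l.length + 1) := by
        by_cases hcl : c ∈ l.map (pl T)
        · rw [Bv_upd T l m y (z.1 c) (by rw [z.2]; exact hcl), sub_self]
          exact zero_mem _
        · have := tel1 (R := R) T hn y m (y.1 c) (z.1 c) (by rw [y.2, z.2])
            (by rw [y.2]; exact hcl)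
          rwa [upd_self] at this
      have := add_mem h2 h1
      rwa [sub_add_sub_cancel] at this
  exact key Finset.univ y z fun c hc => absurd (Finset.mem_univ c) hc

/-! ### The functionals -/

open Classical in
/-- the functional given by a finite set of edges -/
noncomputable def lam (M : Type u) [AddCommGroup M] (A : Finset E) : Pm (Tot T) M →+ M :=
  Pm.lift fun y => if ∀ e ∈ A, y.1 (pl T e) ∈ T.H e then AddMonoidHom.id M else 0

theorem lam_of (A : Finset E) (y : Tot T) (m : M) (h : ∀ e ∈ A, y.1 (pl T e) ∈ T.H e) :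
    lam T M A (Pm.single y m) = m := by
  rw [lam, Pm.lift_single, if_pos h]
  rfl

theorem lam_not (A : Finset E) (y : Tot T) (m : M) (h : ¬ ∀ e ∈ A, y.1 (pl T e) ∈ T.H e) :
    lam T M A (Pm.single y m) = 0 := by
  rw [lam, Pm.lift_single, if_neg h]
  rfl

theorem lam_congr (A : Finset E) (l : List E) (m : M) : ∀ y z : Tot T,
    (∀ e ∈ A, (y.1 (pl T e) ∈ T.H e ↔ z.1 (pl T e) ∈ T.H e)) →
    lam T M A (Bv T l y m) = lam T M A (Bv T l z m) := by
  induction l with
  | nil =>
    intro y z h
    rw [Bv_nil, Bv_nil]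
    by_cases hy : ∀ e ∈ A, y.1 (pl T e) ∈ T.H e
    · rw [lam_of T A y m hy, lam_of T A z m fun e he => (h e he).1 (hy e he)]
    · rw [lam_not T A y m hy, lam_not T A z m fun hz => hy fun e he => (h e he).2 (hz e he)]
  | cons e' l ih =>
    intro y z h
    have hs : ∀ v : V, ∀ e ∈ A, ((upd T y v).1 (pl T e) ∈ T.H e ↔
        (upd T z v).1 (pl T e) ∈ T.H e) := by
      intro v e he
      by_cases hv : pl T e = T.π v
      · rw [upd_of T _ hv, upd_of T _ hv]
      · rw [upd_ne T _ hv, upd_ne T _ hv]
        exact h e he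
    rw [Bv_cons, Bv_cons, map_sub, map_sub, ih _ _ (hs _), ih _ _ (hs _)]

/-- an edge of the list which is not in `A` -/
theorem lam_zero (A : Finset E) (l : List E) (m : M) : ∀ y : Tot T, (∃ e ∈ l, e ∉ A) →
    lam T M A (Bv T l y m) = 0 := by
  induction l with
  | nil =>
    intro y h
    obtain ⟨e, he, _⟩ := h
    simp at he
  | cons e' l ih =>
    intro y h
    rw [Bv_cons, map_sub]
    by_cases h' : ∃ e ∈ l, e ∉ A
    · rw [ih _ h', ih _ h', sub_zero]
    · have he' : e' ∉ A := by
        obtain ⟨e, he, heA⟩ := h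
        rcases List.mem_cons.1 he with rfl | h2
        · exact heA
        · exact absurd ⟨e, h2, heA⟩ h'
      rw [sub_eq_zero]
      refine lam_congr T A l m _ _ fun e he => ?_
      by_cases hv : pl T e = pl T e'
      · rw [upd_of T _ (by rw [pl_t]; exact hv), upd_of T _ (show pl T e = T.π (T.o e') from hv)]
        exact (T.cross e e' (fun h2 => he' (h2 ▸ he))).symm
      · rw [upd_ne T _ (by rw [pl_t]; exact hv),
          upd_ne T _ (show pl T e ≠ T.π (T.o e') from hv)]

theorem lam_in (A : Finset E) (hA : Set.InjOn (pl T) (A : Set E)) (l : List E) (m : M) :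
    ∀ y : Tot T, l.Nodup → (∀ e ∈ l, e ∈ A) →
    ((∀ e ∈ A, e ∉ l → y.1 (pl T e) ∈ T.H e) → lam T M A (Bv T l y m) = m) ∧
    ((¬ ∀ e ∈ A, e ∉ l → y.1 (pl T e) ∈ T.H e) → lam T M A (Bv T l y m) = 0) := by
  induction l with
  | nil =>
    intro y _ _
    rw [Bv_nil]
    constructor
    · intro h
      exact lam_of T A y m fun e he => h e he (by simp)
    · intro h
      exact lam_not T A y m fun h' => h fun e he _ => h' e he
  | cons e' l ih =>
    intro y hn hl
    rw [List.nodup_cons] at hn
    have he'A : e' ∈ A := hl e' (List.mem_cons_self)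
    have hlA : ∀ e ∈ l, e ∈ A := fun e he => hl e (List.mem_cons_of_mem _ he)
    have ht : (∀ e ∈ A, e ∉ l → (upd T y (T.t e')).1 (pl T e) ∈ T.H e) ↔
        (∀ e ∈ A, e ∉ e' :: l → y.1 (pl T e) ∈ T.H e) := by
      constructor
      · intro h e he hel
        rw [List.mem_cons, not_or] at hel
        have h1 := h e he hel.2
        rwa [upd_ne T _ (by
          rw [pl_t]
          exact fun h2 => hel.1 (hA he he'A h2))] at h1
      · intro h e he hel
        by_cases h2 : e = e'
        · subst h2
          rw [upd_of T _ (by rw [pl_t])]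
          exact T.t_mem e
        · rw [upd_ne T _ (by
            rw [pl_t]
            exact fun h3 => h2 (hA he he'A h3))]
          exact h e he (by rw [List.mem_cons, not_or]; exact ⟨h2, hel⟩)
    have ho : ¬ ∀ e ∈ A, e ∉ l → (upd T y (T.o e')).1 (pl T e) ∈ T.H e := by
      intro h
      have h1 := h e' he'A hn.1
      rw [upd_of T _ (show pl T e' = T.π (T.o e') from rfl)] at h1
      exact T.o_notMem e' h1
    rw [Bv_cons, map_sub, (ih _ hn.2 hlA).2 ho, sub_zero]
    constructor
    · intro h
      exact (ih _ hn.2 hlA).1 (ht.2 h)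
    · intro h
      exact (ih _ hn.2 hlA).2 (fun h2 => h (ht.1 h2))

/-! ### The partial sections of the edges -/

/-- sets of `i` edges at different places -/
def Lv (i : ℕ) : Type u := {A : Finset E // A.card = i ∧ Set.InjOn (pl T) (A : Set E)}

open Classical in
noncomputable instance (i : ℕ) : SMul S (Lv T i) where
  smul g A := ⟨A.1.image (g • ·), by
    rw [Finset.card_image_of_injective _ (MulAction.injective g)]
    exact A.2.1, by
    intro e he e' he' h
    rw [Finset.mem_coe, Finset.mem_image] at he he'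
    obtain ⟨e, he, rfl⟩ := he
    obtain ⟨e', he', rfl⟩ := he'
    rw [pl_smul, pl_smul] at h
    rw [A.2.2 he he' (MulAction.injective g h)]⟩

open Classical in
theorem Lv.smul_val (i : ℕ) (g : S) (A : Lv T i) : (g • A).1 = A.1.image (g • ·) := rfl

theorem Lv.mem_smul (i : ℕ) (g : S) (A : Lv T i) (e : E) : e ∈ (g • A).1 ↔ g⁻¹ • e ∈ A.1 := by
  classical
  rw [Lv.smul_val, Finset.mem_image]
  constructor
  · rintro ⟨e, he, rfl⟩
    rwa [inv_smul_smul]
  · intro h
    exact ⟨_, h, smul_inv_smul g e⟩

noncomputable instance (i : ℕ) : MulAction S (Lv T i) where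
  one_smul A := by
    refine Subtype.ext (Finset.ext fun e => ?_)
    rw [Lv.mem_smul, inv_one, one_smul]
  mul_smul g h A := by
    refine Subtype.ext (Finset.ext fun e => ?_)
    rw [Lv.mem_smul, Lv.mem_smul, Lv.mem_smul, mul_inv_rev, mul_smul]

theorem Lv.nodup {i : ℕ} (A : Lv T i) : (A.1.toList.map (pl T)).Nodup := by
  refine List.Nodup.map_on ?_ A.1.nodup_toList
  intro e he e' he' h
  exact A.2.2 (Finset.mem_toList.1 he) (Finset.mem_toList.1 he') h

theorem Lv.length {i : ℕ} (A : Lv T i) : A.1.toList.length = i := by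
  rw [Finset.length_toList, A.2.1]

theorem Lv.perm {i : ℕ} (g : S) (A : Lv T i) :
    (A.1.toList.map (g • ·)).Perm (g • A).1.toList := by
  rw [List.perm_ext_iff_of_nodup (A.1.nodup_toList.map (MulAction.injective g))
    (Finset.nodup_toList _)]
  intro e
  rw [Finset.mem_toList, Lv.mem_smul, List.mem_map]
  constructor
  · rintro ⟨e, he, rfl⟩
    rw [inv_smul_smul]
    exact Finset.mem_toList.1 he
  · intro h
    exact ⟨_, Finset.mem_toList.2 h, smul_inv_smul g e⟩

open Classical in
/-- the partial section of the vertices given by a set of edges, as a function -/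
noncomputable def secf (A : Finset E) (c : C) : Option V :=
  if h : ∃ e ∈ A, pl T e = c then some (T.o h.choose) else none

/-- the partial section of the vertices given by a set of edges -/
noncomputable def Lv.sec {i : ℕ} (A : Lv T i) : Psc T :=
  ⟨secf T A.1, fun c v h => by
    by_cases hc : ∃ e ∈ A.1, pl T e = c
    · rw [secf, dif_pos hc, Option.some_inj] at h
      rw [← h]
      exact hc.choose_spec.2
    · rw [secf, dif_neg hc] at h
      exact absurd h (by simp)⟩

theorem Lv.sec_of {i : ℕ} (A : Lv T i) {e : E} (he : e ∈ A.1) :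
    (Lv.sec T A).1 (pl T e) = some (T.o e) := by
  have h : ∃ e' ∈ A.1, pl T e' = pl T e := ⟨e, he, rfl⟩
  show secf T A.1 (pl T e) = _
  rw [secf, dif_pos h, A.2.2 h.choose_spec.1 he h.choose_spec.2]

theorem Lv.sec_none {i : ℕ} (A : Lv T i) {c : C} (h : ¬ ∃ e ∈ A.1, pl T e = c) :
    (Lv.sec T A).1 c = none := by
  show secf T A.1 c = _
  rw [secf, dif_neg h]

theorem Lv.sec_smul {i : ℕ} (g : S) (A : Lv T i) : Lv.sec T (g • A) = g • Lv.sec T A := by
  refine Subtype.ext (funext fun c => ?_)
  rw [Psc.smul_apply]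
  by_cases h : ∃ e ∈ A.1, pl T e = g⁻¹ • c
  · obtain ⟨e, he, hc⟩ := h
    have h1 : g • e ∈ (g • A).1 := by rwa [Lv.mem_smul, inv_smul_smul]
    have h2 : pl T (g • e) = c := by rw [pl_smul, hc, smul_inv_smul]
    rw [← hc, Lv.sec_of T A he, ← h2, Lv.sec_of T _ h1, T.o_smul]
    rfl
  · rw [Lv.sec_none T A h, Lv.sec_none T]
    · rfl
    · rintro ⟨e, he, hc⟩
      rw [Lv.mem_smul] at he
      exact h ⟨_, he, by rw [pl_smul, hc]⟩

theorem Lv.stab_le {i : ℕ} (A : Lv T i) :
    MulAction.stabilizer S A ≤ MulAction.stabilizer S (Lv.sec T A) := by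
  intro g hg
  rw [MulAction.mem_stabilizer_iff] at hg ⊢
  rw [← Lv.sec_smul, hg]

/-- the functionals of `i` elements vanish on the next step of the filtration -/
theorem lam_F {i : ℕ} (A : Lv T i) {x : Pm (Tot T) M} (hx : x ∈ F T R M (i + 1)) :
    lam T M A.1 x = 0 := by
  classical
  refine F_le T (lam T M A.1).ker (fun l y m hn hl => ?_) hx
  rw [AddMonoidHom.mem_ker]
  refine lam_zero T A.1 l m y ?_
  by_contra h
  push Not at h
  have h1 : l.toFinset ⊆ A.1 := fun e he => h e (List.mem_toFinset.1 he)
  have h2 := Finset.card_le_card h1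
  rw [List.toFinset_card_of_nodup (List.Nodup.of_map _ hn), A.2.1] at h2
  omega

open Classical in
theorem lam_hat {i : ℕ} (A B : Lv T i) (y : Tot T) (m : M) :
    lam T M A.1 (Bv T B.1.toList y m) = if B = A then m else 0 := by
  split_ifs with h
  · subst h
    refine (lam_in T B.1 B.2.2 B.1.toList m y B.1.nodup_toList
      (fun e he => Finset.mem_toList.1 he)).1 fun e he hel => ?_
    exact absurd (Finset.mem_toList.2 he) hel
  · refine lam_zero T A.1 _ m y ?_
    by_contra hcon
    push Not at hcon
    apply h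
    refine Subtype.ext (Finset.eq_of_subset_of_card_le (fun e he => ?_) ?_)
    · exact hcon e (Finset.mem_toList.2 he)
    · rw [A.2.1, B.2.1]

/-! ### The graded pieces -/

variable [Finite C]

/-- the map from the permutation module to the quotient -/
noncomputable def qq (R : Type u) [Ring R] (M : Type u) [AddCommGroup M]
    [Module (MonoidAlgebra R S) M] (i : ℕ) :
    Pm (Lv T i) M →ₗ[MonoidAlgebra R S] (Pm (Tot T) M ⧸ F T R M (i + 1)) :=
  Pm.toLin (Pm.lift fun A : Lv T i =>
    ((F T R M (i + 1)).mkQ.toAddMonoidHom).comp (BvH T A.1.toList (yz T))) <| by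
    intro g r A m
    rw [Pm.lift_single, Pm.lift_single]
    show (F T R M (i + 1)).mkQ (Bv T (g • A).1.toList (yz T) _) =
      (MonoidAlgebra.single g r : MonoidAlgebra R S) •
        (F T R M (i + 1)).mkQ (Bv T A.1.toList (yz T) m)
    rw [← map_smul, smul_Bv, ← sub_eq_zero, ← map_sub, Submodule.mkQ_apply,
      Submodule.Quotient.mk_eq_zero, Bv_perm T (Lv.perm T g A) _ _ (nodup_map T g (Lv.nodup T A))]
    have h := tel (R := R) T (Lv.nodup T (g • A)) (yz T) (g • yz T)
      ((MonoidAlgebra.single g r : MonoidAlgebra R S) • m)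
    rwa [Lv.length] at h

theorem qq_single (i : ℕ) (A : Lv T i) (m : M) : qq T R M i (Pm.single A m) =
    (F T R M (i + 1)).mkQ (Bv T A.1.toList (yz T) m) :=
  Pm.lift_single _ A m

theorem qq_inj (i : ℕ) : Function.Injective (qq T R M i) := by
  classical
  rw [injective_iff_map_eq_zero]
  intro z hz
  set L : Pm (Lv T i) M →+ Pm (Tot T) M :=
    Pm.lift fun A : Lv T i => BvH T A.1.toList (yz T) with hL
  have h1 : ∀ z, qq T R M i z = (F T R M (i + 1)).mkQ (L z) := by
    intro z
    have : (qq T R M i).toAddMonoidHom = ((F T R M (i + 1)).mkQ.toAddMonoidHom).comp L := by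
      refine Pm.hom_ext fun s m => ?_
      show qq T R M i (Pm.single s m) = (F T R M (i + 1)).mkQ (L (Pm.single s m))
      rw [qq_single, hL, Pm.lift_single]
      rfl
    exact DFunLike.congr_fun this z
  rw [h1, Submodule.mkQ_apply, Submodule.Quotient.mk_eq_zero] at hz
  refine Pm.ext_ev fun A => ?_
  have h2 : (lam T M A.1).comp L = Pm.ev M A := by
    refine Pm.hom_ext fun s m => ?_
    rw [AddMonoidHom.comp_apply, hL, Pm.lift_single, BvH_apply, lam_hat, Pm.ev, Pm.lift_single]
    split_ifs <;> rfl
  rw [← h2, AddMonoidHom.comp_apply]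
  exact lam_F T A hz

theorem qq_range (i : ℕ) {x : Pm (Tot T) M} (hx : x ∈ F T R M i) :
    (F T R M (i + 1)).mkQ x ∈ LinearMap.range (qq T R M i) := by
  classical
  refine F_le T ((LinearMap.range (qq T R M i)).comap (F T R M (i + 1)).mkQ).toAddSubgroup
    (fun l y m hn hl => ?_) hx
  show (F T R M (i + 1)).mkQ (Bv T l y m) ∈ LinearMap.range (qq T R M i)
  by_cases hl' : i + 1 ≤ l.length
  · have : (F T R M (i + 1)).mkQ (Bv T l y m) = 0 := by
      rw [Submodule.mkQ_apply, Submodule.Quotient.mk_eq_zero]
      exact Bv_mem T hn hl' y m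
    rw [this]
    exact zero_mem _
  · have hc : l.length = i := by omega
    have hnd : l.Nodup := List.Nodup.of_map _ hn
    let A : Lv T i := ⟨l.toFinset, by rw [List.toFinset_card_of_nodup hnd, hc], by
      intro e he e' he' h
      exact List.inj_on_of_nodup_map hn (List.mem_toFinset.1 he) (List.mem_toFinset.1 he') h⟩
    have hp : l.Perm A.1.toList := by
      rw [List.perm_ext_iff_of_nodup hnd (Finset.nodup_toList _)]
      intro e
      rw [Finset.mem_toList]
      exact List.mem_toFinset.symm
    refine ⟨Pm.single A m, ?_⟩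
    rw [qq_single, ← sub_eq_zero, ← map_sub, Submodule.mkQ_apply, Submodule.Quotient.mk_eq_zero,
      Bv_perm T hp m y hn]
    have h := tel (R := R) T (Lv.nodup T A) (yz T) y m
    rwa [Lv.length] at h

/-- the projection to the graded piece -/
noncomputable def pr (R : Type u) [Ring R] (M : Type u) [AddCommGroup M]
    [Module (MonoidAlgebra R S) M] (i : ℕ) : F T R M i →ₗ[MonoidAlgebra R S] Pm (Lv T i) M :=
  (LinearEquiv.ofInjective (qq T R M i) (qq_inj T i)).symm.toLinearMap ∘ₗ
    LinearMap.codRestrict (LinearMap.range (qq T R M i))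
      ((F T R M (i + 1)).mkQ ∘ₗ (F T R M i).subtype) (fun x => qq_range T i x.2)

theorem qq_pr (i : ℕ) (x : F T R M i) : qq T R M i (pr T R M i x) =
    (F T R M (i + 1)).mkQ x.1 := by
  have h := LinearEquiv.apply_symm_apply (LinearEquiv.ofInjective (qq T R M i) (qq_inj T i))
    (LinearMap.codRestrict (LinearMap.range (qq T R M i))
      ((F T R M (i + 1)).mkQ ∘ₗ (F T R M i).subtype) (fun x => qq_range T i x.2) x)
  exact congrArg Subtype.val h

theorem pr_surj (i : ℕ) : Function.Surjective (pr T R M i) := by
  intro z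
  have h : ∀ z : Pm (Lv T i) M, ∃ x : F T R M i, qq T R M i z = (F T R M (i + 1)).mkQ x.1 := by
    intro z
    induction z using Pm.induction with
    | h0 => exact ⟨0, by rw [map_zero]; exact (map_zero _).symm⟩
    | hadd a b ha hb =>
      obtain ⟨x, hx⟩ := ha
      obtain ⟨y, hy⟩ := hb
      exact ⟨x + y, by rw [map_add, hx, hy]; exact (map_add _ _ _).symm⟩
    | hs A m =>
      exact ⟨⟨Bv T A.1.toList (yz T) m, Bv_mem T (Lv.nodup T A) (by rw [Lv.length]) _ _⟩,
        qq_single T i A m⟩
  obtain ⟨x, hx⟩ := h z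
  refine ⟨x, qq_inj (R := R) T i ?_⟩
  rw [qq_pr, hx]

theorem pr_exact (i : ℕ) :
    Function.Exact (Submodule.inclusion (F_anti (R := R) (M := M) T (Nat.le_succ i)))
      (pr T R M i) := by
  intro x
  constructor
  · intro h
    have h1 := qq_pr T i x
    rw [h, map_zero] at h1
    have h2 : x.1 ∈ F T R M (i + 1) := by
      rw [← Submodule.Quotient.mk_eq_zero, ← Submodule.mkQ_apply]
      exact h1.symm
    exact ⟨⟨x.1, h2⟩, rfl⟩
  · rintro ⟨y, rfl⟩
    apply qq_inj (R := R) T i
    rw [qq_pr, map_zero, Submodule.mkQ_apply, Submodule.Quotient.mk_eq_zero]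
    exact y.2

/-! ### The augmentation -/

/-- the augmentation -/
noncomputable def aug (R : Type u) [Ring R] (M : Type u) [AddCommGroup M]
    [Module (MonoidAlgebra R S) M] : Pm (Tot T) M →ₗ[MonoidAlgebra R S] M :=
  Pm.toLin (Pm.lift fun _ => AddMonoidHom.id M) <| by
    intro g r y m
    rw [Pm.lift_single, Pm.lift_single]
    rfl

theorem aug_single (y : Tot T) (m : M) : aug T R M (Pm.single y m) = m := Pm.lift_single _ y m

theorem aug_surj : Function.Surjective (aug T R M) := fun m =>
  ⟨Pm.single (yz T) m, aug_single T _ m⟩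

theorem aug_Bv (l : List E) (m : M) : ∀ y : Tot T, 1 ≤ l.length →
    aug T R M (Bv T l y m) = 0 := by
  have h : ∀ (l : List E) (y z : Tot T), aug T R M (Bv T l y m) = aug T R M (Bv T l z m) := by
    intro l
    induction l with
    | nil =>
      intro y z
      rw [Bv_nil, Bv_nil, aug_single, aug_single]
    | cons e l ih =>
      intro y z
      rw [Bv_cons, Bv_cons, map_sub, map_sub, ih (upd T y (T.t e)) (upd T z (T.t e)),
        ih (upd T y (T.o e)) (upd T z (T.o e))]
  intro y hl
  cases l with
  | nil => simp at hl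
  | cons e l => rw [Bv_cons, map_sub, h l _ (upd T y (T.o e)), sub_self]

theorem aug_F {x : Pm (Tot T) M} : aug T R M x = 0 ↔ x ∈ F T R M 1 := by
  constructor
  · intro h
    have key : ∀ x : Pm (Tot T) M, x - Pm.single (yz T) (aug T R M x) ∈
        F T R M 1 := by
      intro x
      induction x using Pm.induction with
      | h0 =>
        rw [map_zero, Pm.single_zero, sub_zero]
        exact zero_mem _
      | hadd a b ha hb =>
        rw [map_add, Pm.single_add, add_sub_add_comm]
        exact add_mem ha hb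
      | hs y m =>
        rw [aug_single]
        exact tel (R := R) T (l := []) (by simp) y (yz T) m
    have := key x
    rwa [h, Pm.single_zero, sub_zero] at this
  · intro h
    refine F_le T (aug T R M).toAddMonoidHom.ker (fun l y m _ hl => ?_) h
    rw [AddMonoidHom.mem_ker]
    exact aug_Bv (R := R) T l m y hl

end B

theorem flt0 : FltStatement.{u} := by
  classical
  intro R S C V E M _ _ _ _ _ _ _ T _ _ e h
  have := Fintype.ofFinite C
  have hLv : ∀ i, 1 ≤ i → PdLe (MonoidAlgebra R S) e (Pm (Lv T i) M) := by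
    intro i hi
    refine pdStat R S (Lv T i) M e fun A => ?_
    refine rs R S M e _ _ (Lv.stab_le T A) (h _ ?_)
    have : A.1.Nonempty := by
      rw [← Finset.card_pos, A.2.1]
      omega
    obtain ⟨e, he⟩ := this
    exact ⟨pl T e, by rw [Lv.sec_of T A he]; exact Option.some_ne_none _⟩
  have hTot : PdLe (MonoidAlgebra R S) e (Pm (Tot T) M) := by
    refine pdStat R S (Tot T) M e fun y => ?_
    refine rs R S M e _ _ (Tot.stab_le T y) (h _ ?_)
    obtain ⟨c⟩ := ‹Nonempty C›
    exact ⟨c, by rw [Tot.sec]; exact Option.some_ne_none _⟩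
  have hF : ∀ d i, 1 ≤ i → Fintype.card C < i + d → PdLe (MonoidAlgebra R S) e (F T R M i) := by
    intro d
    induction d with
    | zero =>
      intro i _ hi
      have : Subsingleton (F T R M i) := by
        rw [F_bot T (by omega)]
        infer_instance
      exact pd_of_subsingleton
    | succ d ih =>
      intro i hi hid
      exact pd_mid (Submodule.inclusion (F_anti (R := R) (M := M) T (Nat.le_succ i)))
        (pr T R M i) (Submodule.inclusion_injective _) (pr_surj T i) (pr_exact T i)
        (ih (i + 1) (by omega) (by omega)) (hLv i hi)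
  have h1 := hF (Fintype.card C) 1 (le_refl _) (by omega)
  refine pd_right (F T R M 1).subtype (aug T R M) (Submodule.injective_subtype _) (aug_surj T)
    ?_ h1 (hTot.mono (Nat.le_succ e))
  intro x
  rw [aug_F]
  exact ⟨fun hx => ⟨⟨x, hx⟩, rfl⟩, by rintro ⟨y, rfl⟩; exact y.2⟩

end FLT

/-- Row FLT. -/
theorem flt : FltStatement.{u} := FLT.flt0

end Pool.Agent.NegK.PL
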