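import Pool.Agent.Lib.MP_28303a_al.PL.Fin
import Pool.Agent.Lib.MP_28303a_al.TT.H91.Sub
import Pool.Agent.Lib.MP_28303a_al.NT.H78.Coh

/-! # Regular coherence from a bound of the projective dimensions (FNC) -/

set_option autoImplicit false
set_option linter.unusedSectionVars false
set_option linter.unusedVariables false

namespace Pool.Agent.NegK.PL

universe u

open CategoryTheory Pool.Agent.NegK.TT Pool.Agent.NegK.TW

/-- FNC. Regular coherence from a bound of the projective dimensions. -/
def FncStatement : Prop :=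
  ∀ (R S : Type u) [Ring R] [Group S] (H : Subgroup S) (n : ℕ), H.FiniteIndex →
    RegCoh (MonoidAlgebra R H) →
    (∀ (M : Type u) [AddCommGroup M] [Module (MonoidAlgebra R S) M] (d : ℕ),
      PdLe (MonoidAlgebra R H) d (Res R H M) → PdLe (MonoidAlgebra R S) (d + n) M) →
    RegCoh (MonoidAlgebra R S)

/-- Regular coherence for modules which embed into a finitely generated free module. -/
theorem exists_res {A : Type u} [Ring A] (hA : RegCoh A) {N : Type u} [AddCommGroup N] [Module A N]
    [Module.Finite A N] {ι : Type*} [Fintype ι] (φ : N →ₗ[A] (ι → A))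
    (hφ : Function.Injective φ) : ∃ d, HasFPRes A d N := by
  obtain ⟨e⟩ : Nonempty ((ι → A) ≃ₗ[A] (Fin (Fintype.card ι) → A)) :=
    ⟨LinearEquiv.funCongrLeft A A (Fintype.equivFin ι).symm⟩
  have hψ : Function.Injective (e.toLinearMap ∘ₗ φ) := e.injective.comp hφ
  have h1 : (LinearMap.range (e.toLinearMap ∘ₗ φ)).FG :=
    Module.Finite.iff_fg.1 (Module.Finite.range _)
  obtain ⟨d, hd⟩ := hA _ _ h1
  exact ⟨d, HasFPRes.congr (LinearEquiv.ofInjective _ hψ).symm hd⟩

section

variable {R S : Type u} [Ring R] [Group S] (H : Subgroup S)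

/-- The component of an element of the group ring at a right coset. -/
noncomputable def cpt (s : S) :
    Res R H (MonoidAlgebra R S) →ₗ[MonoidAlgebra R H] MonoidAlgebra R H where
  toFun x := TW.H59.cmp H.subtype H.subtype_injective 1
    ((Res.val x : MonoidAlgebra R S) * MonoidAlgebra.single s⁻¹ 1)
  map_add' x y := by
    show TW.H59.cmp H.subtype H.subtype_injective 1
      ((Res.val x + Res.val y : MonoidAlgebra R S) * MonoidAlgebra.single s⁻¹ 1) = _
    rw [add_mul, map_add]
  map_smul' a x := by
    show TW.H59.cmp H.subtype H.subtype_injective 1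
      ((mdr R H.subtype a * Res.val x : MonoidAlgebra R S) * MonoidAlgebra.single s⁻¹ 1) = _
    rw [mul_assoc, TT.H91.cmp_mdr_mul]
    rfl

theorem cpt_coeff (s : S) (x : Res R H (MonoidAlgebra R S)) (h : H) :
    (cpt H s x).coeff h = (Res.val x : MonoidAlgebra R S).coeff (h * s) := by
  show (TW.H59.cmp H.subtype H.subtype_injective 1
    ((Res.val x : MonoidAlgebra R S) * MonoidAlgebra.single s⁻¹ 1)).coeff h = _
  rw [TW.H59.cmp_coeff, one_mul, MonoidAlgebra.coeff_mul_single_apply, mul_one, inv_inv]
  rfl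

variable {M : Type u} [AddCommGroup M] [Module (MonoidAlgebra R S) M]

/-- The restriction of a submodule. -/
def resSub (N : Submodule (MonoidAlgebra R S) M) :
    Submodule (MonoidAlgebra R H) (Res R H M) where
  carrier := {x | Res.val x ∈ N}
  add_mem' := fun hx hy => N.add_mem hx hy
  zero_mem' := N.zero_mem
  smul_mem' := fun a x hx => N.smul_mem (mdr R H.subtype a) hx

theorem fg_of_res (N : Submodule (MonoidAlgebra R S) M) (h : (resSub H N).FG) : N.FG := by
  classical
  obtain ⟨F, hF⟩ := h
  refine ⟨F.image Res.val, le_antisymm (Submodule.span_le.2 fun x hx => ?_) fun x hx => ?_⟩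
  · obtain ⟨y, hy, rfl⟩ := Finset.mem_image.1 hx
    have h1 : y ∈ resSub H N := by
      rw [← hF]
      exact Submodule.subset_span hy
    exact h1
  · have h1 : Res.mk R H x ∈ Submodule.span (MonoidAlgebra R H) (F : Set (Res R H M)) := by
      rw [hF]
      exact hx
    have h2 : Submodule.span (MonoidAlgebra R H) (F : Set (Res R H M)) ≤
        resSub H (Submodule.span (MonoidAlgebra R S) ((F.image Res.val : Finset M) : Set M)) := by
      refine Submodule.span_le.2 fun y hy => ?_
      show Res.val y ∈ Submodule.span (MonoidAlgebra R S)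
        ((F.image Res.val : Finset M) : Set M)
      exact Submodule.subset_span (Finset.mem_coe.2 (Finset.mem_image_of_mem Res.val hy))
    exact h2 h1

/-- The restriction of a linear map. -/
noncomputable def resMap {M' : Type u} [AddCommGroup M'] [Module (MonoidAlgebra R S) M']
    (f : M →ₗ[MonoidAlgebra R S] M') : Res R H M →ₗ[MonoidAlgebra R H] Res R H M' where
  toFun x := Res.mk R H (f (Res.val x))
  map_add' x y := f.map_add x y
  map_smul' a x := f.map_smul (mdr R H.subtype a) x

/-- Finitely generated submodules of finitely generated free modules, restricted. -/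
theorem exists_res_sub (hH : H.FiniteIndex) (hA : RegCoh (MonoidAlgebra R H)) {n : ℕ}
    (N : Submodule (MonoidAlgebra R S) (Fin n → MonoidAlgebra R S)) (hN : N.FG) :
    ∃ d, HasFPRes (MonoidAlgebra R H) d (Res R H N) := by
  obtain ⟨T, hT⟩ := exists_rep H hH
  have h1 : Module.Finite (MonoidAlgebra R S) N := Module.Finite.iff_fg.2 hN
  have h2 := Res.finite (R := R) H hH h1
  let φ : Res R H N →ₗ[MonoidAlgebra R H] (Fin n × T → MonoidAlgebra R H) :=
    LinearMap.pi fun p => (cpt H (p.2 : S)).comp
      (resMap H ((LinearMap.proj p.1).comp N.subtype))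
  refine exists_res hA φ ?_
  rw [injective_iff_map_eq_zero]
  intro x hx
  refine Subtype.ext (funext fun i => ?_)
  ext g
  obtain ⟨s, hs, hg⟩ := hT g
  have h3 := congrArg (fun y : MonoidAlgebra R H => y.coeff ⟨g * s⁻¹, hg⟩)
    (congrFun hx (i, ⟨s, hs⟩))
  have h4 : (φ x (i, ⟨s, hs⟩)).coeff ⟨g * s⁻¹, hg⟩ =
      ((x : N).1 i : MonoidAlgebra R S).coeff (g * s⁻¹ * s) := cpt_coeff H s _ _
  rw [inv_mul_cancel_right] at h4
  rw [← h4]
  exact h3

/-- The resolution over the large group ring. -/
theorem hasFPRes_of_sub (hH : H.FiniteIndex) (hA : RegCoh (MonoidAlgebra R H)) : ∀ (D n : ℕ)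
    (N : Submodule (MonoidAlgebra R S) (Fin n → MonoidAlgebra R S)), N.FG →
    PdLe (MonoidAlgebra R S) D N → HasFPRes (MonoidAlgebra R S) D N
  | 0, n, N, hN, h => ⟨Module.Finite.iff_fg.2 hN, pd_zero.1 h⟩
  | D + 1, n, N, hN, h => by
    have h1 : Module.Finite (MonoidAlgebra R S) N := Module.Finite.iff_fg.2 hN
    obtain ⟨k, f, hf⟩ := Module.Finite.exists_fin' (MonoidAlgebra R S) N
    obtain ⟨d, hd⟩ := exists_res_sub H hH hA N hN
    have h2 : Module.FinitePresentation (MonoidAlgebra R H) (Res R H N) := NT.H78.HasFPRes.fp hd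
    have h3 : Module.Finite (MonoidAlgebra R H) (Res R H (Fin k → MonoidAlgebra R S)) :=
      Res.finite H hH inferInstance
    have h4 : (LinearMap.ker (resMap H f)).FG :=
      Module.FinitePresentation.fg_ker (resMap H f) hf
    have h5 : LinearMap.ker (resMap H f) = resSub H (LinearMap.ker f) := rfl
    have h6 : (LinearMap.ker f).FG := fg_of_res H _ (h5 ▸ h4)
    exact ⟨Fin k → MonoidAlgebra R S, inferInstance, inferInstance, f, inferInstance,
      inferInstance, hf, hasFPRes_of_sub hH hA D k (LinearMap.ker f) h6 ((pd_ker f hf).2 h)⟩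

end

/-- FNC. -/
theorem fnc : FncStatement.{u} := by
  intro R S _ _ H n hH hA hb m N hN
  obtain ⟨d, hd⟩ := exists_res_sub H hH hA N hN
  exact ⟨d + n, hasFPRes_of_sub H hH hA (d + n) m N hN (hb N d (pd_of_hasFPRes d _ hd))⟩

/-- FNC for the class of regular coherent groups. -/
theorem fnc_inRC {S : Type u} [Group S] (H : Subgroup S) (n : ℕ) (hH : H.FiniteIndex)
    (hA : InRC H)
    (hb : ∀ (R : Type u) [Ring R] (M : Type u) [AddCommGroup M] [Module (MonoidAlgebra R S) M]
      (d : ℕ), PdLe (MonoidAlgebra R H) d (Res R H M) → PdLe (MonoidAlgebra R S) (d + n) M) :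
    InRC S := fun R _ hR => fnc R S H n hH (hA R hR) (hb R)

end Pool.Agent.NegK.PL
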