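import Pool.Agent.Lib.MP_28303a_al.PL.Fli
import Pool.Agent.Lib.MP_28303a_al.PL.Fnc
import Pool.Agent.Lib.MP_28303a_al.TT.H66.Wald
import Pool.Agent.Lib.MP_28303a_al.TT.H76.TC

/-! # Torsionfree groups with a subgroup of finite index which acts freely on a tree -/

set_option autoImplicit false
set_option linter.unusedSectionVars false
set_option linter.unusedVariables false

namespace Pool.Agent.NegK.PL

universe u

open CategoryTheory Pool.Agent.NegK.TT Pool.Agent.NegK.TW

/-- A torsionfree group with a subgroup of finite index which acts on a tree with finite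
stabilizers, and is regular coherent, is regular coherent. -/
theorem fvf_finite {S : Type u} [Group S] (htf : TorsionFree S) (H : Subgroup S)
    (hH : H.FiniteIndex) (V : Type u) [MulAction H V] (G : SimpleGraph V) (hG : TreeAct H G)
    (hfin : ∀ v : V, Finite (MulAction.stabilizer H v)) (h : InRC H) : InRC S := by
  obtain ⟨E, _, T, hT⟩ := TW.H19.tre' H V G hG
  obtain ⟨b⟩ := hG.tree.connected.nonempty
  have hb : Nonempty V := ⟨b⟩
  refine fnc_inRC H 1 hH h fun R _ M _ _ d hd => ?_
  exact fli_finite htf H hH T (TT.tc T b (TW.H12.subt H V E G T hG.tree hT b)).conn hfin d hd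

/-- FVF: a torsionfree group with a subgroup of finite index which acts freely on a tree is
regular coherent. -/
theorem fvf' {S : Type u} [Group S] (htf : TorsionFree S) (H : Subgroup S) (hH : H.FiniteIndex)
    (V : Type u) [MulAction H V] (G : SimpleGraph V) (hG : TreeAct H G)
    (hfree : ∀ v : V, ∀ h : H, h • v = v → h = 1) : InRC S := by
  obtain ⟨E, _, T, hT⟩ := TW.H19.tre' H V G hG
  obtain ⟨b⟩ := hG.tree.connected.nonempty
  refine fvf_finite htf H hH V G hG (fun v => ?_)
    (TT.H66.free_inRC T b (TW.H12.subt H V E G T hG.tree hT b) fun g v => hfree v g)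
  have h1 : Subsingleton (MulAction.stabilizer H v) :=
    ⟨fun x y => Subtype.ext ((hfree v x.1 x.2).trans (hfree v y.1 y.2).symm)⟩
  exact Finite.of_subsingleton

/-- FVF (the statement `FvfStatement` of PL/PGS). -/
theorem fvf : ∀ (S : Type u) [Group S], TorsionFree S → ∀ (H : Subgroup S) [H.Normal]
    [H.FiniteIndex] (V : Type u) [MulAction H V] (G : SimpleGraph V), TW.TreeAct H G →
    (∀ (v : V) (h : H), h • v = v → h = 1) → InRC S := fun S _ htf H _ hH V _ G hG hfree =>
  fvf' htf H hH V G hG hfree

end Pool.Agent.NegK.PL
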