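import Pool.Agent.Lib.MP_28303a_al.PL.Defs

/-! MP_28303a_al, theorem PL, row KL (helper94): permutation modules which are projective over the
stabilizers are projective. -/

set_option autoImplicit false

namespace Pool.Agent.NegK.PL.KL

open MonoidAlgebra

universe u

variable {R S X M : Type u} [Ring R] [Group S] [MulAction S X] [AddCommGroup M]
  [Module (MonoidAlgebra R S) M]

theorem single_eq (s : S) (r : R) :
    (single s r : MonoidAlgebra R S) = single 1 r * single s 1 := by
  rw [single_mul_single, one_mul, mul_one]

theorem single_comm (s : S) (r : R) :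
    (single s 1 : MonoidAlgebra R S) * single 1 r = single 1 r * single s 1 := by
  rw [single_mul_single, single_mul_single, one_mul, mul_one, mul_one, one_mul]

theorem single_mul (s t : S) :
    (single s 1 : MonoidAlgebra R S) * single t 1 = single (s * t) 1 := by
  rw [single_mul_single, one_mul]

variable (R S X M) in
/-- The map from the free module. -/
noncomputable def pr : ((X × M) →₀ MonoidAlgebra R S) →ₗ[MonoidAlgebra R S] Pm X M :=
  Finsupp.linearCombination (MonoidAlgebra R S) fun p : X × M => Pm.single p.1 p.2

theorem pr_single (z : X) (m : M) (a : MonoidAlgebra R S) :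
    pr R S X M (Finsupp.single (z, m) a) = a • Pm.single z m := by
  simp [pr]

variable (R M) in
/-- The restricted module as a group. -/
def un (H : Subgroup S) : Res R H M ≃+ M := AddEquiv.refl M

/-- The sections at one point. -/
theorem sec (z : X) (h : Module.Projective (MonoidAlgebra R (MulAction.stabilizer S z))
      (Res R (MulAction.stabilizer S z) M)) :
    ∃ ψ : M →+ ((X × M) →₀ MonoidAlgebra R S),
      (∀ k : S, k • z = z → ∀ m : M, ψ ((single k 1 : MonoidAlgebra R S) • m) =
        (single k 1 : MonoidAlgebra R S) • ψ m) ∧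
      (∀ (r : R) (m : M), ψ ((single 1 r : MonoidAlgebra R S) • m) =
        (single 1 r : MonoidAlgebra R S) • ψ m) ∧
      ∀ m : M, pr R S X M (ψ m) = Pm.single z m := by
  classical
  set H := MulAction.stabilizer S z with hH
  obtain ⟨σ, hσ⟩ := (Module.projective_def'
    (R := MonoidAlgebra R H) (P := Res R H M)).1 h
  let θ : (Res R H M →₀ MonoidAlgebra R H) →+ ((X × M) →₀ MonoidAlgebra R S) :=
    Finsupp.liftAddHom fun m : Res R H M =>
      (Finsupp.singleAddHom (z, (show M from m))).comp (mdr R H.subtype).toAddMonoidHom
  have hθ : ∀ (m : Res R H M) (a : MonoidAlgebra R H),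
      θ (Finsupp.single m a) = Finsupp.single (z, (show M from m)) (mdr R H.subtype a) := by
    intro m a
    exact Finsupp.liftAddHom_apply_single _ m a
  have hθs : ∀ (a : MonoidAlgebra R H) (v : Res R H M →₀ MonoidAlgebra R H),
      θ (a • v) = mdr R H.subtype a • θ v := by
    intro a v
    induction v using Finsupp.induction_linear with
    | zero => simp
    | add v w hv hw => rw [smul_add, map_add, hv, hw, map_add, smul_add]
    | single m b =>
      rw [Finsupp.smul_single, hθ, hθ, Finsupp.smul_single, smul_eq_mul, map_mul, smul_eq_mul]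
  have hinc : ∀ (a : MonoidAlgebra R H) (m : M),
      mdr R H.subtype a • (Pm.single z m : Pm X M) = Pm.single z (mdr R H.subtype a • m) := by
    intro a m
    induction a using MonoidAlgebra.induction_linear with
    | zero => rw [map_zero, zero_smul, zero_smul, Pm.single_zero]
    | add v w hv hw => rw [map_add, add_smul, hv, hw, ← Pm.single_add, add_smul]
    | single k r =>
      have h2 : (k : S) • z = z := k.2
      rw [mdr_single, Pm.smul_single]
      show Pm.single ((k : S) • z) _ = _
      rw [h2]
  have hpr : ∀ v : Res R H M →₀ MonoidAlgebra R H,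
      pr R S X M (θ v) = Pm.single z (un R M H
        (Finsupp.linearCombination (MonoidAlgebra R H) (id : Res R H M → Res R H M) v)) := by
    intro v
    induction v using Finsupp.induction_linear with
    | zero => rw [map_zero, map_zero, map_zero, map_zero, Pm.single_zero]
    | add v w hv hw => rw [map_add, map_add, hv, hw, ← Pm.single_add, map_add, map_add]
    | single m b =>
      rw [hθ, pr_single, Finsupp.linearCombination_single, hinc]
      rfl
  refine ⟨θ.comp (σ.toAddMonoidHom : Res R H M →+ (Res R H M →₀ MonoidAlgebra R H)), ?_, ?_, ?_⟩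
  · intro k hk m
    have h1 : mdr R H.subtype (single (⟨k, hk⟩ : H) 1) = single k 1 := mdr_single _ _ _
    have h2 : (show Res R H M from (single k 1 : MonoidAlgebra R S) • m) =
        (single (⟨k, hk⟩ : H) 1 : MonoidAlgebra R H) • (show Res R H M from m) := by
      rw [Res.smul_def, h1]
    show θ (σ (show Res R H M from (single k 1 : MonoidAlgebra R S) • m)) =
      (single k 1 : MonoidAlgebra R S) • θ (σ m)
    rw [h2, map_smul, hθs, h1]
  · intro r m
    have h1 : mdr R H.subtype (single (1 : H) r) = single 1 r := mdr_single _ _ _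
    have h2 : (show Res R H M from (single 1 r : MonoidAlgebra R S) • m) =
        (single (1 : H) r : MonoidAlgebra R H) • (show Res R H M from m) := by
      rw [Res.smul_def, h1]
    show θ (σ (show Res R H M from (single 1 r : MonoidAlgebra R S) • m)) =
      (single 1 r : MonoidAlgebra R S) • θ (σ m)
    rw [h2, map_smul, hθs, h1]
  · intro m
    show pr R S X M (θ (σ m)) = _
    rw [hpr]
    have h1 := LinearMap.congr_fun hσ m
    rw [LinearMap.comp_apply, LinearMap.id_apply] at h1
    rw [h1]
    rfl

end KL

open MonoidAlgebra KL in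
/-- **KL.** -/
theorem kl : KlStatement := by
  classical
  intro R S X M _ _ _ _ _ h
  choose ψ hψg hψr hψe using fun z => sec (R := R) (S := S) (X := X) (M := M) z (h z)
  -- representatives
  let rep : X → X := fun z => Quotient.out (Quotient.mk'' z : MulAction.orbitRel.Quotient S X)
  have hrep : ∀ z, ∃ g : S, g • rep z = z := by
    intro z
    have h1 : (MulAction.orbitRel S X) (rep z) z :=
      Quotient.exact (s := MulAction.orbitRel S X) (Quotient.out_eq _)
    rw [MulAction.orbitRel_apply] at h1
    obtain ⟨g, hg'⟩ := h1
    have hg'' : g • z = rep z := hg'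
    exact ⟨g⁻¹, by rw [← hg'', inv_smul_smul]⟩
  have hrep' : ∀ (s : S) (z : X), rep (s • z) = rep z := by
    intro s z
    have h1 : (Quotient.mk'' (s • z) : MulAction.orbitRel.Quotient S X) = Quotient.mk'' z := by
      apply Quotient.sound'
      rw [MulAction.orbitRel_apply]
      exact ⟨s, rfl⟩
    simp only [rep, h1]
  choose g hgz using hrep
  let φ : X → M →+ ((X × M) →₀ MonoidAlgebra R S) := fun z =>
    (DistribSMul.toAddMonoidHom _ (single (g z) 1 : MonoidAlgebra R S)).comp
      ((ψ (rep z)).comp (DistribSMul.toAddMonoidHom _ (single (g z)⁻¹ 1 : MonoidAlgebra R S)))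
  have hφ : ∀ z m, φ z m = (single (g z) 1 : MonoidAlgebra R S) •
      ψ (rep z) ((single (g z)⁻¹ 1 : MonoidAlgebra R S) • m) := fun _ _ => rfl
  have hφs : ∀ (s : S) (z : X) (m : M), φ (s • z) ((single s 1 : MonoidAlgebra R S) • m) =
      (single s 1 : MonoidAlgebra R S) • φ z m := by
    intro s z m
    rw [hφ, hφ, hrep' s z]
    have hk : ((g (s • z))⁻¹ * s * g z) • rep z = rep z := by
      rw [mul_smul, mul_smul, hgz, inv_smul_eq_iff]
      conv_rhs => rw [← hrep' s z]
      rw [hgz]
    have h1 : (single (g (s • z))⁻¹ 1 : MonoidAlgebra R S) • (single s 1 : MonoidAlgebra R S) • m =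
        (single ((g (s • z))⁻¹ * s * g z) 1 : MonoidAlgebra R S) •
          (single (g z)⁻¹ 1 : MonoidAlgebra R S) • m := by
      rw [← mul_smul, ← mul_smul, single_mul, single_mul]
      congr 2
      group
    rw [h1, hψg _ _ hk, ← mul_smul, ← mul_smul, single_mul, single_mul]
    congr 2
    group
  have hφr : ∀ (r : R) (z : X) (m : M), φ z ((single 1 r : MonoidAlgebra R S) • m) =
      (single 1 r : MonoidAlgebra R S) • φ z m := by
    intro r z m
    rw [hφ, hφ, ← mul_smul, single_comm, mul_smul, hψr, ← mul_smul, single_comm, mul_smul]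
  let τ₀ : Pm X M →+ ((X × M) →₀ MonoidAlgebra R S) := Pm.lift φ
  have hτ₀ : ∀ z m, τ₀ (Pm.single z m) = φ z m := Pm.lift_single φ
  have hτs : ∀ (a : MonoidAlgebra R S) (d : Pm X M), τ₀ (a • d) = a • τ₀ d := by
    intro a d
    induction d using Pm.induction with
    | h0 => rw [smul_zero, map_zero, smul_zero]
    | hadd v w hv hw => rw [smul_add, map_add, hv, hw, map_add, smul_add]
    | hs z m =>
      induction a using MonoidAlgebra.induction_linear with
      | zero => rw [zero_smul, map_zero, zero_smul]
      | add v w hv hw => rw [add_smul, map_add, hv, hw, add_smul]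
      | single s r =>
        rw [Pm.smul_single, hτ₀, hτ₀, single_eq, mul_smul, mul_smul, hφr, hφs]
  let τ : Pm X M →ₗ[MonoidAlgebra R S] ((X × M) →₀ MonoidAlgebra R S) :=
    { toFun := τ₀, map_add' := map_add τ₀, map_smul' := hτs }
  refine Module.Projective.of_split τ (pr R S X M) ?_
  have h3 : ((pr R S X M) ∘ₗ τ).toAddMonoidHom =
      (LinearMap.id : Pm X M →ₗ[MonoidAlgebra R S] Pm X M).toAddMonoidHom := by
    refine Pm.hom_ext fun z m => ?_
    show pr R S X M (τ₀ (Pm.single z m)) = Pm.single z m
    rw [hτ₀, hφ, map_smul, hψe, Pm.smul_single, hgz, ← mul_smul, single_mul, mul_inv_cancel]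
    congr 1
    exact one_smul _ m
  exact LinearMap.ext fun d => DFunLike.congr_fun h3 d

end Pool.Agent.NegK.PL
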