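import Pool.Agent.Lib.MP_28303a_al.PL.PGS
import Pool.Agent.Lib.MP_28303a_al.PL.RGB
import Pool.Agent.Lib.MP_28303a_al.P2.Main

/-! # Torsionfree subgroups of `PGL₂` over rigid fields -/

set_option autoImplicit false
set_option linter.unusedSectionVars false
set_option linter.unusedVariables false

namespace Pool.Agent.NegK.PL

universe u

open Matrix
open scoped MatrixGroups
open Pool.Agent.NegK.TW
open Pool.Agent.NegK.TT
open Pool.Agent.NegK.NT
open H1 (TD)

/-- The matrices over a projective class differ by a scalar. -/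
theorem exists_scalar {L : Type u} [Field L] {A B : GL (Fin 2) L}
    (h : ProjGenLinGroup.mk A = ProjGenLinGroup.mk B) :
    ∃ c : L, ∀ i j, B.1 i j = c * A.1 i j := by
  have h1 : ProjGenLinGroup.mk (A⁻¹ * B) = 1 := by
    rw [map_mul, map_inv, h, inv_mul_cancel]
  obtain ⟨c, -, hc⟩ := P2.scalar_of_mk h1
  refine ⟨c, fun i j => ?_⟩
  have h2 : B = A * (A⁻¹ * B) := by rw [mul_inv_cancel_left]
  have h3 := congrArg (fun X : GL (Fin 2) L => X.1 i j) h2
  have h4 : B.1 i j = (A.1 * (A⁻¹ * B).1) i j := h3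
  rw [h4, Matrix.mul_apply, Fin.sum_univ_two, hc, hc]
  fin_cases j <;> simp <;> ring

/-- PGI: torsionfree subgroups of `PGL₂(K)`, `K` a rigid field. -/
theorem pgi (hPgs : PgsStatement.{u}) (K : Type u) [Field K] (hK : NT.H70.Rig K) (Γ : Type u)
    [Group Γ] (htf : TorsionFree Γ) (χ : Γ →* PGL(Fin 2, K)) (hχ : Function.Injective χ) :
    H19.InL Γ := by
  have hc : CharZero K := hK.char
  have hsub : ∀ H : Subgroup Γ, TorsionFree H := fun H g m hm hg =>
    Subtype.ext (htf g.1 m hm (congrArg Subtype.val hg))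
  refine ((TT.main.{u}).2.2.2.1 Γ).2.2.2.2.1 fun S => ⟨Subgroup.closure (S : Set Γ),
    fun s hs => Subgroup.subset_closure hs, ?_⟩
  have hfg : Group.FG (Subgroup.closure (S : Set Γ)) := (Group.fg_iff_subgroup_fg _).2 ⟨S, rfl⟩
  obtain ⟨D, hD⟩ : ∃ D, Subgroup.closure (S : Set Γ) = D := ⟨_, rfl⟩
  rw [hD] at hfg ⊢
  let χ' : D →* PGL(Fin 2, K) := χ.comp D.subtype
  have hχ' : Function.Injective χ' := hχ.comp Subtype.val_injective
  let L := AlgebraicClosure K
  have hcz : CharZero L := charZero_of_injective_algebraMap (algebraMap K L).injective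
  obtain ⟨Δ, _, π, q, z, hπ, hdet, hq, hz, hz', hker', hfin, hfgΔ⟩ :=
    P2.exists_lift ((ProjGenLinGroup.map (algebraMap K L)).comp χ')
  have hfg' : Group.FG Δ := hfgΔ hfg
  obtain ⟨S1, hS1⟩ := hfg'.out
  obtain ⟨E, hE⟩ := NT5.entries q S1
  obtain ⟨L0, _, _, ι, F, m, v, ψ0, -, -, hFv, hFB, hψ0⟩ :=
    P2.exists_field q E fun g i j => hE g (by rw [hS1]; exact Subgroup.mem_top g) i j
  have hmap : ∀ (g : Δ) i j, ι ((ψ0 g).1 i j) = (q g).1 i j := fun g i j => by
    rw [← hψ0]
    rfl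
  have htr : ∀ g, ι (Matrix.trace (ψ0 g).1) = Matrix.trace (q g).1 := fun g => by
    rw [Matrix.trace_fin_two, Matrix.trace_fin_two, map_add, hmap, hmap]
  have hdt : ∀ g, (ψ0 g).1.det = 1 := fun g => by
    apply ι.injective
    rw [Matrix.det_fin_two, map_sub, map_mul, map_mul, hmap, hmap, hmap, hmap,
      ← Matrix.det_fin_two, map_one]
    exact hdet g
  choose T1 hT1 using fun a => H1.exists_TD_gl L0 (v a)
  choose D1 i1 hi1 he1 ha1 using fun a => P2.exists_desc π hπ hfin ((T1 a).comp ψ0)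
  let Y : Trees D := ⟨m, fun j => (D1 j).V, fun j => (D1 j).act,
    fun j => (D1 j).G, fun j => (D1 j).tree⟩
  refine trees_inL Y fun x => ?_
  refine hPgs K hK _ (fun g m hm hg => Subtype.ext (hsub D g.1 m hm (congrArg Subtype.val hg)))
    (χ'.comp (Y.st x).subtype) (hχ'.comp Subtype.val_injective) fun s A hA => ?_
  obtain ⟨g, hg⟩ := hπ s.1
  have hint : IsIntegral ℤ (q g).1.trace := by
    rw [← htr]
    refine IsIntegral.map ι.toIntAlgHom (hFv _ ?_ fun b => ?_)
    · rw [Matrix.trace_fin_two]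
      exact Subring.add_mem _ (hFB g 0 0) (hFB g 1 1)
    · have h1 : s.1 • x b = x b := Subgroup.mem_iInf.1 s.2 b
      refine hT1 b (ψ0 g) ⟨i1 b (x b), (he1 b g (x b)).symm.trans ?_⟩ ?_
      · rw [hg]
        exact congrArg (i1 b) h1
      · rw [hdt, map_one]
  have h1 : ProjGenLinGroup.mk (GeneralLinearGroup.map (algebraMap K L) A) =
      ProjGenLinGroup.mk (q g) := by
    rw [hq, hg, ← ProjGenLinGroup.map_mk, hA]
    rfl
  obtain ⟨c, hc⟩ := exists_scalar h1
  have hA' : ∀ i j, (GeneralLinearGroup.map (algebraMap K L) A).1 i j =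
      algebraMap K L (A.1 i j) := fun i j => rfl
  have e1 : (q g).1.trace = c * algebraMap K L A.1.trace := by
    rw [Matrix.trace_fin_two, Matrix.trace_fin_two, hc, hc, hA', hA', map_add]
    ring
  have e2 : 1 = c ^ 2 * algebraMap K L A.1.det := by
    rw [← hdet g, Matrix.det_fin_two, Matrix.det_fin_two, hc, hc, hc, hc, hA', hA', hA', hA',
      map_sub, map_mul, map_mul]
    ring
  have hA0 : A.1.det ≠ 0 := ((Matrix.isUnit_iff_isUnit_det _).1 A.isUnit).ne_zero
  have e3 : algebraMap K L (A.1.trace ^ 2 / A.1.det) = (q g).1.trace ^ 2 := by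
    have h2 : algebraMap K L A.1.det ≠ 0 := by
      rw [Ne, map_eq_zero]
      exact hA0
    rw [map_div₀, map_pow, e1, div_eq_iff h2]
    linear_combination (algebraMap K L A.1.trace) ^ 2 * e2
  have h2 : IsIntegral ℤ (A.1.trace ^ 2 / A.1.det) := by
    refine (isIntegral_algebraMap_iff (algebraMap K L).injective).1 ?_
    rw [e3]
    exact hint.pow 2
  obtain ⟨y, hy⟩ := hK.int _ h2
  refine ⟨y, ?_⟩
  rw [← hy, div_mul_cancel₀ _ hA0]

end Pool.Agent.NegK.PL
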