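import Pool.Agent.Lib.MP_28303a_al.NT.H80.Pgl
import Pool.Agent.Lib.MP_28303a_al.NT5.Tree3

/-! # Groups of matrices of determinant one: commutators with trace two -/

set_option autoImplicit false
set_option linter.unusedSectionVars false
set_option linter.unusedVariables false

namespace Pool.Agent.NegK.PL.PGS

universe u v

open Matrix
open Pool.Agent.NegK.NT

section

variable {K : Type v} [Field K]

/-- The inverse of a matrix of determinant one. -/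
theorem inv_val (g : GL (Fin 2) K) (hd : g.1.det = 1) :
    (g⁻¹).1 = !![g.1 1 1, -g.1 0 1; -g.1 1 0, g.1 0 0] := by
  have h1 : (g⁻¹).1 = g.1⁻¹ := Matrix.coe_units_inv g
  rw [h1, Matrix.inv_def, hd, Ring.inverse_one, one_smul, Matrix.adjugate_fin_two]

/-- The trace of a commutator. -/
theorem tr_comm (c g : GL (Fin 2) K) (hc : c.1.det = 1) (hg : g.1.det = 1) :
    (c * g * c⁻¹ * g⁻¹).1.trace =
      (c.1 0 0 * g.1 0 0 + c.1 0 1 * g.1 1 0) * (c.1 1 1 * g.1 1 1 + c.1 0 1 * g.1 1 0) -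
      (c.1 0 0 * g.1 0 1 + c.1 0 1 * g.1 1 1) * (c.1 1 0 * g.1 1 1 + c.1 0 0 * g.1 1 0) -
      (c.1 1 0 * g.1 0 0 + c.1 1 1 * g.1 1 0) * (c.1 1 1 * g.1 0 1 + c.1 0 1 * g.1 0 0) +
      (c.1 1 0 * g.1 0 1 + c.1 1 1 * g.1 1 1) * (c.1 1 0 * g.1 0 1 + c.1 0 0 * g.1 0 0) := by
  have h1 : (c * g * c⁻¹ * g⁻¹).1 = (c.1 * g.1) * ((c⁻¹).1 * (g⁻¹).1) := by
    rw [Units.val_mul, Units.val_mul, Units.val_mul, Matrix.mul_assoc]
  rw [h1, inv_val c hc, inv_val g hg, Matrix.trace_fin_two]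
  simp only [Matrix.mul_apply, Fin.sum_univ_two, Matrix.of_apply, Matrix.cons_val', Matrix.cons_val_zero,
    Matrix.cons_val_one, Matrix.cons_val_fin_one, Matrix.empty_val']
  ring

end

/-- Groups of matrices of determinant one such that all commutators have trace two. -/
theorem simple_tri {K : Type u} [Field K] [CharZero K] [IsAlgClosed K] {S : Type v} [Group S]
    (q : S →* GL (Fin 2) K) (hd : ∀ g, (q g).1.det = 1)
    (hc : ∀ x y : S, (q (x * y * x⁻¹ * y⁻¹)).1.trace = 2) :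
    ∃ P : GL (Fin 2) K, ∀ s, (P⁻¹ * q s * P).1 1 0 = 0 := by
  by_cases hall : ∀ g h, q g * q h = q h * q g
  · exact H80.tri_comm q hall
  push Not at hall
  obtain ⟨x, y, hxy⟩ := hall
  obtain ⟨c, hcd⟩ : ∃ c, x * y * x⁻¹ * y⁻¹ = c := ⟨_, rfl⟩
  have hc1 : q c ≠ 1 := by
    intro h1
    apply hxy
    rw [← hcd, map_mul, map_mul, map_mul, map_inv, map_inv, mul_inv_eq_one, mul_inv_eq_iff_eq_mul]
      at h1
    exact h1
  have htc : (q c).1.trace = 2 := by rw [← hcd]; exact hc x y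
  have hdc := hd c
  rw [Matrix.trace_fin_two] at htc
  rw [Matrix.det_fin_two] at hdc
  obtain ⟨n, hn⟩ : ∃ n, (q c).1 0 0 - 1 = n := ⟨_, rfl⟩
  have e00 : (q c).1 0 0 = 1 + n := by rw [← hn]; ring
  have e11 : (q c).1 1 1 = 1 - n := by linear_combination htc - e00
  have hbc : (q c).1 0 1 * (q c).1 1 0 + n ^ 2 = 0 := by
    rw [e00, e11] at hdc
    linear_combination -hdc
  have key : ∀ g, ((1 + n) * (q g).1 0 0 + (q c).1 0 1 * (q g).1 1 0) *
        ((1 - n) * (q g).1 1 1 + (q c).1 0 1 * (q g).1 1 0) -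
      ((1 + n) * (q g).1 0 1 + (q c).1 0 1 * (q g).1 1 1) *
        ((q c).1 1 0 * (q g).1 1 1 + (1 + n) * (q g).1 1 0) -
      ((q c).1 1 0 * (q g).1 0 0 + (1 - n) * (q g).1 1 0) *
        ((1 - n) * (q g).1 0 1 + (q c).1 0 1 * (q g).1 0 0) +
      ((q c).1 1 0 * (q g).1 0 1 + (1 - n) * (q g).1 1 1) *
        ((q c).1 1 0 * (q g).1 0 1 + (1 + n) * (q g).1 0 0) = 2 := by
    intro g
    have h1 := hc c g
    rw [map_mul, map_mul, map_mul, map_inv, map_inv, tr_comm _ _ (hd c) (hd g), e00, e11] at h1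
    exact h1
  have hdg : ∀ g, (q g).1 0 0 * (q g).1 1 1 - (q g).1 0 1 * (q g).1 1 0 = 1 := fun g => by
    have h1 := hd g
    rwa [Matrix.det_fin_two] at h1
  by_cases hb : (q c).1 0 1 = 0
  · -- the second column
    have hn0 : n = 0 := by
      rw [hb, zero_mul, zero_add] at hbc
      exact eq_zero_of_pow_eq_zero hbc
    have hc0 : (q c).1 1 0 ≠ 0 := by
      intro h0
      apply hc1
      refine Units.ext (Matrix.ext fun i j => ?_)
      rw [Units.val_one, Matrix.one_apply]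
      fin_cases i <;> fin_cases j
      · show (q c).1 0 0 = 1
        rw [e00, hn0, add_zero]
      · exact hb
      · exact h0
      · show (q c).1 1 1 = 1
        rw [e11, hn0, sub_zero]
    refine H80.exists_P q 0 1 (Or.inr one_ne_zero) fun g => ?_
    have h1 := key g
    rw [hb, hn0] at h1
    have h2 : ((q c).1 1 0 * (q g).1 0 1) ^ 2 = 0 := by
      linear_combination h1 - 2 * hdg g
    have h3 : (q g).1 0 1 = 0 := by
      rcases mul_eq_zero.1 (eq_zero_of_pow_eq_zero h2) with h4 | h4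
      · exact absurd h4 hc0
      · exact h4
    rw [h3]
    ring
  · refine H80.exists_P q ((q c).1 0 1) (-n) (Or.inl hb) fun g => ?_
    have h1 := key g
    refine eq_zero_of_pow_eq_zero (n := 2) ?_
    linear_combination (q c).1 0 1 ^ 2 * h1 - 2 * (q c).1 0 1 ^ 2 * hdg g +
      (((q g).1 0 0 ^ 2 + (q g).1 1 1 ^ 2) * (q c).1 0 1 ^ 2 +
        2 * (q g).1 0 1 * ((q g).1 1 1 - (q g).1 0 0) * n * (q c).1 0 1 -
        (q g).1 0 1 ^ 2 * ((q c).1 0 1 * (q c).1 1 0 - n ^ 2)) * hbc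

/-- Matrices which commute with a matrix which is not scalar. -/
theorem comm_of_comm {m x y : GL (Fin 2) ℤ} (hx : x * m = m * x) (hy : y * m = m * y)
    (hm : ¬ (m.1 0 1 = 0 ∧ m.1 1 0 = 0 ∧ m.1 0 0 = m.1 1 1)) : x * y = y * x := by
  have hx' : x.1 * m.1 = m.1 * x.1 := congrArg Units.val hx
  have hy' : y.1 * m.1 = m.1 * y.1 := congrArg Units.val hy
  have x00 := congrFun (congrFun hx' 0) 0
  have x01 := congrFun (congrFun hx' 0) 1
  have x10 := congrFun (congrFun hx' 1) 0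
  have y00 := congrFun (congrFun hy' 0) 0
  have y01 := congrFun (congrFun hy' 0) 1
  have y10 := congrFun (congrFun hy' 1) 0
  simp only [Matrix.mul_apply, Fin.sum_univ_two] at x00 x01 x10 y00 y01 y10
  refine Units.ext ?_
  rw [Units.val_mul, Units.val_mul]
  obtain ⟨x0, hx0⟩ : ∃ t, x.1 0 0 = t := ⟨_, rfl⟩
  obtain ⟨x1, hx1⟩ : ∃ t, x.1 0 1 = t := ⟨_, rfl⟩
  obtain ⟨x2, hx2⟩ : ∃ t, x.1 1 0 = t := ⟨_, rfl⟩
  obtain ⟨x3, hx3⟩ : ∃ t, x.1 1 1 = t := ⟨_, rfl⟩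
  obtain ⟨y0, hy0⟩ : ∃ t, y.1 0 0 = t := ⟨_, rfl⟩
  obtain ⟨y1, hy1⟩ : ∃ t, y.1 0 1 = t := ⟨_, rfl⟩
  obtain ⟨y2, hy2⟩ : ∃ t, y.1 1 0 = t := ⟨_, rfl⟩
  obtain ⟨y3, hy3⟩ : ∃ t, y.1 1 1 = t := ⟨_, rfl⟩
  obtain ⟨a, ha⟩ : ∃ t, m.1 0 0 = t := ⟨_, rfl⟩
  obtain ⟨b, hb⟩ : ∃ t, m.1 0 1 = t := ⟨_, rfl⟩
  obtain ⟨c, hc⟩ : ∃ t, m.1 1 0 = t := ⟨_, rfl⟩
  obtain ⟨d, hd⟩ : ∃ t, m.1 1 1 = t := ⟨_, rfl⟩
  rw [hx0, hx1, hx2, ha, hb, hc] at x00
  rw [hx0, hx1, hx3, ha, hb, hd] at x01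
  rw [hx0, hx2, hx3, ha, hc, hd] at x10
  rw [hy0, hy1, hy2, ha, hb, hc] at y00
  rw [hy0, hy1, hy3, ha, hb, hd] at y01
  rw [hy0, hy2, hy3, ha, hc, hd] at y10
  rw [ha, hb, hc, hd] at hm
  have k1 : x1 * y2 = y1 * x2 ∧ x1 * (y3 - y0) = y1 * (x3 - x0) ∧
      x2 * (y0 - y3) = y2 * (x0 - x3) := by
    by_cases hb0 : b = 0
    · by_cases hc0 : c = 0
      · have had : a - d ≠ 0 := fun h => hm ⟨hb0, hc0, sub_eq_zero.1 h⟩
        rw [hb0] at x01 y01
        rw [hc0] at x10 y10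
        have q1 : x1 = 0 := by
          refine (mul_eq_zero.1 (?_ : x1 * (a - d) = 0)).resolve_right had
          linear_combination -x01
        have q2 : y1 = 0 := by
          refine (mul_eq_zero.1 (?_ : y1 * (a - d) = 0)).resolve_right had
          linear_combination -y01
        have q3 : x2 = 0 := by
          refine (mul_eq_zero.1 (?_ : x2 * (a - d) = 0)).resolve_right had
          linear_combination x10
        have q4 : y2 = 0 := by
          refine (mul_eq_zero.1 (?_ : y2 * (a - d) = 0)).resolve_right had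
          linear_combination y10
        rw [q1, q2, q3, q4]
        simp
      · rw [hb0] at x00 y00
        have q1 : x1 = 0 := by
          refine (mul_eq_zero.1 (?_ : x1 * c = 0)).resolve_right hc0
          linear_combination x00
        have q2 : y1 = 0 := by
          refine (mul_eq_zero.1 (?_ : y1 * c = 0)).resolve_right hc0
          linear_combination y00
        rw [q1, q2]
        refine ⟨by ring, by ring, mul_left_cancel₀ hc0 ?_⟩
        linear_combination y2 * x10 - x2 * y10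
    · refine ⟨mul_left_cancel₀ hb0 ?_, mul_left_cancel₀ hb0 ?_,
        mul_left_cancel₀ (mul_ne_zero hb0 hb0) ?_⟩
      · linear_combination y1 * x00 - x1 * y00
      · linear_combination y1 * x01 - x1 * y01
      · linear_combination (-(b * (y0 - y3))) * x00 + (b * (x0 - x3)) * y00 + (-(c * y1)) * x01 +
          (c * x1) * y01
  obtain ⟨k1, k2, k3⟩ := k1
  ext i j
  rw [Matrix.mul_apply, Matrix.mul_apply, Fin.sum_univ_two, Fin.sum_univ_two]
  fin_cases i <;> fin_cases j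
  · show x.1 0 0 * y.1 0 0 + x.1 0 1 * y.1 1 0 = y.1 0 0 * x.1 0 0 + y.1 0 1 * x.1 1 0
    rw [hx0, hx1, hx2, hy0, hy1, hy2]
    linear_combination k1
  · show x.1 0 0 * y.1 0 1 + x.1 0 1 * y.1 1 1 = y.1 0 0 * x.1 0 1 + y.1 0 1 * x.1 1 1
    rw [hx0, hx1, hx3, hy0, hy1, hy3]
    linear_combination k2
  · show x.1 1 0 * y.1 0 0 + x.1 1 1 * y.1 1 0 = y.1 1 0 * x.1 0 0 + y.1 1 1 * x.1 1 0
    rw [hx0, hx2, hx3, hy0, hy2, hy3]
    linear_combination k3
  · show x.1 1 0 * y.1 0 1 + x.1 1 1 * y.1 1 1 = y.1 1 0 * x.1 0 1 + y.1 1 1 * x.1 1 1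
    rw [hx1, hx2, hx3, hy1, hy2, hy3]
    linear_combination -k1

/-- Scalar matrices act trivially on the forms. -/
theorem smul_scalar {m : GL (Fin 2) ℤ} (hm : m.1 0 1 = 0 ∧ m.1 1 0 = 0 ∧ m.1 0 0 = m.1 1 1)
    (q : NT5.Fm) : m • q = q := by
  obtain ⟨h1, h2, h3⟩ := hm
  have hd := NT5.Fm.det_cases m
  rw [h1, h2, ← h3] at hd
  have h4 : (m.1 0 0) ^ 2 = 1 := by
    have h5 : (m.1 0 0 ^ 2 - 1) * (m.1 0 0 ^ 2 + 1) = 0 := by linear_combination hd
    rcases mul_eq_zero.1 h5 with h6 | h6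
    · linear_combination h6
    · nlinarith [sq_nonneg (m.1 0 0)]
  refine NT5.Fm.ext ?_ ?_ ?_
  · show q.a * m.1 0 0 ^ 2 + q.b * (m.1 0 0 * m.1 0 1) + q.c * m.1 0 1 ^ 2 = q.a
    rw [h1, h4]
    ring
  · show 2 * q.a * (m.1 0 0 * m.1 1 0) + q.b * (m.1 0 0 * m.1 1 1 + m.1 0 1 * m.1 1 0) +
      2 * q.c * (m.1 0 1 * m.1 1 1) = q.b
    rw [h1, h2, ← h3]
    linear_combination q.b * h4
  · show q.a * m.1 1 0 ^ 2 + q.b * (m.1 1 0 * m.1 1 1) + q.c * m.1 1 1 ^ 2 = q.c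
    rw [h2, ← h3, h4]
    ring

end Pool.Agent.NegK.PL.PGS
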