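import Pool.Agent.Lib.MP_28303a_al.PL.TRN

/-! # Triangular groups with a homomorphism to a commutative group are virtually poly-Z -/

set_option autoImplicit false
set_option linter.unusedSectionVars false
set_option linter.unusedVariables false

namespace Pool.Agent.NegK.PL

universe u v w

open TRN in
/-- TRN with a homomorphism `q` to a commutative group, `q` and `ρ` jointly injective. -/
theorem trn_comm {L : Type v} {S : Type u} {Q : Type w} [Field L] [CharZero L] [Group S]
    [CommGroup Q] (hS : Group.FG S) {ι : Type} [Fintype ι] [DecidableEq ι] (b : ι → ℕ)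
    (hb : Function.Injective b) (q : S →* Q) (ρ : S →* GL ι L)
    (hinj : ∀ s, q s = 1 → ρ s = 1 → s = 1)
    (htr : ∀ s, ((ρ s : GL ι L) : Matrix ι ι L).BlockTriangular b)
    (hi : ∀ s i, IsIntegral ℤ (((ρ s : GL ι L) : Matrix ι ι L) i i)) :
    ∃ H : Subgroup S, H.Normal ∧ H.FiniteIndex ∧ ∃ n, PZ n H := by
  obtain ⟨Λ, hΛ, hmem⟩ := bound hb hS ρ htr hi
  have hΛf : Module.Finite ℤ Λ := Module.Finite.iff_fg.2 hΛ
  obtain ⟨B, hB⟩ : ∃ B : ℕ, ∀ i, b i ≤ B :=
    ⟨Finset.univ.sup b, fun i => Finset.le_sup (Finset.mem_univ i)⟩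
  let d : S →* (ι → L)ˣ := MonoidHom.toHomUnits
    { toFun := fun s i => ((ρ s : GL ι L) : Matrix ι ι L) i i
      map_one' := by
        funext i
        rw [map_one, Units.val_one, Matrix.one_apply_eq]
        rfl
      map_mul' := fun s t => by
        funext i
        rw [map_mul, Units.val_mul, diag_mul hb (htr s) (htr t)]
        rfl }
  let p : S →* Q × (ι → L)ˣ := q.prod d
  have hFG : Group.FG p.range := by
    have := hS
    exact Group.fg_range p
  have hp : ∀ s : p.rangeRestrict.ker, p s.1 = 1 := fun s => congrArg Subtype.val s.2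
  have hq : ∀ s : p.rangeRestrict.ker, q s.1 = 1 := fun s => congrArg Prod.fst (hp s)
  have hd : ∀ s : p.rangeRestrict.ker, ∀ i, ((ρ s.1 : GL ι L) : Matrix ι ι L) i i = 1 := by
    intro s i
    have h1 : d s.1 = 1 := congrArg Prod.snd (hp s)
    exact congrFun (congrArg Units.val h1) i
  have hρ : Function.Injective (ρ.comp p.rangeRestrict.ker.subtype) := by
    rw [injective_iff_map_eq_one]
    intro s hs
    exact Subtype.ext (hinj s.1 (hq s) hs)
  obtain ⟨m, hm⟩ := uni hb B hB Λ (B + 1) 1 (by omega) le_rfl p.rangeRestrict.ker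
    (ρ.comp p.rangeRestrict.ker.subtype) hρ
    (fun s => htr s.1) hd (fun s i j => hmem s.1 i j) (fun s i j h1 h2 => by omega)
  exact PZ.finite m p.range p.rangeRestrict hm

end Pool.Agent.NegK.PL
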